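import Mathlib

/-!
# Project MU (MP_a3214d): definitions

Upper bounds for Malle's counting function `N(k, G; B)` for primitive groups `G`.
-/

set_option autoImplicit false

open Polynomial IsDedekindDomain NumberField UniqueFactorizationMonoid

namespace Pool.Agent.H67.MU

/-- The index of a permutation: the number of moved points minus the number of nontrivial
cycles, i.e. `n` minus the number of all cycles. -/
def permInd {n : ℕ} (g : Equiv.Perm (Fin n)) : ℕ := g.support.card - Multiset.card g.cycleType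

/-- The index of a permutation group: the least index of an element different from `1`. -/
noncomputable def groupInd {n : ℕ} (G : Subgroup (Equiv.Perm (Fin n))) : ℕ :=
  sInf {j | ∃ g ∈ G, g ≠ 1 ∧ permInd g = j}

/-- Malle's counting function `N(k, G; B)`, in exactly the form of the frozen statement. -/
noncomputable def malleCount (k : Type) [Field k] [NumberField k] (n : ℕ)
    (G : Subgroup (Equiv.Perm (Fin n))) (B : ℝ) : ℕ :=
  Nat.card (Quot (fun L L' : {M : IntermediateField k (AlgebraicClosure k) //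
      Module.finrank k M = n ∧
      (∃ e : (M →ₐ[k] AlgebraicClosure k) ≃ Fin n, ∀ π : Equiv.Perm (Fin n),
        π ∈ G ↔ ∃ σ : AlgebraicClosure k ≃ₐ[k] AlgebraicClosure k,
          ∀ φ : M →ₐ[k] AlgebraicClosure k, e (σ.toAlgHom.comp φ) = π (e φ)) ∧
      ∃ h : NumberField M,
        ((|@NumberField.discr M _ h| : ℤ) : ℝ) ≤ B * ((|NumberField.discr k| : ℤ) : ℝ) ^ n}
    => Nonempty (L.1 ≃ₐ[k] L'.1)))

/-- The Galois group of the Galois closure of `M`, acting on the embeddings of `M`, is `G`. -/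
def HasGroup {k : Type} [Field k] {n : ℕ} (G : Subgroup (Equiv.Perm (Fin n)))
    (M : IntermediateField k (AlgebraicClosure k)) : Prop :=
  ∃ e : (M →ₐ[k] AlgebraicClosure k) ≃ Fin n, ∀ π : Equiv.Perm (Fin n),
    π ∈ G ↔ ∃ σ : AlgebraicClosure k ≃ₐ[k] AlgebraicClosure k,
      ∀ φ : M →ₐ[k] AlgebraicClosure k, e (σ.toAlgHom.comp φ) = π (e φ)

section Rel

variable (k K : Type) [Field k] [NumberField k] [Field K] [NumberField K] [Algebra k K]

/-- The relative discriminant ideal of `K` over `k`. -/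
noncomputable def relDisc : Ideal (𝓞 k) := Ideal.relNorm (𝓞 k) (differentIdeal (𝓞 k) (𝓞 K))

open scoped Classical in
/-- The sum of the residue degrees of the primes of `K` above `p`. -/
noncomputable def resDeg (p : Ideal (𝓞 k)) : ℕ :=
  ∑ P ∈ IsDedekindDomain.primesOverFinset p (𝓞 K), P.inertiaDeg (𝓞 k)

end Rel

open scoped Classical in
/-- The exponent of the prime ideal `p` in `I`. -/
noncomputable def vexp {R : Type*} [CommRing R] [IsDedekindDomain R] (p I : Ideal R) : ℕ :=
  Multiset.count p (normalizedFactors I)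

/-- The size of the conjugates of `a` is at most `T`. -/
def Bdd {k : Type} [Field k] [NumberField k] (T : ℝ) (a : 𝓞 k) : Prop :=
  ∀ φ : k →+* ℂ, ‖φ (a : k)‖ ≤ T

/-- The monic polynomial `X^n + a_0 X^(n-1) + ... + a_(n-1)`. -/
noncomputable def monicOf {R : Type*} [CommRing R] {n : ℕ} (a : Fin n → R) : R[X] :=
  X ^ n + ∑ j : Fin n, C (a j) * X ^ (n - 1 - (j : ℕ))

/-- `f` has at most `s` distinct roots. -/
def FewRoots {Ω : Type*} [CommRing Ω] (f : Polynomial Ω) (s : ℕ) : Prop :=
  ∃ S : Finset Ω, S.card ≤ s ∧ ∀ x : Ω, f.eval x = 0 → x ∈ S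

/-- The number of distinct roots of `f` modulo `p`, in any field, is at most `s`. -/
def RootsModLe {R : Type} [CommRing R] (p : Ideal R) (f : R[X]) (s : ℕ) : Prop :=
  ∀ (Ω : Type) [Field Ω] (ψ : R →+* Ω), RingHom.ker ψ = p → FewRoots (f.map ψ) s

/-- In every algebraically closed field in which `N ≠ 0`, for every `t ≤ n`, there are at most `C`
monic polynomials of degree `n` with at most `t` distinct roots and given first `t` coefficients. -/
def TailBound (n N C : ℕ) : Prop :=
  ∀ (Ω : Type) [Field Ω] [IsAlgClosed Ω], (N : Ω) ≠ 0 → ∀ t : ℕ, t ≤ n → ∀ q : Fin n → Ω,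
    Set.Finite {w : Fin n → Ω | (∀ j : Fin n, (j : ℕ) < t → w j = q j) ∧
      FewRoots (monicOf w) t} ∧
    Set.ncard {w : Fin n → Ω | (∀ j : Fin n, (j : ℕ) < t → w j = q j) ∧
      FewRoots (monicOf w) t} ≤ C

/-- The coefficient vectors allowed for the relative discriminant `Δ`. -/
def adm (k : Type) [Field k] [NumberField k] (n N : ℕ) (c : ℝ) (Δ : Ideal (𝓞 k)) :
    Set (Fin n → 𝓞 k) :=
  {a | (∀ j : Fin n, (j : ℕ) = 0 → a j = 0) ∧
    (∀ j : Fin n, Bdd (c * ((Ideal.absNorm Δ : ℝ) ^
      (1 / (2 * Module.finrank ℚ k * (n - 1) : ℝ))) ^ ((j : ℕ) + 1)) (a j)) ∧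
    ∀ p : Ideal (𝓞 k), p.IsPrime → p ≠ ⊥ → (N : 𝓞 k) ∉ p →
      RootsModLe p (monicOf a) (n - vexp p Δ)}

end Pool.Agent.H67.MU
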