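import Pool.Agent.H67.MU.Defs

/-!
# Project MU, row MU-1: the relative discriminant
-/

set_option autoImplicit false

open Polynomial IsDedekindDomain NumberField UniqueFactorizationMonoid

namespace Pool.Agent.H67.MU

theorem mu1_vexp_mul {R : Type*} [CommRing R] [IsDedekindDomain R] (p I J : Ideal R)
    (hI : I ≠ ⊥) (hJ : J ≠ ⊥) : vexp p (I * J) = vexp p I + vexp p J := by
  classical
  unfold vexp
  rw [normalizedFactors_mul hI hJ, Multiset.count_add]

theorem mu1_vexp_one {R : Type*} [CommRing R] [IsDedekindDomain R] (p : Ideal R) :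
    vexp p (1 : Ideal R) = 0 := by
  classical
  unfold vexp
  rw [normalizedFactors_one, Multiset.count_zero]

theorem mu1_vexp_pow {R : Type*} [CommRing R] [IsDedekindDomain R] (p q : Ideal R) [q.IsPrime]
    (hq : q ≠ ⊥) (f : ℕ) : vexp p (q ^ f) = if p = q then f else 0 := by
  classical
  unfold vexp
  have hirr : Irreducible q := (Ideal.prime_of_isPrime hq inferInstance).irreducible
  rw [normalizedFactors_pow, normalizedFactors_irreducible hirr, normalize_eq,
    Multiset.count_nsmul, Multiset.count_singleton]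
  split_ifs <;> simp

section

variable (k K : Type) [Field k] [NumberField k] [Field K] [NumberField K] [Algebra k K]

theorem mu1_different_ne_bot : differentIdeal (𝓞 k) (𝓞 K) ≠ ⊥ := by
  exact differentIdeal_ne_bot

theorem relDisc_ne_bot : relDisc k K ≠ ⊥ := by
  intro h
  exact mu1_different_ne_bot k K (Ideal.relNorm_eq_bot_iff.mp h)

theorem natAbs_discr : (discr K).natAbs =
    Ideal.absNorm (relDisc k K) * (discr k).natAbs ^ Module.finrank k K := by
  rw [relDisc, Ideal.absNorm_relNorm]
  exact natAbs_discr_eq_absNorm_differentIdeal_mul_natAbs_discr_pow k (𝓞 k) K (𝓞 K)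

theorem mu1_vexp_relNorm_prod (p : Ideal (𝓞 k)) [p.IsPrime] (hp : p ≠ ⊥)
    (s : Multiset (Ideal (𝓞 K))) :
    (∀ Q ∈ s, Q.IsPrime ∧ Q ≠ ⊥) →
    s.prod ≠ ⊥ ∧ vexp p (Ideal.relNorm (𝓞 k) s.prod) =
      ∑ P ∈ IsDedekindDomain.primesOverFinset p (𝓞 K),
        P.inertiaDeg (𝓞 k) * Multiset.count P s := by
  classical
  induction s using Multiset.induction_on with
  | empty =>
    intro _
    have : p.IsMaximal := Ring.DimensionLEOne.maximalOfPrime hp inferInstance
    refine ⟨by simp [Ideal.one_eq_top], ?_⟩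
    simp only [Multiset.prod_zero, map_one, mu1_vexp_one, Multiset.count_zero, mul_zero,
      Finset.sum_const_zero]
  | cons Q s ih =>
    intro h
    have : p.IsMaximal := Ring.DimensionLEOne.maximalOfPrime hp inferInstance
    obtain ⟨h1, h2⟩ := ih (fun P hP => h P (Multiset.mem_cons_of_mem hP))
    obtain ⟨hQ, hQ0⟩ := h Q (Multiset.mem_cons_self Q s)
    have hQm : Q.IsMaximal := Ring.DimensionLEOne.maximalOfPrime hQ0 hQ
    have hu : Q.under (𝓞 k) ≠ ⊥ := Ideal.under_ne_bot (𝓞 k) hQ0
    have hum : (Q.under (𝓞 k)).IsMaximal := Ring.DimensionLEOne.maximalOfPrime hu inferInstance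
    refine ⟨?_, ?_⟩
    · rw [Multiset.prod_cons]
      exact mul_ne_zero hQ0 h1
    · rw [Multiset.prod_cons, map_mul, mu1_vexp_mul, h2,
        Ideal.relNorm_eq_pow_of_isMaximal Q (Q.under (𝓞 k)), mu1_vexp_pow p _ hu]
      · have e1 : ∀ P : Ideal (𝓞 K), P.inertiaDeg (𝓞 k) * Multiset.count P (Q ::ₘ s) =
            (if P = Q then P.inertiaDeg (𝓞 k) else 0) +
              P.inertiaDeg (𝓞 k) * Multiset.count P s := by
          intro P
          rw [Multiset.count_cons]
          split_ifs <;> ring
        simp_rw [e1]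
        rw [Finset.sum_add_distrib, Finset.sum_ite_eq']
        congr 1
        have e2 : (Q ∈ IsDedekindDomain.primesOverFinset p (𝓞 K)) ↔ p = Q.under (𝓞 k) := by
          rw [IsDedekindDomain.mem_primesOverFinset_iff hp]
          constructor
          · rintro ⟨_, h3⟩
            exact h3.over
          · intro h3
            exact ⟨hQ, ⟨h3⟩⟩
        by_cases h4 : p = Q.under (𝓞 k)
        · rw [if_pos h4, if_pos (e2.mpr h4)]
        · rw [if_neg h4, if_neg (fun h5 => h4 (e2.mp h5))]
      · intro h3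
        exact hQ0 (Ideal.relNorm_eq_bot_iff.mp h3)
      · intro h3
        exact h1 (Ideal.relNorm_eq_bot_iff.mp h3)

/-- the exponent of the relative discriminant in terms of the different -/
theorem vexp_relDisc (p : Ideal (𝓞 k)) [p.IsPrime] (hp : p ≠ ⊥) :
    vexp p (relDisc k K) = ∑ P ∈ IsDedekindDomain.primesOverFinset p (𝓞 K),
      P.inertiaDeg (𝓞 k) * vexp P (differentIdeal (𝓞 k) (𝓞 K)) := by
  classical
  have hD := mu1_different_ne_bot k K
  have h1 := (mu1_vexp_relNorm_prod k K p hp (normalizedFactors (differentIdeal (𝓞 k) (𝓞 K)))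
    (fun Q hQ => by
      have h2 := prime_of_normalized_factor Q hQ
      exact ⟨Ideal.isPrime_of_prime h2, h2.ne_zero⟩)).2
  rw [Ideal.prod_normalizedFactors_eq_self hD] at h1
  rw [relDisc, h1]
  refine Finset.sum_congr rfl fun P _ => ?_
  unfold vexp
  congr!

/-- the fundamental identity with `resDeg` -/
theorem sum_ef (p : Ideal (𝓞 k)) [p.IsPrime] (hp : p ≠ ⊥) :
    ∑ P ∈ IsDedekindDomain.primesOverFinset p (𝓞 K),
      P.ramificationIdx (𝓞 k) * P.inertiaDeg (𝓞 k) = Module.finrank k K := by
  classical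
  have : p.IsMaximal := Ring.DimensionLEOne.maximalOfPrime hp inferInstance
  have h := Ideal.sum_ramification_inertia_eq_finrank p (𝓞 K)
  have h2 : Module.finrank (𝓞 k) (𝓞 K) = Module.finrank k K :=
    (IsFractionRing.finrank_eq (𝓞 k) k (𝓞 K) K).symm
  rw [← h2, ← h]
  refine Finset.sum_subtype _ (fun P => ?_) _
  exact IsDedekindDomain.mem_primesOverFinset_iff hp _

end

end Pool.Agent.H67.MU
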