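import Pool.Agent.H67.MU.Defs

/-!
# Project MU, row MU-2: an upper bound for the exponents of the different

If none of the integers `1, …, n` (`n = [K : k]`) is divisible by `p ^ A`, then the exponent of a
prime `P` above `p` in the different of `K/k` is less than `e(P/p) * A`.  The proof: the trace of
an idempotent endomorphism of a finite free module over the local ring `𝓞 k ⧸ p ^ A` is the
image of an integer between `1` and the rank, unless the endomorphism is zero.
-/

set_option autoImplicit false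

open Polynomial IsDedekindDomain NumberField UniqueFactorizationMonoid

namespace Pool.Agent.H67.MU

/-- The trace of a nonzero idempotent endomorphism over a local ring. -/
theorem mu2_trace_idem {R M : Type*} [CommRing R] [IsLocalRing R] [AddCommGroup M] [Module R M]
    [Module.Free R M] [Module.Finite R M] (f : M →ₗ[R] M) (hf : f ∘ₗ f = f) (hf0 : f ≠ 0) :
    ∃ j : ℕ, 1 ≤ j ∧ j ≤ Module.finrank R M ∧ LinearMap.trace R M f = (j : R) := by
  have hff : ∀ x, f (f x) = f x := fun x => LinearMap.congr_fun hf x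
  have hproj : LinearMap.IsProj (LinearMap.range f) f := by
    refine ⟨fun x => LinearMap.mem_range_self f x, ?_⟩
    rintro _ ⟨y, rfl⟩
    exact hff y
  -- the range
  have h1 : Module.Projective R (LinearMap.range f) := by
    refine Module.Projective.of_split (LinearMap.range f).subtype f.rangeRestrict ?_
    ext ⟨x, y, rfl⟩
    exact hff y
  have h2 : Module.Finite R (LinearMap.range f) := Module.Finite.range f
  have h3 : Module.Free R (LinearMap.range f) := Module.free_of_flat_of_isLocalRing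
  -- the kernel
  let g : M →ₗ[R] LinearMap.ker f := LinearMap.codRestrict (LinearMap.ker f) (LinearMap.id - f)
    (fun x => by simp [hff])
  have hg : g ∘ₗ (LinearMap.ker f).subtype = LinearMap.id := by
    ext ⟨x, hx⟩
    have hx' : f x = 0 := hx
    simp [g, hx']
  have h4 : Module.Projective R (LinearMap.ker f) :=
    Module.Projective.of_split (LinearMap.ker f).subtype g hg
  have h5 : Module.Finite R (LinearMap.ker f) := by
    refine Module.Finite.of_surjective g ?_
    intro x
    exact ⟨x.1, LinearMap.congr_fun hg x⟩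
  have h6 : Module.Free R (LinearMap.ker f) := Module.free_of_flat_of_isLocalRing
  refine ⟨Module.finrank R (LinearMap.range f), ?_, Submodule.finrank_le _, hproj.trace⟩
  by_contra h7
  have h8 : Module.finrank R (LinearMap.range f) = 0 := by omega
  have h9 : Subsingleton (LinearMap.range f) := (Module.finrank_eq_zero_iff_of_free R _).mp h8
  apply hf0
  rw [← LinearMap.range_eq_bot]
  exact (Submodule.subsingleton_iff_eq_bot).mp h9

open TensorProduct in
/-- Multiplication by an element of `I S` is zero modulo `I`. -/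
theorem mu2_lmul_eq_zero {R S : Type*} [CommRing R] [CommRing S] [Algebra R S] (I : Ideal R)
    (y : S) (hy : y ∈ I.map (algebraMap R S)) :
    (LinearMap.mulLeft R y).baseChange (R ⧸ I) = 0 := by
  have hz : ∀ z : S, ∀ (r : R ⧸ I) (s : S), (LinearMap.mulLeft R z).baseChange (R ⧸ I) (r ⊗ₜ s) =
      r ⊗ₜ (z * s) := fun z r s => by simp
  suffices h : ∀ (r : R ⧸ I) (s : S), r ⊗ₜ[R] (y * s) = 0 by
    apply TensorProduct.AlgebraTensorModule.curry_injective
    ext s
    simpa using h 1 s
  induction hy using Submodule.span_induction with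
  | mem z hz =>
    obtain ⟨a, ha, rfl⟩ := hz
    intro r s
    rw [← Algebra.smul_def, ← TensorProduct.smul_tmul, Algebra.smul_def]
    have : algebraMap R (R ⧸ I) a = 0 := Ideal.Quotient.eq_zero_iff_mem.mpr ha
    rw [this, zero_mul, TensorProduct.zero_tmul]
  | zero => intro r s; simp
  | add z w _ _ h1 h2 => intro r s; rw [add_mul, TensorProduct.tmul_add, h1, h2, add_zero]
  | smul c z _ h1 =>
    intro r s
    have : c • z * s = z * (c * s) := by rw [smul_eq_mul]; ring
    rw [this, h1]

open TensorProduct in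
theorem mu2_mem_of_lmul {R S : Type*} [CommRing R] [CommRing S] [Algebra R S] (I : Ideal R)
    (y : S) (hy : (LinearMap.mulLeft R y).baseChange (R ⧸ I) = 0) :
    y ∈ I.map (algebraMap R S) := by
  have h1 : (1 : R ⧸ I) ⊗ₜ[R] y = 0 := by
    have h2 := LinearMap.congr_fun hy ((1 : R ⧸ I) ⊗ₜ[R] (1 : S))
    simpa using h2
  have h3 : (y : S) ⊗ₜ[R] (1 : R ⧸ I) = 0 := by
    have h4 := congrArg (TensorProduct.comm R (R ⧸ I) S) h1
    simpa using h4
  rw [← Algebra.TensorProduct.quotIdealMapEquivTensorQuot_mk, map_eq_zero_iff _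
    (Algebra.TensorProduct.quotIdealMapEquivTensorQuot S I).injective] at h3
  exact Ideal.Quotient.eq_zero_iff_mem.mp h3

/-- the local case -/
theorem mu2_local {R S : Type*} [CommRing R] [IsLocalRing R] [CommRing S] [Algebra R S]
    [Module.Free R S] [Module.Finite R S] (I : Ideal R) (hI : I ≠ ⊤) (x : S)
    (h1 : x * x - x ∈ I.map (algebraMap R S)) (h2 : x ∉ I.map (algebraMap R S)) :
    ∃ j : ℕ, 1 ≤ j ∧ j ≤ Module.finrank R S ∧ Algebra.trace R S x - (j : R) ∈ I := by
  have : Nontrivial (R ⧸ I) := Ideal.Quotient.nontrivial_iff.mpr hI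
  have : IsLocalRing (R ⧸ I) :=
    IsLocalRing.of_surjective' (Ideal.Quotient.mk I) Ideal.Quotient.mk_surjective
  obtain ⟨j, hj1, hj2, hj3⟩ := mu2_trace_idem ((LinearMap.mulLeft R x).baseChange (R ⧸ I)) (by
    have h3 := mu2_lmul_eq_zero I _ h1
    have h4 : LinearMap.mulLeft R (x * x - x) =
        LinearMap.mulLeft R x ∘ₗ LinearMap.mulLeft R x - LinearMap.mulLeft R x := by
      ext s; simp [sub_mul, mul_assoc]
    rw [h4, LinearMap.baseChange_sub, LinearMap.baseChange_comp] at h3
    exact sub_eq_zero.mp h3) (fun h3 => h2 (mu2_mem_of_lmul I x h3))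
  refine ⟨j, hj1, ?_, ?_⟩
  · rwa [Module.finrank_baseChange] at hj2
  · rw [LinearMap.trace_baseChange] at hj3
    rw [← Ideal.Quotient.eq_zero_iff_mem, map_sub, map_natCast, sub_eq_zero, ← hj3]
    rfl

/-- powers of maximal ideals are primary -/
theorem mu2_primary {A : Type*} [CommRing A] (p : Ideal A) [p.IsMaximal] (m : ℕ) (s y : A)
    (hs : s ∉ p) (h : s * y ∈ p ^ m) : y ∈ p ^ m := by
  have h1 : IsCoprime (Ideal.span {s}) (p ^ m) := by
    apply IsCoprime.pow_right
    rw [Ideal.isCoprime_iff_sup_eq, sup_comm]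
    exact (Ideal.IsMaximal.out (I := p)).2 _ (by
      refine lt_of_le_of_ne le_sup_left fun h2 => hs ?_
      rw [h2]
      exact Ideal.mem_sup_right (Ideal.mem_span_singleton_self s))
  obtain ⟨a, ha, b, hb, hab⟩ := Ideal.isCoprime_iff_exists.mp h1
  obtain ⟨c, rfl⟩ := Ideal.mem_span_singleton.mp ha
  have : y = c * (s * y) + y * b := by
    calc y = (s * c + b) * y := by rw [hab, one_mul]
      _ = _ := by ring
  rw [this]
  exact Ideal.add_mem _ (Ideal.mul_mem_left _ _ h) (Ideal.mul_mem_left _ _ hb)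

theorem mu2_intTrace {A B : Type*} [CommRing A] [IsDedekindDomain A] [CommRing B] [IsDomain B]
    [Algebra A B] [Module.IsTorsionFree A B] [Module.Finite A B] [IsIntegrallyClosed B]
    (p : Ideal A) [p.IsMaximal] (m : ℕ) (hm : 1 ≤ m) (x : B)
    (h1 : x * x - x ∈ (p ^ m).map (algebraMap A B))
    (h2 : ∀ s : A, s ∉ p → algebraMap A B s * x ∉ (p ^ m).map (algebraMap A B)) :
    ∃ j : ℕ, 1 ≤ j ∧ j ≤ Module.finrank A B ∧ Algebra.intTrace A B x - (j : A) ∈ p ^ m := by
  let Rₚ := Localization.AtPrime p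
  let Sₚ := Localization (Algebra.algebraMapSubmonoid B p.primeCompl)
  let : Algebra Rₚ Sₚ := localizationAlgebra p.primeCompl B
  have : IsScalarTower A Rₚ Sₚ := IsScalarTower.of_algebraMap_eq'
    (by rw [RingHom.algebraMap_toAlgebra, IsLocalization.map_comp, ← IsScalarTower.algebraMap_eq])
  have : IsLocalization (Submonoid.map (algebraMap A B) (Ideal.primeCompl p)) Sₚ :=
    inferInstanceAs (IsLocalization (Algebra.algebraMapSubmonoid B p.primeCompl) Sₚ)
  have e : Algebra.algebraMapSubmonoid B p.primeCompl ≤ nonZeroDivisors B :=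
    Submonoid.map_le_of_le_comap _ <| p.primeCompl_le_nonZeroDivisors.trans
      (nonZeroDivisors_le_comap_nonZeroDivisors_of_injective _
        (FaithfulSMul.algebraMap_injective _ _))
  have : IsDomain Sₚ := IsLocalization.isDomain_of_le_nonZeroDivisors _ e
  have : Module.IsTorsionFree Rₚ Sₚ := by
    rw [Module.isTorsionFree_iff_algebraMap_injective, RingHom.injective_iff_ker_eq_bot,
      RingHom.ker_eq_bot_iff_eq_zero]
    simp
  have : Module.Finite Rₚ Sₚ := .of_isLocalization A B p.primeCompl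
  have : IsIntegrallyClosed Sₚ := isIntegrallyClosed_of_isLocalization _ _ e
  have : IsPrincipalIdealRing Rₚ := by
    by_cases hp : p = ⊥
    · subst hp
      infer_instance
    · have := (IsDedekindDomain.isDedekindDomainDvr A).2 p hp inferInstance
      infer_instance
  have : Module.Free Rₚ Sₚ := Module.free_of_finite_type_torsion_free'
  have hmap : ((p ^ m).map (algebraMap A Rₚ)).map (algebraMap Rₚ Sₚ) =
      ((p ^ m).map (algebraMap A B)).map (algebraMap B Sₚ) := by
    rw [Ideal.map_map, Ideal.map_map, ← IsScalarTower.algebraMap_eq,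
      ← IsScalarTower.algebraMap_eq]
  have hmem : ∀ y : A, algebraMap A Rₚ y ∈ (p ^ m).map (algebraMap A Rₚ) → y ∈ p ^ m := by
    intro y hy
    rw [IsLocalization.algebraMap_mem_map_algebraMap_iff p.primeCompl] at hy
    obtain ⟨s, hs, hy⟩ := hy
    exact mu2_primary p m s y hs hy
  obtain ⟨j, hj1, hj2, hj3⟩ := mu2_local (R := Rₚ) (S := Sₚ) ((p ^ m).map (algebraMap A Rₚ))
    (by
      intro h3
      have h4 := hmem 1 (by rw [h3]; trivial)
      have h5 : (1 : A) ∈ p := Ideal.pow_le_self (by omega) h4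
      exact (Ideal.IsPrime.ne_top (I := p) inferInstance) ((Ideal.eq_top_iff_one p).mpr h5))
    (algebraMap B Sₚ x) (by
      rw [hmap, ← map_mul, ← map_sub]
      exact Ideal.mem_map_of_mem _ h1) (by
      rw [hmap, IsLocalization.algebraMap_mem_map_algebraMap_iff
        (Algebra.algebraMapSubmonoid B p.primeCompl)]
      rintro ⟨_, ⟨s, hs, rfl⟩, h3⟩
      exact h2 s hs h3)
  refine ⟨j, hj1, ?_, ?_⟩
  · have e1 : Module.finrank Rₚ Sₚ = Module.finrank A Sₚ :=
      IsLocalization.finrank_eq Rₚ p.primeCompl p.primeCompl_le_nonZeroDivisors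
    have e2 : IsLocalizedModule p.primeCompl (IsScalarTower.toAlgHom A B Sₚ).toLinearMap :=
      isLocalizedModule_iff_isLocalization.mpr inferInstance
    have e3 : Module.finrank A Sₚ = Module.finrank A B :=
      IsLocalizedModule.finrank_eq p.primeCompl (IsScalarTower.toAlgHom A B Sₚ).toLinearMap
        p.primeCompl_le_nonZeroDivisors
    rwa [e1, e3] at hj2
  · apply hmem
    rw [map_sub, map_natCast,
      Algebra.intTrace_eq_of_isLocalization A B p.primeCompl (Aₘ := Rₚ) (Bₘ := Sₚ) x,
      Algebra.intTrace_eq_trace]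
    exact hj3

section

variable (k K : Type) [Field k] [NumberField k] [Field K] [NumberField K] [Algebra k K]

theorem not_dvd_different (p : Ideal (𝓞 k)) [p.IsPrime] (hp : p ≠ ⊥) (A : ℕ) (hA : 1 ≤ A)
    (hj : ∀ j : ℕ, 1 ≤ j → j ≤ Module.finrank k K → (j : 𝓞 k) ∉ p ^ A)
    (P : Ideal (𝓞 K)) [P.IsPrime] [P.LiesOver p] :
    ¬ P ^ (P.ramificationIdx (𝓞 k) * A) ∣ differentIdeal (𝓞 k) (𝓞 K) := by
  have : p.IsMaximal := Ring.DimensionLEOne.maximalOfPrime hp inferInstance
  have hP0 : P ≠ ⊥ := Ideal.ne_bot_of_liesOver_of_ne_bot hp P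
  have : P.IsMaximal := Ring.DimensionLEOne.maximalOfPrime hP0 inferInstance
  have hpB : p.map (algebraMap (𝓞 k) (𝓞 K)) ≠ ⊥ := Ideal.map_ne_bot_of_ne_bot hp
  obtain ⟨Q, hQ1, hQ2⟩ := Ideal.eq_prime_pow_mul_coprime hpB P
  have he : P.ramificationIdx (𝓞 k) =
      Multiset.count P (normalizedFactors (p.map (algebraMap (𝓞 k) (𝓞 K)))) := by
    rw [← Ideal.ramificationIdx'_eq_ramificationIdx p P hp,
      Ideal.IsDedekindDomain.ramificationIdx'_eq_normalizedFactors_count hpB inferInstance hP0]
  rw [← he] at hQ2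
  have hmul : P ^ (P.ramificationIdx (𝓞 k) * A) * Q ^ A = (p ^ A).map (algebraMap (𝓞 k) (𝓞 K)) := by
    rw [Ideal.map_pow, hQ2, mul_pow, pow_mul]
  have hcop : IsCoprime (Q ^ A) (P ^ (P.ramificationIdx (𝓞 k) * A)) :=
    (Ideal.isCoprime_iff_sup_eq.mpr (by rw [sup_comm]; exact hQ1)).pow
  obtain ⟨x, hx, y, hy, hxy⟩ := Ideal.isCoprime_iff_exists.mp hcop
  have hxy' : x - 1 = - y := by rw [← hxy]; ring
  obtain ⟨j, hj1, hj2, hj3⟩ := mu2_intTrace (A := 𝓞 k) (B := 𝓞 K) p A hA x (by
    have h3 : x * x - x = - (y * x) := by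
      calc x * x - x = (x - 1) * x := by ring
        _ = _ := by rw [hxy']; ring
    rw [h3, ← hmul]
    exact neg_mem (Ideal.mul_mem_mul hy hx)) (by
    intro s hs h3
    have h4 : (p ^ A).map (algebraMap (𝓞 k) (𝓞 K)) ≤ P := by
      rw [Ideal.map_le_iff_le_comap]
      refine (Ideal.pow_le_self (by omega)).trans ?_
      rw [‹P.LiesOver p›.over]
    have he0 : P.ramificationIdx (𝓞 k) ≠ 0 := by
      intro h5
      rw [h5, pow_zero, one_mul] at hQ2
      have h6 : Q ≤ P := by
        rw [← hQ2, Ideal.map_le_iff_le_comap]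
        rw [‹P.LiesOver p›.over]
      rw [sup_of_le_left h6] at hQ1
      exact (Ideal.IsPrime.ne_top (I := P) inferInstance) hQ1
    have hyP : y ∈ P := Ideal.pow_le_self (Nat.mul_ne_zero he0 (by omega)) hy
    have h5 : x ∉ P := fun h6 => by
      have h7 : (1 : 𝓞 K) ∈ P := by rw [← hxy]; exact add_mem h6 hyP
      exact (Ideal.IsPrime.ne_top (I := P) inferInstance) ((Ideal.eq_top_iff_one P).mpr h7)
    rcases (Ideal.IsPrime.mem_or_mem (I := P) inferInstance (h4 h3)) with h6 | h6
    · apply hs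
      rw [‹P.LiesOver p›.over]
      exact h6
    · exact h5 h6)
  refine not_dvd_differentIdeal_of_intTrace_not_mem (𝓞 k) _ (Q ^ A) hmul x hx ?_
  intro h3
  refine hj j hj1 ?_ ?_
  · rwa [← IsFractionRing.finrank_eq (𝓞 k) k (𝓞 K) K] at hj2
  · have : (j : 𝓞 k) = Algebra.intTrace (𝓞 k) (𝓞 K) x -
        (Algebra.intTrace (𝓞 k) (𝓞 K) x - (j : 𝓞 k)) := by ring
    rw [this]
    exact sub_mem h3 hj3

end

end Pool.Agent.H67.MU
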