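import Pool.Agent.H67.MU.Disc
import Pool.Agent.H67.MU.TrDiff

/-!
# Project MU (MP_a3214d), row MU-3: the exponents of the relative discriminant
-/

set_option autoImplicit false

open Polynomial IsDedekindDomain NumberField UniqueFactorizationMonoid

namespace Pool.Agent.H67.MU

theorem mu3_pow_dvd_iff {R : Type*} [CommRing R] [IsDedekindDomain R] {P I : Ideal R}
    (hP : P.IsPrime) (hP0 : P ≠ ⊥) (hI : I ≠ ⊥) (n : ℕ) : P ^ n ∣ I ↔ n ≤ vexp P I := by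
  classical
  rw [pow_dvd_iff_le_emultiplicity,
    emultiplicity_eq_count_normalizedFactors (Ideal.prime_of_isPrime hP0 hP).irreducible hI,
    normalize_eq, vexp]
  norm_cast

section

variable (k K : Type) [Field k] [NumberField k] [Field K] [NumberField K] [Algebra k K]

theorem mu3_mem {p : Ideal (𝓞 k)} (hp : p ≠ ⊥) {P : Ideal (𝓞 K)} [p.IsPrime]
    (hP : P ∈ IsDedekindDomain.primesOverFinset p (𝓞 K)) :
    P.IsPrime ∧ P.LiesOver p ∧ P ≠ ⊥ := by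
  have : p.IsMaximal := Ideal.IsPrime.isMaximal inferInstance hp
  have h := (IsDedekindDomain.mem_primesOverFinset_iff hp (𝓞 K)).mp hP
  have : P.IsPrime := h.1
  have : P.LiesOver p := h.2
  exact ⟨h.1, h.2, Ideal.ne_bot_of_liesOver_of_ne_bot hp P⟩

theorem resDeg_pos (p : Ideal (𝓞 k)) [p.IsPrime] (hp : p ≠ ⊥) : 0 < resDeg k K p := by
  classical
  have : p.IsMaximal := Ideal.IsPrime.isMaximal inferInstance hp
  obtain ⟨P, hP⟩ := (inferInstance : Nonempty (p.primesOver (𝓞 K)))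
  have hP' := (IsDedekindDomain.mem_primesOverFinset_iff hp (𝓞 K)).mpr hP
  have := (mu3_mem k K hp hP').1
  unfold resDeg
  exact Finset.sum_pos' (fun _ _ => Nat.zero_le _) ⟨P, hP', Ideal.inertiaDeg_pos P (𝓞 k)⟩

/-- lower bound (all primes) -/
theorem le_vexp_add (p : Ideal (𝓞 k)) [p.IsPrime] (hp : p ≠ ⊥) :
    Module.finrank k K ≤ vexp p (relDisc k K) + resDeg k K p := by
  classical
  have : p.IsMaximal := Ideal.IsPrime.isMaximal inferInstance hp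
  rw [vexp_relDisc k K p hp, ← sum_ef k K p hp]
  unfold resDeg
  rw [← Finset.sum_add_distrib]
  refine Finset.sum_le_sum fun P hP => ?_
  obtain ⟨h1, h2, h3⟩ := mu3_mem k K hp hP
  have hD : differentIdeal (𝓞 k) (𝓞 K) ≠ ⊥ := differentIdeal_ne_bot
  have hmap : p.map (algebraMap (𝓞 k) (𝓞 K)) ≠ ⊥ := Ideal.map_ne_bot_of_ne_bot hp
  have h4 : P ^ P.ramificationIdx (𝓞 k) ∣ p.map (algebraMap (𝓞 k) (𝓞 K)) := by
    rw [mu3_pow_dvd_iff h1 h3 hmap,
      Ideal.IsDedekindDomain.ramificationIdx_eq_normalizedFactors_count p P hmap, vexp]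
  have h5 := pow_sub_one_dvd_differentIdeal (𝓞 k) P _ hp h4
  rw [mu3_pow_dvd_iff h1 h3 hD] at h5
  have h6 : P.ramificationIdx (𝓞 k) ≤ vexp P (differentIdeal (𝓞 k) (𝓞 K)) + 1 := by omega
  calc P.ramificationIdx (𝓞 k) * P.inertiaDeg (𝓞 k)
      ≤ (vexp P (differentIdeal (𝓞 k) (𝓞 K)) + 1) * P.inertiaDeg (𝓞 k) :=
        Nat.mul_le_mul_right _ h6
    _ = _ := by ring

/-- tame primes -/
theorem vexp_add_le (p : Ideal (𝓞 k)) [p.IsPrime] (hp : p ≠ ⊥)
    (hj : ∀ j : ℕ, 1 ≤ j → j ≤ Module.finrank k K → (j : 𝓞 k) ∉ p) :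
    vexp p (relDisc k K) + resDeg k K p ≤ Module.finrank k K := by
  classical
  rw [vexp_relDisc k K p hp, ← sum_ef k K p hp]
  unfold resDeg
  rw [← Finset.sum_add_distrib]
  refine Finset.sum_le_sum fun P hP => ?_
  obtain ⟨h1, h2, h3⟩ := mu3_mem k K hp hP
  have hD : differentIdeal (𝓞 k) (𝓞 K) ≠ ⊥ := differentIdeal_ne_bot
  have h5 := not_dvd_different k K p hp 1 le_rfl (by simpa using hj) P
  rw [mu3_pow_dvd_iff h1 h3 hD, mul_one] at h5
  have h6 : vexp P (differentIdeal (𝓞 k) (𝓞 K)) + 1 ≤ P.ramificationIdx (𝓞 k) := by omega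
  calc _ = (vexp P (differentIdeal (𝓞 k) (𝓞 K)) + 1) * P.inertiaDeg (𝓞 k) := by ring
    _ ≤ P.ramificationIdx (𝓞 k) * P.inertiaDeg (𝓞 k) := Nat.mul_le_mul_right _ h6

/-- all primes -/
theorem vexp_le (p : Ideal (𝓞 k)) [p.IsPrime] (hp : p ≠ ⊥) (A : ℕ) (hA : 1 ≤ A)
    (hj : ∀ j : ℕ, 1 ≤ j → j ≤ Module.finrank k K → (j : 𝓞 k) ∉ p ^ A) :
    vexp p (relDisc k K) ≤ Module.finrank k K * A := by
  classical
  rw [vexp_relDisc k K p hp, ← sum_ef k K p hp, Finset.sum_mul]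
  refine Finset.sum_le_sum fun P hP => ?_
  obtain ⟨h1, h2, h3⟩ := mu3_mem k K hp hP
  have hD : differentIdeal (𝓞 k) (𝓞 K) ≠ ⊥ := differentIdeal_ne_bot
  have h5 := not_dvd_different k K p hp A hA hj P
  rw [mu3_pow_dvd_iff h1 h3 hD] at h5
  have h6 : vexp P (differentIdeal (𝓞 k) (𝓞 K)) ≤ P.ramificationIdx (𝓞 k) * A := by omega
  calc _ ≤ P.inertiaDeg (𝓞 k) * (P.ramificationIdx (𝓞 k) * A) := Nat.mul_le_mul_left _ h6
    _ = P.ramificationIdx (𝓞 k) * P.inertiaDeg (𝓞 k) * A := by ring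

variable {k} in
theorem mu3_not_mem (p : Ideal (𝓞 k)) [p.IsPrime] (hp : p ≠ ⊥) (n j : ℕ) (h1 : 1 ≤ j)
    (h2 : j ≤ n) : (j : 𝓞 k) ∉ p ^ (n ^ Module.finrank ℚ k + 1) := by
  intro hmem
  have hdvd : p ^ (n ^ Module.finrank ℚ k + 1) ∣ Ideal.span {(j : 𝓞 k)} := by
    rw [Ideal.dvd_iff_le, Ideal.span_singleton_le_iff_mem]; exact hmem
  have hN := Ideal.absNorm_dvd_absNorm_of_le (Ideal.dvd_iff_le.mp hdvd)
  have hj : Ideal.absNorm (Ideal.span {(j : 𝓞 k)}) = j ^ Module.finrank ℚ k := by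
    rw [Ideal.absNorm_span_singleton]
    have : ((j : ℕ) : 𝓞 k) = algebraMap ℤ (𝓞 k) (j : ℤ) := by simp
    rw [this, Algebra.norm_algebraMap, RingOfIntegers.rank]
    simp [Int.natAbs_pow]
  rw [hj, map_pow] at hN
  have hpos : 0 < j ^ Module.finrank ℚ k := by positivity
  have hle := Nat.le_of_dvd hpos hN
  have h2p : 2 ≤ Ideal.absNorm p := by
    have h0 : Ideal.absNorm p ≠ 0 := by rwa [Ne, Ideal.absNorm_eq_zero_iff]
    have h1' : Ideal.absNorm p ≠ 1 := by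
      rw [Ne, Ideal.absNorm_eq_one_iff]; exact Ideal.IsPrime.ne_top inferInstance
    omega
  have h3 : 2 ^ (n ^ Module.finrank ℚ k + 1) ≤ n ^ Module.finrank ℚ k :=
    (Nat.pow_le_pow_left h2p _).trans (hle.trans (Nat.pow_le_pow_left h2 _))
  have h4 := Nat.lt_two_pow_self (n := n ^ Module.finrank ℚ k + 1)
  omega

/-- a bound for the exponents at the primes dividing `N`, independent of `K` -/
theorem exists_wild_bound (n N : ℕ) (hN : 0 < N) : ∃ E : ℕ, ∀ (K : Type) [Field K]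
    [NumberField K] [Algebra k K], Module.finrank k K = n → ∀ p : Ideal (𝓞 k), p.IsPrime →
      p ≠ ⊥ → (N : 𝓞 k) ∈ p → vexp p (relDisc k K) ≤ E := by
  refine ⟨n * (n ^ Module.finrank ℚ k + 1), fun K _ _ _ hK p hp hp0 _ => ?_⟩
  have := hp
  have := vexp_le k K p hp0 (n ^ Module.finrank ℚ k + 1) (by omega)
    (fun j h1 h2 => mu3_not_mem p hp0 n j h1 (hK ▸ h2))
  rwa [hK] at this

end

end Pool.Agent.H67.MU
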