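import Pool.Agent.H67.MU.Defs

/-!
# MU-8: algebraic integers with bounded conjugates in an ideal
-/

set_option autoImplicit false

open Polynomial IsDedekindDomain NumberField

namespace Pool.Agent.H67.MU

section Bdd8

variable (k : Type) [Field k] [NumberField k]

/-- The coordinates in the integral basis are bounded by the conjugates. -/
theorem mu8_coord : ∃ C1 : ℝ, 1 ≤ C1 ∧ ∀ T : ℝ, 0 ≤ T → ∀ a : 𝓞 k, Bdd T a →
    ∀ i, |(((RingOfIntegers.basis k).repr a i : ℤ) : ℝ)| ≤ C1 * T := by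
  classical
  set b := integralBasis k with hb
  set d := LinearMap.BilinForm.dualBasis (Algebra.traceForm ℚ k) (traceForm_nondegenerate ℚ k) b
    with hd
  refine ⟨1 + ∑ i, ∑ σ : k →ₐ[ℚ] ℂ, ‖σ (d i)‖, ?_, ?_⟩
  · have : (0 : ℝ) ≤ ∑ i, ∑ σ : k →ₐ[ℚ] ℂ, ‖σ (d i)‖ :=
      Finset.sum_nonneg fun i _ => Finset.sum_nonneg fun σ _ => norm_nonneg _
    linarith
  intro T hT a ha i
  have h1 : b.repr (algebraMap (𝓞 k) k a) i = (((RingOfIntegers.basis k).repr a i : ℤ) : ℚ) := by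
    rw [hb, integralBasis_repr_apply]
    rfl
  have h2 : Algebra.traceForm ℚ k (d i) (a : k) = b.repr (a : k) i := by
    conv_lhs => rw [← b.sum_repr (a : k)]
    rw [map_sum]
    rw [Finset.sum_eq_single i]
    · rw [map_smul, hd, LinearMap.BilinForm.apply_dualBasis_left, if_pos rfl, smul_eq_mul, mul_one]
    · intro j _ hj
      rw [map_smul, hd, LinearMap.BilinForm.apply_dualBasis_left, if_neg hj, smul_zero]
    · intro h
      exact absurd (Finset.mem_univ i) h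
  have h3 : ((((RingOfIntegers.basis k).repr a i : ℤ) : ℚ) : ℂ) =
      ∑ σ : k →ₐ[ℚ] ℂ, σ (d i) * σ (a : k) := by
    rw [← h1]
    have h4 := trace_eq_sum_embeddings (K := ℚ) (L := k) ℂ (x := d i * (a : k))
    have h5 : Algebra.trace ℚ k (d i * (a : k)) = b.repr (algebraMap (𝓞 k) k a) i := by
      rw [← Algebra.traceForm_apply]
      exact h2
    rw [h5] at h4
    rw [← eq_ratCast (algebraMap ℚ ℂ), h4]
    exact Finset.sum_congr rfl fun σ _ => map_mul σ _ _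
  have h6 : |(((RingOfIntegers.basis k).repr a i : ℤ) : ℝ)| =
      ‖((((RingOfIntegers.basis k).repr a i : ℤ) : ℚ) : ℂ)‖ := by
    rw [Rat.cast_intCast, Complex.norm_intCast]
  rw [h6, h3]
  calc ‖∑ σ : k →ₐ[ℚ] ℂ, σ (d i) * σ (a : k)‖ ≤ ∑ σ : k →ₐ[ℚ] ℂ, ‖σ (d i) * σ (a : k)‖ :=
        norm_sum_le _ _
    _ ≤ ∑ σ : k →ₐ[ℚ] ℂ, ‖σ (d i)‖ * T := by
        refine Finset.sum_le_sum fun σ _ => ?_
        rw [norm_mul]
        exact mul_le_mul_of_nonneg_left (ha (σ : k →+* ℂ)) (norm_nonneg _)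
    _ = (∑ σ : k →ₐ[ℚ] ℂ, ‖σ (d i)‖) * T := (Finset.sum_mul _ _ _).symm
    _ ≤ (1 + ∑ i, ∑ σ : k →ₐ[ℚ] ℂ, ‖σ (d i)‖) * T := by
        refine mul_le_mul_of_nonneg_right ?_ hT
        have := Finset.single_le_sum (f := fun i => ∑ σ : k →ₐ[ℚ] ℂ, ‖σ (d i)‖)
          (fun i _ => Finset.sum_nonneg fun σ _ => norm_nonneg _) (Finset.mem_univ i)
        linarith

variable {k} in
/-- A nonzero element of an ideal has a large conjugate. -/
theorem mu8_norm (I : Ideal (𝓞 k)) (a : 𝓞 k) (ha : a ∈ I) (ha0 : a ≠ 0) (U : ℝ) (hU : Bdd U a) :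
    (Ideal.absNorm I : ℝ) ≤ U ^ Module.finrank ℚ k := by
  have h0 : Ideal.absNorm I ≤ Ideal.absNorm (Ideal.span {a}) := by
    refine Nat.le_of_dvd ?_ (Ideal.absNorm_dvd_absNorm_of_le ?_)
    · refine Nat.pos_of_ne_zero fun h => ha0 ?_
      rw [Ideal.absNorm_eq_zero_iff, Ideal.span_singleton_eq_bot] at h
      exact h
    · rw [Ideal.span_singleton_le_iff_mem]
      exact ha
  have h1 : ((Algebra.norm ℤ a).natAbs : ℝ) = ‖(((Algebra.norm ℤ a : ℤ) : ℚ) : ℂ)‖ := by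
    rw [Nat.cast_natAbs]
    simp
  have h2 : (((Algebra.norm ℤ a : ℤ) : ℚ) : ℂ) = ∏ φ : k →+* ℂ, φ (a : k) := by
    have h3 : ((Algebra.norm ℤ a : ℤ) : ℚ) = Algebra.norm ℚ (a : k) := by
      exact Algebra.coe_norm_int a
    rw [h3]
    have h4 := Algebra.norm_eq_prod_embeddings ℚ ℂ (a : k)
    have h5 : ((Algebra.norm ℚ (a : k) : ℚ) : ℂ) = algebraMap ℚ ℂ (Algebra.norm ℚ (a : k)) := rfl
    rw [h5, h4]
    exact Fintype.prod_equiv (RingHom.equivRatAlgHom (R := k) (S := ℂ)).symm _ _ (fun φ => rfl)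
  calc (Ideal.absNorm I : ℝ) ≤ (Ideal.absNorm (Ideal.span {a}) : ℝ) := by exact_mod_cast h0
    _ = ‖∏ φ : k →+* ℂ, φ (a : k)‖ := by rw [Ideal.absNorm_span_singleton, h1, h2]
    _ = ∏ φ : k →+* ℂ, ‖φ (a : k)‖ := norm_prod _ _
    _ ≤ ∏ _φ : k →+* ℂ, U :=
        Finset.prod_le_prod (fun φ _ => norm_nonneg _) (fun φ _ => hU φ)
    _ = U ^ Module.finrank ℚ k := by
        rw [Finset.prod_const, Finset.card_univ, NumberField.Embeddings.card]

/-- The conjugates are bounded by the coordinates. -/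
theorem mu8_conj : ∃ B0 : ℝ, 1 ≤ B0 ∧ ∀ a b : 𝓞 k, ∀ δ : ℝ,
    (∀ i, |(((RingOfIntegers.basis k).repr a i : ℤ) : ℝ) -
      (((RingOfIntegers.basis k).repr b i : ℤ) : ℝ)| ≤ δ) → Bdd (B0 * δ) (a - b) := by
  classical
  refine ⟨1 + ∑ φ : k →+* ℂ, ∑ i, ‖φ ((RingOfIntegers.basis k i : 𝓞 k) : k)‖, ?_, ?_⟩
  · have : (0 : ℝ) ≤ ∑ φ : k →+* ℂ, ∑ i, ‖φ ((RingOfIntegers.basis k i : 𝓞 k) : k)‖ :=
      Finset.sum_nonneg fun i _ => Finset.sum_nonneg fun σ _ => norm_nonneg _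
    linarith
  intro a b δ hδ φ
  have hδ0 : 0 ≤ δ := by
    obtain ⟨i⟩ : Nonempty (Module.Free.ChooseBasisIndex ℤ (𝓞 k)) := inferInstance
    exact (abs_nonneg _).trans (hδ i)
  have h1 : φ ((a - b : 𝓞 k) : k) = ∑ i, ((((RingOfIntegers.basis k).repr a i : ℤ) : ℂ) -
      (((RingOfIntegers.basis k).repr b i : ℤ) : ℂ)) *
        φ ((RingOfIntegers.basis k i : 𝓞 k) : k) := by
    have h2 : a - b = ∑ i, ((RingOfIntegers.basis k).repr (a - b) i : 𝓞 k) *
        RingOfIntegers.basis k i := by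
      conv_lhs => rw [← (RingOfIntegers.basis k).sum_repr (a - b)]
      exact Finset.sum_congr rfl fun i _ => zsmul_eq_mul _ _
    conv_lhs => rw [h2]
    simp only [map_sum, map_mul, map_intCast, map_sub, Finsupp.sub_apply, Int.cast_sub]
  rw [h1]
  calc ‖∑ i, ((((RingOfIntegers.basis k).repr a i : ℤ) : ℂ) -
      (((RingOfIntegers.basis k).repr b i : ℤ) : ℂ)) *
        φ ((RingOfIntegers.basis k i : 𝓞 k) : k)‖
      ≤ ∑ i, ‖((((RingOfIntegers.basis k).repr a i : ℤ) : ℂ) -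
      (((RingOfIntegers.basis k).repr b i : ℤ) : ℂ)) *
        φ ((RingOfIntegers.basis k i : 𝓞 k) : k)‖ := norm_sum_le _ _
    _ ≤ ∑ i, δ * ‖φ ((RingOfIntegers.basis k i : 𝓞 k) : k)‖ := by
        refine Finset.sum_le_sum fun i _ => ?_
        rw [norm_mul]
        refine mul_le_mul_of_nonneg_right ?_ (norm_nonneg _)
        have h3 := hδ i
        have h4 : ((((RingOfIntegers.basis k).repr a i : ℤ) : ℂ) -
            (((RingOfIntegers.basis k).repr b i : ℤ) : ℂ)) =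
            (((((RingOfIntegers.basis k).repr a i : ℤ) : ℝ) -
            (((RingOfIntegers.basis k).repr b i : ℤ) : ℝ) : ℝ) : ℂ) := by push_cast; rfl
        rw [h4, Complex.norm_real]
        exact h3
    _ = (∑ i, ‖φ ((RingOfIntegers.basis k i : 𝓞 k) : k)‖) * δ := by
        rw [← Finset.mul_sum, mul_comm]
    _ ≤ _ := by
        refine mul_le_mul_of_nonneg_right ?_ hδ0
        have := Finset.single_le_sum
          (f := fun φ : k →+* ℂ => ∑ i, ‖φ ((RingOfIntegers.basis k i : 𝓞 k) : k)‖)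
          (fun i _ => Finset.sum_nonneg fun σ _ => norm_nonneg _) (Finset.mem_univ φ)
        linarith

end Bdd8

/-- ### MU-8 Bdd.lean : integers with bounded conjugates in an ideal -/
theorem bdd_mem_count (k : Type) [Field k] [NumberField k] : ∃ C : ℝ, 1 ≤ C ∧ ∀ T : ℝ, 0 ≤ T →
    ∀ I : Ideal (𝓞 k), I ≠ ⊥ → Set.Finite {a : 𝓞 k | Bdd T a ∧ a ∈ I} ∧
      (Set.ncard {a : 𝓞 k | Bdd T a ∧ a ∈ I} : ℝ) ≤
        C * (T ^ Module.finrank ℚ k / Ideal.absNorm I + 1) := by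
  classical
  obtain ⟨C1, hC1, hcoord⟩ := mu8_coord k
  obtain ⟨B0, hB0, hconj⟩ := mu8_conj k
  set m := Module.finrank ℚ k with hm
  have hm0 : 0 < m := Module.finrank_pos
  refine ⟨2 ^ (m - 1) * ((4 * C1 * B0) ^ m + 3 ^ m), ?_, ?_⟩
  · have h1 : (1 : ℝ) ≤ 2 ^ (m - 1) := one_le_pow₀ (by norm_num)
    have h2 : (1 : ℝ) ≤ 3 ^ m := one_le_pow₀ (by norm_num)
    have h3 : (0 : ℝ) ≤ (4 * C1 * B0) ^ m := by positivity
    nlinarith
  intro T hT I hI
  have hN0 : Ideal.absNorm I ≠ 0 := fun h => hI (Ideal.absNorm_eq_zero_iff.mp h)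
  have hN1 : (0 : ℝ) < Ideal.absNorm I := by exact_mod_cast Nat.pos_of_ne_zero hN0
  set ν : ℝ := (Ideal.absNorm I : ℝ) ^ (1 / (m : ℝ)) with hν
  have hν0 : 0 < ν := Real.rpow_pos_of_pos hN1 _
  have hνm : ν ^ m = Ideal.absNorm I := by
    rw [hν, one_div]
    exact Real.rpow_inv_natCast_pow hN1.le hm0.ne'
  set δ : ℝ := ν / (2 * B0) with hδ
  have hδ0 : 0 < δ := by positivity
  set K : ℕ := ⌊C1 * T / δ⌋₊ + 1 with hK
  set S : Set (𝓞 k) := {a : 𝓞 k | Bdd T a ∧ a ∈ I} with hS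
  set Z : Finset (Module.Free.ChooseBasisIndex ℤ (𝓞 k) → ℤ) :=
    Fintype.piFinset fun _ => Finset.Icc (-(K : ℤ)) K with hZ
  set F : 𝓞 k → (Module.Free.ChooseBasisIndex ℤ (𝓞 k) → ℤ) :=
    fun a i => ⌊(((RingOfIntegers.basis k).repr a i : ℤ) : ℝ) / δ⌋ with hF
  have hmaps : Set.MapsTo F S (Z : Set (Module.Free.ChooseBasisIndex ℤ (𝓞 k) → ℤ)) := by
    intro a ha
    rw [Finset.mem_coe, hZ, Fintype.mem_piFinset]
    intro i
    have h1 := hcoord T hT a ha.1 i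
    rw [abs_le] at h1
    have h2 : C1 * T / δ < K := by
      rw [hK]
      push_cast
      exact Nat.lt_floor_add_one _
    rw [Finset.mem_Icc]
    constructor
    · rw [hF]
      refine Int.le_floor.2 ?_
      rw [le_div_iff₀ hδ0]
      push_cast
      rw [div_lt_iff₀ hδ0] at h2
      nlinarith [h1.1]
    · have h3 : (⌊(((RingOfIntegers.basis k).repr a i : ℤ) : ℝ) / δ⌋ : ℝ) ≤
          (((RingOfIntegers.basis k).repr a i : ℤ) : ℝ) / δ := Int.floor_le _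
      have h4 : (((RingOfIntegers.basis k).repr a i : ℤ) : ℝ) / δ ≤ C1 * T / δ :=
        div_le_div_of_nonneg_right h1.2 hδ0.le
      have h5 : (⌊(((RingOfIntegers.basis k).repr a i : ℤ) : ℝ) / δ⌋ : ℝ) ≤ ((K : ℤ) : ℝ) := by
        push_cast
        linarith
      exact_mod_cast h5
  have hinj : Set.InjOn F S := by
    intro a ha b hb hab
    by_contra hne
    have h1 : Bdd (B0 * δ) (a - b) := by
      refine hconj a b δ fun i => ?_
      have h2 : ⌊(((RingOfIntegers.basis k).repr a i : ℤ) : ℝ) / δ⌋ =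
          ⌊(((RingOfIntegers.basis k).repr b i : ℤ) : ℝ) / δ⌋ := congrFun hab i
      have h3 := Int.abs_sub_lt_one_of_floor_eq_floor h2
      rw [← sub_div, abs_div, abs_of_pos hδ0, div_lt_one hδ0] at h3
      exact h3.le
    have h4 := mu8_norm I (a - b) (I.sub_mem ha.2 hb.2) (sub_ne_zero.2 hne) _ h1
    have h5 : B0 * δ = ν / 2 := by
      rw [hδ]
      field_simp
    rw [h5, ← hm, div_pow, hνm] at h4
    have h6 : (1 : ℝ) < 2 ^ m := one_lt_pow₀ (by norm_num) hm0.ne'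
    rw [le_div_iff₀ (by positivity)] at h4
    nlinarith
  refine ⟨Set.Finite.of_injOn hmaps hinj Z.finite_toSet, ?_⟩
  have hcard : Set.ncard S ≤ (2 * K + 1) ^ m := by
    refine (Set.ncard_le_ncard_of_injOn F hmaps hinj Z.finite_toSet).trans ?_
    rw [Set.ncard_coe_finset, hZ, Fintype.card_piFinset, Finset.prod_const, Finset.card_univ,
      ← Module.finrank_eq_card_chooseBasisIndex, RingOfIntegers.rank, ← hm, Int.card_Icc]
    refine le_of_eq ?_
    congr 1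
    omega
  have h7 : ((2 * K + 1 : ℕ) : ℝ) ≤ 4 * C1 * B0 * T / ν + 3 := by
    have h8 : ((⌊C1 * T / δ⌋₊ : ℕ) : ℝ) ≤ C1 * T / δ := Nat.floor_le (by positivity)
    have h9 : C1 * T / δ = 2 * C1 * B0 * T / ν := by
      rw [hδ]
      field_simp
    have h8' : ((⌊C1 * T / δ⌋₊ : ℕ) : ℝ) ≤ 2 * C1 * B0 * T / ν := h8.trans_eq h9
    have h10 : 4 * C1 * B0 * T / ν = 2 * (2 * C1 * B0 * T / ν) := by ring
    rw [hK]
    push_cast
    rw [h10]
    linarith
  calc (Set.ncard S : ℝ) ≤ (((2 * K + 1) ^ m : ℕ) : ℝ) := by exact_mod_cast hcard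
    _ = ((2 * K + 1 : ℕ) : ℝ) ^ m := by push_cast; rfl
    _ ≤ (4 * C1 * B0 * T / ν + 3) ^ m := pow_le_pow_left₀ (by positivity) h7 m
    _ ≤ 2 ^ (m - 1) * ((4 * C1 * B0 * T / ν) ^ m + 3 ^ m) :=
        add_pow_le (by positivity) (by norm_num) m
    _ = 2 ^ (m - 1) * ((4 * C1 * B0) ^ m * (T ^ m / Ideal.absNorm I) + 3 ^ m) := by
        rw [div_pow, hνm, mul_pow (4 * C1 * B0) T m, mul_div_assoc]
    _ ≤ 2 ^ (m - 1) * ((4 * C1 * B0) ^ m + 3 ^ m) * (T ^ m / Ideal.absNorm I + 1) := by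
        have h11 : (0 : ℝ) ≤ T ^ m / Ideal.absNorm I := by positivity
        have h12 : (0 : ℝ) ≤ (4 * C1 * B0) ^ m := by positivity
        have h13 : (0 : ℝ) ≤ 3 ^ m := by positivity
        have h14 : (0 : ℝ) < 2 ^ (m - 1) := by positivity
        generalize (2 : ℝ) ^ (m - 1) = u at h14 ⊢
        generalize (4 * C1 * B0) ^ m = v at h12 ⊢
        generalize T ^ m / (Ideal.absNorm I : ℝ) = w at h11 ⊢
        generalize (3 : ℝ) ^ m = z at h13 ⊢
        have h15 : 0 ≤ u * (v + z * w) := by positivity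
        nlinarith

end Pool.Agent.H67.MU
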