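import Pool.Agent.H67.MU.Defs3
import Pool.Agent.H41.RG.Pack

/-!
# Project MU (MP_a3214d), row IMP-1: packing of separated points and of algebraic integers
-/

set_option autoImplicit false

open Polynomial IsDedekindDomain NumberField

namespace Pool.Agent.H67.MU

open MeasureTheory Metric in
/-- Separated points in a ball of a finite dimensional real normed space. -/
theorem pack_card {E : Type} [NormedAddCommGroup E] [NormedSpace ℝ E] [FiniteDimensional ℝ E]
    (s : Finset E) (T R : ℝ) (hT : 0 ≤ T) (hR : 0 < R) (h1 : ∀ c ∈ s, ‖c‖ ≤ T)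
    (h2 : ∀ c ∈ s, ∀ d ∈ s, c ≠ d → R ≤ ‖c - d‖) :
    (s.card : ℝ) ≤ (1 + 2 * T / R) ^ Module.finrank ℝ E := by
  borelize E
  let μ : Measure E := Measure.addHaar
  have hδ : (0 : ℝ) < R / 2 := by positivity
  have hρ : (0 : ℝ) < T + R / 2 := by positivity
  set A := ⋃ c ∈ s, ball (c : E) (R / 2) with hA
  have D : Set.Pairwise (s : Set E) (Function.onFun Disjoint fun c => ball (c : E) (R / 2)) := by
    rintro c hc d hd hcd
    apply ball_disjoint_ball
    rw [dist_eq_norm]
    have := h2 c hc d hd hcd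
    linarith
  have A_subset : A ⊆ ball (0 : E) (T + R / 2) := by
    refine Set.iUnion₂_subset fun x hx => ?_
    apply ball_subset_ball'
    rw [dist_zero_right]
    have := h1 x hx
    linarith
  have I : (s.card : ENNReal) * ENNReal.ofReal ((R / 2) ^ Module.finrank ℝ E) * μ (ball 0 1) ≤
      ENNReal.ofReal ((T + R / 2) ^ Module.finrank ℝ E) * μ (ball 0 1) :=
    calc
      (s.card : ENNReal) * ENNReal.ofReal ((R / 2) ^ Module.finrank ℝ E) * μ (ball 0 1) = μ A := by
        rw [hA, measure_biUnion_finset D fun c _ => measurableSet_ball]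
        simp only [μ.addHaar_ball_of_pos _ hδ]
        simp only [Finset.sum_const, nsmul_eq_mul, mul_assoc]
      _ ≤ μ (ball (0 : E) (T + R / 2)) := measure_mono A_subset
      _ = ENNReal.ofReal ((T + R / 2) ^ Module.finrank ℝ E) * μ (ball 0 1) := by
        simp only [μ.addHaar_ball_of_pos _ hρ]
  have J : (s.card : ENNReal) * ENNReal.ofReal ((R / 2) ^ Module.finrank ℝ E) ≤
      ENNReal.ofReal ((T + R / 2) ^ Module.finrank ℝ E) :=
    (ENNReal.mul_le_mul_iff_left (measure_ball_pos _ _ zero_lt_one).ne' measure_ball_lt_top.ne).1 I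
  have K := ENNReal.toReal_le_of_le_ofReal (pow_nonneg hρ.le _) J
  rw [ENNReal.toReal_mul, ENNReal.toReal_natCast, ENNReal.toReal_ofReal (pow_nonneg hδ.le _)] at K
  have h3 : (1 + 2 * T / R) = (T + R / 2) / (R / 2) := by
    field_simp
    ring
  rw [h3, div_pow, le_div_iff₀ (pow_pos hδ _)]
  exact K

/-- the vector of the conjugates -/
private def imp1_map (K : Type) [Field K] [NumberField K] : K →ₗ[ℚ] ((K →+* ℂ) → ℂ) where
  toFun x φ := φ x
  map_add' x y := by
    funext φ
    exact map_add φ x y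
  map_smul' c x := by
    funext φ
    simp [Algebra.smul_def]

/-- Separated algebraic integers in a `ℚ`-subspace. -/
theorem pack_int {K : Type} [Field K] [NumberField K] (V : Submodule ℚ K) (s : Finset (𝓞 K))
    (T R : ℝ) (hT : 0 ≤ T) (hR : 0 < R) (h0 : ∀ c ∈ s, (c : K) ∈ V) (h1 : ∀ c ∈ s, Bdd T c)
    (h2 : ∀ c ∈ s, ∀ d ∈ s, c ≠ d → ∃ φ : K →+* ℂ, R ≤ ‖φ ((c - d : 𝓞 K) : K)‖) :
    (s.card : ℝ) ≤ (1 + 2 * T / R) ^ Module.finrank ℚ V := by
  classical
  let b : Module.Basis (Fin (Module.finrank ℚ V)) ℚ V := Module.finBasis ℚ V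
  let w : Fin (Module.finrank ℚ V) → ((K →+* ℂ) → ℂ) := fun i => imp1_map K (b i : K)
  let E : Submodule ℝ ((K →+* ℂ) → ℂ) := Submodule.span ℝ (Set.range w)
  have hE : Module.finrank ℝ E ≤ Module.finrank ℚ V := by
    have := finrank_range_le_card (R := ℝ) w
    rwa [Fintype.card_fin] at this
  have hmem : ∀ x ∈ V, imp1_map K x ∈ E := by
    intro x hx
    have h3 : x = ∑ i, (b.repr ⟨x, hx⟩ i) • (b i : K) := by
      have h := congrArg (Submodule.subtype V) (b.sum_repr ⟨x, hx⟩)
      rw [map_sum] at h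
      exact h.symm
    rw [h3, map_sum]
    refine Submodule.sum_mem _ fun i _ => ?_
    rw [map_smul]
    have h4 : (b.repr ⟨x, hx⟩ i) • imp1_map K (b i : K) =
        ((b.repr ⟨x, hx⟩ i : ℚ) : ℝ) • w i := by
      funext φ
      simp [w, Algebra.smul_def]
    rw [h4]
    exact Submodule.smul_mem _ _ (Submodule.subset_span ⟨i, rfl⟩)
  let g : 𝓞 K → E := fun c => if h : (c : K) ∈ V then ⟨imp1_map K (c : K), hmem _ h⟩ else 0
  have hg : ∀ c ∈ s, ((g c : E) : (K →+* ℂ) → ℂ) = imp1_map K (c : K) := by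
    intro c hc
    simp only [g, dif_pos (h0 c hc)]
  have hsep : ∀ c ∈ s, ∀ d ∈ s, c ≠ d → R ≤ ‖g c - g d‖ := by
    intro c hc d hd hcd
    obtain ⟨φ, hφ⟩ := h2 c hc d hd hcd
    refine hφ.trans ?_
    have h3 : ‖g c - g d‖ = ‖((g c : E) : (K →+* ℂ) → ℂ) - ((g d : E) : (K →+* ℂ) → ℂ)‖ := rfl
    rw [h3, hg c hc, hg d hd]
    refine le_trans (le_of_eq ?_) (norm_le_pi_norm (imp1_map K (c : K) - imp1_map K (d : K)) φ)
    rw [← map_sub]
    rfl
  have hinj : Set.InjOn g (s : Set (𝓞 K)) := by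
    intro c hc d hd hcd
    by_contra hne
    have h3 := hsep c hc d hd hne
    have h4 : ‖g c - g d‖ = 0 := by
      rw [hcd]
      exact (congrArg norm (sub_self (g d))).trans norm_zero
    linarith
  have key := pack_card (s.image g) T R hT hR
    (by
      intro x hx
      obtain ⟨c, hc, rfl⟩ := Finset.mem_image.1 hx
      have h3 : ‖g c‖ = ‖((g c : E) : (K →+* ℂ) → ℂ)‖ := rfl
      rw [h3, hg c hc]
      refine (pi_norm_le_iff_of_nonneg hT).2 fun φ => ?_
      exact h1 c hc φ)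
    (by
      intro x hx y hy hxy
      obtain ⟨c, hc, rfl⟩ := Finset.mem_image.1 hx
      obtain ⟨d, hd, rfl⟩ := Finset.mem_image.1 hy
      exact hsep c hc d hd (fun h => hxy (by rw [h])))
  rw [Finset.card_image_of_injOn hinj] at key
  refine key.trans (pow_le_pow_right₀ ?_ hE)
  have : 0 ≤ 2 * T / R := by positivity
  linarith

/-- The integers with bounded conjugates, uniformly in the field. -/
theorem box_count (F : Type) [Field F] [NumberField F] (T : ℝ) (hT : 0 ≤ T) :
    {x : 𝓞 F | Bdd T x}.Finite ∧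
      ({x : 𝓞 F | Bdd T x}.ncard : ℝ) ≤ (1 + 2 * T) ^ Module.finrank ℚ F := by
  have hfin : {x : 𝓞 F | Bdd T x}.Finite := by
    have h := NumberField.Embeddings.finite_of_norm_le F ℂ T
    have h2 : Set.Finite ((fun a : 𝓞 F => (a : F)) ⁻¹'
        {x : F | IsIntegral ℤ x ∧ ∀ φ : F →+* ℂ, ‖φ x‖ ≤ T}) :=
      h.preimage (fun a _ b _ hab => RingOfIntegers.ext hab)
    refine h2.subset ?_
    intro a ha
    exact ⟨RingOfIntegers.isIntegral_coe a, ha⟩
  refine ⟨hfin, ?_⟩
  have h := pack_int (⊤ : Submodule ℚ F) hfin.toFinset T 1 hT one_pos (fun _ _ => Submodule.mem_top)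
    (fun c hc => by simpa using hc)
    (fun c _ d _ hcd => by
      obtain ⟨φ, hφ⟩ := Pool.Agent.H41.RG.exists_one_le_norm F (c - d) (sub_ne_zero.2 hcd)
      exact ⟨φ, hφ⟩)
  rw [div_one, finrank_top, ← Set.ncard_eq_toFinset_card _ hfin] at h
  exact h

end Pool.Agent.H67.MU
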