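import Pool.Agent.H67.MU.Defs

/-!
# Project MU (MP_a3214d): coefficients of the minimal polynomial
-/

set_option autoImplicit false
set_option linter.unusedSectionVars false

open Polynomial IsDedekindDomain NumberField UniqueFactorizationMonoid

namespace Pool.Agent.H67.MU

section

variable {k K : Type} [Field k] [NumberField k] [Field K] [NumberField K] [Algebra k K]

theorem mu11_isIntegral (α : 𝓞 K) : IsIntegral (𝓞 k) α :=
  Algebra.IsIntegral.isIntegral α

theorem minpoly_map (α : 𝓞 K) :
    (minpoly (𝓞 k) α).map (algebraMap (𝓞 k) k) = minpoly k (α : K) := by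
  exact (minpoly.isIntegrallyClosed_eq_field_fractions k K (mu11_isIntegral (k := k) α)).symm

theorem natDegree_minpoly_int (α : 𝓞 K) :
    (minpoly (𝓞 k) α).natDegree = (minpoly k (α : K)).natDegree := by
  rw [← minpoly_map (k := k) α, (minpoly.monic (mu11_isIntegral (k := k) α)).natDegree_map]

/-- The roots of the minimal polynomial under an embedding are conjugates of the element. -/
theorem mu11_root_le (α : 𝓞 K) (T : ℝ) (hα : Bdd T α) (φ : k →+* ℂ) (z : ℂ)
    (hz : z ∈ ((minpoly k (α : K)).map φ).roots) : ‖z‖ ≤ T := by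
  let _ : Algebra k ℂ := φ.toAlgebra
  have : FiniteDimensional k K := Module.Finite.of_restrictScalars_finite ℚ k K
  have h := Algebra.IsAlgebraic.range_eval_eq_rootSet_minpoly (F := k) (K := K) ℂ (α : K)
  have hz' : z ∈ (minpoly k (α : K)).rootSet ℂ := by
    rw [Polynomial.mem_rootSet']
    rw [Polynomial.mem_roots'] at hz
    refine ⟨hz.1, ?_⟩
    have h2 := hz.2
    rw [Polynomial.IsRoot.def, Polynomial.eval_map] at h2
    exact h2
  rw [← h] at hz'
  obtain ⟨ψ, hψ⟩ := hz'
  have h3 := hα (ψ : K →+* ℂ)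
  have h4 : (ψ : K →+* ℂ) (α : K) = z := hψ
  rw [h4] at h3
  exact h3

theorem coeff_bdd (α : 𝓞 K) (T : ℝ) (hT : 0 ≤ T) (hα : Bdd T α) (i : ℕ)
    (hi : i ≤ (minpoly (𝓞 k) α).natDegree) :
    Bdd (2 ^ (minpoly (𝓞 k) α).natDegree * T ^ ((minpoly (𝓞 k) α).natDegree - i))
      ((minpoly (𝓞 k) α).coeff i) := by
  have _ := hi
  intro φ
  have h1 : (minpoly k (α : K)).Monic := by
    rw [← minpoly_map (k := k) α]
    exact (minpoly.monic (mu11_isIntegral (k := k) α)).map _
  have h := Polynomial.coeff_le_of_roots_le (f := φ) (p := minpoly k (α : K)) (B := T) i h1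
    (IsAlgClosed.splits _) (fun z hz => mu11_root_le α T hα φ z hz)
  rw [← natDegree_minpoly_int (k := k) α] at h
  have h2 : (Polynomial.map φ (minpoly k (α : K))).coeff i =
      φ (((minpoly (𝓞 k) α).coeff i : 𝓞 k) : k) := by
    rw [Polynomial.coeff_map, ← minpoly_map (k := k) α, Polynomial.coeff_map]
  rw [h2] at h
  refine h.trans ?_
  rw [mul_comm]
  have h3 : (((minpoly (𝓞 k) α).natDegree.choose i : ℕ) : ℝ) ≤
      2 ^ (minpoly (𝓞 k) α).natDegree := by
    exact_mod_cast Nat.choose_le_two_pow _ _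
  exact mul_le_mul_of_nonneg_right h3 (pow_nonneg hT _)

theorem coeff_trace_zero (α : 𝓞 K) (hd : (minpoly k (α : K)).natDegree = Module.finrank k K)
    (ht : Algebra.trace k K (α : K) = 0) :
    (minpoly (𝓞 k) α).coeff (Module.finrank k K - 1) = 0 := by
  have : FiniteDimensional k K := Module.Finite.of_restrictScalars_finite ℚ k K
  have hpos : 0 < Module.finrank k K := Module.finrank_pos
  have h := trace_eq_finrank_mul_minpoly_nextCoeff k (α : K)
  rw [ht] at h
  have : FiniteDimensional (IntermediateField.adjoin k {(α : K)}) K :=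
    Module.Finite.of_restrictScalars_finite k _ K
  have hne : ((Module.finrank (IntermediateField.adjoin k {(α : K)}) K : ℕ) : k) ≠ 0 :=
    Nat.cast_ne_zero.mpr Module.finrank_pos.ne'
  have h2 : (minpoly k (α : K)).nextCoeff = 0 := by
    have h3 := (mul_eq_zero.mp h.symm).resolve_left hne
    exact neg_eq_zero.mp h3
  rw [Polynomial.nextCoeff_of_natDegree_pos (by rw [hd]; exact hpos), hd,
    ← minpoly_map (k := k) α, Polynomial.coeff_map] at h2
  exact (map_eq_zero_iff _ (IsFractionRing.injective (𝓞 k) k)).mp h2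

end

theorem mu11_coeff {R : Type*} [CommRing R] {n : ℕ} (a : Fin n → R) (m : ℕ) :
    (monicOf a).coeff m = (if m = n then 1 else 0) +
      ∑ j : Fin n, (if m = n - 1 - (j : ℕ) then a j else 0) := by
  rw [monicOf, Polynomial.coeff_add, Polynomial.coeff_X_pow, Polynomial.finsetSum_coeff]
  congr 1
  apply Finset.sum_congr rfl
  intro j _
  rw [Polynomial.coeff_C_mul_X_pow]

theorem monicOf_coeff {R : Type*} [CommRing R] {n : ℕ} (a : Fin n → R) (j : Fin n) :
    (monicOf a).coeff (n - 1 - (j : ℕ)) = a j := by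
  have hj := j.2
  rw [mu11_coeff, if_neg (by omega), zero_add, Finset.sum_eq_single j]
  · rw [if_pos rfl]
  · intro b _ hb
    have hb2 := b.2
    rw [if_neg]
    intro h
    apply hb
    ext
    omega
  · intro h
    exact absurd (Finset.mem_univ _) h

/-- every monic polynomial of degree `n` is `monicOf` of its coefficients -/
theorem monicOf_eq {R : Type*} [CommRing R] {n : ℕ} {f : R[X]} (hf : f.Monic)
    (hn : f.natDegree = n) : monicOf (fun j : Fin n => f.coeff (n - 1 - (j : ℕ))) = f := by
  ext m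
  rcases lt_trichotomy m n with h | h | h
  · have hm : m = n - 1 - ((⟨n - 1 - m, by omega⟩ : Fin n) : ℕ) := by
      simp only
      omega
    rw [hm]
    exact monicOf_coeff (fun j : Fin n => f.coeff (n - 1 - (j : ℕ))) ⟨n - 1 - m, by omega⟩
  · rw [mu11_coeff, if_pos h, Finset.sum_eq_zero, add_zero, h, ← hn]
    · exact hf.coeff_natDegree.symm
    · intro j _
      have hj := j.2
      rw [if_neg (by omega)]
  · rw [mu11_coeff, if_neg (by omega), Finset.sum_eq_zero, add_zero,
      Polynomial.coeff_eq_zero_of_natDegree_lt (by omega)]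
    intro j _
    have hj := j.2
    rw [if_neg (by omega)]

theorem monicOf_monic {R : Type*} [CommRing R] [Nontrivial R] {n : ℕ} (a : Fin n → R) :
    (monicOf a).Monic ∧ (monicOf a).natDegree = n := by
  have hdeg : (∑ j : Fin n, C (a j) * X ^ (n - 1 - (j : ℕ)) : R[X]).degree < (n : WithBot ℕ) := by
    refine lt_of_le_of_lt (Polynomial.degree_sum_le _ _) ?_
    refine (Finset.sup_lt_iff (WithBot.bot_lt_coe n)).mpr ?_
    intro j _
    refine lt_of_le_of_lt (Polynomial.degree_C_mul_X_pow_le _ _) ?_
    have hj := j.2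
    exact WithBot.coe_lt_coe.mpr (by omega : n - 1 - (j : ℕ) < n)
  exact ⟨Polynomial.monic_X_pow_add hdeg, by
    rw [monicOf, Polynomial.natDegree_add_eq_left_of_degree_lt, Polynomial.natDegree_X_pow]
    rw [Polynomial.degree_X_pow]
    exact hdeg⟩

theorem monicOf_map {R S : Type*} [CommRing R] [CommRing S] (f : R →+* S) {n : ℕ}
    (a : Fin n → R) : (monicOf a).map f = monicOf (fun j => f (a j)) := by
  simp only [monicOf, Polynomial.map_add, Polynomial.map_pow, Polynomial.map_X,
    Polynomial.map_sum, Polynomial.map_mul, Polynomial.map_C]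

end Pool.Agent.H67.MU
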