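import Pool.Agent.H67.MU.Defs2

/-!
# Project MU (MP_a3214d), part 2, row MU-24: the combinatorial count, with the prefix
-/

set_option autoImplicit false

namespace Pool.Agent.H67.MU

/-- a numbering of every finite set -/
theorem mu24_lab (α : Type*) : ∃ F : Set α → α → ℕ, ∀ A : Set α, A.Finite →
    Set.InjOn (F A) A ∧ ∀ x ∈ A, F A x < A.ncard := by
  classical
  have h : ∀ A : Set α, ∃ f : α → ℕ, A.Finite → Set.InjOn f A ∧ ∀ x ∈ A, f x < A.ncard := by
    intro A
    by_cases hA : A.Finite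
    · have : Fintype A := hA.fintype
      have e := Fintype.equivFin A
      refine ⟨fun x => if hx : x ∈ A then (e ⟨x, hx⟩ : ℕ) else 0, fun _ => ⟨?_, ?_⟩⟩
      · intro x hx y hy hxy
        simp only [dif_pos hx, dif_pos hy] at hxy
        have h1 := e.injective (Fin.ext hxy)
        exact congrArg Subtype.val h1
      · intro x hx
        simp only [dif_pos hx]
        rw [Set.ncard_eq_toFinset_card' A, Set.toFinset_card]
        exact (e ⟨x, hx⟩).isLt
    · exact ⟨fun _ => 0, fun h => absurd h hA⟩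
  choose F hF using h
  exact ⟨F, hF⟩

theorem count_le2 {R ι : Type*} [DecidableEq ι] {n : ℕ} (Q : ι → Type*) (red : ∀ s, R → Q s)
    (S : Finset ι) (t : ι → ℕ) (C : ℕ) (N : Fin n → ℕ) (X : Finset (Fin n → R))
    (h1 : ∀ s ∈ S, ∀ q : Fin n → Q s, Set.ncard {w : Fin n → Q s |
      (∃ a ∈ X, w = fun j => red s (a j)) ∧ ∀ j : Fin n, (j : ℕ) < t s → w j = q j} ≤ C)
    (h2 : ∀ j : Fin n, ∀ a ∈ X, Set.ncard {c : R | ∃ b ∈ X, b j = c ∧
      (∀ i : Fin n, i < j → b i = a i) ∧
      ∀ s ∈ S, t s ≤ (j : ℕ) → red s c = red s (a j)} ≤ N j) :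
    X.card ≤ C ^ S.card * ∏ j, N j := by
  classical
  obtain ⟨F, hF⟩ := mu24_lab R
  have hG := fun s : ι => mu24_lab (Fin n → Q s)
  choose G hG using hG
  let W : ∀ s : ι, (Fin n → R) → Set (Fin n → Q s) := fun s a => {w : Fin n → Q s |
      (∃ b ∈ X, w = fun j => red s (b j)) ∧ ∀ j : Fin n, (j : ℕ) < t s → w j = red s (a j)}
  let A : Fin n → (Fin n → R) → Set R := fun j a => {c : R | ∃ b ∈ X, b j = c ∧
      (∀ i : Fin n, i < j → b i = a i) ∧ ∀ s ∈ S, t s ≤ (j : ℕ) → red s c = red s (a j)}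
  have hWfin : ∀ s a, (W s a).Finite := fun s a =>
    (X.finite_toSet.image (fun b => fun j => red s (b j))).subset (by
      rintro w ⟨⟨b, hb, rfl⟩, -⟩
      exact ⟨b, hb, rfl⟩)
  have hAfin : ∀ j a, (A j a).Finite := fun j a =>
    (X.finite_toSet.image (fun b => b j)).subset (by
      rintro c ⟨b, hb, rfl, -⟩
      exact ⟨b, hb, rfl⟩)
  have hWmem : ∀ s, ∀ a ∈ X, (fun j => red s (a j)) ∈ W s a := fun s a ha =>
    ⟨⟨a, ha, rfl⟩, fun _ _ => rfl⟩
  have hAmem : ∀ j, ∀ a ∈ X, a j ∈ A j a := fun j a ha =>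
    ⟨a, ha, rfl, fun _ _ => rfl, fun _ _ _ => rfl⟩
  let Φ : X → ((s : S) → Fin C) × ((j : Fin n) → Fin (N j)) := fun a =>
    (fun s => ⟨G s (W s a) (fun j => red s (a.1 j)),
        ((hG s (W s a) (hWfin s a)).2 _ (hWmem s a a.2)).trans_le (h1 s s.2 _)⟩,
      fun j => ⟨F (A j a) (a.1 j),
        ((hF (A j a) (hAfin j a)).2 _ (hAmem j a a.2)).trans_le (h2 j a a.2)⟩)
  have hinj : Function.Injective Φ := by
    intro a b hab
    have e1 : ∀ s ∈ S, G s (W s a) (fun j => red s (a.1 j)) =
        G s (W s b) (fun j => red s (b.1 j)) := fun s hs =>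
      congrArg Fin.val (congrFun (congrArg Prod.fst hab) ⟨s, hs⟩)
    have e2 : ∀ j, F (A j a) (a.1 j) = F (A j b) (b.1 j) := fun j =>
      congrArg Fin.val (congrFun (congrArg Prod.snd hab) j)
    have key : ∀ m : ℕ, ∀ j : Fin n, (j : ℕ) = m → a.1 j = b.1 j := by
      intro m
      induction m using Nat.strong_induction_on with
      | _ m ih =>
        intro j hj
        have hpre : ∀ i : Fin n, i < j → a.1 i = b.1 i := fun i hi =>
          ih i (by rw [← hj]; exact hi) i rfl
        have hres : ∀ s ∈ S, t s ≤ (j : ℕ) → red s (a.1 j) = red s (b.1 j) := by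
          intro s hs hts
          have hWW : W s a = W s b := by
            ext w
            constructor
            · rintro ⟨h3, h4⟩
              exact ⟨h3, fun i hi => by rw [h4 i hi, hpre i (Fin.lt_def.mpr (lt_of_lt_of_le hi hts))]⟩
            · rintro ⟨h3, h4⟩
              exact ⟨h3, fun i hi => by rw [h4 i hi, hpre i (Fin.lt_def.mpr (lt_of_lt_of_le hi hts))]⟩
          have h5 := e1 s hs
          rw [← hWW] at h5
          have h6 := (hG s (W s a) (hWfin s a)).1 (hWmem s a a.2)
            (by rw [hWW]; exact hWmem s b b.2) h5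
          exact congrFun h6 j
        have hAA : A j a = A j b := by
          ext c
          constructor
          · rintro ⟨d, hd, h3, h4, h5⟩
            exact ⟨d, hd, h3, fun i hi => (h4 i hi).trans (hpre i hi),
              fun s hs hts => (h5 s hs hts).trans (hres s hs hts)⟩
          · rintro ⟨d, hd, h3, h4, h5⟩
            exact ⟨d, hd, h3, fun i hi => (h4 i hi).trans (hpre i hi).symm,
              fun s hs hts => (h5 s hs hts).trans (hres s hs hts).symm⟩
        have h7 := e2 j
        rw [← hAA] at h7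
        exact (hF (A j a) (hAfin j a)).1 (hAmem j a a.2) (by rw [hAA]; exact hAmem j b b.2) h7
    exact Subtype.ext (funext fun j => key j j rfl)
  have hcard := Fintype.card_le_of_injective Φ hinj
  simpa [Fintype.card_prod, Fintype.card_pi] using hcard

end Pool.Agent.H67.MU
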