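import Pool.Agent.H67.MU.Defs
import Pool.Agent.H35.AN.Ideals

/-!
# Project MU, MU-15: ideals with large exponents, few prime divisors
-/

set_option autoImplicit false

open Polynomial IsDedekindDomain NumberField UniqueFactorizationMonoid

namespace Pool.Agent.H67.MU

theorem mu15_mem_of_vexp_pos {k : Type} [Field k] [NumberField k] {p I : Ideal (𝓞 k)}
    (h : 0 < vexp p I) : p ∈ normalizedFactors I := by
  classical
  unfold vexp at h
  exact Multiset.count_pos.mp (by convert h)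

theorem mu15_count_inst {α : Type} (i j : DecidableEq α) (a : α) (s : Multiset α) :
    @Multiset.count α i a s = @Multiset.count α j a s := by
  rw [Subsingleton.elim i j]

theorem mu15_toFinset_inst {α : Type} (i j : DecidableEq α) (s : Multiset α) :
    (@Multiset.toFinset α i s).card = (@Multiset.toFinset α j s).card := by
  rw [Subsingleton.elim i j]

theorem mu15_vexp_pos {k : Type} [Field k] [NumberField k] {p I : Ideal (𝓞 k)}
    (h : p ∈ normalizedFactors I) : 0 < vexp p I := by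
  classical
  unfold vexp
  exact Multiset.count_pos.mpr h

/-- few prime divisors -/
theorem pow_card_le (k : Type) [Field k] [NumberField k] (m : ℕ) (ε : ℝ) (hε : 0 < ε) :
    ∃ C : ℝ, 1 ≤ C ∧ ∀ I : Ideal (𝓞 k), I ≠ ⊥ → ∀ S : Finset (Ideal (𝓞 k)),
      (∀ p ∈ S, p.IsPrime ∧ p ≠ ⊥ ∧ 0 < vexp p I) →
      (m : ℝ) ^ S.card ≤ C * (Ideal.absNorm I : ℝ) ^ ε := by
  classical
  set M : ℝ := (m : ℝ) + 1 with hM
  have hM1 : 1 ≤ M := by
    have : (0 : ℝ) ≤ m := Nat.cast_nonneg m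
    linarith
  set P0 : ℕ := ⌈M ^ (1 / ε)⌉₊ with hP0
  have hbig : ∀ p : ℕ, P0 ≤ p → M ≤ (p : ℝ) ^ ε := by
    intro p hp
    have h1 : M ^ (1 / ε) ≤ (p : ℝ) := (Nat.le_ceil _).trans (Nat.cast_le.mpr hp)
    have h2 := Real.rpow_le_rpow (by positivity) h1 hε.le
    rwa [← Real.rpow_mul (by positivity), one_div_mul_cancel hε.ne', Real.rpow_one] at h2
  have hfin : Set.Finite {I : Ideal (𝓞 k) | Ideal.absNorm I ≤ P0} :=
    Ideal.finite_setOfPred_absNorm_le P0
  refine ⟨M ^ hfin.toFinset.card, one_le_pow₀ hM1, fun I hI S hS => ?_⟩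
  have hIpos : 0 < Ideal.absNorm I :=
    Nat.pos_of_ne_zero (fun h => hI (Ideal.absNorm_eq_zero_iff.mp h))
  have hppos : ∀ p ∈ S, (1 : ℝ) ≤ (Ideal.absNorm p : ℝ) := by
    intro p hp
    have : 0 < Ideal.absNorm p :=
      Nat.pos_of_ne_zero (fun h => (hS p hp).2.1 (Ideal.absNorm_eq_zero_iff.mp h))
    exact_mod_cast this
  have e1 : M ^ S.card = ∏ _p ∈ S, M := by
    rw [Finset.prod_const]
  have e2 : ∏ _p ∈ S, M ≤
      ∏ p ∈ S, ((if Ideal.absNorm p < P0 then M else 1) * (Ideal.absNorm p : ℝ) ^ ε) := by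
    apply Finset.prod_le_prod
    · intro p _
      positivity
    · intro p hp
      have hp1 := hppos p hp
      split_ifs with h
      · exact le_mul_of_one_le_right (by positivity) (Real.one_le_rpow hp1 hε.le)
      · rw [one_mul]
        exact hbig _ (not_lt.mp h)
  have e3 : ∏ p ∈ S, (if Ideal.absNorm p < P0 then M else 1) ≤ M ^ hfin.toFinset.card := by
    rw [Finset.prod_ite, Finset.prod_const, Finset.prod_const_one, mul_one]
    apply pow_le_pow_right₀ hM1
    apply Finset.card_le_card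
    intro p hp
    rw [Finset.mem_filter] at hp
    rw [Set.Finite.mem_toFinset]
    exact hp.2.le
  have e4 : ∏ p ∈ S, (Ideal.absNorm p : ℝ) ^ ε ≤ (Ideal.absNorm I : ℝ) ^ ε := by
    rw [Real.finsetProd_rpow _ _ (fun p _ => Nat.cast_nonneg _)]
    apply Real.rpow_le_rpow (Finset.prod_nonneg (fun p _ => Nat.cast_nonneg _)) _ hε.le
    rw [← Nat.cast_prod]
    have hdvd : ∏ p ∈ S, p ∣ I := by
      apply Finset.prod_primes_dvd
      · intro p hp
        exact Ideal.prime_of_isPrime (hS p hp).2.1 (hS p hp).1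
      · intro p hp
        exact dvd_of_mem_normalizedFactors (mu15_mem_of_vexp_pos (hS p hp).2.2)
    have h3 : Ideal.absNorm (∏ p ∈ S, p) ∣ Ideal.absNorm I := by
      obtain ⟨J, hJ⟩ := hdvd
      exact ⟨Ideal.absNorm J, by conv_lhs => rw [hJ, map_mul]⟩
    rw [map_prod] at h3
    exact_mod_cast Nat.le_of_dvd hIpos h3
  have e5 : (m : ℝ) ^ S.card ≤ M ^ S.card :=
    pow_le_pow_left₀ (Nat.cast_nonneg m) (by rw [hM]; linarith) _
  refine e5.trans ?_
  rw [e1]
  refine e2.trans ?_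
  rw [Finset.prod_mul_distrib]
  exact mul_le_mul e3 e4 (Finset.prod_nonneg (fun p _ => by positivity)) (by positivity)

open scoped Classical in
/-- the exponents divided by `r` -/
noncomputable def mu15_root {k : Type} [Field k] [NumberField k] (r : ℕ) (I : Ideal (𝓞 k)) :
    Multiset (Ideal (𝓞 k)) :=
  Finsupp.toMultiset ((Multiset.toFinsupp (normalizedFactors I)).mapRange (fun x => x / r)
    (Nat.zero_div r))

theorem mu15_count_root {k : Type} [Field k] [NumberField k] (r : ℕ) (p I : Ideal (𝓞 k)) :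
    letI := Classical.decEq (Ideal (𝓞 k))
    Multiset.count p (mu15_root r I) = vexp p I / r := by
  classical
  unfold mu15_root vexp
  rw [Finsupp.count_toMultiset, Finsupp.mapRange_apply, Multiset.toFinsupp_apply]

theorem mu15_root_prime {k : Type} [Field k] [NumberField k] (r : ℕ) (I : Ideal (𝓞 k)) :
    ∀ p ∈ mu15_root r I, Prime p := by
  classical
  intro p hp
  have h1 : 0 < Multiset.count p (mu15_root r I) := Multiset.count_pos.mpr hp
  have h2 := mu15_count_root r p I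
  have h3 : 0 < vexp p I := by
    rcases Nat.eq_zero_or_pos (vexp p I) with h | h
    · rw [h, Nat.zero_div] at h2
      exfalso
      have h4 : Multiset.count p (mu15_root r I) = 0 := (mu15_count_inst _ _ _ _).trans h2
      omega
    · exact h
  exact prime_of_normalized_factor p (mu15_mem_of_vexp_pos h3)

theorem mu15_vexp_root {k : Type} [Field k] [NumberField k] (r : ℕ) (p I : Ideal (𝓞 k)) :
    vexp p (mu15_root r I).prod = vexp p I / r := by
  classical
  have h1 := mu15_count_root r p I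
  conv_lhs => unfold vexp
  rw [normalizedFactors_prod_of_prime (mu15_root_prime r I)]
  exact h1

theorem mu15_root_ne_bot {k : Type} [Field k] [NumberField k] (r : ℕ) (I : Ideal (𝓞 k)) :
    (mu15_root r I).prod ≠ ⊥ := by
  have h1 : (0 : Ideal (𝓞 k)) ∉ mu15_root r I := fun h => (mu15_root_prime r I 0 h).ne_zero rfl
  exact Multiset.prod_ne_zero h1

theorem mu15_root_pow_dvd {k : Type} [Field k] [NumberField k] (r : ℕ) (I : Ideal (𝓞 k))
    (hI : I ≠ ⊥) : (mu15_root r I).prod ^ r ∣ I := by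
  classical
  have h1 : r • mu15_root r I ≤ normalizedFactors I := by
    rw [Multiset.le_iff_count]
    intro p
    rw [Multiset.count_nsmul]
    have h2 := mu15_count_root r p I
    have h3 : Multiset.count p (mu15_root r I) = vexp p I / r :=
      (mu15_count_inst _ _ _ _).trans h2
    have h4 : Multiset.count p (normalizedFactors I) = vexp p I := by
      unfold vexp
      congr
    rw [h3, h4]
    exact Nat.mul_div_le _ _
  have h2 := Multiset.prod_dvd_prod_of_le h1
  rw [Multiset.prod_nsmul, Ideal.prod_normalizedFactors_eq_self hI] at h2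
  exact h2

theorem mu15_ext {k : Type} [Field k] [NumberField k] {I J : Ideal (𝓞 k)} (hI : I ≠ ⊥)
    (hJ : J ≠ ⊥) (h : ∀ p : Ideal (𝓞 k), p ∈ normalizedFactors I ∨ p ∈ normalizedFactors J →
      vexp p I = vexp p J) : I = J := by
  classical
  have h1 : normalizedFactors I = normalizedFactors J := by
    ext p
    by_cases hp : p ∈ normalizedFactors I ∨ p ∈ normalizedFactors J
    · have h2 := h p hp
      unfold vexp at h2
      convert h2
    · push Not at hp
      rw [Multiset.count_eq_zero_of_notMem hp.1, Multiset.count_eq_zero_of_notMem hp.2]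
  rw [← Ideal.prod_normalizedFactors_eq_self hI, ← Ideal.prod_normalizedFactors_eq_self hJ, h1]

theorem mu15_isPrime {k : Type} [Field k] [NumberField k] {p I : Ideal (𝓞 k)}
    (h : p ∈ normalizedFactors I) : p.IsPrime ∧ p ≠ ⊥ := by
  have h1 := prime_of_normalized_factor p h
  exact ⟨Ideal.isPrime_of_prime h1, h1.ne_zero⟩

/-- the condition on the exponents -/
def mu15_cond {k : Type} [Field k] [NumberField k] (N E r : ℕ) (I : Ideal (𝓞 k)) : Prop :=
  ∀ p : Ideal (𝓞 k), p.IsPrime → p ≠ ⊥ → ((N : 𝓞 k) ∈ p → vexp p I ≤ E) ∧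
    ((N : 𝓞 k) ∉ p → 0 < vexp p I → r ≤ vexp p I)

/-- the number of ideals with given `mu15_root` -/
theorem mu15_fibre {k : Type} [Field k] [NumberField k] (N E r : ℕ) (hN : 0 < N) (hr : 1 ≤ r)
    (M : Ideal (𝓞 k)) (hM : M ≠ ⊥) (F : Finset (Ideal (𝓞 k)))
    (hF : ∀ I ∈ F, I ≠ ⊥ ∧ mu15_cond N E r I ∧ (mu15_root r I).prod = M) :
    letI := Classical.decEq (Ideal (𝓞 k))
    F.card ≤ r ^ (normalizedFactors (M * Ideal.span {(N : 𝓞 k)})).toFinset.card := by
  classical
  have hN0 : Ideal.span {(N : 𝓞 k)} ≠ ⊥ := by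
    rw [Ne, Ideal.span_singleton_eq_bot]
    exact_mod_cast hN.ne'
  have hMN : M * Ideal.span {(N : 𝓞 k)} ≠ ⊥ := mul_ne_zero hM hN0
  set S : Finset (Ideal (𝓞 k)) := (normalizedFactors (M * Ideal.span {(N : 𝓞 k)})).toFinset with hS
  have key : ∀ I ∈ F, ∀ p ∈ normalizedFactors I, p ∈ S := by
    intro I hI p hp
    obtain ⟨hI0, hc, hroot⟩ := hF I hI
    obtain ⟨hpp, hp0⟩ := mu15_isPrime hp
    have hprime : Prime p := Ideal.prime_of_isPrime hp0 hpp
    have hmem : ∀ J : Ideal (𝓞 k), J ≠ ⊥ → p ∣ J → p ∈ normalizedFactors J := by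
      intro J hJ hd
      exact (mem_normalizedFactors_iff' hJ).mpr ⟨hprime.irreducible, normalize_eq p, hd⟩
    rw [hS, Multiset.mem_toFinset]
    by_cases hNp : (N : 𝓞 k) ∈ p
    · apply hmem _ hMN
      refine Dvd.dvd.mul_left ?_ M
      rw [Ideal.dvd_iff_le, Ideal.span_singleton_le_iff_mem]
      exact hNp
    · apply hmem _ hMN
      refine Dvd.dvd.mul_right ?_ _
      have h1 : r ≤ vexp p I := (hc p hpp hp0).2 hNp (mu15_vexp_pos hp)
      have h2 : 0 < vexp p M := by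
        rw [← hroot, mu15_vexp_root]
        exact Nat.div_pos h1 hr
      exact dvd_of_mem_normalizedFactors (mu15_mem_of_vexp_pos h2)
  have hinj : Set.InjOn (fun I : Ideal (𝓞 k) => (fun p : S => (⟨vexp p.1 I % r,
      Nat.mod_lt _ hr⟩ : Fin r))) (F : Set (Ideal (𝓞 k))) := by
    intro I hI J hJ h
    have hI' := hF I hI
    have hJ' := hF J hJ
    apply mu15_ext hI'.1 hJ'.1
    intro p hp
    have hpS : p ∈ S := by
      rcases hp with hp | hp
      · exact key I hI p hp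
      · exact key J hJ p hp
    have h1 := congrFun h ⟨p, hpS⟩
    have h2 : vexp p I % r = vexp p J % r := by
      have := congrArg Fin.val h1
      exact this
    have h3 : vexp p I / r = vexp p J / r := by
      rw [← mu15_vexp_root, ← mu15_vexp_root, hI'.2.2, hJ'.2.2]
    rw [← Nat.div_add_mod (vexp p I) r, ← Nat.div_add_mod (vexp p J) r, h2, h3]
  have h4 : F.card ≤ (Finset.univ : Finset (S → Fin r)).card :=
    Finset.card_le_card_of_injOn _ (fun I _ => Finset.mem_coe.mpr (Finset.mem_univ _)) hinj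
  rw [Finset.card_univ, Fintype.card_fun, Fintype.card_fin, Fintype.card_coe] at h4
  exact h4.trans_eq (congrArg (fun t => r ^ t) (mu15_toFinset_inst _ _ _))

theorem full_ideals_count (k : Type) [Field k] [NumberField k] (N E r : ℕ) (hN : 0 < N)
    (hr : 1 ≤ r) (ε : ℝ) (hε : 0 < ε) : ∃ C : ℝ, 0 < C ∧ ∀ B : ℝ, 1 ≤ B →
      Set.Finite {I : Ideal (𝓞 k) | I ≠ ⊥ ∧ (Ideal.absNorm I : ℝ) ≤ B ∧
        ∀ p : Ideal (𝓞 k), p.IsPrime → p ≠ ⊥ → ((N : 𝓞 k) ∈ p → vexp p I ≤ E) ∧
          ((N : 𝓞 k) ∉ p → 0 < vexp p I → r ≤ vexp p I)} ∧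
      (Set.ncard {I : Ideal (𝓞 k) | I ≠ ⊥ ∧ (Ideal.absNorm I : ℝ) ≤ B ∧
        ∀ p : Ideal (𝓞 k), p.IsPrime → p ≠ ⊥ → ((N : 𝓞 k) ∈ p → vexp p I ≤ E) ∧
          ((N : 𝓞 k) ∉ p → 0 < vexp p I → r ≤ vexp p I)} : ℝ) ≤ C * B ^ (1 / (r : ℝ) + ε) := by
  classical
  obtain ⟨C1, hC1, hcount⟩ := Pool.Agent.H35.AN.ideal_count k
  obtain ⟨C2, hC2, hpow⟩ := pow_card_le k r ε hε
  have hN0 : Ideal.span {(N : 𝓞 k)} ≠ ⊥ := by
    rw [Ne, Ideal.span_singleton_eq_bot]
    exact_mod_cast hN.ne'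
  have hD : 0 < Ideal.absNorm (Ideal.span {(N : 𝓞 k)}) :=
    Nat.pos_of_ne_zero (fun h => hN0 (Ideal.absNorm_eq_zero_iff.mp h))
  set D : ℝ := (Ideal.absNorm (Ideal.span {(N : 𝓞 k)}) : ℝ) with hDdef
  have hDpos : 0 < D := by
    rw [hDdef]
    exact_mod_cast hD
  refine ⟨C1 * (C2 * D ^ ε), by positivity, fun B hB => ?_⟩
  have hB0 : 0 < B := by linarith
  have hset : {I : Ideal (𝓞 k) | I ≠ ⊥ ∧ (Ideal.absNorm I : ℝ) ≤ B ∧
        ∀ p : Ideal (𝓞 k), p.IsPrime → p ≠ ⊥ → ((N : 𝓞 k) ∈ p → vexp p I ≤ E) ∧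
          ((N : 𝓞 k) ∉ p → 0 < vexp p I → r ≤ vexp p I)} =
      {I : Ideal (𝓞 k) | I ≠ ⊥ ∧ (Ideal.absNorm I : ℝ) ≤ B ∧ mu15_cond N E r I} := rfl
  rw [hset]
  set A : Set (Ideal (𝓞 k)) :=
    {I : Ideal (𝓞 k) | I ≠ ⊥ ∧ (Ideal.absNorm I : ℝ) ≤ B ∧ mu15_cond N E r I} with hA
  have hAfin : A.Finite := by
    refine (Ideal.finite_setOfPred_absNorm_le (S := 𝓞 k) ⌊B⌋₊).subset (fun I hI => ?_)
    exact Nat.le_floor hI.2.1
  refine ⟨hAfin, ?_⟩
  set x : ℕ := ⌊B ^ (1 / (r : ℝ))⌋₊ with hx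
  obtain ⟨hMfin, hMcard⟩ := hcount x
  have hr0 : (0 : ℝ) < r := by exact_mod_cast hr
  have hroot : ∀ I ∈ A, (mu15_root r I).prod ∈ hMfin.toFinset := by
    intro I hI
    rw [Set.Finite.mem_toFinset]
    refine ⟨mu15_root_ne_bot r I, ?_⟩
    apply Nat.le_floor
    have hdvd := mu15_root_pow_dvd r I hI.1
    have h1 : Ideal.absNorm (mu15_root r I).prod ^ r ∣ Ideal.absNorm I := by
      obtain ⟨J, hJ⟩ := hdvd
      exact ⟨Ideal.absNorm J, by conv_lhs => rw [hJ, map_mul, map_pow]⟩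
    have hIpos : 0 < Ideal.absNorm I :=
      Nat.pos_of_ne_zero (fun h => hI.1 (Ideal.absNorm_eq_zero_iff.mp h))
    have h2 : ((Ideal.absNorm (mu15_root r I).prod : ℝ)) ^ r ≤ B := by
      refine le_trans ?_ hI.2.1
      exact_mod_cast Nat.le_of_dvd hIpos h1
    rw [← Real.rpow_natCast] at h2
    have h3 := Real.rpow_le_rpow (by positivity) h2 (show 0 ≤ 1 / (r : ℝ) by positivity)
    rwa [← Real.rpow_mul (Nat.cast_nonneg _), mul_one_div_cancel hr0.ne', Real.rpow_one] at h3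
  have hcard : (hAfin.toFinset.card : ℝ) ≤ ∑ M ∈ hMfin.toFinset,
      ((hAfin.toFinset.filter (fun I => (mu15_root r I).prod = M)).card : ℝ) := by
    have h1 := Finset.card_eq_sum_card_fiberwise (f := fun I : Ideal (𝓞 k) => (mu15_root r I).prod)
      (s := hAfin.toFinset) (t := hMfin.toFinset) (by
        intro I hI
        exact Finset.mem_coe.mpr (hroot I (by simpa using hI)))
    rw [h1]
    push_cast
    exact le_refl _
  have hBr : 1 ≤ B ^ (1 / (r : ℝ)) := Real.one_le_rpow hB (by positivity)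
  have hfib : ∀ M ∈ hMfin.toFinset,
      ((hAfin.toFinset.filter (fun I => (mu15_root r I).prod = M)).card : ℝ) ≤
        C2 * D ^ ε * B ^ ε := by
    intro M hM
    rw [Set.Finite.mem_toFinset] at hM
    have h1 := mu15_fibre N E r hN hr M hM.1
      (hAfin.toFinset.filter (fun I => (mu15_root r I).prod = M)) (by
        intro I hI
        rw [Finset.mem_filter, Set.Finite.mem_toFinset] at hI
        exact ⟨hI.1.1, hI.1.2.2, hI.2⟩)
    have hMN : M * Ideal.span {(N : 𝓞 k)} ≠ ⊥ := mul_ne_zero hM.1 hN0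
    have h2 := hpow (M * Ideal.span {(N : 𝓞 k)}) hMN
      (normalizedFactors (M * Ideal.span {(N : 𝓞 k)})).toFinset (by
        intro p hp
        rw [Multiset.mem_toFinset] at hp
        exact ⟨(mu15_isPrime hp).1, (mu15_isPrime hp).2, mu15_vexp_pos hp⟩)
    have h1' : ((hAfin.toFinset.filter (fun I => (mu15_root r I).prod = M)).card : ℝ) ≤
        (r : ℝ) ^ (normalizedFactors (M * Ideal.span {(N : 𝓞 k)})).toFinset.card := by
      have h1'' : (hAfin.toFinset.filter (fun I => (mu15_root r I).prod = M)).card ≤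
          r ^ (normalizedFactors (M * Ideal.span {(N : 𝓞 k)})).toFinset.card :=
        h1.trans_eq (congrArg (fun t => r ^ t) (mu15_toFinset_inst _ _ _))
      exact_mod_cast h1''
    refine h1'.trans (h2.trans ?_)
    rw [map_mul]
    push_cast
    rw [← hDdef, Real.mul_rpow (Nat.cast_nonneg _) hDpos.le]
    have h3 : (Ideal.absNorm M : ℝ) ≤ B := by
      have h4 : (Ideal.absNorm M : ℝ) ≤ (x : ℝ) := by exact_mod_cast hM.2
      have h5 : (x : ℝ) ≤ B ^ (1 / (r : ℝ)) := Nat.floor_le (by positivity)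
      have h6 : B ^ (1 / (r : ℝ)) ≤ B ^ (1 : ℝ) := by
        apply Real.rpow_le_rpow_of_exponent_le hB
        rw [div_le_one hr0]
        exact_mod_cast hr
      rw [Real.rpow_one] at h6
      linarith
    have h7 : (Ideal.absNorm M : ℝ) ^ ε ≤ B ^ ε :=
      Real.rpow_le_rpow (Nat.cast_nonneg _) h3 hε.le
    have h8 : 0 ≤ C2 * D ^ ε := by positivity
    calc C2 * ((Ideal.absNorm M : ℝ) ^ ε * D ^ ε) = C2 * D ^ ε * (Ideal.absNorm M : ℝ) ^ ε := by
          ring
      _ ≤ C2 * D ^ ε * B ^ ε := by gcongr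
  rw [Set.ncard_eq_toFinset_card A hAfin]
  refine hcard.trans ((Finset.sum_le_sum hfib).trans ?_)
  rw [Finset.sum_const, nsmul_eq_mul]
  have h9 : (hMfin.toFinset.card : ℝ) ≤ C1 * B ^ (1 / (r : ℝ)) := by
    rw [Set.ncard_eq_toFinset_card _ hMfin] at hMcard
    refine hMcard.trans ?_
    have h5 : (x : ℝ) ≤ B ^ (1 / (r : ℝ)) := Nat.floor_le (by positivity)
    gcongr
  have h10 : 0 ≤ C2 * D ^ ε * B ^ ε := by positivity
  calc (hMfin.toFinset.card : ℝ) * (C2 * D ^ ε * B ^ ε)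
      ≤ (C1 * B ^ (1 / (r : ℝ))) * (C2 * D ^ ε * B ^ ε) := by gcongr
    _ = C1 * (C2 * D ^ ε) * (B ^ (1 / (r : ℝ)) * B ^ ε) := by ring
    _ = C1 * (C2 * D ^ ε) * B ^ (1 / (r : ℝ) + ε) := by rw [← Real.rpow_add hB0]

end Pool.Agent.H67.MU
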