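import Pool.Agent.H67.MU.Defs2
import Pool.Agent.H67.MU.Full

/-!
# Project MU, MU-26: the norms of the moduli
-/

set_option autoImplicit false

open Polynomial IsDedekindDomain NumberField UniqueFactorizationMonoid

namespace Pool.Agent.H67.MU

theorem mu26_mem {k : Type} [Field k] [NumberField k] {Δ p : Ideal (𝓞 k)} :
    p ∈ primeDivs k Δ ↔ 0 < vexp p Δ := by
  classical
  unfold primeDivs
  rw [Multiset.mem_toFinset]
  exact ⟨mu15_vexp_pos, mu15_mem_of_vexp_pos⟩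

theorem mu26_prime {k : Type} [Field k] [NumberField k] {Δ p : Ideal (𝓞 k)}
    (h : p ∈ primeDivs k Δ) : p.IsPrime ∧ p ≠ ⊥ :=
  mu15_isPrime (mu15_mem_of_vexp_pos (mu26_mem.mp h))

theorem mu26_good {k : Type} [Field k] [NumberField k] {N : ℕ} {Δ p : Ideal (𝓞 k)}
    (h : p ∈ goodPrimes k N Δ) :
    p ∈ primeDivs k Δ ∧ (N : 𝓞 k) ∉ p := by
  classical
  unfold goodPrimes at h
  rw [Finset.mem_filter] at h
  exact h

theorem mu26_one_le {k : Type} [Field k] [NumberField k] {Δ p : Ideal (𝓞 k)}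
    (h : p ∈ primeDivs k Δ) : 1 ≤ Ideal.absNorm p := by
  have h1 := (mu26_prime h).2
  exact Nat.pos_of_ne_zero (fun h2 => h1 (Ideal.absNorm_eq_zero_iff.mp h2))

theorem mu26_absNorm {k : Type} [Field k] [NumberField k] {Δ : Ideal (𝓞 k)} (hΔ : Δ ≠ ⊥) :
    Ideal.absNorm Δ = ∏ p ∈ primeDivs k Δ, Ideal.absNorm p ^ vexp p Δ := by
  classical
  conv_lhs => rw [← Ideal.prod_normalizedFactors_eq_self hΔ]
  rw [map_multiset_prod, Finset.prod_multiset_map_count]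
  unfold primeDivs vexp
  rfl

/-- the general bound -/
theorem mu26_prod_le {k : Type} [Field k] [NumberField k] {Δ : Ideal (𝓞 k)} (hΔ : Δ ≠ ⊥)
    (S : Finset (Ideal (𝓞 k))) (hS : S ⊆ primeDivs k Δ) (e : Ideal (𝓞 k) → ℕ)
    (he : ∀ p ∈ S, e p ≤ vexp p Δ) : ∏ p ∈ S, Ideal.absNorm p ^ e p ≤ Ideal.absNorm Δ := by
  classical
  rw [mu26_absNorm hΔ]
  calc ∏ p ∈ S, Ideal.absNorm p ^ e p ≤ ∏ p ∈ S, Ideal.absNorm p ^ vexp p Δ :=
        Finset.prod_le_prod' fun p hp => Nat.pow_le_pow_right (mu26_one_le (hS hp)) (he p hp)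
    _ ≤ ∏ p ∈ primeDivs k Δ, Ideal.absNorm p ^ vexp p Δ :=
        Finset.prod_le_prod_of_subset_of_one_le' hS
          fun p hp _ => Nat.one_le_pow _ _ (mu26_one_le hp)

theorem mu26_absNorm_modul (k : Type) [Field k] [NumberField k] (n N : ℕ) (Δ : Ideal (𝓞 k))
    (j : ℕ) : letI := Classical.decEq (Ideal (𝓞 k))
    Ideal.absNorm (modul k n N Δ j) =
      ∏ p ∈ (goodPrimes k N Δ).filter fun p => n - vexp p Δ ≤ j, Ideal.absNorm p := by
  classical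
  unfold modul
  rw [map_prod]

theorem mu26_sub (k : Type) [Field k] [NumberField k] (n N : ℕ) (Δ : Ideal (𝓞 k))
    (j : ℕ) : (goodPrimes k N Δ).filter (fun p => n - vexp p Δ ≤ j) ⊆ primeDivs k Δ := by
  classical
  intro p hp
  rw [Finset.mem_filter] at hp
  exact (mu26_good hp.1).1

theorem modul_ne_bot (k : Type) [Field k] [NumberField k] (n N : ℕ) (Δ : Ideal (𝓞 k)) (j : ℕ) :
    modul k n N Δ j ≠ ⊥ := by
  classical
  unfold modul
  rw [← Ideal.zero_eq_bot]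
  refine Finset.prod_ne_zero_iff.mpr fun p hp => ?_
  exact (mu26_prime (mu26_sub k n N Δ j hp)).2

theorem mu26_pow_le (k : Type) [Field k] [NumberField k] (n N r : ℕ)
    (Δ : Ideal (𝓞 k)) (hΔ : Δ ≠ ⊥) (j : ℕ)
    (h : ∀ p ∈ goodPrimes k N Δ, n - vexp p Δ ≤ j → r ≤ vexp p Δ) :
    Ideal.absNorm (modul k n N Δ j) ^ r ≤ Ideal.absNorm Δ := by
  classical
  rw [mu26_absNorm_modul, ← Finset.prod_pow]
  refine mu26_prod_le hΔ _ (mu26_sub k n N Δ j) (fun _ => r) fun p hp => ?_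
  rw [Finset.mem_filter] at hp
  exact h p hp.1 hp.2

theorem mu26_expo {k : Type} [Field k] [NumberField k] {n N E r : ℕ} {Δ : Ideal (𝓞 k)}
    (h : Expo k n N E r Δ) {p : Ideal (𝓞 k)} (hp : p ∈ goodPrimes k N Δ) :
    r ≤ vexp p Δ ∧ vexp p Δ + 1 ≤ n := by
  have h1 := mu26_good hp
  have h2 := mu26_prime h1.1
  exact (h p h2.1 h2.2).2 h1.2 (mu26_mem.mp h1.1)

theorem mu26_one_le_absNorm {k : Type} [Field k] [NumberField k] {Δ : Ideal (𝓞 k)}
    (hΔ : Δ ≠ ⊥) : (1 : ℝ) ≤ (Ideal.absNorm Δ : ℝ) := by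
  have h1 : 0 < Ideal.absNorm Δ :=
    Nat.pos_of_ne_zero (fun h => hΔ (Ideal.absNorm_eq_zero_iff.mp h))
  exact_mod_cast h1

theorem mu26_rpow {a x : ℝ} {r : ℕ} (ha : 0 ≤ a) (hx : 1 ≤ x) (hr : 0 < r) (h : a ^ r ≤ x)
    {e : ℝ} (he : 1 / (r : ℝ) ≤ e) : a ≤ x ^ e := by
  have hr' : (r : ℝ) ≠ 0 := by exact_mod_cast hr.ne'
  have h1 : a = (a ^ r) ^ (1 / (r : ℝ)) := by
    rw [← Real.rpow_natCast, ← Real.rpow_mul ha, mul_one_div_cancel hr', Real.rpow_one]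
  rw [h1]
  calc (a ^ r) ^ (1 / (r : ℝ)) ≤ x ^ (1 / (r : ℝ)) :=
        Real.rpow_le_rpow (by positivity) h (by positivity)
    _ ≤ x ^ e := Real.rpow_le_rpow_of_exponent_le hx he

theorem absNorm_modul_le (k : Type) [Field k] [NumberField k] (n N E : ℕ) (hn : 3 ≤ n)
    (Δ : Ideal (𝓞 k)) (hΔ : Δ ≠ ⊥) (h : Expo k n N E 2 Δ) (j : ℕ) (hj : 1 ≤ j) (hjn : j < n) :
    (Ideal.absNorm (modul k n N Δ j) : ℝ) ≤
      (Ideal.absNorm Δ : ℝ) ^ (((j : ℕ) + 1 : ℝ) / (2 * ((n : ℝ) - 1))) := by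
  have hx := mu26_one_le_absNorm hΔ
  have hnR : (3 : ℝ) ≤ (n : ℝ) := by exact_mod_cast hn
  have hjR : (1 : ℝ) ≤ (j : ℝ) := by exact_mod_cast hj
  by_cases hj2 : j + 2 ≤ n
  · have h1 : Ideal.absNorm (modul k n N Δ j) ^ (n - j) ≤ Ideal.absNorm Δ :=
      mu26_pow_le k n N (n - j) Δ hΔ j fun p _ hp => by omega
    have h2 : ((Ideal.absNorm (modul k n N Δ j) : ℝ)) ^ (n - j) ≤ (Ideal.absNorm Δ : ℝ) := by
      exact_mod_cast h1
    refine mu26_rpow (Nat.cast_nonneg _) hx (by omega) h2 ?_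
    have h3 : ((n - j : ℕ) : ℝ) = (n : ℝ) - j := by
      rw [Nat.cast_sub hjn.le]
    have h4 : (j : ℝ) + 2 ≤ (n : ℝ) := by exact_mod_cast hj2
    rw [h3, div_le_div_iff₀ (by linarith) (by linarith)]
    nlinarith [mul_nonneg (sub_nonneg.mpr hjR) (sub_nonneg.mpr h4)]
  · have hj3 : j = n - 1 := by omega
    have h1 : Ideal.absNorm (modul k n N Δ j) ^ 2 ≤ Ideal.absNorm Δ :=
      mu26_pow_le k n N 2 Δ hΔ j fun p hp _ => (mu26_expo h hp).1
    have h2 : ((Ideal.absNorm (modul k n N Δ j) : ℝ)) ^ 2 ≤ (Ideal.absNorm Δ : ℝ) := by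
      exact_mod_cast h1
    refine mu26_rpow (Nat.cast_nonneg _) hx (by omega) h2 ?_
    have h4 : (n : ℝ) = j + 1 := by
      have : n = j + 1 := by omega
      exact_mod_cast this
    rw [div_le_div_iff₀ (by norm_num) (by linarith)]
    push_cast
    linarith

theorem mu26_prod_modul (k : Type) [Field k] [NumberField k] (n N E : ℕ)
    (Δ : Ideal (𝓞 k)) (h : Expo k n N E 2 Δ) :
    ∏ j ∈ Finset.Ico 1 n, Ideal.absNorm (modul k n N Δ j) =
      ∏ p ∈ goodPrimes k N Δ, Ideal.absNorm p ^ vexp p Δ := by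
  classical
  have h1 : ∀ j, Ideal.absNorm (modul k n N Δ j) =
      ∏ p ∈ goodPrimes k N Δ, if n - vexp p Δ ≤ j then Ideal.absNorm p else 1 := by
    intro j
    rw [mu26_absNorm_modul, Finset.prod_filter]
  rw [Finset.prod_congr rfl fun j _ => h1 j, Finset.prod_comm]
  refine Finset.prod_congr rfl fun p hp => ?_
  have h2 := mu26_expo h hp
  rw [← Finset.prod_filter, Finset.prod_const]
  congr 1
  have h3 : (Finset.Ico 1 n).filter (fun j => n - vexp p Δ ≤ j) =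
      Finset.Ico (n - vexp p Δ) n := by
    ext j
    simp only [Finset.mem_filter, Finset.mem_Ico]
    omega
  rw [h3, Nat.card_Ico]
  omega

theorem le_prod_absNorm_modul (k : Type) [Field k] [NumberField k] (n N E : ℕ) (hn : 3 ≤ n)
    (hN : 0 < N) : ∃ W : ℝ, 0 < W ∧ ∀ Δ : Ideal (𝓞 k), Δ ≠ ⊥ → Expo k n N E 2 Δ →
      (Ideal.absNorm Δ : ℝ) ≤ W * ∏ j ∈ Finset.Ico 1 n,
        (Ideal.absNorm (modul k n N Δ j) : ℝ) := by
  classical
  have hN0 : Ideal.span {(N : 𝓞 k)} ≠ ⊥ := by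
    rw [Ne, Ideal.span_singleton_eq_bot]
    exact_mod_cast hN.ne'
  have hNpos : 0 < Ideal.absNorm (Ideal.span {(N : 𝓞 k)}) :=
    Nat.pos_of_ne_zero (fun h => hN0 (Ideal.absNorm_eq_zero_iff.mp h))
  refine ⟨((Ideal.absNorm (Ideal.span {(N : 𝓞 k)}) : ℕ) : ℝ) ^ E, by positivity,
    fun Δ hΔ h => ?_⟩
  have h1 : ((∏ j ∈ Finset.Ico 1 n, (Ideal.absNorm (modul k n N Δ j) : ℝ))) =
      ((∏ p ∈ goodPrimes k N Δ, Ideal.absNorm p ^ vexp p Δ : ℕ) : ℝ) := by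
    rw [← mu26_prod_modul k n N E Δ h]
    push_cast
    rfl
  rw [h1]
  have h2 : Ideal.absNorm Δ ≤ Ideal.absNorm (Ideal.span {(N : 𝓞 k)}) ^ E *
      ∏ p ∈ goodPrimes k N Δ, Ideal.absNorm p ^ vexp p Δ := by
    rw [mu26_absNorm hΔ, ← Finset.prod_filter_mul_prod_filter_not (primeDivs k Δ)
      (fun p => (N : 𝓞 k) ∈ p)]
    refine Nat.mul_le_mul ?_ (le_of_eq ?_)
    · have h3 : ∏ p ∈ (primeDivs k Δ).filter (fun p => (N : 𝓞 k) ∈ p), p ∣
          Ideal.span {(N : 𝓞 k)} := by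
        apply Finset.prod_primes_dvd
        · intro p hp
          rw [Finset.mem_filter] at hp
          have h4 := mu26_prime hp.1
          exact Ideal.prime_of_isPrime h4.2 h4.1
        · intro p hp
          rw [Finset.mem_filter] at hp
          rw [Ideal.dvd_iff_le, Ideal.span_singleton_le_iff_mem]
          exact hp.2
      have h5 : Ideal.absNorm (∏ p ∈ (primeDivs k Δ).filter (fun p => (N : 𝓞 k) ∈ p), p) ≤
          Ideal.absNorm (Ideal.span {(N : 𝓞 k)}) := by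
        refine Nat.le_of_dvd hNpos ?_
        obtain ⟨J, hJ⟩ := h3
        exact ⟨Ideal.absNorm J, by conv_lhs => rw [hJ, map_mul]⟩
      rw [map_prod] at h5
      calc ∏ p ∈ (primeDivs k Δ).filter (fun p => (N : 𝓞 k) ∈ p), Ideal.absNorm p ^ vexp p Δ
          ≤ ∏ p ∈ (primeDivs k Δ).filter (fun p => (N : 𝓞 k) ∈ p), Ideal.absNorm p ^ E := by
            refine Finset.prod_le_prod' fun p hp => ?_
            rw [Finset.mem_filter] at hp
            have h4 := mu26_prime hp.1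
            exact Nat.pow_le_pow_right (mu26_one_le hp.1) ((h p h4.1 h4.2).1 hp.2)
        _ = (∏ p ∈ (primeDivs k Δ).filter (fun p => (N : 𝓞 k) ∈ p), Ideal.absNorm p) ^ E :=
            Finset.prod_pow _ _ _
        _ ≤ Ideal.absNorm (Ideal.span {(N : 𝓞 k)}) ^ E := Nat.pow_le_pow_left h5 E
    · unfold goodPrimes
      congr
  calc (Ideal.absNorm Δ : ℝ) ≤ ((Ideal.absNorm (Ideal.span {(N : 𝓞 k)}) ^ E *
      ∏ p ∈ goodPrimes k N Δ, Ideal.absNorm p ^ vexp p Δ : ℕ) : ℝ) := by exact_mod_cast h2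
    _ = _ := by push_cast; rfl

theorem modul_last (k : Type) [Field k] [NumberField k] (n N E : ℕ) (hn : 3 ≤ n)
    (Δ : Ideal (𝓞 k)) (hΔ : Δ ≠ ⊥) (h : Expo k n N E 2 Δ) :
    modul k n N Δ (n - 2) = modul k n N Δ (n - 1) := by
  classical
  unfold modul
  refine Finset.prod_congr ?_ fun _ _ => rfl
  refine Finset.filter_congr fun p hp => ?_
  have h2 := mu26_expo h hp
  constructor <;> intro _ <;> omega

theorem absNorm_modul_pow_le (k : Type) [Field k] [NumberField k] (n N E r : ℕ) (hn : 3 ≤ n)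
    (Δ : Ideal (𝓞 k)) (hΔ : Δ ≠ ⊥) (h : Expo k n N E r Δ) :
    Ideal.absNorm (modul k n N Δ (n - 1)) ^ r ≤ Ideal.absNorm Δ :=
  mu26_pow_le k n N r Δ hΔ (n - 1) fun _ hp _ => (mu26_expo h hp).1

theorem absNorm_modul_sq_mul_le (k : Type) [Field k] [NumberField k] (n N E : ℕ) (hn : 3 ≤ n)
    (Δ : Ideal (𝓞 k)) (hΔ : Δ ≠ ⊥) (h : Expo k n N E 2 Δ) :
    Ideal.absNorm (modul k n N Δ (n - 1)) ^ 2 * Ideal.absNorm (modul k n N Δ (n - 3)) ≤
      Ideal.absNorm Δ := by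
  classical
  have h1 : ∀ j, Ideal.absNorm (modul k n N Δ j) =
      ∏ p ∈ goodPrimes k N Δ, if n - vexp p Δ ≤ j then Ideal.absNorm p else 1 := by
    intro j
    rw [mu26_absNorm_modul, Finset.prod_filter]
  rw [h1, h1, ← Finset.prod_pow, ← Finset.prod_mul_distrib]
  have h2 : ∏ p ∈ goodPrimes k N Δ, ((if n - vexp p Δ ≤ n - 1 then Ideal.absNorm p else 1) ^ 2 *
      (if n - vexp p Δ ≤ n - 3 then Ideal.absNorm p else 1)) =
      ∏ p ∈ goodPrimes k N Δ, Ideal.absNorm p ^ (if n - vexp p Δ ≤ n - 3 then 3 else 2) := by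
    refine Finset.prod_congr rfl fun p hp => ?_
    have h3 := mu26_expo h hp
    have h4 : n - vexp p Δ ≤ n - 1 := by omega
    rw [if_pos h4]
    split_ifs
    · ring
    · ring
  rw [h2]
  refine mu26_prod_le hΔ _ (fun p hp => (mu26_good hp).1) _ fun p hp => ?_
  have h3 := mu26_expo h hp
  split_ifs with h4
  · omega
  · exact h3.1

/-- few prime divisors -/
theorem pow_primeDivs_le (k : Type) [Field k] [NumberField k] (m : ℕ) (ε : ℝ) (hε : 0 < ε) :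
    ∃ C : ℝ, 1 ≤ C ∧ ∀ I : Ideal (𝓞 k), I ≠ ⊥ →
      (m : ℝ) ^ (primeDivs k I).card ≤ C * (Ideal.absNorm I : ℝ) ^ ε := by
  obtain ⟨C, hC, h⟩ := pow_card_le k m ε hε
  refine ⟨C, hC, fun I hI => h I hI (primeDivs k I) fun p hp => ?_⟩
  have h2 := mu26_prime hp
  exact ⟨h2.1, h2.2, mu26_mem.mp hp⟩

end Pool.Agent.H67.MU
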