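import Pool.Agent.H67.MU.Defs2
import Pool.Agent.H67.MU.Bdd
import Pool.Agent.H67.MU.Coeff
import Pool.Agent.H67.MU.Comb2
import Pool.Agent.H67.MU.Modul

/-!
# Project MU, MU-25: the count for one discriminant, with some better coordinates
-/

set_option autoImplicit false

open Polynomial IsDedekindDomain NumberField UniqueFactorizationMonoid

namespace Pool.Agent.H67.MU

theorem adm_finite (k : Type) [Field k] [NumberField k] (n N : ℕ) (c : ℝ) (Δ : Ideal (𝓞 k)) :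
    (adm k n N c Δ).Finite := by
  obtain ⟨C, -, hC⟩ := bdd_mem_count k
  have h1 : ∀ T : ℝ, {y : 𝓞 k | Bdd T y}.Finite := by
    intro T
    refine (hC (max T 0) (le_max_right _ _) ⊤ top_ne_bot).1.subset ?_
    intro y hy
    exact ⟨fun φ => (hy φ).trans (le_max_left _ _), Submodule.mem_top⟩
  refine (Set.Finite.pi' fun j : Fin n => h1 (c * ((Ideal.absNorm Δ : ℝ) ^
      (1 / (2 * Module.finrank ℚ k * (n - 1) : ℝ))) ^ ((j : ℕ) + 1))).subset ?_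
  intro a ha j
  exact ha.2.1 j

/-- The residues of admissible vectors modulo a good prime. -/
theorem mu25_tail {k : Type} [Field k] [NumberField k] {n N C0 : ℕ} (htail : TailBound n N C0)
    {c : ℝ} {Δ : Ideal (𝓞 k)} (p : Ideal (𝓞 k)) (hp : p.IsPrime) (hp0 : p ≠ ⊥)
    (hN : (N : 𝓞 k) ∉ p) (X : Finset (Fin n → 𝓞 k)) (hX : ∀ a ∈ X, a ∈ adm k n N c Δ)
    (q : Fin n → 𝓞 k ⧸ p) :
    Set.ncard {w : Fin n → 𝓞 k ⧸ p | (∃ a ∈ X, w = fun j => Ideal.Quotient.mk p (a j)) ∧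
      ∀ j : Fin n, (j : ℕ) < n - vexp p Δ → w j = q j} ≤ C0 := by
  have : p.IsMaximal := hp.isMaximal hp0
  let _ : Field (𝓞 k ⧸ p) := Ideal.Quotient.field p
  let Ω := AlgebraicClosure (𝓞 k ⧸ p)
  let ι : 𝓞 k ⧸ p →+* Ω := algebraMap _ _
  have hι : Function.Injective ι := ι.injective
  let ψ : 𝓞 k →+* Ω := ι.comp (Ideal.Quotient.mk p)
  have hker : RingHom.ker ψ = p := by
    ext y
    rw [RingHom.mem_ker, ← Ideal.Quotient.eq_zero_iff_mem]
    change ι (Ideal.Quotient.mk p y) = 0 ↔ _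
    rw [map_eq_zero_iff ι hι]
  have hNΩ : (N : Ω) ≠ 0 := by
    intro h
    apply hN
    rw [← hker, RingHom.mem_ker, map_natCast]
    exact h
  obtain ⟨h1, h2⟩ := htail Ω hNΩ (n - vexp p Δ) (Nat.sub_le _ _) (fun j => ι (q j))
  refine le_trans (Set.ncard_le_ncard_of_injOn (fun w j => ι (w j)) ?_ ?_ h1) h2
  · rintro w ⟨⟨a, haX, rfl⟩, hw⟩
    refine ⟨fun j hj => by rw [← hw j hj], ?_⟩
    have h3 := (hX a haX).2.2 p hp hp0 hN Ω ψ hker
    rw [monicOf_map] at h3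
    exact h3
  · intro w _ w' _ hww
    funext j
    exact hι (congrFun hww j)

/-- The elements congruent modulo the good primes are congruent modulo their product. -/
theorem mu25_mem_modul {k : Type} [Field k] [NumberField k] (n N : ℕ) (Δ : Ideal (𝓞 k)) (j : ℕ)
    (y : 𝓞 k) (h : ∀ p ∈ goodPrimes k N Δ, n - vexp p Δ ≤ j → y ∈ p) :
    y ∈ modul k n N Δ j := by
  classical
  unfold modul
  rw [← Ideal.dvd_span_singleton]
  refine Finset.prod_primes_dvd _ ?_ ?_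
  · intro p hp
    obtain ⟨h1, h2⟩ := Finset.mem_filter.1 hp
    obtain ⟨h3, h4⟩ := mu26_prime (mu26_good h1).1
    exact Ideal.prime_of_isPrime h4 h3
  · intro p hp
    obtain ⟨h1, h2⟩ := Finset.mem_filter.1 hp
    rw [Ideal.dvd_span_singleton]
    exact h p h1 h2

/-- The number of values of one coordinate. -/
theorem mu25_coord (k : Type) [Field k] [NumberField k] (n N E : ℕ) (hn : 3 ≤ n)
    (c : ℝ) (hc : 0 < c) : ∃ C : ℝ, 1 ≤ C ∧ ∀ Δ : Ideal (𝓞 k), Δ ≠ ⊥ → Expo k n N E 2 Δ →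
      ∀ (j : ℕ), 1 ≤ j → j < n → ∀ y0 : 𝓞 k,
        Bdd (c * ((Ideal.absNorm Δ : ℝ) ^ (1 / (2 * Module.finrank ℚ k * (n - 1) : ℝ))) ^ (j + 1))
          y0 →
        Set.Finite {y : 𝓞 k | Bdd (c * ((Ideal.absNorm Δ : ℝ) ^
          (1 / (2 * Module.finrank ℚ k * (n - 1) : ℝ))) ^ (j + 1)) y ∧
            y - y0 ∈ modul k n N Δ j} ∧
        (Set.ncard {y : 𝓞 k | Bdd (c * ((Ideal.absNorm Δ : ℝ) ^
          (1 / (2 * Module.finrank ℚ k * (n - 1) : ℝ))) ^ (j + 1)) y ∧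
            y - y0 ∈ modul k n N Δ j} : ℝ) ≤
          C * ((Ideal.absNorm Δ : ℝ) ^ (((j : ℕ) + 1 : ℝ) / (2 * ((n : ℝ) - 1))) /
            (Ideal.absNorm (modul k n N Δ j) : ℝ)) := by
  obtain ⟨C8, hC8, hcount⟩ := bdd_mem_count k
  set m := Module.finrank ℚ k with hm
  have hm0 : 0 < m := Module.finrank_pos
  refine ⟨C8 * ((2 * c) ^ m + 1), ?_, ?_⟩
  · have h1 : (0 : ℝ) ≤ (2 * c) ^ m := by positivity
    nlinarith
  intro Δ hΔ hexp j hj hjn y0 hy0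
  set x : ℝ := (Ideal.absNorm Δ : ℝ) with hx
  have hx1 : 1 ≤ x := by
    have h1 : 0 < Ideal.absNorm Δ :=
      Nat.pos_of_ne_zero fun h => hΔ (Ideal.absNorm_eq_zero_iff.mp h)
    rw [hx]; exact_mod_cast h1
  have hx0 : 0 < x := by linarith
  set H : ℝ := x ^ (1 / (2 * m * (n - 1) : ℝ)) with hH
  have hH0 : 0 < H := Real.rpow_pos_of_pos hx0 _
  have hn1 : (0 : ℝ) < (n : ℝ) - 1 := by
    have : (3 : ℝ) ≤ n := by exact_mod_cast hn
    linarith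
  have hm0' : (0 : ℝ) < m := by exact_mod_cast hm0
  have hHm : (H ^ (j + 1)) ^ m = x ^ (((j : ℕ) + 1 : ℝ) / (2 * ((n : ℝ) - 1))) := by
    rw [hH, ← pow_mul, ← Real.rpow_natCast, ← Real.rpow_mul hx0.le]
    congr 1
    push_cast
    field_simp
  set I := modul k n N Δ j with hI
  have hI0 : I ≠ ⊥ := modul_ne_bot k n N Δ j
  have hNI : (0 : ℝ) < Ideal.absNorm I := by
    have h1 : 0 < Ideal.absNorm I :=
      Nat.pos_of_ne_zero fun h => hI0 (Ideal.absNorm_eq_zero_iff.mp h)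
    exact_mod_cast h1
  have hle : (Ideal.absNorm I : ℝ) ≤ x ^ (((j : ℕ) + 1 : ℝ) / (2 * ((n : ℝ) - 1))) :=
    absNorm_modul_le k n N E hn Δ hΔ hexp j hj hjn
  obtain ⟨hf, hb⟩ := hcount (2 * c * H ^ (j + 1)) (by positivity) I hI0
  have hmaps : ∀ y ∈ {y : 𝓞 k | Bdd (c * H ^ (j + 1)) y ∧ y - y0 ∈ I},
      y - y0 ∈ {a : 𝓞 k | Bdd (2 * c * H ^ (j + 1)) a ∧ a ∈ I} := by
    rintro y ⟨hy1, hy2⟩
    refine ⟨fun φ => ?_, hy2⟩
    have e1 : φ ((y - y0 : 𝓞 k) : k) = φ (y : k) - φ (y0 : k) := by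
      rw [← map_sub]; rfl
    rw [e1]
    calc ‖φ (y : k) - φ (y0 : k)‖ ≤ ‖φ (y : k)‖ + ‖φ (y0 : k)‖ := norm_sub_le _ _
      _ ≤ c * H ^ (j + 1) + c * H ^ (j + 1) := add_le_add (hy1 φ) (hy0 φ)
      _ = 2 * c * H ^ (j + 1) := by ring
  have hinj : Set.InjOn (fun y : 𝓞 k => y - y0)
      {y : 𝓞 k | Bdd (c * H ^ (j + 1)) y ∧ y - y0 ∈ I} := fun y _ y' _ h => sub_left_injective h
  refine ⟨Set.Finite.of_injOn hmaps hinj hf, ?_⟩
  have h1 : (Set.ncard {y : 𝓞 k | Bdd (c * H ^ (j + 1)) y ∧ y - y0 ∈ I} : ℝ) ≤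
      (Set.ncard {a : 𝓞 k | Bdd (2 * c * H ^ (j + 1)) a ∧ a ∈ I} : ℝ) := by
    exact_mod_cast Set.ncard_le_ncard_of_injOn (fun y : 𝓞 k => y - y0) hmaps hinj hf
  refine h1.trans (hb.trans ?_)
  rw [mul_pow, hHm, mul_assoc]
  refine mul_le_mul_of_nonneg_left ?_ (by linarith)
  set u : ℝ := x ^ (((j : ℕ) + 1 : ℝ) / (2 * ((n : ℝ) - 1))) with hu
  have h2 : 1 ≤ u / (Ideal.absNorm I : ℝ) := by
    rw [le_div_iff₀ hNI]; linarith
  have h3 : (2 * c) ^ m * u / (Ideal.absNorm I : ℝ) = (2 * c) ^ m * (u / (Ideal.absNorm I : ℝ)) :=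
    mul_div_assoc _ _ _
  rw [h3]
  linarith

theorem adm_gen (k : Type) [Field k] [NumberField k] (n N C0 E : ℕ) (hn : 3 ≤ n) (hN : 0 < N)
    (c : ℝ) (hc : 0 < c) (htail : TailBound n N C0) (ε : ℝ) (hε : 0 < ε) :
    ∃ C : ℝ, 0 < C ∧ ∀ Δ : Ideal (𝓞 k), Δ ≠ ⊥ → Expo k n N E 2 Δ →
      ∀ X : Finset (Fin n → 𝓞 k), (∀ a ∈ X, a ∈ adm k n N c Δ) →
      ∀ (J : Finset (Fin n)) (N' : Fin n → ℝ), (∀ j ∈ J, 0 ≤ N' j) → (∀ j ∈ J, ∀ a ∈ X,
        (Set.ncard {y : 𝓞 k | ∃ b ∈ X, b j = y ∧ (∀ i : Fin n, i < j → b i = a i) ∧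
          y - a j ∈ modul k n N Δ j} : ℝ) ≤ N' j) →
      (X.card : ℝ) ≤ C * (Ideal.absNorm Δ : ℝ) ^ ε * ∏ j : Fin n, (if j ∈ J then N' j else
        if (j : ℕ) = 0 then 1 else
          (Ideal.absNorm Δ : ℝ) ^ (((j : ℕ) + 1 : ℝ) / (2 * ((n : ℝ) - 1))) /
            (Ideal.absNorm (modul k n N Δ j) : ℝ)) := by
  classical
  obtain ⟨C1, hC1, hcoord⟩ := mu25_coord k n N E hn c hc
  obtain ⟨C2, hC2, hpr⟩ := pow_primeDivs_le k (max C0 1) ε hε
  refine ⟨C2 * C1 ^ n, by positivity, ?_⟩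
  intro Δ hΔ hexp X hX J N' hN'0 hN'
  set x : ℝ := (Ideal.absNorm Δ : ℝ) with hx
  have hx1 : 1 ≤ x := by
    have h1 : 0 < Ideal.absNorm Δ :=
      Nat.pos_of_ne_zero fun h => hΔ (Ideal.absNorm_eq_zero_iff.mp h)
    rw [hx]; exact_mod_cast h1
  have hx0 : 0 < x := by linarith
  set g : Fin n → ℝ := fun j => if j ∈ J then N' j else if (j : ℕ) = 0 then 1 else
    x ^ (((j : ℕ) + 1 : ℝ) / (2 * ((n : ℝ) - 1))) / (Ideal.absNorm (modul k n N Δ j) : ℝ) with hg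
  have hg0 : ∀ j, 0 ≤ g j := by
    intro j
    rw [hg]
    dsimp only
    split_ifs with h1 h2
    · exact hN'0 j h1
    · exact zero_le_one
    · positivity
  set Nn : Fin n → ℕ := fun j => ⌊C1 * g j⌋₊ with hNn
  have hNn' : ∀ j, (Nn j : ℝ) ≤ C1 * g j := fun j =>
    Nat.floor_le (mul_nonneg (by linarith) (hg0 j))
  have hmain := count_le2 (fun p : Ideal (𝓞 k) => 𝓞 k ⧸ p) (fun p => Ideal.Quotient.mk p)
    (goodPrimes k N Δ) (fun p => n - vexp p Δ) C0 Nn X ?_ ?_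
  · have h1 : (X.card : ℝ) ≤ (C0 : ℝ) ^ (goodPrimes k N Δ).card * ∏ j, (Nn j : ℝ) := by
      exact_mod_cast hmain
    have h2 : (C0 : ℝ) ^ (goodPrimes k N Δ).card ≤ C2 * x ^ ε := by
      refine le_trans ?_ (hpr Δ hΔ)
      have h3 : (C0 : ℝ) ≤ ((max C0 1 : ℕ) : ℝ) := by exact_mod_cast le_max_left _ _
      have h4 : (1 : ℝ) ≤ ((max C0 1 : ℕ) : ℝ) := by exact_mod_cast le_max_right _ _
      calc (C0 : ℝ) ^ (goodPrimes k N Δ).card
          ≤ ((max C0 1 : ℕ) : ℝ) ^ (goodPrimes k N Δ).card :=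
            pow_le_pow_left₀ (by positivity) h3 _
        _ ≤ ((max C0 1 : ℕ) : ℝ) ^ (primeDivs k Δ).card := by
            refine pow_le_pow_right₀ h4 (Finset.card_le_card ?_)
            intro p hp
            exact (mu26_good hp).1
    have h3 : ∏ j, (Nn j : ℝ) ≤ C1 ^ n * ∏ j, g j := by
      calc ∏ j, (Nn j : ℝ) ≤ ∏ j, (C1 * g j) :=
            Finset.prod_le_prod (fun j _ => Nat.cast_nonneg _) (fun j _ => hNn' j)
        _ = C1 ^ n * ∏ j, g j := by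
            rw [Finset.prod_mul_distrib, Finset.prod_const, Finset.card_univ, Fintype.card_fin]
    calc (X.card : ℝ) ≤ (C0 : ℝ) ^ (goodPrimes k N Δ).card * ∏ j, (Nn j : ℝ) := h1
      _ ≤ (C2 * x ^ ε) * (C1 ^ n * ∏ j, g j) :=
          mul_le_mul h2 h3 (Finset.prod_nonneg fun j _ => Nat.cast_nonneg _) (by positivity)
      _ = C2 * C1 ^ n * x ^ ε * ∏ j, g j := by ring
  · intro p hp q
    obtain ⟨h1, h2⟩ := mu26_good hp
    obtain ⟨h3, h4⟩ := mu26_prime h1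
    exact mu25_tail htail p h3 h4 h2 X hX q
  · intro j a ha
    have hsub : {y : 𝓞 k | ∃ b ∈ X, b j = y ∧ (∀ i : Fin n, i < j → b i = a i) ∧
        ∀ p ∈ goodPrimes k N Δ, n - vexp p Δ ≤ (j : ℕ) →
          Ideal.Quotient.mk p y = Ideal.Quotient.mk p (a j)} ⊆
        {y : 𝓞 k | ∃ b ∈ X, b j = y ∧ (∀ i : Fin n, i < j → b i = a i) ∧
          y - a j ∈ modul k n N Δ j} := by
      rintro y ⟨b, hb, hby, hpre, hy⟩
      refine ⟨b, hb, hby, hpre, mu25_mem_modul n N Δ j _ fun p hp hpj => ?_⟩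
      rw [← Ideal.Quotient.eq]
      exact hy p hp hpj
    have hfin : {y : 𝓞 k | ∃ b ∈ X, b j = y ∧ (∀ i : Fin n, i < j → b i = a i) ∧
          y - a j ∈ modul k n N Δ j}.Finite := by
      refine ((X.image fun b => b j).finite_toSet).subset ?_
      rintro y ⟨b, hb, hby, -, -⟩
      exact Finset.mem_coe.2 (Finset.mem_image.2 ⟨b, hb, hby⟩)
    refine (Set.ncard_le_ncard hsub hfin).trans ?_
    refine Nat.le_floor ?_
    by_cases hjJ : j ∈ J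
    · have h1 : g j = N' j := by rw [hg]; dsimp only; rw [if_pos hjJ]
      rw [h1]
      have h2 := hN'0 j hjJ
      exact (hN' j hjJ a ha).trans (by nlinarith)
    · by_cases hj0 : (j : ℕ) = 0
      · have h1 : g j = 1 := by rw [hg]; dsimp only; rw [if_neg hjJ, if_pos hj0]
        rw [h1, mul_one]
        have h2 : {y : 𝓞 k | ∃ b ∈ X, b j = y ∧ (∀ i : Fin n, i < j → b i = a i) ∧
            y - a j ∈ modul k n N Δ j} ⊆ {0} := by
          rintro y ⟨b, hb, rfl, -, -⟩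
          exact Set.mem_singleton_iff.2 ((hX b hb).1 j hj0)
        have h3 : (Set.ncard {y : 𝓞 k | ∃ b ∈ X, b j = y ∧ (∀ i : Fin n, i < j → b i = a i) ∧
            y - a j ∈ modul k n N Δ j} : ℝ) ≤ 1 := by
          have h4 := Set.ncard_le_ncard h2 (Set.finite_singleton 0)
          rw [Set.ncard_singleton] at h4
          exact_mod_cast h4
        linarith
      · have h1 : g j = x ^ (((j : ℕ) + 1 : ℝ) / (2 * ((n : ℝ) - 1))) /
            (Ideal.absNorm (modul k n N Δ j) : ℝ) := by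
          rw [hg]; dsimp only; rw [if_neg hjJ, if_neg hj0]
        rw [h1]
        obtain ⟨hf, hb⟩ := hcoord Δ hΔ hexp j (Nat.one_le_iff_ne_zero.2 hj0) j.2 (a j)
          ((hX a ha).2.1 j)
        refine le_trans ?_ hb
        have h2 : {y : 𝓞 k | ∃ b ∈ X, b j = y ∧ (∀ i : Fin n, i < j → b i = a i) ∧
            y - a j ∈ modul k n N Δ j} ⊆ {y : 𝓞 k | Bdd (c * ((Ideal.absNorm Δ : ℝ) ^
            (1 / (2 * Module.finrank ℚ k * (n - 1) : ℝ))) ^ ((j : ℕ) + 1)) y ∧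
              y - a j ∈ modul k n N Δ j} := by
          rintro y ⟨b, hb, rfl, -, hy⟩
          exact ⟨(hX b hb).2.1 j, hy⟩
        exact_mod_cast Set.ncard_le_ncard h2 hf

end Pool.Agent.H67.MU
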