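import Mathlib

/-!
# Project MU, block IMP, row IMP-5: dyadic summation
-/

set_option autoImplicit false

namespace Pool.Agent.H67.MU

/-- the dyadic range of `x ≥ 1` -/
theorem imp5_range {x : ℝ} (hx : 1 ≤ x) :
    (2 : ℝ) ^ ⌊Real.logb 2 x⌋₊ ≤ x ∧ x ≤ (2 : ℝ) ^ (⌊Real.logb 2 x⌋₊ + 1) := by
  have hx0 : 0 < x := by linarith
  have hl : 0 ≤ Real.logb 2 x := Real.logb_nonneg (by norm_num) hx
  constructor
  · rw [← Real.rpow_natCast, ← Real.le_logb_iff_rpow_le (by norm_num) hx0]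
    exact Nat.floor_le hl
  · rw [← Real.rpow_natCast, ← Real.logb_le_iff_le_rpow (by norm_num) hx0]
    push_cast
    exact (Nat.lt_floor_add_one _).le

open scoped Classical in
theorem sum_inv_le (β α C : ℝ) (hβ : 0 ≤ β) (hα : 0 ≤ α) (hC : 0 ≤ C) : ∃ C' : ℝ, 1 ≤ C' ∧
    ∀ (ι : Type) (S : Finset ι) (N : ι → ℝ) (Z : ℝ), 1 ≤ Z → (∀ s ∈ S, 1 ≤ N s ∧ N s ≤ Z) →
      (∀ Y : ℝ, 1 ≤ Y → ((S.filter (fun s => N s ≤ Y)).card : ℝ) ≤ C * Y ^ β) →
      ∑ s ∈ S, N s ^ (-α) ≤ C' * (1 + Real.log Z) * max 1 (Z ^ (β - α)) := by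
  have hlog2 : 0 < Real.log 2 := Real.log_pos (by norm_num)
  have hlog2' : Real.log 2 ≤ 1 := by
    have := Real.log_two_lt_d9
    linarith
  refine ⟨1 + C * 2 ^ β / Real.log 2, by
    have : 0 ≤ C * 2 ^ β / Real.log 2 := by positivity
    linarith, ?_⟩
  intro ι S N Z hZ hN hcard
  have hZ0 : 0 < Z := by linarith
  have hlZ : 0 ≤ Real.log Z := Real.log_nonneg hZ
  set L : ℕ := ⌊Real.logb 2 Z⌋₊ with hL
  set M : ℝ := max 1 (Z ^ (β - α)) with hM
  have hM1 : 1 ≤ M := le_max_left _ _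
  let g : ι → ℕ := fun s => ⌊Real.logb 2 (N s)⌋₊
  have hg : ∀ s ∈ S, g s ∈ Finset.range (L + 1) := by
    intro s hs
    rw [Finset.mem_range, Nat.lt_succ_iff]
    apply Nat.floor_le_floor
    exact Real.logb_le_logb_of_le (by norm_num) (by linarith [(hN s hs).1]) (hN s hs).2
  rw [← Finset.sum_fiberwise_of_maps_to hg]
  have key : ∀ i ∈ Finset.range (L + 1), ∑ s ∈ S with g s = i, N s ^ (-α) ≤ C * 2 ^ β * M := by
    intro i hi
    rw [Finset.mem_range, Nat.lt_succ_iff] at hi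
    have h2i : (1 : ℝ) ≤ 2 ^ i := one_le_pow₀ (by norm_num)
    have h2i0 : (0 : ℝ) < 2 ^ i := by positivity
    have h2iZ : (2 : ℝ) ^ i ≤ Z :=
      (pow_le_pow_right₀ (by norm_num) hi).trans (imp5_range hZ).1
    have h1 : ∀ s ∈ S.filter (fun s => g s = i), N s ^ (-α) ≤ ((2 : ℝ) ^ i) ^ (-α) := by
      intro s hs
      rw [Finset.mem_filter] at hs
      apply Real.rpow_le_rpow_of_nonpos h2i0 _ (by linarith)
      have := (imp5_range (hN s hs.1).1).1
      rwa [← hs.2]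
    have h2 : ((S.filter (fun s => g s = i)).card : ℝ) ≤ C * ((2 : ℝ) ^ (i + 1)) ^ β := by
      refine le_trans ?_ (hcard ((2 : ℝ) ^ (i + 1)) (one_le_pow₀ (by norm_num)))
      have : S.filter (fun s => g s = i) ⊆ S.filter (fun s => N s ≤ (2 : ℝ) ^ (i + 1)) := by
        intro s hs
        rw [Finset.mem_filter] at hs ⊢
        refine ⟨hs.1, ?_⟩
        have := (imp5_range (hN s hs.1).1).2
        rwa [← hs.2]
      exact_mod_cast Finset.card_le_card this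
    have h3 : ((2 : ℝ) ^ (i + 1)) ^ β = 2 ^ β * ((2 : ℝ) ^ i) ^ β := by
      rw [pow_succ, mul_comm, Real.mul_rpow (by norm_num) h2i0.le]
    have h4 : ((2 : ℝ) ^ i) ^ β * ((2 : ℝ) ^ i) ^ (-α) ≤ M := by
      rw [← Real.rpow_add h2i0, ← sub_eq_add_neg]
      rcases le_total 0 (β - α) with h | h
      · exact (Real.rpow_le_rpow h2i0.le h2iZ h).trans (le_max_right _ _)
      · exact (Real.rpow_le_one_of_one_le_of_nonpos h2i h).trans (le_max_left _ _)
    calc ∑ s ∈ S with g s = i, N s ^ (-α)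
        ≤ ∑ _s ∈ S with g _s = i, ((2 : ℝ) ^ i) ^ (-α) := Finset.sum_le_sum h1
      _ = ((S.filter (fun s => g s = i)).card : ℝ) * ((2 : ℝ) ^ i) ^ (-α) := by
          rw [Finset.sum_const, nsmul_eq_mul]
      _ ≤ C * ((2 : ℝ) ^ (i + 1)) ^ β * ((2 : ℝ) ^ i) ^ (-α) :=
          mul_le_mul_of_nonneg_right h2 (by positivity)
      _ = C * 2 ^ β * (((2 : ℝ) ^ i) ^ β * ((2 : ℝ) ^ i) ^ (-α)) := by rw [h3]; ring
      _ ≤ C * 2 ^ β * M := mul_le_mul_of_nonneg_left h4 (by positivity)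
  have hL1 : (L : ℝ) + 1 ≤ (1 + Real.log Z) / Real.log 2 := by
    have h5 : (L : ℝ) ≤ Real.logb 2 Z := Nat.floor_le (Real.logb_nonneg (by norm_num) hZ)
    have h6 : Real.logb 2 Z = Real.log Z / Real.log 2 := rfl
    have h7 : 1 ≤ 1 / Real.log 2 := by
      rw [le_div_iff₀ hlog2]
      linarith
    rw [add_div, ← h6]
    linarith
  calc ∑ i ∈ Finset.range (L + 1), ∑ s ∈ S with g s = i, N s ^ (-α)
      ≤ ∑ _i ∈ Finset.range (L + 1), C * 2 ^ β * M := Finset.sum_le_sum key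
    _ = ((L : ℝ) + 1) * (C * 2 ^ β * M) := by
        rw [Finset.sum_const, Finset.card_range, nsmul_eq_mul]
        push_cast
        ring
    _ ≤ (1 + Real.log Z) / Real.log 2 * (C * 2 ^ β * M) :=
        mul_le_mul_of_nonneg_right hL1 (by positivity)
    _ = C * 2 ^ β / Real.log 2 * (1 + Real.log Z) * M := by ring
    _ ≤ (1 + C * 2 ^ β / Real.log 2) * (1 + Real.log Z) * M := by
        apply mul_le_mul_of_nonneg_right _ (by positivity)
        apply mul_le_mul_of_nonneg_right _ (by positivity)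
        linarith

end Pool.Agent.H67.MU
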