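import Pool.Agent.H67.MU.Over
import Pool.Agent.H67.MU.SumW

/-!
# Project MU (MP_a3214d), row IMP-6: towers with given degrees

The number of extensions `K / k` of degree `d e` that have a subfield `F` of degree `e` with no
field between `F` and `K`.
-/

set_option autoImplicit false

open Polynomial IsDedekindDomain NumberField

namespace Pool.Agent.H67.MU

/-- A finite extension of a number field is a number field. -/
private theorem imp6_nf {k : Type} [Field k] [NumberField k]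
    (F : IntermediateField k (AlgebraicClosure k)) (h : 0 < Module.finrank k F) :
    NumberField F := by
  have : FiniteDimensional k F := Module.finite_of_finrank_pos h
  have : FiniteDimensional ℚ F := FiniteDimensional.trans ℚ k F
  have : CharZero F := inferInstance
  exact { to_charZero := inferInstance, to_finiteDimensional := inferInstance }

private theorem imp6_mem {k : Type} [Field k] [NumberField k] {e : ℕ} (he : 0 < e) {Y : ℝ}
    (F : IntermediateField k (AlgebraicClosure k)) :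
    F ∈ Subs k e Y ↔ Module.finrank k F = e ∧ dab F ≤ Y := by
  constructor
  · rintro ⟨h1, h2, h3⟩
    refine ⟨h1, ?_⟩
    rw [dab, dif_pos h2]
    exact h3
  · rintro ⟨h1, h2⟩
    have h3 : NumberField F := imp6_nf F (by omega)
    rw [dab, dif_pos h3] at h2
    exact ⟨h1, h3, h2⟩

/-- The two inequalities of the exponents. -/
private theorem imp6_exp (d e : ℕ) (hd : 2 ≤ d) (he : 2 ≤ e) :
    ((d : ℝ) + 2) / 4 ≤ ((d * e : ℕ) : ℝ) / 8 + 1 / 2 ∧
      ((d : ℝ) + 2) / 4 + (1 / (d : ℝ)) * (((e : ℝ) + 2) / 4 - ((d : ℝ) + 2) / 4) ≤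
        ((d * e : ℕ) : ℝ) / 8 + 1 / 2 := by
  have hd' : (2 : ℝ) ≤ d := by exact_mod_cast hd
  have he' : (2 : ℝ) ≤ e := by exact_mod_cast he
  have hd0 : (0 : ℝ) < d := by linarith
  push_cast
  constructor
  · nlinarith
  · have h1 : ((d : ℝ) + 2) / 4 + (1 / (d : ℝ)) * (((e : ℝ) + 2) / 4 - ((d : ℝ) + 2) / 4) =
        (2 * d ^ 2 + 2 * d + 2 * e) / (8 * d) := by
      field_simp
      ring
    have h2 : (d : ℝ) * e / 8 + 1 / 2 = (d ^ 2 * e + 4 * d) / (8 * d) := by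
      field_simp
      ring
    rw [h1, h2]
    apply div_le_div_of_nonneg_right _ (by positivity)
    nlinarith [mul_nonneg (sub_nonneg.2 hd') (sub_nonneg.2 he'),
      mul_nonneg (mul_nonneg (sub_nonneg.2 hd') (sub_nonneg.2 he')) hd0.le]

theorem pair_count (k : Type) [Field k] [NumberField k] (d e : ℕ) (hd : 2 ≤ d) (he : 2 ≤ e)
    (C₁ : ℝ) (h : ∀ Y : ℝ, 1 ≤ Y → (Subs k e Y).Finite ∧
      ((Subs k e Y).ncard : ℝ) ≤ C₁ * Y ^ (((e : ℝ) + 2) / 4)) :
    ∃ C : ℝ, 1 ≤ C ∧ ∀ X : ℝ, 1 ≤ X →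
      {K ∈ Subs k (d * e) X | ∃ F : IntermediateField k (AlgebraicClosure k),
        Module.finrank k F = e ∧ F ⋖ K}.Finite ∧
      ({K ∈ Subs k (d * e) X | ∃ F : IntermediateField k (AlgebraicClosure k),
        Module.finrank k F = e ∧ F ⋖ K}.ncard : ℝ) ≤
        C * X ^ (((d * e : ℕ) : ℝ) / 8 + 1 / 2) * (1 + Real.log X) := by
  classical
  have hd0 : 0 < d := by omega
  have he0 : 0 < e := by omega
  have hdR : (0 : ℝ) < d := by exact_mod_cast hd0
  obtain ⟨hx1, hx2⟩ := imp6_exp d e hd he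
  obtain ⟨C₂, hC₂, hover⟩ := over_count k (d * e)
  have hC₁ : 0 ≤ C₁ := by
    have h1 := (h 1 le_rfl).2
    rw [Real.one_rpow, mul_one] at h1
    exact le_trans (Nat.cast_nonneg _) h1
  obtain ⟨C₃, hC₃, hsum⟩ := sum_inv_le (((e : ℝ) + 2) / 4) (((d : ℝ) + 2) / 4) C₁ (by positivity)
    (by positivity) hC₁
  refine ⟨C₂ * C₃, one_le_mul_of_one_le_of_one_le hC₂ hC₃, ?_⟩
  intro X hX
  have hX0 : (0 : ℝ) < X := by linarith
  have hlogX : 0 ≤ Real.log X := Real.log_nonneg hX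
  obtain ⟨Z, hZ⟩ : ∃ Z : ℝ, Z = X ^ (1 / (d : ℝ)) := ⟨_, rfl⟩
  have hZ1 : 1 ≤ Z := by
    rw [hZ]
    exact Real.one_le_rpow hX (by positivity)
  have hTfin := (h Z hZ1).1
  -- the union
  have hsub : {K ∈ Subs k (d * e) X | ∃ F : IntermediateField k (AlgebraicClosure k),
      Module.finrank k F = e ∧ F ⋖ K} ⊆
      ⋃ F ∈ hTfin.toFinset, {K ∈ Subs k (d * e) X | F ⋖ K} := by
    rintro K ⟨hK, F, hF, hFK⟩
    rw [Set.mem_iUnion₂]
    refine ⟨F, ?_, hK, hFK⟩
    rw [Set.Finite.mem_toFinset, imp6_mem he0]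
    refine ⟨hF, ?_⟩
    have h1 := (dab_pow_le hK hFK.le).2
    rw [hF, Nat.mul_div_cancel _ he0] at h1
    have h2 : 0 ≤ dab F := le_trans zero_le_one (one_le_dab F)
    rw [hZ, one_div, Real.le_rpow_inv_iff_of_pos h2 hX0.le hdR, Real.rpow_natCast]
    exact h1
  have hfinU : (⋃ F ∈ hTfin.toFinset, {K ∈ Subs k (d * e) X | F ⋖ K}).Finite :=
    Set.Finite.biUnion (Finset.finite_toSet _) (fun F _ => (hover F X hX).1)
  refine ⟨hfinU.subset hsub, ?_⟩
  have hcard : ({K ∈ Subs k (d * e) X | ∃ F : IntermediateField k (AlgebraicClosure k),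
      Module.finrank k F = e ∧ F ⋖ K}.ncard : ℝ) ≤
      ∑ F ∈ hTfin.toFinset, (({K ∈ Subs k (d * e) X | F ⋖ K}.ncard : ℕ) : ℝ) := by
    have h1 := Set.ncard_le_ncard hsub hfinU
    have h2 : (⋃ F ∈ hTfin.toFinset, {K ∈ Subs k (d * e) X | F ⋖ K}).ncard ≤
        ∑ F ∈ hTfin.toFinset, {K ∈ Subs k (d * e) X | F ⋖ K}.ncard :=
      Finset.set_ncard_biUnion_le _ _
    exact_mod_cast h1.trans h2
  refine hcard.trans ?_
  have hterm : ∀ F ∈ hTfin.toFinset, (({K ∈ Subs k (d * e) X | F ⋖ K}.ncard : ℕ) : ℝ) ≤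
      C₂ * X ^ (((d : ℝ) + 2) / 4) * dab F ^ (-(((d : ℝ) + 2) / 4)) := by
    intro F hF
    rw [Set.Finite.mem_toFinset, imp6_mem he0] at hF
    have h1 := (hover F X hX).2
    rw [hF.1, Nat.mul_div_cancel _ he0] at h1
    have h2 : 0 < dab F := lt_of_lt_of_le zero_lt_one (one_le_dab F)
    rw [Real.div_rpow hX0.le h2.le] at h1
    rw [Real.rpow_neg h2.le, mul_assoc, ← div_eq_mul_inv]
    exact h1
  refine (Finset.sum_le_sum hterm).trans ?_
  rw [← Finset.mul_sum]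
  have hs := hsum (IntermediateField k (AlgebraicClosure k)) hTfin.toFinset dab Z hZ1
    (fun F hF => by
      rw [Set.Finite.mem_toFinset, imp6_mem he0] at hF
      exact ⟨one_le_dab F, hF.2⟩)
    (fun Y hY => by
      refine le_trans ?_ (h Y hY).2
      rw [Set.ncard_eq_toFinset_card _ (h Y hY).1]
      refine Nat.cast_le.2 (Finset.card_le_card ?_)
      intro F hF
      rw [Finset.mem_filter, Set.Finite.mem_toFinset, imp6_mem he0] at hF
      rw [Set.Finite.mem_toFinset, imp6_mem he0]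
      exact ⟨hF.1.1, hF.2⟩)
  have hlogZ : Real.log Z ≤ Real.log X := by
    rw [hZ, Real.log_rpow hX0]
    have h1 : 1 / (d : ℝ) ≤ 1 := by
      rw [div_le_one hdR]
      have : (2 : ℝ) ≤ d := by exact_mod_cast hd
      linarith
    nlinarith
  have hmax : X ^ (((d : ℝ) + 2) / 4) *
      max 1 (Z ^ (((e : ℝ) + 2) / 4 - ((d : ℝ) + 2) / 4)) ≤
      X ^ (((d * e : ℕ) : ℝ) / 8 + 1 / 2) := by
    rw [mul_max_of_nonneg _ _ (by positivity), mul_one]
    apply max_le
    · exact Real.rpow_le_rpow_of_exponent_le hX hx1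
    · rw [hZ, ← Real.rpow_mul hX0.le, ← Real.rpow_add hX0]
      exact Real.rpow_le_rpow_of_exponent_le hX hx2
  have hZlog0 : 0 ≤ Real.log Z := Real.log_nonneg hZ1
  have hC₂0 : 0 ≤ C₂ := by linarith
  have hC₃0 : 0 ≤ C₃ := by linarith
  calc C₂ * X ^ (((d : ℝ) + 2) / 4) * ∑ F ∈ hTfin.toFinset, dab F ^ (-(((d : ℝ) + 2) / 4))
      ≤ C₂ * X ^ (((d : ℝ) + 2) / 4) * (C₃ * (1 + Real.log Z) *
          max 1 (Z ^ (((e : ℝ) + 2) / 4 - ((d : ℝ) + 2) / 4))) :=
        mul_le_mul_of_nonneg_left hs (by positivity)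
    _ = C₂ * C₃ * (X ^ (((d : ℝ) + 2) / 4) *
          max 1 (Z ^ (((e : ℝ) + 2) / 4 - ((d : ℝ) + 2) / 4))) * (1 + Real.log Z) := by ring
    _ ≤ C₂ * C₃ * X ^ (((d * e : ℕ) : ℝ) / 8 + 1 / 2) * (1 + Real.log X) := by
        apply mul_le_mul
        · exact mul_le_mul_of_nonneg_left hmax (by positivity)
        · linarith
        · linarith
        · positivity

end Pool.Agent.H67.MU
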