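import Pool.Agent.H67.MU.Over
import Pool.Agent.H67.MU.Pair

/-!
# Project MU (MP_a3214d), IMP-7: all extensions, and the extensions with intermediate fields

`all_count` is Schmidt's bound for the number of extensions of degree `n` of a number field,
`imp_count` is the stronger bound for the extensions which have an intermediate field.
-/

set_option autoImplicit false

open Polynomial IsDedekindDomain NumberField

namespace Pool.Agent.H67.MU

section

variable {k : Type} [Field k] [NumberField k]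

theorem imp7_finite {n : ℕ} {X : ℝ} {K : IntermediateField k (AlgebraicClosure k)}
    (hK : K ∈ Subs k n X) : FiniteDimensional k K := by
  obtain ⟨h1, hN, h2⟩ := hK
  have : NumberField K := hN
  exact Module.Finite.of_restrictScalars_finite ℚ k K

omit [NumberField k] in
/-- Below a field of finite degree there is a maximal subfield of large degree. -/
theorem imp7_exists_covBy {F0 K : IntermediateField k (AlgebraicClosure k)}
    [FiniteDimensional k K] (h : F0 < K) :
    ∃ F : IntermediateField k (AlgebraicClosure k), F ⋖ K ∧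
      Module.finrank k F0 ≤ Module.finrank k F := by
  classical
  have hfin : ∀ F : IntermediateField k (AlgebraicClosure k), F ≤ K →
      Module.finrank k F ≤ Module.finrank k K := fun F hF =>
    IntermediateField.finrank_le_of_le_right hF
  let P : ℕ → Prop := fun m => ∃ F : IntermediateField k (AlgebraicClosure k), F < K ∧
    Module.finrank k F = m
  have hP0 : P (Module.finrank k F0) := ⟨F0, h, rfl⟩
  have hb := hfin F0 h.le
  have hPm : P (Nat.findGreatest P (Module.finrank k K)) := Nat.findGreatest_spec hb hP0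
  have hle : Module.finrank k F0 ≤ Nat.findGreatest P (Module.finrank k K) :=
    Nat.le_findGreatest hb hP0
  obtain ⟨F, hF1, hF2⟩ := hPm
  refine ⟨F, ⟨hF1, ?_⟩, hF2 ▸ hle⟩
  intro E hFE hEK
  have hPE : P (Module.finrank k E) := ⟨E, hEK, rfl⟩
  have h1 : Module.finrank k E ≤ Nat.findGreatest P (Module.finrank k K) :=
    Nat.le_findGreatest (hfin E hEK.le) hPE
  have : FiniteDimensional k E :=
    FiniteDimensional.of_injective (IntermediateField.inclusion hEK.le).toLinearMap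
      (IntermediateField.inclusion hEK.le).injective
  rw [← hF2] at h1
  exact hFE.ne (IntermediateField.eq_of_le_of_finrank_le hFE.le h1)

theorem imp7_rpow_le (n : ℕ) (hn : 2 ≤ n) : ∀ X : ℝ, 1 ≤ X →
    X ^ ((n : ℝ) / 8 + 1 / 2) * (1 + Real.log X) ≤ 5 * X ^ (((n : ℝ) + 2) / 4) := by
  intro X hX
  have hn' : (2 : ℝ) ≤ n := by exact_mod_cast hn
  have hX0 : 0 < X := by linarith
  have hε : 0 < (n : ℝ) / 8 := by linarith
  have h1 := Real.log_le_rpow_div hX0.le hε
  have h2 : (1 : ℝ) ≤ X ^ ((n : ℝ) / 8) := Real.one_le_rpow hX hε.le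
  have h3 : 1 + Real.log X ≤ 5 * X ^ ((n : ℝ) / 8) := by
    have h4 : X ^ ((n : ℝ) / 8) / ((n : ℝ) / 8) ≤ 4 * X ^ ((n : ℝ) / 8) := by
      rw [div_le_iff₀ hε]
      nlinarith
    linarith
  have h5 : X ^ (((n : ℝ) + 2) / 4) = X ^ ((n : ℝ) / 8 + 1 / 2) * X ^ ((n : ℝ) / 8) := by
    rw [← Real.rpow_add hX0]
    congr 1
    ring
  rw [h5]
  have h6 : 0 ≤ X ^ ((n : ℝ) / 8 + 1 / 2) := Real.rpow_nonneg hX0.le _
  calc X ^ ((n : ℝ) / 8 + 1 / 2) * (1 + Real.log X)
      ≤ X ^ ((n : ℝ) / 8 + 1 / 2) * (5 * X ^ ((n : ℝ) / 8)) :=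
        mul_le_mul_of_nonneg_left h3 h6
    _ = _ := by ring

/-- The union over all pairs. -/
theorem imp7_union (n : ℕ) (hn : 1 ≤ n) (IH : ∀ e : ℕ, e < n → ∃ C : ℝ, 1 ≤ C ∧
    ∀ X : ℝ, 1 ≤ X → (Subs k e X).Finite ∧
      ((Subs k e X).ncard : ℝ) ≤ C * X ^ (((e : ℝ) + 2) / 4)) :
    ∃ C : ℝ, 1 ≤ C ∧ ∀ X : ℝ, 1 ≤ X →
      {K ∈ Subs k n X | ∃ F : IntermediateField k (AlgebraicClosure k),
        2 ≤ Module.finrank k F ∧ F ⋖ K}.Finite ∧
      ({K ∈ Subs k n X | ∃ F : IntermediateField k (AlgebraicClosure k),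
        2 ≤ Module.finrank k F ∧ F ⋖ K}.ncard : ℝ) ≤
        C * X ^ ((n : ℝ) / 8 + 1 / 2) * (1 + Real.log X) := by
  classical
  -- a constant for every pair
  have hpair : ∀ p : ℕ × ℕ, ∃ C : ℝ, 1 ≤ C ∧ (p ∈ n.divisorsAntidiagonal → 2 ≤ p.1 → 2 ≤ p.2 →
      ∀ X : ℝ, 1 ≤ X →
      {K ∈ Subs k n X | ∃ F : IntermediateField k (AlgebraicClosure k),
        Module.finrank k F = p.2 ∧ F ⋖ K}.Finite ∧
      ({K ∈ Subs k n X | ∃ F : IntermediateField k (AlgebraicClosure k),
        Module.finrank k F = p.2 ∧ F ⋖ K}.ncard : ℝ) ≤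
        C * X ^ ((n : ℝ) / 8 + 1 / 2) * (1 + Real.log X)) := by
    intro p
    by_cases hp : p ∈ n.divisorsAntidiagonal ∧ 2 ≤ p.1 ∧ 2 ≤ p.2
    · obtain ⟨hp1, hp2, hp3⟩ := hp
      have hmul : p.1 * p.2 = n := (Nat.mem_divisorsAntidiagonal.1 hp1).1
      have hlt : p.2 < n := by
        rw [← hmul]
        nlinarith
      obtain ⟨C₁, h1, h2⟩ := IH p.2 hlt
      obtain ⟨C, h3, h4⟩ := pair_count k p.1 p.2 hp2 hp3 C₁ h2
      rw [hmul] at h4
      exact ⟨C, h3, fun _ _ _ => h4⟩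
    · exact ⟨1, le_refl _, fun h1 h2 h3 => absurd ⟨h1, h2, h3⟩ hp⟩
  choose Cf hC1 hC2 using hpair
  let D := n.divisorsAntidiagonal.filter (fun p => 2 ≤ p.1 ∧ 2 ≤ p.2)
  refine ⟨1 + ∑ p ∈ D, Cf p, ?_, ?_⟩
  · have : 0 ≤ ∑ p ∈ D, Cf p := Finset.sum_nonneg (fun p _ => by linarith [hC1 p])
    linarith
  intro X hX
  have hX0 : 0 < X := by linarith
  let A : ℕ × ℕ → Set (IntermediateField k (AlgebraicClosure k)) := fun p =>
    {K ∈ Subs k n X | ∃ F : IntermediateField k (AlgebraicClosure k),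
        Module.finrank k F = p.2 ∧ F ⋖ K}
  have hsub : {K ∈ Subs k n X | ∃ F : IntermediateField k (AlgebraicClosure k),
        2 ≤ Module.finrank k F ∧ F ⋖ K} ⊆ ⋃ p ∈ D, A p := by
    rintro K ⟨hK, F, hF, hFK⟩
    have hdiv := (dab_pow_le hK hFK.le).1
    have := imp7_finite hK
    have hrk : Module.finrank k K = n := hK.1
    have hne : Module.finrank k F ≠ n := by
      intro h
      exact hFK.ne (IntermediateField.eq_of_le_of_finrank_le hFK.le (by rw [h, hrk]))
    obtain ⟨q, hq⟩ := hdiv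
    have hmul : q * Module.finrank k F = n := by rw [hq, mul_comm]
    have h2 : 2 ≤ q := by
      by_contra hcon
      have : q = 0 ∨ q = 1 := by omega
      rcases this with h0 | h0
      · rw [h0] at hmul
        omega
      · rw [h0, one_mul] at hmul
        exact hne hmul
    refine Set.mem_iUnion₂.2 ⟨(q, Module.finrank k F), ?_, hK, F, rfl, hFK⟩
    refine Finset.mem_filter.2 ⟨Nat.mem_divisorsAntidiagonal.2 ⟨hmul, by omega⟩, h2, hF⟩
  have hAfin : ∀ p ∈ D, (A p).Finite := fun p hp => by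
    obtain ⟨h1, h2, h3⟩ := Finset.mem_filter.1 hp
    exact (hC2 p h1 h2 h3 X hX).1
  have hUfin : (⋃ p ∈ D, A p).Finite := Set.Finite.biUnion D.finite_toSet hAfin
  refine ⟨hUfin.subset hsub, ?_⟩
  have hlog : 0 ≤ Real.log X := Real.log_nonneg hX
  have hpow : 0 ≤ X ^ ((n : ℝ) / 8 + 1 / 2) := Real.rpow_nonneg hX0.le _
  have hc1 : ((⋃ p ∈ D, A p).ncard : ℝ) ≤ ∑ p ∈ D, ((A p).ncard : ℝ) := by
    exact_mod_cast Finset.set_ncard_biUnion_le D A
  calc ({K ∈ Subs k n X | ∃ F : IntermediateField k (AlgebraicClosure k),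
        2 ≤ Module.finrank k F ∧ F ⋖ K}.ncard : ℝ) ≤ ((⋃ p ∈ D, A p).ncard : ℝ) := by
        exact_mod_cast Set.ncard_le_ncard hsub hUfin
    _ ≤ ∑ p ∈ D, ((A p).ncard : ℝ) := hc1
    _ ≤ ∑ p ∈ D, Cf p * X ^ ((n : ℝ) / 8 + 1 / 2) * (1 + Real.log X) := by
        refine Finset.sum_le_sum (fun p hp => ?_)
        obtain ⟨h1, h2, h3⟩ := Finset.mem_filter.1 hp
        exact (hC2 p h1 h2 h3 X hX).2
    _ = (∑ p ∈ D, Cf p) * X ^ ((n : ℝ) / 8 + 1 / 2) * (1 + Real.log X) := by
        rw [Finset.sum_mul, Finset.sum_mul]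
    _ ≤ (1 + ∑ p ∈ D, Cf p) * X ^ ((n : ℝ) / 8 + 1 / 2) * (1 + Real.log X) := by
        have : 0 ≤ X ^ ((n : ℝ) / 8 + 1 / 2) * (1 + Real.log X) := by positivity
        nlinarith

end

theorem all_count (k : Type) [Field k] [NumberField k] (n : ℕ) : ∃ C : ℝ, 1 ≤ C ∧
    ∀ X : ℝ, 1 ≤ X → (Subs k n X).Finite ∧
      ((Subs k n X).ncard : ℝ) ≤ C * X ^ (((n : ℝ) + 2) / 4) := by
  classical
  induction n using Nat.strong_induction_on with
  | _ n IH =>
  rcases Nat.lt_or_ge n 2 with hn | hn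
  · -- `n = 0` or `n = 1`
    refine ⟨1, le_refl _, fun X hX => ?_⟩
    have hX0 : 0 < X := by linarith
    have hsub : Subs k n X ⊆ {⊥} := by
      intro K hK
      have := imp7_finite hK
      have h1 : Module.finrank k K = n := hK.1
      have h2 : 0 < Module.finrank k K := Module.finrank_pos
      have h3 : Module.finrank k K = 1 := by omega
      exact IntermediateField.finrank_eq_one_iff.1 h3
    refine ⟨(Set.finite_singleton _).subset hsub, ?_⟩
    have h1 : (Subs k n X).ncard ≤ 1 := by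
      have := Set.ncard_le_ncard hsub (Set.finite_singleton _)
      rwa [Set.ncard_singleton] at this
    have h2 : (1 : ℝ) ≤ X ^ (((n : ℝ) + 2) / 4) := Real.one_le_rpow hX (by positivity)
    have h3 : ((Subs k n X).ncard : ℝ) ≤ 1 := by exact_mod_cast h1
    linarith
  · obtain ⟨C₁, h1, h2⟩ := imp7_union (k := k) n (by omega) IH
    obtain ⟨C₂, h3, h4⟩ := over_count k n
    refine ⟨5 * C₁ + C₂, by linarith, fun X hX => ?_⟩
    have hX0 : 0 < X := by linarith
    obtain ⟨hf1, hc1⟩ := h2 X hX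
    obtain ⟨hf2, hc2⟩ := h4 ⊥ X hX
    have hsub : Subs k n X ⊆ {K ∈ Subs k n X | ∃ F : IntermediateField k (AlgebraicClosure k),
        2 ≤ Module.finrank k F ∧ F ⋖ K} ∪ {K ∈ Subs k n X | ⊥ ⋖ K} := by
      intro K hK
      have := imp7_finite hK
      have hrk : Module.finrank k K = n := hK.1
      have hbot : (⊥ : IntermediateField k (AlgebraicClosure k)) < K := by
        refine lt_of_le_of_ne bot_le (fun h => ?_)
        rw [← h, IntermediateField.finrank_bot] at hrk
        omega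
      obtain ⟨F, hF1, hF2⟩ := imp7_exists_covBy hbot
      rw [IntermediateField.finrank_bot] at hF2
      rcases Nat.lt_or_ge (Module.finrank k F) 2 with h | h
      · right
        have h5 : Module.finrank k F = 1 := by omega
        have h6 : F = ⊥ := IntermediateField.finrank_eq_one_iff.1 h5
        exact ⟨hK, h6 ▸ hF1⟩
      · left
        exact ⟨hK, F, h, hF1⟩
    refine ⟨(hf1.union hf2).subset hsub, ?_⟩
    have hd1 : 1 ≤ dab (⊥ : IntermediateField k (AlgebraicClosure k)) := one_le_dab _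
    have hq : X / dab (⊥ : IntermediateField k (AlgebraicClosure k)) ≤ X :=
      div_le_self hX0.le hd1
    rw [IntermediateField.finrank_bot, Nat.div_one] at hc2
    have h5 : (X / dab (⊥ : IntermediateField k (AlgebraicClosure k))) ^ (((n : ℝ) + 2) / 4) ≤
        X ^ (((n : ℝ) + 2) / 4) :=
      Real.rpow_le_rpow (by positivity) hq (by positivity)
    have h6 := imp7_rpow_le n hn X hX
    have h7 : ((Subs k n X).ncard : ℝ) ≤
        ({K ∈ Subs k n X | ∃ F : IntermediateField k (AlgebraicClosure k),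
          2 ≤ Module.finrank k F ∧ F ⋖ K}.ncard : ℝ) +
        ({K ∈ Subs k n X | ⊥ ⋖ K}.ncard : ℝ) := by
      have h8 := Set.ncard_le_ncard hsub (hf1.union hf2)
      have h9 := Set.ncard_union_le {K ∈ Subs k n X |
        ∃ F : IntermediateField k (AlgebraicClosure k), 2 ≤ Module.finrank k F ∧ F ⋖ K}
        {K ∈ Subs k n X | ⊥ ⋖ K}
      exact_mod_cast h8.trans h9
    calc ((Subs k n X).ncard : ℝ) ≤ _ := h7
      _ ≤ C₁ * X ^ ((n : ℝ) / 8 + 1 / 2) * (1 + Real.log X) +
          C₂ * (X / dab (⊥ : IntermediateField k (AlgebraicClosure k))) ^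
            (((n : ℝ) + 2) / 4) := add_le_add hc1 hc2
      _ ≤ C₁ * (5 * X ^ (((n : ℝ) + 2) / 4)) + C₂ * X ^ (((n : ℝ) + 2) / 4) := by
          refine add_le_add ?_ (mul_le_mul_of_nonneg_left h5 (by linarith))
          rw [mul_assoc]
          exact mul_le_mul_of_nonneg_left h6 (by linarith)
      _ = (5 * C₁ + C₂) * X ^ (((n : ℝ) + 2) / 4) := by ring

theorem imp_count (k : Type) [Field k] [NumberField k] (n : ℕ) (hn : 1 ≤ n) : ∃ C : ℝ, 1 ≤ C ∧
    ∀ X : ℝ, 1 ≤ X →
      {K ∈ Subs k n X | ∃ F : IntermediateField k (AlgebraicClosure k), ⊥ < F ∧ F < K}.Finite ∧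
      ({K ∈ Subs k n X | ∃ F : IntermediateField k (AlgebraicClosure k), ⊥ < F ∧ F < K}.ncard : ℝ)
        ≤ C * X ^ ((n : ℝ) / 8 + 1 / 2) * (1 + Real.log X) := by
  obtain ⟨C, h1, h2⟩ := imp7_union (k := k) n hn (fun e _ => all_count k e)
  refine ⟨C, h1, fun X hX => ?_⟩
  obtain ⟨hf, hc⟩ := h2 X hX
  have hsub : {K ∈ Subs k n X | ∃ F : IntermediateField k (AlgebraicClosure k), ⊥ < F ∧ F < K} ⊆
      {K ∈ Subs k n X | ∃ F : IntermediateField k (AlgebraicClosure k),
        2 ≤ Module.finrank k F ∧ F ⋖ K} := by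
    rintro K ⟨hK, F0, hF0, hF0K⟩
    have := imp7_finite hK
    obtain ⟨F, hF1, hF2⟩ := imp7_exists_covBy hF0K
    refine ⟨hK, F, ?_, hF1⟩
    have : FiniteDimensional k F0 :=
      FiniteDimensional.of_injective (IntermediateField.inclusion hF0K.le).toLinearMap
        (IntermediateField.inclusion hF0K.le).injective
    have h3 : 0 < Module.finrank k F0 := Module.finrank_pos
    have h4 : Module.finrank k F0 ≠ 1 := fun h =>
      hF0.ne' (IntermediateField.finrank_eq_one_iff.1 h)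
    omega
  refine ⟨hf.subset hsub, ?_⟩
  calc _ ≤ ({K ∈ Subs k n X | ∃ F : IntermediateField k (AlgebraicClosure k),
        2 ≤ Module.finrank k F ∧ F ⋖ K}.ncard : ℝ) := by
        exact_mod_cast Set.ncard_le_ncard hsub hf
    _ ≤ _ := hc

end Pool.Agent.H67.MU
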