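import Pool.Agent.H67.MU.Defs2

/-!
# Project MU, row MU-22: critical values in pairs, the homogeneous problem
-/

set_option autoImplicit false

open Polynomial IsDedekindDomain NumberField UniqueFactorizationMonoid

namespace Pool.Agent.H67.MU

theorem mu22_primit_add {Ω : Type*} [Field Ω] (P Q : Polynomial Ω) :
    primit (P + Q) = primit P + primit Q := by
  unfold primit
  refine Polynomial.sum_add_index P Q _ (fun i => by simp) (fun i a b => ?_)
  rw [add_div, map_add]

theorem mu22_primit_monomial {Ω : Type*} [Field Ω] (i : ℕ) (c : Ω) :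
    primit (monomial i c) = monomial (i + 1) (c / ((i : Ω) + 1)) := by
  unfold primit
  exact Polynomial.sum_monomial_index c _ (by simp)

theorem crit_zero {Ω : Type*} [Field Ω] [CharZero Ω] (h : ℕ) (hh : 2 ≤ h) (ξ η : Fin h → Ω)
    (hP : ∀ i : ℕ, 2 ≤ i → i < 2 * h →
      (∏ l, ((X - C (ξ l)) * (X - C (η l)))).coeff i = 0)
    (hF : ∀ l, (primit (∏ l, ((X - C (ξ l)) * (X - C (η l))))).eval (ξ l) =
      (primit (∏ l, ((X - C (ξ l)) * (X - C (η l))))).eval (η l)) :
    (∀ l, ξ l = 0) ∧ ∀ l, η l = 0 := by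
  classical
  obtain ⟨P, hPdef⟩ : ∃ P : Polynomial Ω, P = ∏ l, ((X - C (ξ l)) * (X - C (η l))) := ⟨_, rfl⟩
  rw [← hPdef] at hP hF
  have hmon1 : (∏ l, (X - C (ξ l))).Monic := monic_prod_of_monic _ _ fun l _ => monic_X_sub_C _
  have hmon2 : (∏ l, (X - C (η l))).Monic := monic_prod_of_monic _ _ fun l _ => monic_X_sub_C _
  have hsplit : P = (∏ l, (X - C (ξ l))) * ∏ l, (X - C (η l)) := by
    rw [hPdef, Finset.prod_mul_distrib]
  have hPm : P.Monic := by rw [hsplit]; exact hmon1.mul hmon2
  have hdeg : P.natDegree = 2 * h := by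
    rw [hsplit, hmon1.natDegree_mul hmon2, natDegree_prod_of_monic _ _ fun l _ => monic_X_sub_C _,
      natDegree_prod_of_monic _ _ fun l _ => monic_X_sub_C _]
    simp only [natDegree_X_sub_C, Finset.sum_const, Finset.card_univ, Fintype.card_fin]
    simp only [smul_eq_mul, mul_one]
    ring
  obtain ⟨b, hb⟩ : ∃ b : Ω, b = P.coeff 1 := ⟨_, rfl⟩
  obtain ⟨c, hc⟩ : ∃ c : Ω, c = P.coeff 0 := ⟨_, rfl⟩
  have hform : P = monomial (2 * h) 1 + monomial 1 b + monomial 0 c := by
    ext i
    rw [coeff_add, coeff_add, coeff_monomial, coeff_monomial, coeff_monomial]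
    rcases Nat.lt_or_ge i 2 with hi | hi
    · interval_cases i
      · rw [if_neg (by omega), if_neg (by omega), if_pos rfl, hc]; ring
      · rw [if_neg (by omega), if_pos rfl, if_neg (by omega), hb]; ring
    · rw [if_neg (by omega : ¬ 1 = i), if_neg (by omega : ¬ 0 = i)]
      rcases Nat.lt_trichotomy i (2 * h) with hi2 | hi2 | hi2
      · rw [hP i hi hi2, if_neg (by omega)]; ring
      · rw [if_pos hi2.symm, hi2, ← hdeg, hPm.coeff_natDegree]; ring
      · rw [if_neg (by omega), coeff_eq_zero_of_natDegree_lt (by omega)]; ring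
  have heval : ∀ x : Ω, P.eval x = x ^ (2 * h) + b * x + c := by
    intro x
    rw [hform]
    simp only [eval_add, eval_monomial]
    ring
  have hprim : ∀ x : Ω, (primit P).eval x =
      x ^ (2 * h + 1) / (2 * (h : Ω) + 1) + b / 2 * x ^ 2 + c * x := by
    intro x
    rw [hform, mu22_primit_add, mu22_primit_add, mu22_primit_monomial, mu22_primit_monomial,
      mu22_primit_monomial]
    simp only [eval_add, eval_monomial]
    push_cast
    ring
  have hder : ∀ x : Ω, (derivative P).eval x = 2 * (h : Ω) * x ^ (2 * h - 1) + b := by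
    intro x
    rw [hform]
    simp only [derivative_add, derivative_monomial, eval_add, eval_monomial]
    push_cast
    simp
  -- sum of the roots
  have hsum : ∑ l, (ξ l + η l) = 0 := by
    have h1 : P.nextCoeff = P.coeff (2 * h - 1) := by
      rw [nextCoeff_of_natDegree_pos (by omega), hdeg]
    have h2 : P.nextCoeff = -∑ l, (ξ l + η l) := by
      rw [hsplit, hmon1.nextCoeff_mul hmon2, prod_X_sub_C_nextCoeff, prod_X_sub_C_nextCoeff,
        Finset.sum_add_distrib]
      ring
    rw [h1, hP _ (by omega) (by omega)] at h2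
    exact neg_eq_zero.mp h2.symm
  have hroot1 : ∀ l, P.eval (ξ l) = 0 := by
    intro l
    rw [hPdef, eval_prod]
    exact Finset.prod_eq_zero (Finset.mem_univ l) (by simp)
  have hroot2 : ∀ l, P.eval (η l) = 0 := by
    intro l
    rw [hPdef, eval_prod]
    exact Finset.prod_eq_zero (Finset.mem_univ l) (by simp)
  have hh0 : (h : Ω) ≠ 0 := Nat.cast_ne_zero.mpr (by omega)
  have hh1 : (2 * (h : Ω) + 1) ≠ 0 := by
    have : ((2 * h + 1 : ℕ) : Ω) ≠ 0 := Nat.cast_ne_zero.mpr (by omega)
    push_cast at this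
    exact this
  have hh2 : (2 * (h : Ω) - 1) ≠ 0 := by
    have h3 : ((2 * h - 1 : ℕ) : Ω) ≠ 0 := Nat.cast_ne_zero.mpr (by omega)
    rw [Nat.cast_sub (by omega)] at h3
    push_cast at h3
    exact h3
  -- the main relation
  have hstar : ∀ l, (2 * (h : Ω) - 1) * b * (ξ l + η l) + 4 * (h : Ω) * c = 0 := by
    intro l
    have e1 := hroot1 l
    have e2 := hroot2 l
    rw [heval] at e1 e2
    by_cases hne : ξ l = η l
    · have hd : (derivative P).eval (ξ l) = 0 := by
        have hfac : P = (X - C (ξ l)) * (X - C (ξ l)) *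
            ∏ m ∈ Finset.univ.erase l, ((X - C (ξ m)) * (X - C (η m))) := by
          rw [hPdef, ← Finset.mul_prod_erase Finset.univ _ (Finset.mem_univ l), ← hne]
        rw [hfac]
        simp [derivative_mul]
      rw [hder] at hd
      have hpow : (ξ l) ^ (2 * h) = (ξ l) ^ (2 * h - 1) * ξ l := by
        rw [← pow_succ]
        congr 1
        omega
      rw [← hne]
      rw [hpow] at e1
      have : (2 * (h : Ω) - 1) * b * (ξ l + ξ l) + 4 * (h : Ω) * c =
          4 * (h : Ω) * ((ξ l) ^ (2 * h - 1) * ξ l + b * ξ l + c) -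
            2 * ξ l * (2 * (h : Ω) * (ξ l) ^ (2 * h - 1) + b) := by ring
      rw [this, e1, hd]
      ring
    · have hf := hF l
      rw [hprim, hprim, pow_succ (ξ l) (2 * h), pow_succ (η l) (2 * h)] at hf
      have e1' : (ξ l) ^ (2 * h) = -(b * ξ l + c) := by linear_combination e1
      have e2' : (η l) ^ (2 * h) = -(b * η l + c) := by linear_combination e2
      rw [e1', e2'] at hf
      have hsub : ξ l - η l ≠ 0 := sub_ne_zero.mpr hne
      have h4 : (ξ l - η l) * ((2 * (h : Ω) - 1) * b * (ξ l + η l) + 4 * (h : Ω) * c) = 0 := by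
        field_simp at hf
        linear_combination hf
      exact (mul_eq_zero.mp h4).resolve_left hsub
  have hc0 : c = 0 := by
    have h5 : ∑ l : Fin h, ((2 * (h : Ω) - 1) * b * (ξ l + η l) + 4 * (h : Ω) * c) = 0 :=
      Finset.sum_eq_zero fun l _ => hstar l
    rw [Finset.sum_add_distrib, ← Finset.mul_sum, hsum, Finset.sum_const, Finset.card_univ,
      Fintype.card_fin, nsmul_eq_mul] at h5
    have h6 : (4 * (h : Ω) * (h : Ω)) * c = 0 := by linear_combination h5
    refine (mul_eq_zero.mp h6).resolve_left ?_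
    exact mul_ne_zero (mul_ne_zero (by norm_num) hh0) hh0
  have hb0 : b = 0 := by
    by_contra hbne
    have hneg : ∀ l, η l = -ξ l := by
      intro l
      have h7 := hstar l
      rw [hc0, mul_zero, add_zero] at h7
      have h8 := (mul_eq_zero.mp h7).resolve_left (mul_ne_zero hh2 hbne)
      linear_combination h8
    have h9 : P.eval 1 = P.eval (-1) := by
      rw [hPdef, eval_prod, eval_prod]
      refine Finset.prod_congr rfl fun l _ => ?_
      rw [hneg l]
      simp only [eval_mul, eval_sub, eval_X, eval_C]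
      ring
    rw [heval, heval, hc0] at h9
    have h10 : ((-1 : Ω)) ^ (2 * h) = 1 := by rw [pow_mul]; norm_num
    rw [h10, one_pow] at h9
    have h11 : (2 : Ω) * b = 0 := by linear_combination h9
    exact hbne ((mul_eq_zero.mp h11).resolve_left (by norm_num))
  constructor
  · intro l
    have e1 := hroot1 l
    rw [heval, hb0, hc0, zero_mul, add_zero, add_zero] at e1
    exact (pow_eq_zero_iff (by omega)).mp e1
  · intro l
    have e1 := hroot2 l
    rw [heval, hb0, hc0, zero_mul, add_zero, add_zero] at e1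
    exact (pow_eq_zero_iff (by omega)).mp e1

end Pool.Agent.H67.MU
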