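import Pool.Agent.H67.MU.Defs2

/-!
# Project MU, MU-21: fibres of finite weighted homogeneous maps
-/

set_option autoImplicit false

open Polynomial

namespace Pool.Agent.H67.MU

/-- Homogeneous components of a multiple of a homogeneous polynomial. -/
theorem mu21_comp {σ F : Type} [Field F] (q E : MvPolynomial σ F) (dg N : ℕ)
    (hE : E.IsHomogeneous dg) (hdg : 0 < dg) (hN : 0 < N) :
    ∃ M, M < N ∧ ∃ q' : MvPolynomial σ F, q'.IsHomogeneous M ∧
      MvPolynomial.homogeneousComponent N (q * E) = q' * E := by
  have h1 : MvPolynomial.homogeneousComponent N (q * E) =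
      ∑ j ∈ Finset.range (q.totalDegree + 1),
        if N = j + dg then MvPolynomial.homogeneousComponent j q * E else 0 := by
    conv_lhs => rw [← MvPolynomial.sum_homogeneousComponent q, Finset.sum_mul, map_sum]
    refine Finset.sum_congr rfl (fun j _ => ?_)
    exact MvPolynomial.homogeneousComponent_of_mem
      ((MvPolynomial.homogeneousComponent_isHomogeneous j q).mul hE)
  rcases le_or_gt dg N with h | h
  · refine ⟨N - dg, by omega, MvPolynomial.homogeneousComponent (N - dg) q,
      MvPolynomial.homogeneousComponent_isHomogeneous _ _, ?_⟩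
    rw [h1]
    by_cases hr : N - dg < q.totalDegree + 1
    · rw [Finset.sum_eq_single (N - dg)]
      · rw [if_pos (by omega)]
      · intro j _ hj
        rw [if_neg (by omega)]
      · intro hn
        exact absurd (Finset.mem_range.mpr hr) hn
    · rw [MvPolynomial.homogeneousComponent_eq_zero (N - dg) q (by omega), zero_mul]
      refine Finset.sum_eq_zero (fun j hj => ?_)
      rw [Finset.mem_range] at hj
      rw [if_neg (by omega)]
  · refine ⟨0, hN, 0, MvPolynomial.isHomogeneous_zero _ _ _, ?_⟩
    rw [zero_mul, h1]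
    refine Finset.sum_eq_zero (fun j _ => ?_)
    rw [if_neg (by omega)]

/-- Interpolation. -/
theorem mu21_interp {σ F : Type} [Field F] (Z : Finset (σ → F)) (z0 : σ → F) :
    ∃ p : MvPolynomial σ F, MvPolynomial.eval z0 p = 1 ∧
      ∀ z ∈ Z, z ≠ z0 → MvPolynomial.eval z p = 0 := by
  classical
  have h : ∀ z : σ → F, z ≠ z0 → ∃ p : MvPolynomial σ F, MvPolynomial.eval z0 p = 1 ∧
      MvPolynomial.eval z p = 0 := by
    intro z hz
    obtain ⟨l, hl⟩ := Function.ne_iff.mp hz
    have hne : z0 l - z l ≠ 0 := sub_ne_zero.mpr (Ne.symm hl)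
    refine ⟨MvPolynomial.C ((z0 l - z l)⁻¹) * (MvPolynomial.X l - MvPolynomial.C (z l)), ?_, ?_⟩
    · simp only [map_mul, map_sub, MvPolynomial.eval_C, MvPolynomial.eval_X]
      exact inv_mul_cancel₀ hne
    · simp only [map_mul, map_sub, MvPolynomial.eval_C, MvPolynomial.eval_X, sub_self, mul_zero]
  choose! p hp1 hp0 using h
  refine ⟨∏ z ∈ Z.erase z0, p z, ?_, ?_⟩
  · rw [map_prod]
    exact Finset.prod_eq_one (fun z hz => hp1 z (Finset.ne_of_mem_erase hz))
  · intro z hz hne
    rw [map_prod]
    exact Finset.prod_eq_zero (Finset.mem_erase.mpr ⟨hne, hz⟩) (hp0 z hne)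

/-- The count for a finite set of solutions. -/
theorem mu21_card {σ ι F : Type} [Fintype σ] [Fintype ι] [Field F]
    (E : ι → MvPolynomial σ F) (dg : ι → ℕ) (hE : ∀ i, (E i).IsHomogeneous (dg i))
    (hdg : ∀ i, 0 < dg i) (D : ℕ)
    (hD : ∀ l : σ, MvPolynomial.X l ^ D ∈ Ideal.span (Set.range E)) (c : ι → F)
    (Z : Finset (σ → F)) (hZ : ∀ z ∈ Z, ∀ i, MvPolynomial.eval z (E i) = c i) :
    Z.card ≤ D ^ Fintype.card σ := by
  classical
  set b : (σ → Fin D) → (Z → F) := fun d z => ∏ l, (z : σ → F) l ^ (d l : ℕ) with hb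
  set W : Submodule F (Z → F) := Submodule.span F (Set.range b) with hW
  have hD0 : ∀ l : σ, 0 < D := by
    intro l
    by_contra h0
    have hD' : D = 0 := by omega
    have h1 := hD l
    rw [hD', pow_zero] at h1
    have h2 : Ideal.span (Set.range E) ≤ RingHom.ker (MvPolynomial.eval (0 : σ → F)) := by
      rw [Ideal.span_le]
      rintro _ ⟨i, rfl⟩
      rw [SetLike.mem_coe, RingHom.mem_ker, MvPolynomial.eval_zero,
        MvPolynomial.constantCoeff_eq]
      refine MvPolynomial.IsHomogeneous.coeff_eq_zero (hE i) ?_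
      rw [map_zero]
      exact (hdg i).ne
    have h3 := h2 h1
    rw [RingHom.mem_ker, map_one] at h3
    exact one_ne_zero h3
  have hA : ∀ (N : ℕ) (p : MvPolynomial σ F), p.IsHomogeneous N →
      (fun z : Z => MvPolynomial.eval (z : σ → F) p) ∈ W := by
    intro N
    induction N using Nat.strong_induction_on with
    | _ N ih =>
      intro p hp
      have hsum : (fun z : Z => MvPolynomial.eval (z : σ → F) p) =
          ∑ d ∈ p.support, p.coeff d • (fun z : Z => ∏ l, (z : σ → F) l ^ d l) := by
        funext z
        rw [MvPolynomial.eval_eq', Finset.sum_apply]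
        rfl
      rw [hsum]
      refine Submodule.sum_mem _ (fun d hd => Submodule.smul_mem _ _ ?_)
      by_cases hlt : ∀ l, d l < D
      · exact Submodule.subset_span ⟨fun l => ⟨d l, hlt l⟩, rfl⟩
      · push Not at hlt
        obtain ⟨l, hl⟩ := hlt
        have hdN : d.degree = N := by
          by_contra hne
          exact (MvPolynomial.mem_support_iff.mp hd)
            (MvPolynomial.IsHomogeneous.coeff_eq_zero hp hne)
        have hN : 0 < N := by
          have h1 : d l ≤ d.degree := Finsupp.le_degree l d
          have h2 := hD0 l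
          omega
        have hmem : MvPolynomial.monomial d (1 : F) ∈ Ideal.span (Set.range E) := by
          have h1 : MvPolynomial.monomial d (1 : F) =
              MvPolynomial.monomial (d - Finsupp.single l D) 1 * MvPolynomial.X l ^ D := by
            rw [MvPolynomial.X_pow_eq_monomial, MvPolynomial.monomial_mul, one_mul]
            congr 1
            rw [tsub_add_cancel_of_le]
            rw [Finsupp.single_le_iff]
            exact hl
          rw [h1]
          exact Ideal.mul_mem_left _ _ (hD l)
        obtain ⟨q, hq⟩ := Ideal.mem_span_range_iff_exists_fun.mp hmem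
        have h3 : MvPolynomial.homogeneousComponent N (MvPolynomial.monomial d (1 : F)) =
            MvPolynomial.monomial d 1 :=
          MvPolynomial.homogeneousComponent_eq_self (MvPolynomial.isHomogeneous_monomial 1 hdN)
        rw [← hq, map_sum] at h3
        choose M hM q' hq' hqe using fun i =>
          mu21_comp (q i) (E i) (dg i) N (hE i) (hdg i) hN
        have h4 : (fun z : Z => ∏ l, (z : σ → F) l ^ d l) =
            ∑ i, c i • (fun z : Z => MvPolynomial.eval (z : σ → F) (q' i)) := by
          funext z
          have h5 : MvPolynomial.eval (z : σ → F) (MvPolynomial.monomial d (1 : F)) =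
              ∏ l, (z : σ → F) l ^ d l := by
            rw [MvPolynomial.eval_monomial, one_mul, Finsupp.prod_fintype]
            intro i
            exact pow_zero _
          rw [Finset.sum_apply, ← h5, ← hq, ← h3, map_sum]
          refine Finset.sum_congr rfl (fun i _ => ?_)
          rw [hqe i, map_mul, hZ z z.2 i, Pi.smul_apply, smul_eq_mul, mul_comm]
        rw [h4]
        exact Submodule.sum_mem _ (fun i _ => Submodule.smul_mem _ _ (ih (M i) (hM i) _ (hq' i)))
  have hB : ∀ p : MvPolynomial σ F, (fun z : Z => MvPolynomial.eval (z : σ → F) p) ∈ W := by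
    intro p
    have h1 : (fun z : Z => MvPolynomial.eval (z : σ → F) p) =
        ∑ i ∈ Finset.range (p.totalDegree + 1),
          (fun z : Z => MvPolynomial.eval (z : σ → F) (MvPolynomial.homogeneousComponent i p)) := by
      funext z
      rw [Finset.sum_apply, ← map_sum, MvPolynomial.sum_homogeneousComponent]
    rw [h1]
    exact Submodule.sum_mem _ (fun i _ => hA i _ (MvPolynomial.homogeneousComponent_isHomogeneous _ _))
  have hT : W = ⊤ := by
    rw [eq_top_iff]
    intro g _
    have h1 : g = ∑ z0 : Z, g z0 • (Pi.single z0 (1 : F) : Z → F) := by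
      funext z
      rw [Finset.sum_apply, Finset.sum_eq_single z]
      · simp
      · intro w _ hw
        simp [Ne.symm hw]
      · intro h
        exact absurd (Finset.mem_univ z) h
    rw [h1]
    refine Submodule.sum_mem _ (fun z0 _ => Submodule.smul_mem _ _ ?_)
    obtain ⟨p, hp1, hp0⟩ := mu21_interp Z (z0 : σ → F)
    have h2 : (Pi.single z0 (1 : F) : Z → F) =
        (fun z : Z => MvPolynomial.eval (z : σ → F) p) := by
      funext z
      by_cases h : z = z0
      · rw [h, Pi.single_eq_same, hp1]
      · rw [Pi.single_eq_of_ne h, hp0 z z.2 (fun h' => h (Subtype.ext h'))]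
    rw [h2]
    exact hB p
  have hcard := finrank_range_le_card (R := F) b
  rw [Set.finrank, ← hW, hT, finrank_top, Module.finrank_fintype_fun_eq_card,
    Fintype.card_coe, Fintype.card_fun, Fintype.card_fin] at hcard
  exact hcard

theorem fiber_count {σ ι F : Type} [Fintype σ] [Fintype ι] [Field F]
    (E : ι → MvPolynomial σ F) (dg : ι → ℕ) (hE : ∀ i, (E i).IsHomogeneous (dg i))
    (hdg : ∀ i, 0 < dg i) (D : ℕ)
    (hD : ∀ l : σ, MvPolynomial.X l ^ D ∈ Ideal.span (Set.range E)) (c : ι → F) :
    Set.Finite {x : σ → F | ∀ i, MvPolynomial.eval x (E i) = c i} ∧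
      Set.ncard {x : σ → F | ∀ i, MvPolynomial.eval x (E i) = c i} ≤ D ^ Fintype.card σ := by
  classical
  have hfin : Set.Finite {x : σ → F | ∀ i, MvPolynomial.eval x (E i) = c i} := by
    by_contra hinf
    obtain ⟨Z, hZ, hc⟩ := Set.Infinite.exists_subset_card_eq hinf (D ^ Fintype.card σ + 1)
    have := mu21_card E dg hE hdg D hD c Z (fun z hz => hZ hz)
    omega
  refine ⟨hfin, ?_⟩
  rw [Set.ncard_eq_toFinset_card _ hfin]
  exact mu21_card E dg hE hdg D hD c _ (fun z hz => (Set.Finite.mem_toFinset hfin).mp hz)

end Pool.Agent.H67.MU
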