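import Pool.Agent.H67.MU.DiscPoly
import Pool.Agent.H67.MU.Fiber
import Pool.Agent.H67.MU.Crit

/-!
# Project MU (MP_a3214d): few polynomials whose discriminant is a constant times a square
-/

set_option autoImplicit false
set_option linter.unusedSectionVars false

open Polynomial IsDedekindDomain NumberField UniqueFactorizationMonoid

namespace Pool.Agent.H67.MU

/-! #### Pairing the elements of a multiset -/

theorem mu23_pair {α β : Type*} (g : α → β) (T : Multiset β) : ∀ S : Multiset α,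
    S.map g = T + T → ∃ L : Multiset (α × α), S = L.map Prod.fst + L.map Prod.snd ∧
      (∀ p ∈ L, g p.1 = g p.2) ∧ Multiset.card L = Multiset.card T := by
  classical
  induction T using Multiset.induction_on with
  | empty =>
    intro S hS
    refine ⟨0, ?_, by simp, by simp⟩
    simpa using hS
  | cons b T ih =>
    intro S hS
    rw [Multiset.cons_add, Multiset.add_cons] at hS
    obtain ⟨a, ha, hab, h1⟩ := (Multiset.map_eq_cons g S _ b).mpr hS
    obtain ⟨a', ha', hab', h2⟩ := (Multiset.map_eq_cons g (S.erase a) _ b).mpr h1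
    obtain ⟨L, hL, hL2, hL3⟩ := ih _ h2
    refine ⟨(a, a') ::ₘ L, ?_, ?_, ?_⟩
    · rw [Multiset.map_cons, Multiset.map_cons, Multiset.cons_add, Multiset.add_cons, ← hL,
        Multiset.cons_erase ha', Multiset.cons_erase ha]
    · intro p hp
      rcases Multiset.mem_cons.mp hp with rfl | hp
      · exact hab.trans hab'.symm
      · exact hL2 p hp
    · rw [Multiset.card_cons, Multiset.card_cons, hL3]

theorem mu23_fin {α : Type*} (L : Multiset α) (h : ℕ) (hL : Multiset.card L = h) :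
    ∃ v : Fin h → α, Multiset.map v Finset.univ.val = L := by
  subst hL
  induction L using Quotient.inductionOn with
  | h l =>
    refine ⟨fun i => l.get i, ?_⟩
    rw [Fin.univ_val_map]
    exact congrArg _ (List.ofFn_get l)

/-! #### The universal product -/

/-- The product of the linear factors with roots `x`. -/
noncomputable def mu23_prod {A : Type*} [CommRing A] {h : ℕ} (x : Fin h ⊕ Fin h → A) :
    Polynomial A :=
  ∏ l, ((X - C (x (Sum.inl l))) * (X - C (x (Sum.inr l))))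

theorem mu23_prod_map {A B : Type*} [CommRing A] [CommRing B] (φ : A →+* B) {h : ℕ}
    (x : Fin h ⊕ Fin h → A) : mu23_prod (fun l => φ (x l)) = (mu23_prod x).map φ := by
  simp [mu23_prod, Polynomial.map_prod]

theorem mu23_prod_natDegree {A : Type*} [CommRing A] [Nontrivial A] {h : ℕ}
    (x : Fin h ⊕ Fin h → A) : (mu23_prod x).natDegree = 2 * h := by
  rw [mu23_prod, Polynomial.natDegree_prod_of_monic]
  · rw [Finset.sum_congr rfl (g := fun _ => 2)]
    · simp [mul_comm]
    · intro l _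
      rw [Polynomial.Monic.natDegree_mul (Polynomial.monic_X_sub_C _)
        (Polynomial.monic_X_sub_C _), Polynomial.natDegree_X_sub_C, Polynomial.natDegree_X_sub_C]
  · intro l _
    exact (Polynomial.monic_X_sub_C _).mul (Polynomial.monic_X_sub_C _)

/-- The coefficients of `Q` are homogeneous of complementary degrees. -/
def mu23_WH {σ F : Type*} [Field F] (Q : Polynomial (MvPolynomial σ F)) (d : ℕ) : Prop :=
  ∀ i, (∀ j, i + j = d → (Q.coeff i).IsHomogeneous j) ∧ (d < i → Q.coeff i = 0)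

theorem mu23_WH_mul {σ F : Type*} [Field F] {Q Q' : Polynomial (MvPolynomial σ F)} {d d' : ℕ}
    (hQ : mu23_WH Q d) (hQ' : mu23_WH Q' d') : mu23_WH (Q * Q') (d + d') := by
  intro i
  constructor
  · intro j hij
    rw [Polynomial.coeff_mul]
    apply MvPolynomial.IsHomogeneous.sum
    rintro ⟨a, b⟩ hab
    have hab' : a + b = i := by simpa using hab
    simp only
    by_cases ha : a ≤ d
    · by_cases hb : b ≤ d'
      · have h1 := (hQ a).1 (d - a) (by omega)
        have h2 := (hQ' b).1 (d' - b) (by omega)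
        have h3 := h1.mul h2
        have : d - a + (d' - b) = j := by omega
        rwa [this] at h3
      · rw [(hQ' b).2 (by omega), mul_zero]
        exact MvPolynomial.isHomogeneous_zero _ _ _
    · rw [(hQ a).2 (by omega), zero_mul]
      exact MvPolynomial.isHomogeneous_zero _ _ _
  · intro hi
    rw [Polynomial.coeff_mul]
    apply Finset.sum_eq_zero
    rintro ⟨a, b⟩ hab
    have hab' : a + b = i := by simpa using hab
    simp only
    by_cases ha : a ≤ d
    · rw [(hQ' b).2 (by omega), mul_zero]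
    · rw [(hQ a).2 (by omega), zero_mul]

theorem mu23_WH_one {σ F : Type*} [Field F] :
    mu23_WH (1 : Polynomial (MvPolynomial σ F)) 0 := by
  intro i
  constructor
  · intro j hij
    obtain ⟨rfl, rfl⟩ : i = 0 ∧ j = 0 := by omega
    rw [Polynomial.coeff_one_zero]
    exact MvPolynomial.isHomogeneous_one _ _
  · intro hi
    rw [Polynomial.coeff_one, if_neg (by omega)]

theorem mu23_WH_lin {σ F : Type*} [Field F] (l : σ) :
    mu23_WH (X - C (MvPolynomial.X l) : Polynomial (MvPolynomial σ F)) 1 := by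
  intro i
  constructor
  · intro j hij
    rcases Nat.eq_zero_or_pos i with hi | hi
    · subst hi
      obtain rfl : j = 1 := by omega
      rw [Polynomial.coeff_sub, Polynomial.coeff_X_zero, Polynomial.coeff_C_zero, zero_sub]
      exact (MvPolynomial.isHomogeneous_X _ _).neg
    · obtain ⟨rfl, rfl⟩ : i = 1 ∧ j = 0 := by omega
      rw [Polynomial.coeff_sub, Polynomial.coeff_X_one, Polynomial.coeff_C_succ, sub_zero]
      exact MvPolynomial.isHomogeneous_one _ _
  · intro hi
    rw [Polynomial.coeff_sub, Polynomial.coeff_X, Polynomial.coeff_C, if_neg (by omega),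
      if_neg (by omega), sub_zero]

theorem mu23_WH_prod {σ F ι : Type*} [Field F] (s : Finset ι)
    (f : ι → Polynomial (MvPolynomial σ F)) (d : ℕ) (hf : ∀ l ∈ s, mu23_WH (f l) d) :
    mu23_WH (∏ l ∈ s, f l) (d * s.card) := by
  classical
  induction s using Finset.induction_on with
  | empty => simpa using mu23_WH_one
  | insert a s ha ih =>
    rw [Finset.prod_insert ha, Finset.card_insert_of_notMem ha]
    have h1 := mu23_WH_mul (hf a (Finset.mem_insert_self _ _))
      (ih fun l hl => hf l (Finset.mem_insert_of_mem hl))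
    have : d + d * s.card = d * (s.card + 1) := by ring
    rwa [this] at h1

theorem mu23_WH_univ (F : Type) [Field F] (h : ℕ) :
    mu23_WH (mu23_prod (MvPolynomial.X : Fin h ⊕ Fin h → MvPolynomial (Fin h ⊕ Fin h) F))
      (2 * h) := by
  have h1 := mu23_WH_prod (Finset.univ : Finset (Fin h))
    (fun l => ((X - C (MvPolynomial.X (Sum.inl l))) * (X - C (MvPolynomial.X (Sum.inr l))) :
      Polynomial (MvPolynomial (Fin h ⊕ Fin h) F))) 2
    (fun l _ => mu23_WH_mul (mu23_WH_lin _) (mu23_WH_lin _))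
  simpa [mu23_prod] using h1

/-- The equations. -/
noncomputable def mu23_E (F : Type) [Field F] (h : ℕ) :
    Fin (2 * h - 2) ⊕ Fin h → MvPolynomial (Fin h ⊕ Fin h) F
  | Sum.inl i => (mu23_prod (MvPolynomial.X :
      Fin h ⊕ Fin h → MvPolynomial (Fin h ⊕ Fin h) F)).coeff ((i : ℕ) + 2)
  | Sum.inr l => ∑ i ∈ Finset.range (2 * h + 1), MvPolynomial.C (1 / ((i : F) + 1)) *
      (mu23_prod (MvPolynomial.X :
        Fin h ⊕ Fin h → MvPolynomial (Fin h ⊕ Fin h) F)).coeff i *
      (MvPolynomial.X (Sum.inl l) ^ (i + 1) - MvPolynomial.X (Sum.inr l) ^ (i + 1))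

/-- Their degrees. -/
def mu23_dg (h : ℕ) : Fin (2 * h - 2) ⊕ Fin h → ℕ
  | Sum.inl i => 2 * h - ((i : ℕ) + 2)
  | Sum.inr _ => 2 * h + 1

theorem mu23_E_hom (F : Type) [Field F] (h : ℕ) (i : Fin (2 * h - 2) ⊕ Fin h) :
    (mu23_E F h i).IsHomogeneous (mu23_dg h i) := by
  rcases i with i | l
  · have hi := i.2
    exact (mu23_WH_univ F h _).1 _ (by simp only [mu23_dg]; omega)
  · simp only [mu23_E, mu23_dg]
    apply MvPolynomial.IsHomogeneous.sum
    intro i hi
    have hi' : i < 2 * h + 1 := Finset.mem_range.mp hi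
    have h1 := (mu23_WH_univ F h i).1 (2 * h - i) (by omega)
    have h2 := (MvPolynomial.isHomogeneous_C (Fin h ⊕ Fin h) (1 / ((i : F) + 1))).mul h1
    have h3 : (MvPolynomial.X (Sum.inl l) ^ (i + 1) - MvPolynomial.X (Sum.inr l) ^ (i + 1) :
        MvPolynomial (Fin h ⊕ Fin h) F).IsHomogeneous (i + 1) :=
      (MvPolynomial.isHomogeneous_X_pow _ _).sub (MvPolynomial.isHomogeneous_X_pow _ _)
    have h4 := h2.mul h3
    have : 0 + (2 * h - i) + (i + 1) = 2 * h + 1 := by omega
    rwa [this] at h4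

theorem mu23_dg_pos (h : ℕ) (i : Fin (2 * h - 2) ⊕ Fin h) : 0 < mu23_dg h i := by
  rcases i with i | l
  · have hi := i.2
    simp only [mu23_dg]
    omega
  · simp [mu23_dg]

theorem mu23_coeff_eval (F : Type) [Field F] (h : ℕ) (x : Fin h ⊕ Fin h → F) (i : ℕ) :
    MvPolynomial.eval x ((mu23_prod (MvPolynomial.X :
      Fin h ⊕ Fin h → MvPolynomial (Fin h ⊕ Fin h) F)).coeff i) = (mu23_prod x).coeff i := by
  rw [← Polynomial.coeff_map, ← mu23_prod_map]
  simp

theorem mu23_primit_eval {F : Type*} [Field F] (P : Polynomial F) (m : ℕ)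
    (hm : P.natDegree < m) (x : F) : (primit P).eval x =
      ∑ i ∈ Finset.range m, P.coeff i / ((i : F) + 1) * x ^ (i + 1) := by
  rw [primit, Polynomial.sum_over_range' P (fun i => by simp) m hm, Polynomial.eval_finsetSum]
  apply Finset.sum_congr rfl
  intro i _
  rw [Polynomial.eval_monomial]

theorem mu23_eval_inr (F : Type) [Field F] (h : ℕ) (x : Fin h ⊕ Fin h → F) (l : Fin h) :
    MvPolynomial.eval x (mu23_E F h (Sum.inr l)) =
      (primit (mu23_prod x)).eval (x (Sum.inl l)) -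
        (primit (mu23_prod x)).eval (x (Sum.inr l)) := by
  have hd : (mu23_prod x).natDegree < 2 * h + 1 := by
    rw [mu23_prod_natDegree]
    omega
  rw [mu23_primit_eval _ _ hd, mu23_primit_eval _ _ hd, ← Finset.sum_sub_distrib]
  simp only [mu23_E, map_sum, map_mul, map_sub, map_pow, MvPolynomial.eval_C,
    MvPolynomial.eval_X, mu23_coeff_eval]
  apply Finset.sum_congr rfl
  intro i _
  ring

theorem mu23_eval_inl (F : Type) [Field F] (h : ℕ) (x : Fin h ⊕ Fin h → F)
    (i : Fin (2 * h - 2)) :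
    MvPolynomial.eval x (mu23_E F h (Sum.inl i)) = (mu23_prod x).coeff ((i : ℕ) + 2) := by
  rw [mu23_E, mu23_coeff_eval]

/-- The Nullstellensatz for the equations. -/
theorem mu23_null (Ω : Type) [Field Ω] [IsAlgClosed Ω] [CharZero Ω] (h : ℕ) (hh : 2 ≤ h) :
    ∃ D : ℕ, ∀ l : Fin h ⊕ Fin h,
      (MvPolynomial.X l : MvPolynomial (Fin h ⊕ Fin h) Ω) ^ D ∈
        Ideal.span (Set.range (mu23_E Ω h)) := by
  have h1 : ∀ l : Fin h ⊕ Fin h, ∃ D : ℕ,
      (MvPolynomial.X l : MvPolynomial (Fin h ⊕ Fin h) Ω) ^ D ∈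
        Ideal.span (Set.range (mu23_E Ω h)) := by
    intro l
    have h2 : (MvPolynomial.X l : MvPolynomial (Fin h ⊕ Fin h) Ω) ∈
        MvPolynomial.vanishingIdeal Ω (MvPolynomial.zeroLocus Ω
          (Ideal.span (Set.range (mu23_E Ω h)))) := by
      rw [MvPolynomial.mem_vanishingIdeal_iff]
      intro x hx
      rw [MvPolynomial.zeroLocus_span] at hx
      have hx' : ∀ i, MvPolynomial.eval x (mu23_E Ω h i) = 0 := by
        intro i
        have := hx _ (Set.mem_range_self i)
        simpa [MvPolynomial.coe_aeval_eq_eval] using this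
      have h3 := crit_zero h hh (fun l => x (Sum.inl l)) (fun l => x (Sum.inr l)) ?_ ?_
      · rw [MvPolynomial.aeval_X]
        rcases l with l | l
        · exact h3.1 l
        · exact h3.2 l
      · intro i hi2 hi
        have h4 := hx' (Sum.inl ⟨i - 2, by omega⟩)
        rw [mu23_eval_inl] at h4
        simp only at h4
        rw [show i - 2 + 2 = i by omega] at h4
        exact h4
      · intro l
        have h4 := hx' (Sum.inr l)
        rw [mu23_eval_inr] at h4
        exact sub_eq_zero.mp h4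
    rw [MvPolynomial.vanishingIdeal_zeroLocus_eq_radical] at h2
    exact Ideal.mem_radical_iff.mp h2
  choose D hD using h1
  refine ⟨∑ l, D l, fun l => ?_⟩
  exact Ideal.pow_mem_of_pow_mem _ (hD l) (Finset.single_le_sum (fun _ _ => Nat.zero_le _)
    (Finset.mem_univ l))

/-! #### Every bad vector comes from a solution -/

/-- A constant times a square has roots of even multiplicity. -/
theorem mu23_even_roots {Ω : Type*} [Field Ω] {f : Polynomial Ω} (hf : f ≠ 0)
    (h : ConstSq f) : ∃ T : Multiset Ω, f.roots = T + T := by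
  obtain ⟨c, s, hs⟩ := h
  have hc : c ≠ 0 := by
    rintro rfl
    apply hf
    rw [hs, map_zero, zero_mul]
  refine ⟨s.roots, ?_⟩
  rw [hs, Polynomial.roots_C_mul _ hc, Polynomial.roots_pow, two_nsmul]

/-- The solution belonging to a bad vector. -/
theorem mu23_sol (Ω : Type) [Field Ω] [IsAlgClosed Ω] [CharZero Ω] (h : ℕ) (hh : 2 ≤ h)
    (w : Fin (2 * h + 1) → Ω) (hw : ConstSq (discPoly w)) :
    ∃ x : Fin h ⊕ Fin h → Ω, derivative (monicOf w) = C ((2 * h + 1 : ℕ) : Ω) * mu23_prod x ∧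
      ∀ l, (monicOf w).eval (x (Sum.inl l)) = (monicOf w).eval (x (Sum.inr l)) := by
  have hn : ((2 * h + 1 : ℕ) : Ω) ≠ 0 := Nat.cast_ne_zero.mpr (by omega)
  obtain ⟨h3, h4⟩ := mu18_deriv (n := 2 * h + 1) (by omega) hn w
  have hdeg := natDegree_discPoly (n := 2 * h + 1) (by omega) hn w
  have hne : discPoly w ≠ 0 := by
    intro h0
    rw [h0, Polynomial.natDegree_zero] at hdeg
    omega
  obtain ⟨T, hT⟩ := mu23_even_roots hne hw
  have hroots : (discPoly w).roots =
      (derivative (monicOf w)).roots.map (fun ξ => -(monicOf w).eval ξ) := by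
    rw [discPoly_eq_prod (by omega) hn, Polynomial.roots_C_mul _ (pow_ne_zero _ hn)]
    have : ((derivative (monicOf w)).roots.map fun ξ => X + C ((monicOf w).eval ξ)) =
        ((derivative (monicOf w)).roots.map (fun ξ => -(monicOf w).eval ξ)).map
          (fun a => X - C a) := by
      rw [Multiset.map_map]
      apply Multiset.map_congr rfl
      intro ξ _
      simp
    rw [this, Polynomial.roots_multiset_prod_X_sub_C]
  rw [hroots] at hT
  obtain ⟨L, hL1, hL2, hL3⟩ := mu23_pair _ T _ hT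
  have hcard : Multiset.card (derivative (monicOf w)).roots = 2 * h := by
    rw [Polynomial.splits_iff_card_roots.mp (IsAlgClosed.splits _), h3]
    omega
  have hLh : Multiset.card L = h := by
    rw [hL1, Multiset.card_add, Multiset.card_map, Multiset.card_map] at hcard
    omega
  obtain ⟨v, hv⟩ := mu23_fin L h hLh
  refine ⟨Sum.elim (fun l => (v l).1) (fun l => (v l).2), ?_, ?_⟩
  · have hs := (IsAlgClosed.splits (derivative (monicOf w)))
    rw [hs.eq_prod_roots, h4, hL1, ← hv]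
    congr 1
    rw [Multiset.map_add, Multiset.prod_add, Multiset.map_map, Multiset.map_map,
      Multiset.map_map, Multiset.map_map, mu23_prod, Finset.prod_mul_distrib]
    rfl
  · intro l
    have : v l ∈ L := by
      rw [← hv]
      exact Multiset.mem_map_of_mem v (Finset.mem_univ_val l)
    have h5 := hL2 _ this
    exact neg_injective h5

/-- The vector belonging to a solution. -/
noncomputable def mu23_vec {Ω : Type*} [Field Ω] {h : ℕ} (x : Fin h ⊕ Fin h → Ω) :
    Fin (2 * h + 1) → Ω :=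
  fun j => if (j : ℕ) + 1 = 2 * h + 1 then 0 else
    ((2 * h + 1 : ℕ) : Ω) / (((2 * h - 1 - (j : ℕ) : ℕ) : Ω) + 1) *
      (mu23_prod x).coeff (2 * h - 1 - (j : ℕ))

theorem mu23_coeff_rel {Ω : Type*} [Field Ω] [CharZero Ω] {h : ℕ} (x : Fin h ⊕ Fin h → Ω)
    (w : Fin (2 * h + 1) → Ω)
    (hw : derivative (monicOf w) = C ((2 * h + 1 : ℕ) : Ω) * mu23_prod x) (i : ℕ) :
    (monicOf w).coeff (i + 1) =
      ((2 * h + 1 : ℕ) : Ω) * (mu23_prod x).coeff i / ((i : Ω) + 1) := by
  have h1 := congrArg (fun P => P.coeff i) hw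
  simp only [Polynomial.coeff_derivative, Polynomial.coeff_C_mul] at h1
  have hi : (i : Ω) + 1 ≠ 0 := Nat.cast_add_one_ne_zero i
  rw [eq_div_iff hi, h1]

theorem mu23_vec_eq {Ω : Type*} [Field Ω] [CharZero Ω] {h : ℕ} (x : Fin h ⊕ Fin h → Ω)
    (w : Fin (2 * h + 1) → Ω) (hw0 : ∀ j : Fin (2 * h + 1), (j : ℕ) + 1 = 2 * h + 1 → w j = 0)
    (hw : derivative (monicOf w) = C ((2 * h + 1 : ℕ) : Ω) * mu23_prod x) :
    w = mu23_vec x := by
  funext j
  rw [mu23_vec]
  split_ifs with hj
  · exact hw0 j hj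
  · have hj2 := j.2
    have h1 := monicOf_coeff w j
    have h2 := mu23_coeff_rel x w hw (2 * h - 1 - (j : ℕ))
    rw [show 2 * h - 1 - (j : ℕ) + 1 = 2 * h + 1 - 1 - (j : ℕ) by omega, h1] at h2
    rw [h2]
    ring

theorem mu23_primit {Ω : Type*} [Field Ω] [CharZero Ω] {h : ℕ} (x : Fin h ⊕ Fin h → Ω)
    (w : Fin (2 * h + 1) → Ω) (hw0 : ∀ j : Fin (2 * h + 1), (j : ℕ) + 1 = 2 * h + 1 → w j = 0)
    (hw : derivative (monicOf w) = C ((2 * h + 1 : ℕ) : Ω) * mu23_prod x) (z : Ω) :
    (monicOf w).eval z = ((2 * h + 1 : ℕ) : Ω) * (primit (mu23_prod x)).eval z := by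
  have hd : (mu23_prod x).natDegree < 2 * h + 1 := by
    rw [mu23_prod_natDegree]
    omega
  rw [mu23_primit_eval _ _ hd, Polynomial.eval_eq_sum_range, (monicOf_monic w).2,
    Finset.sum_range_succ']
  have h0 : (monicOf w).coeff 0 = 0 := by
    have h1 := monicOf_coeff w ⟨2 * h, by omega⟩
    simp only at h1
    rw [show 2 * h + 1 - 1 - 2 * h = 0 by omega] at h1
    rw [h1]
    exact hw0 _ rfl
  rw [h0, zero_mul, add_zero, Finset.mul_sum]
  apply Finset.sum_congr rfl
  intro i _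
  rw [mu23_coeff_rel x w hw]
  ring

/-- The odd case. -/
theorem mu23_odd (Ω : Type) [Field Ω] [IsAlgClosed Ω] [CharZero Ω] (h : ℕ) (hh : 2 ≤ h) :
    ∃ C : ℕ, ∀ q : Fin (2 * h + 1) → Ω,
      Set.Finite {w : Fin (2 * h + 1) → Ω |
        (∀ j : Fin (2 * h + 1), (j : ℕ) + 3 < 2 * h + 1 → w j = q j) ∧
        (∀ j : Fin (2 * h + 1), (j : ℕ) + 1 = 2 * h + 1 → w j = 0) ∧ ConstSq (discPoly w)} ∧
      Set.ncard {w : Fin (2 * h + 1) → Ω |
        (∀ j : Fin (2 * h + 1), (j : ℕ) + 3 < 2 * h + 1 → w j = q j) ∧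
        (∀ j : Fin (2 * h + 1), (j : ℕ) + 1 = 2 * h + 1 → w j = 0) ∧
          ConstSq (discPoly w)} ≤ C := by
  obtain ⟨D, hD⟩ := mu23_null Ω h hh
  refine ⟨D ^ Fintype.card (Fin h ⊕ Fin h), fun q => ?_⟩
  have hn : ((2 * h + 1 : ℕ) : Ω) ≠ 0 := Nat.cast_ne_zero.mpr (by omega)
  obtain ⟨h1, h2⟩ := fiber_count (mu23_E Ω h) (mu23_dg h) (mu23_E_hom Ω h) (mu23_dg_pos h) D hD
    (Sum.elim (fun i => (((i : ℕ) : Ω) + 3) / ((2 * h + 1 : ℕ) : Ω) *
      q ⟨2 * h - 3 - (i : ℕ), by omega⟩) (fun _ => 0))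
  have hsub : {w : Fin (2 * h + 1) → Ω |
        (∀ j : Fin (2 * h + 1), (j : ℕ) + 3 < 2 * h + 1 → w j = q j) ∧
        (∀ j : Fin (2 * h + 1), (j : ℕ) + 1 = 2 * h + 1 → w j = 0) ∧ ConstSq (discPoly w)} ⊆
      mu23_vec '' {x : Fin h ⊕ Fin h → Ω | ∀ i, MvPolynomial.eval x (mu23_E Ω h i) =
        (Sum.elim (fun i : Fin (2 * h - 2) => (((i : ℕ) : Ω) + 3) / ((2 * h + 1 : ℕ) : Ω) *
          q ⟨2 * h - 3 - (i : ℕ), by omega⟩) (fun _ => 0) : Fin (2 * h - 2) ⊕ Fin h → Ω) i} := by
    rintro w ⟨hwq, hw0, hws⟩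
    obtain ⟨x, hx1, hx2⟩ := mu23_sol Ω h hh w hws
    refine ⟨x, ?_, (mu23_vec_eq x w hw0 hx1).symm⟩
    intro i
    rcases i with i | l
    · have hi := i.2
      rw [mu23_eval_inl, Sum.elim_inl]
      have h3 := hwq ⟨2 * h - 3 - (i : ℕ), by omega⟩ (by simp only; omega)
      have h4 := monicOf_coeff w ⟨2 * h - 3 - (i : ℕ), by omega⟩
      simp only at h4
      have h5 := mu23_coeff_rel x w hx1 ((i : ℕ) + 2)
      rw [show 2 * h + 1 - 1 - (2 * h - 3 - (i : ℕ)) = (i : ℕ) + 2 + 1 by omega, h5, h3] at h4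
      rw [← h4]
      have h6 : (((i : ℕ) + 2 : ℕ) : Ω) + 1 = ((i : ℕ) : Ω) + 3 := by
        push_cast
        ring
      have h7 : ((i : ℕ) : Ω) + 3 ≠ 0 := by
        rw [← h6]
        exact Nat.cast_add_one_ne_zero _
      rw [h6]
      field_simp
    · rw [mu23_eval_inr, Sum.elim_inr, sub_eq_zero]
      have h3 := hx2 l
      rw [mu23_primit x w hw0 hx1, mu23_primit x w hw0 hx1] at h3
      exact mul_left_cancel₀ hn h3
  exact ⟨(h1.image _).subset hsub, (Set.ncard_le_ncard hsub (h1.image _)).trans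
    ((Set.ncard_image_le h1).trans h2)⟩

theorem bad_count (Ω : Type) [Field Ω] [IsAlgClosed Ω] [CharZero Ω] (n : ℕ) (hn : 4 ≤ n) :
    ∃ C : ℕ, ∀ q : Fin n → Ω, (∀ j : Fin n, (j : ℕ) = 0 → q j = 0) →
      Set.Finite {w : Fin n → Ω | (∀ j : Fin n, (j : ℕ) + 3 < n → w j = q j) ∧
        (∀ j : Fin n, (j : ℕ) + 1 = n → w j = 0) ∧ ConstSq (discPoly w)} ∧
      Set.ncard {w : Fin n → Ω | (∀ j : Fin n, (j : ℕ) + 3 < n → w j = q j) ∧
        (∀ j : Fin n, (j : ℕ) + 1 = n → w j = 0) ∧ ConstSq (discPoly w)} ≤ C := by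
  have hn0 : (n : Ω) ≠ 0 := Nat.cast_ne_zero.mpr (by omega)
  rcases Nat.even_or_odd' n with ⟨h, hh | hh⟩
  · refine ⟨0, fun q _ => ?_⟩
    have hempty : {w : Fin n → Ω | (∀ j : Fin n, (j : ℕ) + 3 < n → w j = q j) ∧
        (∀ j : Fin n, (j : ℕ) + 1 = n → w j = 0) ∧ ConstSq (discPoly w)} = ∅ := by
      rw [Set.eq_empty_iff_forall_notMem]
      rintro w ⟨_, _, c, s, hs⟩
      have h1 := natDegree_discPoly (by omega) hn0 w
      rw [hs] at h1
      by_cases hc : c = 0
      · rw [hc, map_zero, zero_mul, Polynomial.natDegree_zero] at h1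
        omega
      · rw [Polynomial.natDegree_C_mul hc, Polynomial.natDegree_pow] at h1
        omega
    rw [hempty]
    simp
  · subst hh
    obtain ⟨C, hC⟩ := mu23_odd Ω h (by omega)
    exact ⟨C, fun q _ => hC q⟩

end Pool.Agent.H67.MU
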