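import Pool.Agent.H67.MU.DiscPoly
import Pool.Agent.H67.MU.Modul
import Pool.Agent.H67.MU.Bad
import Pool.Agent.H67.MU.AdmGen

/-!
# Project MU part 2, MU-28: the vectors whose discriminant polynomial is a constant times a square
-/

set_option autoImplicit false

open Polynomial IsDedekindDomain NumberField UniqueFactorizationMonoid

namespace Pool.Agent.H67.MU

theorem mu28_sum (t : ℕ) : ∑ j ∈ Finset.Ico 1 (t + 4), (((j : ℕ) : ℝ) + 1) =
    (((t : ℝ) + 4) ^ 2 + ((t : ℝ) + 4) - 2) / 2 := by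
  induction t with
  | zero => norm_num [Finset.sum_Ico_succ_top]
  | succ t ih =>
    rw [show t + 1 + 4 = (t + 4) + 1 by ring, Finset.sum_Ico_succ_top (by omega), ih]
    push_cast
    ring

theorem mu28_Ico (t : ℕ) (g : ℕ → ℝ) : ∏ j ∈ Finset.Ico 1 (t + 4), g j =
    (∏ j ∈ Finset.Ico 1 (t + 1), g j) * g (t + 1) * g (t + 2) * g (t + 3) := by
  rw [Finset.prod_Ico_succ_top (show 1 ≤ t + 3 by omega),
    Finset.prod_Ico_succ_top (show 1 ≤ t + 2 by omega),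
    Finset.prod_Ico_succ_top (show 1 ≤ t + 1 by omega)]

theorem mu28_prod (t : ℕ) (K : ℝ) (f : ℕ → ℝ) :
    (∏ j : Fin (t + 4), (if (j : ℕ) = t + 1 ∨ (j : ℕ) = t + 2 then K else
      if (j : ℕ) = 0 then 1 else f (j : ℕ))) * (f (t + 1) * f (t + 2)) =
    K ^ 2 * ∏ j ∈ Finset.Ico 1 (t + 4), f j := by
  rw [Fin.prod_univ_eq_prod_range
    (fun j : ℕ => if j = t + 1 ∨ j = t + 2 then K else if j = 0 then 1 else f j) (t + 4)]
  rw [Finset.range_eq_Ico, Finset.prod_eq_prod_Ico_succ_bot (by omega)]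
  have h0 : (if (0 : ℕ) = t + 1 ∨ 0 = t + 2 then K else if (0 : ℕ) = 0 then (1 : ℝ) else f 0)
      = 1 := by
    rw [if_neg (by omega), if_pos rfl]
  rw [h0, one_mul, zero_add, mu28_Ico, mu28_Ico]
  have h1 : ∏ j ∈ Finset.Ico 1 (t + 1),
      (if j = t + 1 ∨ j = t + 2 then K else if j = 0 then 1 else f j) =
      ∏ j ∈ Finset.Ico 1 (t + 1), f j := by
    apply Finset.prod_congr rfl
    intro j hj
    rw [Finset.mem_Ico] at hj
    rw [if_neg (by omega), if_neg (by omega)]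
  rw [h1, if_pos (by omega), if_pos (by omega), if_neg (by omega), if_neg (by omega)]
  ring

theorem mu28_real (t : ℕ) (x W K : ℝ) (hx : 1 ≤ x) (hW : 0 < W) (m : ℕ → ℝ)
    (hm : ∀ j, 1 ≤ m j) (hprod : x ≤ W * ∏ j ∈ Finset.Ico 1 (t + 4), m j)
    (hlast : m (t + 2) = m (t + 3)) (hsq : m (t + 3) ^ 2 * m (t + 1) ≤ x)
    (hle : m (t + 1) ≤ m (t + 3)) :
    (∏ j : Fin (t + 4), (if (j : ℕ) = t + 1 ∨ (j : ℕ) = t + 2 then K else
      if (j : ℕ) = 0 then 1 else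
        x ^ (((j : ℕ) + 1 : ℝ) / (2 * (((t + 4 : ℕ) : ℝ) - 1))) / m (j : ℕ))) ≤
      K ^ 2 * W * (x ^ ((((t + 4 : ℕ) : ℝ) ^ 2 - 4 * ((t + 4 : ℕ) : ℝ) + 2) /
        (4 * (((t + 4 : ℕ) : ℝ) - 1))) * m (t + 3) ^ (1 / 2 : ℝ)) := by
  have hx0 : 0 < x := by linarith
  have hT : (0 : ℝ) < (t : ℝ) + 3 := by positivity
  have hd : (((t + 4 : ℕ) : ℝ) - 1) = (t : ℝ) + 3 := by push_cast; ring
  set f : ℕ → ℝ := fun j => x ^ (((j : ℕ) + 1 : ℝ) / (2 * (((t + 4 : ℕ) : ℝ) - 1))) / m j with hf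
  have hmpos : ∀ j, 0 < m j := fun j => lt_of_lt_of_le one_pos (hm j)
  have hfpos : ∀ j, 0 < f j := fun j => div_pos (Real.rpow_pos_of_pos hx0 _) (hmpos j)
  have key := mu28_prod t K f
  have hP : ∏ j ∈ Finset.Ico 1 (t + 4), f j =
      x ^ (((t : ℝ) + 6) / 4) / ∏ j ∈ Finset.Ico 1 (t + 4), m j := by
    rw [hf]
    rw [Finset.prod_div_distrib, ← Real.rpow_sum_of_pos hx0, ← Finset.sum_div, mu28_sum, hd]
    congr 2
    field_simp
    ring
  have hMpos : 0 < ∏ j ∈ Finset.Ico 1 (t + 4), m j := Finset.prod_pos fun j _ => hmpos j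
  have hP2 : ∏ j ∈ Finset.Ico 1 (t + 4), f j ≤ W * x ^ (((t : ℝ) + 6) / 4) / x := by
    rw [hP, div_le_div_iff₀ hMpos hx0]
    have := Real.rpow_pos_of_pos hx0 (((t : ℝ) + 6) / 4)
    nlinarith
  have hf12 : 0 < f (t + 1) * f (t + 2) := mul_pos (hfpos _) (hfpos _)
  have hsqrt : m (t + 1) * m (t + 3) ≤ x ^ ((3 * (t : ℝ) + 6) / (4 * ((t : ℝ) + 3))) *
      m (t + 3) ^ (1 / 2 : ℝ) := by
    have h1 : m (t + 1) * m (t + 3) ^ (1 / 2 : ℝ) ≤ x ^ (1 / 2 : ℝ) := by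
      rw [← Real.sqrt_eq_rpow, ← Real.sqrt_eq_rpow]
      have e1 : m (t + 1) = Real.sqrt (m (t + 1) ^ 2) := (Real.sqrt_sq (hmpos _).le).symm
      rw [e1, ← Real.sqrt_mul (by positivity)]
      apply Real.sqrt_le_sqrt
      calc m (t + 1) ^ 2 * m (t + 3) = m (t + 1) * (m (t + 1) * m (t + 3)) := by ring
        _ ≤ m (t + 3) * (m (t + 1) * m (t + 3)) :=
          mul_le_mul_of_nonneg_right hle (mul_pos (hmpos _) (hmpos _)).le
        _ = m (t + 3) ^ 2 * m (t + 1) := by ring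
        _ ≤ x := hsq
    have h2 : x ^ (1 / 2 : ℝ) ≤ x ^ ((3 * (t : ℝ) + 6) / (4 * ((t : ℝ) + 3))) := by
      apply Real.rpow_le_rpow_of_exponent_le hx
      rw [div_le_div_iff₀ (by norm_num) (by positivity)]
      have : (0 : ℝ) ≤ (t : ℝ) := Nat.cast_nonneg t
      linarith
    have h3 : m (t + 3) = m (t + 3) ^ (1 / 2 : ℝ) * m (t + 3) ^ (1 / 2 : ℝ) := by
      rw [← Real.rpow_add (hmpos _)]
      norm_num
    have h4 : 0 < m (t + 3) ^ (1 / 2 : ℝ) := Real.rpow_pos_of_pos (hmpos _) _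
    calc m (t + 1) * m (t + 3) = (m (t + 1) * m (t + 3) ^ (1 / 2 : ℝ)) *
          m (t + 3) ^ (1 / 2 : ℝ) := by
            conv_lhs => rw [h3]
            ring
      _ ≤ x ^ ((3 * (t : ℝ) + 6) / (4 * ((t : ℝ) + 3))) * m (t + 3) ^ (1 / 2 : ℝ) :=
          mul_le_mul_of_nonneg_right (h1.trans h2) h4.le
  have hff : f (t + 1) * f (t + 2) =
      x ^ ((2 * (t : ℝ) + 5) / (2 * ((t : ℝ) + 3))) / (m (t + 1) * m (t + 3)) := by
    rw [hf]
    simp only []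
    rw [hlast, div_mul_div_comm, ← Real.rpow_add hx0, hd]
    congr 2
    push_cast
    field_simp
    ring
  refine le_of_mul_le_mul_right (a := f (t + 1) * f (t + 2)) ?_ hf12
  refine le_trans (le_of_eq key) ?_
  have hm13 : 0 < m (t + 1) * m (t + 3) := mul_pos (hmpos _) (hmpos _)
  calc K ^ 2 * ∏ j ∈ Finset.Ico 1 (t + 4), f j
      ≤ K ^ 2 * (W * x ^ (((t : ℝ) + 6) / 4) / x) :=
        mul_le_mul_of_nonneg_left hP2 (sq_nonneg K)
    _ ≤ K ^ 2 * W * (x ^ ((((t + 4 : ℕ) : ℝ) ^ 2 - 4 * ((t + 4 : ℕ) : ℝ) + 2) /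
        (4 * (((t + 4 : ℕ) : ℝ) - 1))) * m (t + 3) ^ (1 / 2 : ℝ)) *
        (f (t + 1) * f (t + 2)) := by
      rw [hff, mul_assoc (K ^ 2) W, mul_assoc (K ^ 2), mul_div_assoc, mul_assoc W]
      refine mul_le_mul_of_nonneg_left (mul_le_mul_of_nonneg_left ?_ hW.le) (sq_nonneg K)
      rw [div_le_iff₀ hx0, ← mul_div_assoc, div_mul_eq_mul_div, le_div_iff₀ hm13]
      calc x ^ (((t : ℝ) + 6) / 4) * (m (t + 1) * m (t + 3))
          ≤ x ^ (((t : ℝ) + 6) / 4) * (x ^ ((3 * (t : ℝ) + 6) / (4 * ((t : ℝ) + 3))) *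
            m (t + 3) ^ (1 / 2 : ℝ)) :=
          mul_le_mul_of_nonneg_left hsqrt (Real.rpow_nonneg hx0.le _)
        _ = x ^ ((((t + 4 : ℕ) : ℝ) ^ 2 - 4 * ((t + 4 : ℕ) : ℝ) + 2) /
        (4 * (((t + 4 : ℕ) : ℝ) - 1))) * m (t + 3) ^ (1 / 2 : ℝ) *
            x ^ ((2 * (t : ℝ) + 5) / (2 * ((t : ℝ) + 3))) * x := by
          have e1 : x ^ (((t : ℝ) + 6) / 4) * x ^ ((3 * (t : ℝ) + 6) / (4 * ((t : ℝ) + 3))) =
              x ^ ((((t + 4 : ℕ) : ℝ) ^ 2 - 4 * ((t + 4 : ℕ) : ℝ) + 2) /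
                (4 * (((t + 4 : ℕ) : ℝ) - 1))) *
              x ^ ((2 * (t : ℝ) + 5) / (2 * ((t : ℝ) + 3))) * x := by
            rw [← Real.rpow_add hx0, ← Real.rpow_add hx0, ← Real.rpow_add_one hx0.ne']
            congr 1
            rw [hd]
            push_cast
            field_simp
            ring
          rw [← mul_assoc, e1]
          ring

theorem mu28_constSq_map {R S : Type*} [CommRing R] [CommRing S] (φ : R →+* S) {f : R[X]}
    (h : ConstSq f) : ConstSq (f.map φ) := by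
  obtain ⟨c, s, rfl⟩ := h
  exact ⟨φ c, s.map φ, by simp⟩

/-- given the prefix, there are few values of the coordinates `n - 3` and `n - 2` -/
theorem mu28_coord (k : Type) [Field k] [NumberField k] (n C : ℕ) (hn : 4 ≤ n)
    (hC : ∀ q : Fin n → AlgebraicClosure k, (∀ j : Fin n, (j : ℕ) = 0 → q j = 0) →
      Set.Finite {w : Fin n → AlgebraicClosure k | (∀ j : Fin n, (j : ℕ) + 3 < n → w j = q j) ∧
        (∀ j : Fin n, (j : ℕ) + 1 = n → w j = 0) ∧ ConstSq (discPoly w)} ∧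
      Set.ncard {w : Fin n → AlgebraicClosure k | (∀ j : Fin n, (j : ℕ) + 3 < n → w j = q j) ∧
        (∀ j : Fin n, (j : ℕ) + 1 = n → w j = 0) ∧ ConstSq (discPoly w)} ≤ C)
    (X : Set (Fin n → 𝓞 k)) (a : Fin n → 𝓞 k) (ha : ∀ j : Fin n, (j : ℕ) = 0 → a j = 0)
    (hX : ∀ b ∈ X, ConstSq ((discPoly (noLast b)).map (algebraMap (𝓞 k) k)))
    (j : Fin n) (hj : n ≤ (j : ℕ) + 3) (hj2 : (j : ℕ) + 1 < n) (P : 𝓞 k → Prop) :
    Set.ncard {y : 𝓞 k | ∃ b ∈ X, b j = y ∧ (∀ i : Fin n, i < j → b i = a i) ∧ P y} ≤ C := by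
  set φ : 𝓞 k →+* AlgebraicClosure k :=
    (algebraMap k (AlgebraicClosure k)).comp (algebraMap (𝓞 k) k) with hφ
  have hφi : Function.Injective φ := by
    rw [hφ]
    exact (algebraMap k (AlgebraicClosure k)).injective.comp
      (FaithfulSMul.algebraMap_injective (𝓞 k) k)
  obtain ⟨hfin, hcard⟩ := hC (fun i => φ (a i)) (fun i hi => by simp [ha i hi])
  rw [← Set.ncard_image_of_injective _ hφi]
  refine le_trans ?_ hcard
  refine le_trans (Set.ncard_le_ncard (t := (fun w : Fin n → AlgebraicClosure k => w j) ''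
    {w : Fin n → AlgebraicClosure k | (∀ i : Fin n, (i : ℕ) + 3 < n → w i = φ (a i)) ∧
        (∀ i : Fin n, (i : ℕ) + 1 = n → w i = 0) ∧ ConstSq (discPoly w)}) ?_
        (hfin.image _)) (Set.ncard_image_le hfin)
  rintro _ ⟨y, ⟨b, hb, hby, hpre, -⟩, rfl⟩
  refine ⟨fun i => φ (noLast b i), ⟨?_, ?_, ?_⟩, ?_⟩
  · intro i hi
    have h1 : noLast b i = b i := by
      unfold noLast
      rw [if_neg (by omega)]
    simp only [h1]
    rw [hpre i (by rw [Fin.lt_def]; omega)]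
  · intro i hi
    have h1 : noLast b i = 0 := by
      unfold noLast
      rw [if_pos hi]
    simp only [h1, map_zero]
  · rw [discPoly_map φ (noLast b), hφ, ← Polynomial.map_map]
    exact mu28_constSq_map _ (hX b hb)
  · have h1 : noLast b j = b j := by
      unfold noLast
      rw [if_neg (by omega)]
    simp only [h1, hby]

theorem bad_vec_count (k : Type) [Field k] [NumberField k] (n N C0 E : ℕ) (hn : 4 ≤ n)
    (hN : 0 < N) (c : ℝ) (hc : 1 ≤ c) (htail : TailBound n N C0) (ε : ℝ) (hε : 0 < ε) :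
    ∃ C : ℝ, 0 < C ∧ ∀ Δ : Ideal (𝓞 k), Δ ≠ ⊥ → Expo k n N E 2 Δ →
      ((Set.ncard {a ∈ adm2 k n N c Δ | ConstSq
        ((discPoly (noLast a)).map (algebraMap (𝓞 k) k))} : ℕ) : ℝ) ≤
        C * (Ideal.absNorm Δ : ℝ) ^ (((n : ℝ) ^ 2 - 4 * n + 2) / (4 * (n - 1)) + ε) *
          (Ideal.absNorm (modul k n N Δ (n - 1)) : ℝ) ^ (1 / 2 : ℝ) := by
  obtain ⟨t, rfl⟩ : ∃ t, n = t + 4 := ⟨n - 4, by omega⟩
  obtain ⟨C1, hC1, hgen⟩ := adm_gen k (t + 4) N C0 E (by omega) hN c (by linarith) htail ε hε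
  obtain ⟨C2, hC2⟩ := bad_count (AlgebraicClosure k) (t + 4) hn
  obtain ⟨W, hW, hWle⟩ := le_prod_absNorm_modul k (t + 4) N E (by omega) hN
  refine ⟨C1 * (((C2 : ℝ) + 1) ^ 2 * W), by positivity, ?_⟩
  intro Δ hΔ hE
  set S : Set (Fin (t + 4) → 𝓞 k) := {a ∈ adm2 k (t + 4) N c Δ | ConstSq
        ((discPoly (noLast a)).map (algebraMap (𝓞 k) k))} with hS
  have hSfin : S.Finite := (adm_finite k (t + 4) N c Δ).subset fun a ha => ha.1.1
  set X : Finset (Fin (t + 4) → 𝓞 k) := hSfin.toFinset with hXdef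
  have hXS : ∀ a, a ∈ X ↔ a ∈ S := fun a => by rw [hXdef, Set.Finite.mem_toFinset]
  have hcardX : S.ncard = X.card := by
    rw [hXdef, Set.ncard_eq_toFinset_card S hSfin]
  set x : ℝ := (Ideal.absNorm Δ : ℝ) with hx
  have hx1 : 1 ≤ x := by
    rw [hx]
    have h0 : Ideal.absNorm Δ ≠ 0 := by
      rw [Ne, Ideal.absNorm_eq_zero_iff]
      exact hΔ
    exact_mod_cast Nat.one_le_iff_ne_zero.mpr h0
  have hx0 : 0 < x := by linarith
  set m : ℕ → ℝ := fun j => (Ideal.absNorm (modul k (t + 4) N Δ j) : ℝ) with hm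
  have hm1 : ∀ j, 1 ≤ m j := by
    intro j
    have h0 : Ideal.absNorm (modul k (t + 4) N Δ j) ≠ 0 := by
      rw [Ne, Ideal.absNorm_eq_zero_iff]
      exact modul_ne_bot k (t + 4) N Δ j
    simp only [hm]
    exact_mod_cast Nat.one_le_iff_ne_zero.mpr h0
  have h1 := hgen Δ hΔ hE X (fun a ha => ((hXS a).1 ha).1.1)
    (Finset.univ.filter fun j : Fin (t + 4) => (j : ℕ) = t + 1 ∨ (j : ℕ) = t + 2)
    (fun _ => (C2 : ℝ) + 1) (fun _ _ => by positivity) (by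
      intro j hj a ha
      rw [Finset.mem_filter] at hj
      have h2 := mu28_coord k (t + 4) C2 hn hC2 {b | b ∈ X} a ((hXS a).1 ha).1.1.1
        (fun b hb => ((hXS b).1 hb).2) j (by omega) (by omega)
        (fun y => y - a j ∈ modul k (t + 4) N Δ j)
      have h3 : ((Set.ncard {y : 𝓞 k | ∃ b ∈ X, b j = y ∧
          (∀ i : Fin (t + 4), i < j → b i = a i) ∧
          y - a j ∈ modul k (t + 4) N Δ j} : ℕ) : ℝ) ≤ (C2 : ℝ) := by exact_mod_cast h2
      linarith)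
  have h2 := mu28_real t x W ((C2 : ℝ) + 1) hx1 hW m hm1 (hWle Δ hΔ hE)
    (by
      simp only [hm]
      exact_mod_cast congrArg Ideal.absNorm (modul_last k (t + 4) N E (by omega) Δ hΔ hE))
    (by
      simp only [hm, hx]
      exact_mod_cast absNorm_modul_sq_mul_le k (t + 4) N E (by omega) Δ hΔ hE)
    (by
      simp only [hm]
      have h0 : Ideal.absNorm (modul k (t + 4) N Δ (t + 3)) ≠ 0 := by
        rw [Ne, Ideal.absNorm_eq_zero_iff]
        exact modul_ne_bot k (t + 4) N Δ (t + 3)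
      have hdvd : modul k (t + 4) N Δ (t + 1) ∣ modul k (t + 4) N Δ (t + 3) := by
        unfold modul
        apply Finset.prod_dvd_prod_of_subset
        intro p hp
        rw [Finset.mem_filter] at hp ⊢
        exact ⟨hp.1, by omega⟩
      have hd2 := Nat.le_of_dvd (Nat.pos_of_ne_zero h0) (map_dvd Ideal.absNorm hdvd)
      exact_mod_cast hd2)
  rw [hcardX]
  have h3 : (X.card : ℝ) ≤ C1 * x ^ ε * (((C2 : ℝ) + 1) ^ 2 * W *
      (x ^ ((((t + 4 : ℕ) : ℝ) ^ 2 - 4 * ((t + 4 : ℕ) : ℝ) + 2) /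
        (4 * (((t + 4 : ℕ) : ℝ) - 1))) * m (t + 3) ^ (1 / 2 : ℝ))) := by
    refine h1.trans (mul_le_mul_of_nonneg_left ?_ (by positivity))
    refine le_trans (le_of_eq ?_) h2
    apply Finset.prod_congr rfl
    intro j _
    simp only [Finset.mem_filter, Finset.mem_univ, true_and]
    rfl
  refine h3.trans (le_of_eq ?_)
  rw [Real.rpow_add hx0]
  simp only [hm]
  rw [show t + 4 - 1 = t + 3 from rfl]
  ring

end Pool.Agent.H67.MU
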