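import Mathlib

/-!
# Project MU: Blichfeldt's theorem with multiplicity
-/

set_option autoImplicit false

open MeasureTheory

namespace Pool.Agent.H67.MU

theorem exists_many {E : Type} [MeasurableSpace E] [AddCommGroup E] [MeasurableAdd E]
    (μ : MeasureTheory.Measure E) [μ.IsAddLeftInvariant] (L : AddSubgroup E) [Countable L]
    (F s : Set E) (fund : MeasureTheory.IsAddFundamentalDomain L F μ)
    (hF : μ F ≠ ⊤) (hs : MeasurableSet s) (t : ℕ) (h : (t : ENNReal) * μ F < μ s) :
    ∃ S : Finset L, t < S.card ∧ ∀ x ∈ S, ∃ a ∈ s, ∃ b ∈ s, (x : E) = a - b := by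
  classical
  -- the number of translates of `s` containing `x`
  have hmeas : ∀ g : L, MeasurableSet {x : E | -(g : E) + x ∈ s} := fun g =>
    measurable_const_add (-(g : E)) hs
  have h1 : μ s = ∑' g : L, ∫⁻ x in F, ({x : E | -(g : E) + x ∈ s} : Set E).indicator 1 x ∂μ := by
    have := fund.lintegral_eq_tsum' (s.indicator (1 : E → ENNReal))
    rw [lintegral_indicator_one hs] at this
    rw [this]
    refine tsum_congr fun g => ?_
    refine lintegral_congr fun x => ?_
    simp only [Set.indicator_apply]
    congr 1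
  have h2 : μ s = ∫⁻ x in F, ∑' g : L, ({x : E | -(g : E) + x ∈ s} : Set E).indicator 1 x ∂μ := by
    rw [h1, lintegral_tsum]
    intro g
    exact (measurable_one.indicator (hmeas g)).aemeasurable
  by_contra hcon
  push Not at hcon
  have h3 : ∀ x : E, ∑' g : L, ({x : E | -(g : E) + x ∈ s} : Set E).indicator
      (1 : E → ENNReal) x ≤ t := by
    intro x
    rw [ENNReal.tsum_eq_iSup_sum]
    refine iSup_le fun T => ?_
    have hT : ∑ g ∈ T, ({x : E | -(g : E) + x ∈ s} : Set E).indicator (1 : E → ENNReal) x =
        ((T.filter fun g : L => -(g : E) + x ∈ s).card : ENNReal) := by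
      rw [Finset.card_filter]
      push_cast
      refine Finset.sum_congr rfl fun g _ => ?_
      simp only [Set.indicator_apply, Set.mem_ofPred_eq, Pi.one_apply]
    rw [hT]
    refine Nat.cast_le.2 ?_
    set U := T.filter fun g : L => -(g : E) + x ∈ s with hU
    rcases U.eq_empty_or_nonempty with h0 | ⟨g0, hg0⟩
    · rw [h0]; simp
    by_contra hlt
    push Not at hlt
    obtain ⟨y, hy, hy'⟩ := hcon (U.image fun g => g0 - g) (by
      rw [Finset.card_image_of_injective _ (sub_right_injective)]
      exact hlt)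
    rw [Finset.mem_image] at hy
    obtain ⟨g, hg, rfl⟩ := hy
    refine hy' (-(g : E) + x) (Finset.mem_filter.1 hg).2 (-(g0 : E) + x)
      (Finset.mem_filter.1 hg0).2 ?_
    push_cast
    abel
  have h4 : μ s ≤ t * μ F := by
    rw [h2]
    calc _ ≤ ∫⁻ _ in F, (t : ENNReal) ∂μ := lintegral_mono fun x => h3 x
      _ = t * μ F := by rw [lintegral_const, Measure.restrict_apply_univ]
  exact absurd h (not_lt.2 h4)

end Pool.Agent.H67.MU
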