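import Pool.Agent.H67.MU.Defs3

/-!
# Project MU, row IMP-8: imprimitive groups and intermediate fields
-/

set_option autoImplicit false

open Polynomial IsDedekindDomain NumberField

namespace Pool.Agent.H67.MU

section imp8

variable {k : Type} [Field k] {n : ℕ} {M : IntermediateField k (AlgebraicClosure k)}

/-- the permutation of `Fin n` given by an automorphism -/
noncomputable def imp8_perm (e : (M →ₐ[k] AlgebraicClosure k) ≃ Fin n)
    (σ : AlgebraicClosure k ≃ₐ[k] AlgebraicClosure k) : Equiv.Perm (Fin n) where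
  toFun i := e (σ.toAlgHom.comp (e.symm i))
  invFun i := e (σ.symm.toAlgHom.comp (e.symm i))
  left_inv i := by
    show e (σ.symm.toAlgHom.comp (e.symm (e (σ.toAlgHom.comp (e.symm i))))) = i
    rw [Equiv.symm_apply_apply]
    have h : σ.symm.toAlgHom.comp (σ.toAlgHom.comp (e.symm i)) = e.symm i := by
      ext x
      exact σ.symm_apply_apply _
    rw [h, Equiv.apply_symm_apply]
  right_inv i := by
    show e (σ.toAlgHom.comp (e.symm (e (σ.symm.toAlgHom.comp (e.symm i))))) = i
    rw [Equiv.symm_apply_apply]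
    have h : σ.toAlgHom.comp (σ.symm.toAlgHom.comp (e.symm i)) = e.symm i := by
      ext x
      exact σ.apply_symm_apply _
    rw [h, Equiv.apply_symm_apply]

theorem imp8_perm_apply (e : (M →ₐ[k] AlgebraicClosure k) ≃ Fin n)
    (σ : AlgebraicClosure k ≃ₐ[k] AlgebraicClosure k) (φ : M →ₐ[k] AlgebraicClosure k) :
    imp8_perm e σ (e φ) = e (σ.toAlgHom.comp φ) := by
  show e (σ.toAlgHom.comp (e.symm (e φ))) = _
  rw [Equiv.symm_apply_apply]

noncomputable def imp8_hom (e : (M →ₐ[k] AlgebraicClosure k) ≃ Fin n) :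
    (AlgebraicClosure k ≃ₐ[k] AlgebraicClosure k) →* Equiv.Perm (Fin n) where
  toFun := imp8_perm e
  map_one' := by
    ext i
    show ((e ((1 : AlgebraicClosure k ≃ₐ[k] AlgebraicClosure k).toAlgHom.comp (e.symm i)) : Fin n) :
      ℕ) = i
    have h : (1 : AlgebraicClosure k ≃ₐ[k] AlgebraicClosure k).toAlgHom.comp (e.symm i) =
        e.symm i := by
      ext x
      rfl
    rw [h, Equiv.apply_symm_apply]
  map_mul' σ τ := by
    apply Equiv.ext
    intro i
    rw [Equiv.Perm.mul_apply]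
    obtain ⟨φ, rfl⟩ := e.surjective i
    rw [imp8_perm_apply, imp8_perm_apply, imp8_perm_apply]
    rfl

theorem imp8_hom_apply (e : (M →ₐ[k] AlgebraicClosure k) ≃ Fin n)
    (σ : AlgebraicClosure k ≃ₐ[k] AlgebraicClosure k) (φ : M →ₐ[k] AlgebraicClosure k) :
    imp8_hom e σ (e φ) = e (σ.toAlgHom.comp φ) := imp8_perm_apply e σ φ

theorem imp8_range {G : Subgroup (Equiv.Perm (Fin n))}
    (e : (M →ₐ[k] AlgebraicClosure k) ≃ Fin n) (he : ∀ π : Equiv.Perm (Fin n),
      π ∈ G ↔ ∃ σ : AlgebraicClosure k ≃ₐ[k] AlgebraicClosure k,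
        ∀ φ : M →ₐ[k] AlgebraicClosure k, e (σ.toAlgHom.comp φ) = π (e φ)) :
    (∀ σ, imp8_hom e σ ∈ G) ∧ ∀ π ∈ G, ∃ σ, imp8_hom e σ = π := by
  refine ⟨fun σ => (he _).mpr ⟨σ, fun φ => (imp8_hom_apply e σ φ).symm⟩, fun π hπ => ?_⟩
  obtain ⟨σ, hσ⟩ := (he π).mp hπ
  refine ⟨σ, Equiv.ext fun i => ?_⟩
  obtain ⟨φ, rfl⟩ := e.surjective i
  rw [imp8_hom_apply, hσ]

end imp8

open scoped Pointwise in
/-- A field with an imprimitive group has a proper intermediate field. -/
theorem exists_between {k : Type} [Field k] [NumberField k] {n : ℕ}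
    {G : Subgroup (Equiv.Perm (Fin n))} (htr : MulAction.IsPretransitive G (Fin n))
    (himp : ¬ MulAction.IsPreprimitive G (Fin n))
    {M : IntermediateField k (AlgebraicClosure k)} (hn : Module.finrank k M = n)
    (hM : HasGroup G M) : ∃ F : IntermediateField k (AlgebraicClosure k), ⊥ < F ∧ F < M := by
  obtain ⟨e, he⟩ := hM
  obtain ⟨hG, hsur⟩ := imp8_range e he
  have hgal : IsGalois k (AlgebraicClosure k) := inferInstance
  set i0 : Fin n := e M.val with hi0
  have hn0 : 0 < n := by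
    have := i0.2
    omega
  have hMfin : FiniteDimensional k M := Module.finite_of_finrank_pos (by omega)
  -- the block
  obtain ⟨B0, hB0, hB0t⟩ : ∃ B : Set (Fin n), MulAction.IsBlock G B ∧
      ¬ MulAction.IsTrivialBlock B := by
    by_contra hcon
    apply himp
    refine { toIsPretransitive := htr, isTrivialBlock_of_isBlock := fun {B} hB => ?_ }
    by_contra h
    exact hcon ⟨B, hB, h⟩
  have hns : ¬ B0.Subsingleton := fun h => hB0t (Or.inl h)
  have hnu : B0 ≠ Set.univ := fun h => hB0t (Or.inr h)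
  obtain ⟨b0, hb0, b1, hb1, hb01⟩ := Set.not_subsingleton_iff.mp hns
  obtain ⟨g0, hg0⟩ := htr.exists_smul_eq b0 i0
  set B : Set (Fin n) := g0 • B0 with hBdef
  have hB : MulAction.IsBlock G B := hB0.translate g0
  have hi0B : i0 ∈ B := by
    rw [← hg0]
    exact Set.smul_mem_smul_set hb0
  set i1 : Fin n := g0 • b1 with hi1
  have hi1B : i1 ∈ B := Set.smul_mem_smul_set hb1
  have hi01 : i1 ≠ i0 := by
    rw [← hg0]
    intro h
    exact hb01 (MulAction.injective g0 h).symm
  have hBu : ∃ j, j ∉ B := by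
    by_contra hcon
    apply hnu
    have h1 : B = Set.univ := Set.eq_univ_of_forall fun j => by
      by_contra h
      exact hcon ⟨j, h⟩
    have h2 : g0⁻¹ • B = B0 := by rw [hBdef, inv_smul_smul]
    rw [← h2, h1, Set.smul_set_univ]
  -- elements of the group that map `i0` into the block preserve it
  have hkey : ∀ g ∈ G, g i0 ∈ B → (g • B : Set (Fin n)) = B := by
    intro g hg h
    rcases (MulAction.isBlock_iff_smul_eq_or_disjoint.mp hB) ⟨g, hg⟩ with h1 | h1
    · exact h1
    · exfalso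
      have h2 : g i0 ∈ ((⟨g, hg⟩ : G) • B : Set (Fin n)) := ⟨i0, hi0B, rfl⟩
      exact Set.disjoint_left.mp h1 h2 h
  -- the stabilizer of the block
  set T : Subgroup (AlgebraicClosure k ≃ₐ[k] AlgebraicClosure k) :=
    (MulAction.stabilizer (Equiv.Perm (Fin n)) B).comap (imp8_hom e) with hT
  have hTmem : ∀ σ, σ ∈ T ↔ (imp8_hom e σ • B : Set (Fin n)) = B := fun σ => Iff.rfl
  have hfixM : ∀ σ ∈ M.fixingSubgroup, imp8_hom e σ i0 = i0 := by
    intro σ hσ
    rw [hi0, imp8_hom_apply]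
    congr 1
    ext x
    exact (IntermediateField.mem_fixingSubgroup_iff _ _).mp hσ x.1 x.2
  have hST : M.fixingSubgroup ≤ T := by
    intro σ hσ
    rw [hTmem]
    refine hkey _ (hG σ) ?_
    rw [hfixM σ hσ]
    exact hi0B
  have hTopen : IsOpen (T : Set (AlgebraicClosure k ≃ₐ[k] AlgebraicClosure k)) :=
    Subgroup.isOpen_mono hST (IntermediateField.fixingSubgroup_isOpen M)
  have hTclosed : IsClosed (T : Set (AlgebraicClosure k ≃ₐ[k] AlgebraicClosure k)) :=
    Subgroup.isClosed_of_isOpen T hTopen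
  set F : IntermediateField k (AlgebraicClosure k) := IntermediateField.fixedField T with hF
  have hFfix : F.fixingSubgroup = T := InfiniteGalois.fixingSubgroup_fixedField ⟨T, hTclosed⟩
  refine ⟨F, bot_lt_iff_ne_bot.mpr ?_, lt_of_le_of_ne ?_ ?_⟩
  · -- `F ≠ ⊥`
    intro hbot
    rw [hbot, IntermediateField.fixingSubgroup_bot] at hFfix
    obtain ⟨j, hj⟩ := hBu
    obtain ⟨⟨g, hg⟩, hgj⟩ := htr.exists_smul_eq i0 j
    obtain ⟨σ, hσ⟩ := hsur g hg
    have h1 : σ ∈ T := by
      rw [← hFfix]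
      exact Subgroup.mem_top σ
    rw [hTmem, hσ] at h1
    apply hj
    rw [← h1]
    exact ⟨i0, hi0B, hgj⟩
  · -- `F ≤ M`
    rw [← InfiniteGalois.fixedField_fixingSubgroup M]
    intro x hx
    rw [IntermediateField.mem_fixedField_iff] at hx ⊢
    intro σ hσ
    exact hx σ (hST hσ)
  · -- `F ≠ M`
    intro hFM
    obtain ⟨⟨g, hg⟩, hgj⟩ := htr.exists_smul_eq i0 i1
    have hgj' : g i0 = i1 := hgj
    obtain ⟨σ, hσ⟩ := hsur g hg
    have h1 : σ ∈ T := by
      rw [hTmem, hσ]
      refine hkey g hg ?_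
      rw [hgj']
      exact hi1B
    rw [← hFfix, hFM] at h1
    have h2 := hfixM σ h1
    rw [hσ, hgj'] at h2
    exact hi01 h2

end Pool.Agent.H67.MU
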