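import Mathlib

/-!
# Project MU (MP_a3214d), block SQC, row SQC-1: divisibility of determinants
-/

set_option autoImplicit false

open Polynomial

namespace Pool.Agent.H67.MU

/-- The sum of `K` distinct natural numbers is at least `K (K - 1) / 2`. -/
theorem sq1_sum_ge (K : ℕ) (r : Fin K → ℕ) (hr : Function.Injective r) :
    K * (K - 1) / 2 ≤ ∑ j, r j := by
  classical
  set s : Finset ℕ := Finset.univ.image r with hs
  have hcard : s.card = K := by
    rw [hs, Finset.card_image_of_injective _ hr, Finset.card_univ, Fintype.card_fin]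
  have h1 : ∑ j, r j = ∑ x ∈ s, x := by
    rw [hs, Finset.sum_image (fun a _ b _ h => hr h)]
  have h2 : ∑ x ∈ s, x = ∑ i : Fin K, s.orderEmbOfFin hcard i := by
    have h3 : s = Finset.univ.image (s.orderEmbOfFin hcard) := by
      rw [Finset.image_orderEmbOfFin_univ]
    conv_lhs => rw [h3]
    rw [Finset.sum_image (fun a _ b _ h => (s.orderEmbOfFin hcard).injective h)]
  have h4 : ∑ i : Fin K, (i : ℕ) ≤ ∑ i : Fin K, s.orderEmbOfFin hcard i := by
    refine Finset.sum_le_sum fun i hi0 => ?_
    clear hi0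
    have hmono : StrictMono (fun i : Fin K => s.orderEmbOfFin hcard i) :=
      (s.orderEmbOfFin hcard).strictMono
    obtain ⟨i, hi⟩ := i
    induction i with
    | zero => exact Nat.zero_le _
    | succ m ih =>
      have h5 := ih (by omega)
      have h6 : s.orderEmbOfFin hcard ⟨m, by omega⟩ < s.orderEmbOfFin hcard ⟨m + 1, hi⟩ :=
        hmono (by simp [Fin.lt_def])
      change m + 1 ≤ _
      have h7 : m ≤ s.orderEmbOfFin hcard ⟨m, by omega⟩ := h5
      omega
  have h5 : ∑ i : Fin K, (i : ℕ) = K * (K - 1) / 2 := by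
    rw [Fin.sum_univ_eq_sum_range (fun i => i) K, Finset.sum_range_id]
  rw [h1, h2, ← h5]
  exact h4

/-- The determinant of polynomials evaluated at multiples of `q`. -/
theorem det_poly_dvd {R : Type*} [CommRing R] (K : ℕ) (q : R) (P : Fin K → R[X])
    (u : Fin K → R) :
    q ^ (K * (K - 1) / 2) ∣ (Matrix.of fun i j : Fin K => (P j).eval (q * u i)).det := by
  classical
  rw [← Matrix.det_transpose]
  set L : ℕ := (Finset.univ.sup fun j => (P j).natDegree) + 1 with hL
  have h : (Matrix.of fun i j : Fin K => (P j).eval (q * u i)).transpose =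
      fun j : Fin K => ∑ l : Fin L, (P j).coeff (l : ℕ) • (fun i : Fin K => (q * u i) ^ (l : ℕ)) := by
    ext j i
    simp only [Matrix.transpose_apply, Matrix.of_apply, Finset.sum_apply, Pi.smul_apply,
      smul_eq_mul]
    rw [Polynomial.eval_eq_sum_range' (n := L)]
    · rw [Finset.sum_range]
    · rw [hL]
      exact Nat.lt_succ_of_le (Finset.le_sup (f := fun j => (P j).natDegree) (Finset.mem_univ j))
  have hdet : (Matrix.of fun i j : Fin K => (P j).eval (q * u i)).transpose.det =
      (Matrix.detRowAlternating (n := Fin K) (R := R)).toMultilinearMap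
        (fun j : Fin K => ∑ l : Fin L,
          (P j).coeff (l : ℕ) • (fun i : Fin K => (q * u i) ^ (l : ℕ))) := by
    rw [h]
    rfl
  rw [hdet, MultilinearMap.map_sum]
  refine Finset.dvd_sum fun r _ => ?_
  rw [MultilinearMap.map_smul_univ]
  rw [smul_eq_mul]
  refine Dvd.dvd.mul_left ?_ _
  by_cases hr : Function.Injective r
  · have h1 : (fun j : Fin K => (fun i : Fin K => (q * u i) ^ ((r j : Fin L) : ℕ))) =
        fun j : Fin K => q ^ ((r j : Fin L) : ℕ) • (fun i : Fin K => u i ^ ((r j : Fin L) : ℕ)) := by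
      ext j i
      simp [mul_pow]
    rw [h1, MultilinearMap.map_smul_univ, smul_eq_mul, Finset.prod_pow_eq_pow_sum]
    refine Dvd.dvd.mul_right (pow_dvd_pow q ?_) _
    exact sq1_sum_ge K (fun j => ((r j : Fin L) : ℕ)) (fun a b hab => hr (Fin.ext hab))
  · have h2 : ¬ Function.Injective
        (fun j : Fin K => (fun i : Fin K => (q * u i) ^ ((r j : Fin L) : ℕ))) := by
      intro hinj
      apply hr
      intro a b hab
      apply hinj
      simp only [hab]
    have h3 := (Matrix.detRowAlternating (n := Fin K) (R := R)).map_eq_zero_of_not_injective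
      (fun j : Fin K => (fun i : Fin K => (q * u i) ^ ((r j : Fin L) : ℕ))) h2
    change _ ∣ (Matrix.detRowAlternating (n := Fin K) (R := R)) _
    rw [h3]
    exact dvd_zero _

/-- A determinant whose `j`-th column lies in `I ^ e j` lies in `I ^ ∑ e j`. -/
theorem det_mem_pow {R : Type*} [CommRing R] (K : ℕ) (I : Ideal R) (e : Fin K → ℕ)
    (A : Matrix (Fin K) (Fin K) R) (hA : ∀ i j, A i j ∈ I ^ e j) : A.det ∈ I ^ ∑ j, e j := by
  classical
  rw [Matrix.det_apply]
  refine Ideal.sum_mem _ fun σ _ => ?_
  have h1 : ∏ i, A (σ i) i ∈ I ^ ∑ j, e j := by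
    rw [← Finset.prod_pow_eq_pow_sum]
    exact Ideal.prod_mem_prod fun i _ => hA _ _
  rcases Int.units_eq_one_or (Equiv.Perm.sign σ) with h | h
  · rw [h, one_smul]
    exact h1
  · rw [h]
    simpa using h1

end Pool.Agent.H67.MU
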