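import Pool.Agent.H67.MU.Defs

/-!
# Project MU (MP_a3214d), block SQC, row SQC-2: the square root of a polynomial modulo `X ^ N`
-/

set_option autoImplicit false

open Polynomial

namespace Pool.Agent.H67.MU

/-- The square root of a polynomial modulo `X ^ N`. -/
theorem sqrt_poly {R : Type*} [CommRing R] (h2 : IsUnit (2 : R)) (E : R[X]) (z : R)
    (hz : IsUnit z) (hE : E.eval 0 = z ^ 2) (N : ℕ) :
    ∃ G : R[X], G.eval 0 = z ∧ X ^ N ∣ G ^ 2 - E := by
  obtain ⟨w, hw⟩ : ∃ w : R, 2 * z * w = 1 := by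
    obtain ⟨u, hu⟩ := h2.mul hz
    exact ⟨(u⁻¹ : Rˣ), by rw [← hu]; exact u.mul_inv⟩
  induction N with
  | zero => exact ⟨C z, by simp, by simp⟩
  | succ N ih =>
    rcases Nat.eq_zero_or_pos N with rfl | hN
    · refine ⟨C z, by simp, ?_⟩
      rw [zero_add, pow_one, X_dvd_iff, coeff_zero_eq_eval_zero, eval_sub, eval_pow, eval_C, hE,
        sub_self]
    · obtain ⟨G, hG, H, hH⟩ := ih
      refine ⟨G - C (H.eval 0 * w) * X ^ N, ?_, ?_⟩
      · rw [eval_sub, eval_mul, eval_pow, eval_X, zero_pow hN.ne', mul_zero, sub_zero, hG]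
      · have h1 : X ∣ H - 2 * C (H.eval 0 * w) * G + C (H.eval 0 * w) ^ 2 * X ^ N := by
          rw [X_dvd_iff, coeff_zero_eq_eval_zero]
          simp only [eval_add, eval_sub, eval_mul, eval_pow, eval_X, eval_C, eval_ofNat,
            zero_pow hN.ne', hG]
          linear_combination (-(H.eval 0)) * hw
        obtain ⟨J, hJ⟩ := h1
        refine ⟨J, ?_⟩
        calc (G - C (H.eval 0 * w) * X ^ N) ^ 2 - E
            = (G ^ 2 - E) + X ^ N * (-(2 * C (H.eval 0 * w) * G) +
                C (H.eval 0 * w) ^ 2 * X ^ N) := by ring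
          _ = X ^ N * (H - 2 * C (H.eval 0 * w) * G + C (H.eval 0 * w) ^ 2 * X ^ N) := by
              rw [hH]; ring
          _ = X ^ (N + 1) * J := by rw [hJ]; ring

/-- If `q ^ N = 0`, square roots of `E (q u)` congruent to `z` modulo `q` are values of a
polynomial at `q u`. -/
theorem eval_sqrt {R : Type*} [CommRing R] (h2 : IsUnit (2 : R)) (E : R[X]) (z q : R)
    (hz : IsUnit z) (hE : E.eval 0 = z ^ 2) (N : ℕ) (hq : q ^ N = 0) :
    ∃ G : R[X], ∀ u y : R, y ^ 2 = E.eval (q * u) → q ∣ y - z → y = G.eval (q * u) := by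
  obtain ⟨G, hG, H, hH⟩ := sqrt_poly h2 E z hz hE N
  refine ⟨G, fun u y hy hyz => ?_⟩
  have h1 : (G.eval (q * u)) ^ 2 = E.eval (q * u) := by
    have h3 := congrArg (fun p : R[X] => p.eval (q * u)) hH
    simp only [eval_sub, eval_pow, eval_mul, eval_X] at h3
    rw [mul_pow, hq, zero_mul, zero_mul] at h3
    exact sub_eq_zero.mp h3
  obtain ⟨a, ha⟩ := hyz
  obtain ⟨b, hb⟩ : q ∣ G.eval (q * u) - z := by
    have h3 := sub_dvd_eval_sub (q * u) 0 G
    rw [sub_zero, hG] at h3
    exact (dvd_mul_right q u).trans h3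
  have h4 : y + G.eval (q * u) = 2 * z + q * (a + b) := by linear_combination ha + hb
  have hnil : IsNilpotent (q * (a + b)) := ⟨N, by rw [mul_pow, hq, zero_mul]⟩
  have hunit : IsUnit (y + G.eval (q * u)) := by
    rw [h4]
    exact hnil.isUnit_add_left_of_commute (h2.mul hz) (Commute.all _ _)
  have h5 : (y - G.eval (q * u)) * (y + G.eval (q * u)) = 0 := by
    linear_combination hy - h1
  exact sub_eq_zero.mp ((hunit.mul_left_eq_zero).mp h5)

end Pool.Agent.H67.MU
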