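import Pool.Agent.H67.MU.Defs
import Pool.Agent.H67.MU.Bdd
import Pool.Agent.H67.MU.DetPoly
import Pool.Agent.H67.MU.SqrtPoly

/-!
# Project MU (MP_a3214d), block SQC, row SQC-4: the determinant method in one residue class
-/

set_option autoImplicit false

open Polynomial IsDedekindDomain NumberField

namespace Pool.Agent.H67.MU

/-- The matrix of the determinant method. -/
def sq4_mat {R : Type*} [CommRing R] (b : ℕ) (s y : Fin (2 * b) → R) :
    Matrix (Fin (2 * b)) (Fin (2 * b)) R :=
  Matrix.of fun i j => if (j : ℕ) < b then s i ^ (j : ℕ) else y i * s i ^ ((j : ℕ) - b)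

theorem sq4_sum (b : ℕ) :
    ∑ j : Fin (2 * b), (if (j : ℕ) < b then (j : ℕ) else (j : ℕ) - b) = b * (b - 1) := by
  rw [Fin.sum_univ_eq_sum_range (fun j => if j < b then j else j - b) (2 * b), two_mul,
    Finset.sum_range_add]
  have h1 : ∑ x ∈ Finset.range b, (if x < b then x else x - b) = ∑ x ∈ Finset.range b, x :=
    Finset.sum_congr rfl fun x hx => by rw [if_pos (Finset.mem_range.1 hx)]
  have h2 : ∑ x ∈ Finset.range b, (if b + x < b then b + x else b + x - b) =
      ∑ x ∈ Finset.range b, x :=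
    Finset.sum_congr rfl fun x _ => by rw [if_neg (by omega)]; omega
  rw [h1, h2, ← two_mul, mul_comm, Finset.sum_range_id_mul_two]

theorem sq4_prod (b : ℕ) (Y Z : ℝ) :
    ∏ j : Fin (2 * b), (if (j : ℕ) < b then Y ^ (j : ℕ) else Z * Y ^ ((j : ℕ) - b)) =
      Y ^ (b * (b - 1)) * Z ^ b := by
  rw [Fin.prod_univ_eq_prod_range (fun j => if j < b then Y ^ j else Z * Y ^ (j - b)) (2 * b),
    two_mul, Finset.prod_range_add]
  have h1 : ∏ x ∈ Finset.range b, (if x < b then Y ^ x else Z * Y ^ (x - b)) =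
      Y ^ ∑ x ∈ Finset.range b, x := by
    rw [← Finset.prod_pow_eq_pow_sum]
    exact Finset.prod_congr rfl fun x hx => by rw [if_pos (Finset.mem_range.1 hx)]
  have h2 : ∏ x ∈ Finset.range b, (if b + x < b then Y ^ (b + x) else Z * Y ^ (b + x - b)) =
      Z ^ b * Y ^ ∑ x ∈ Finset.range b, x := by
    rw [← Finset.prod_pow_eq_pow_sum]
    conv_rhs => rw [← Finset.card_range b, ← Finset.prod_const]
    rw [Finset.card_range, ← Finset.prod_mul_distrib]
    refine Finset.prod_congr rfl fun x _ => ?_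
    rw [if_neg (by omega)]
    congr 2
    omega
  rw [h1, h2]
  have h3 : b * (b - 1) = (∑ x ∈ Finset.range b, x) + ∑ x ∈ Finset.range b, x := by
    rw [← mul_two, Finset.sum_range_id_mul_two]
  rw [h3, pow_add]
  ring

/-- The determinant is divisible by a power of `q`. -/
theorem sq4_dvd {R : Type*} [CommRing R] (b : ℕ) (E : R[X]) (q c0 z0 : R)
    (h2 : IsCoprime q 2) (hz0 : IsCoprime q z0) (hE0 : z0 ^ 2 = E.eval c0)
    (c y : Fin (2 * b) → R) (hc : ∀ i, q ∣ c i - c0) (hy : ∀ i, q ∣ y i - z0)
    (hE : ∀ i, y i ^ 2 = E.eval (c i)) :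
    q ^ (b * (2 * b - 1)) ∣ (sq4_mat b (fun i => c i - c0) y).det := by
  classical
  set N := b * (2 * b - 1) with hN
  set I : Ideal R := Ideal.span {q ^ N} with hI
  let mk : R →+* R ⧸ I := Ideal.Quotient.mk I
  have hunit : ∀ x : R, IsCoprime q x → IsUnit (mk x) := by
    intro x hx
    obtain ⟨u, v, huv⟩ := hx.pow_left (m := N)
    have h0 : mk (q ^ N) = 0 := by
      rw [Ideal.Quotient.eq_zero_iff_mem]
      exact Ideal.mem_span_singleton_self _
    have h1 : mk v * mk x = 1 := by
      have h := congrArg mk huv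
      rw [map_add, map_mul, map_mul, h0, mul_zero, zero_add, map_one] at h
      exact h
    exact IsUnit.of_mul_eq_one_right (mk v) h1
  have hq0 : mk q ^ N = 0 := by
    rw [← map_pow, Ideal.Quotient.eq_zero_iff_mem]
    exact Ideal.mem_span_singleton_self _
  have hE' : ((E.comp (X + C c0)).map mk).eval 0 = mk z0 ^ 2 := by
    rw [← map_zero mk, eval_map_apply, eval_comp, ← map_pow, hE0]
    simp
  have h2' : IsUnit (2 : R ⧸ I) := by
    have := hunit 2 h2
    rwa [map_ofNat] at this
  obtain ⟨G, hG⟩ := eval_sqrt h2' ((E.comp (X + C c0)).map mk) (mk z0) (mk q) (hunit z0 hz0)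
    hE' N hq0
  choose u hu using hc
  have hyG : ∀ i, mk (y i) = G.eval (mk q * mk (u i)) := by
    intro i
    apply hG
    · rw [← map_mul, ← hu i, eval_map_apply, eval_comp, ← map_pow, hE i]
      simp
    · obtain ⟨t, ht⟩ := hy i
      exact ⟨mk t, by rw [← map_sub, ht, map_mul]⟩
  have hdet := det_poly_dvd (2 * b) (mk q)
    (fun j => if (j : ℕ) < b then X ^ (j : ℕ) else G * X ^ ((j : ℕ) - b)) (fun i => mk (u i))
  have hK : 2 * b * (2 * b - 1) / 2 = N := by
    rw [hN, mul_assoc, Nat.mul_div_cancel_left _ two_pos]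
  rw [hK, hq0, zero_dvd_iff] at hdet
  have hmap : mk (sq4_mat b (fun i => c i - c0) y).det = 0 := by
    rw [RingHom.map_det, ← hdet]
    congr 1
    ext i j
    simp only [sq4_mat, RingHom.mapMatrix_apply, Matrix.map_apply, Matrix.of_apply]
    split_ifs with hj
    · rw [map_pow, hu i, map_mul, eval_pow, eval_X]
    · rw [map_mul, map_pow, hu i, map_mul, eval_mul, eval_pow, eval_X, hyG i]
  rw [Ideal.Quotient.eq_zero_iff_mem, hI, Ideal.mem_span_singleton] at hmap
  exact hmap

/-- If all the determinants vanish there is a linear relation. -/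
theorem sq4_rel {R : Type*} [CommRing R] {K : Type*} [Field K] [Algebra R K]
    [FaithfulSMul R K] (b : ℕ) (A : Finset R) (s y : R → R)
    (h : ∀ c : Fin (2 * b) → R, (∀ i, c i ∈ A) →
      (sq4_mat b (fun i => s (c i)) (fun i => y (c i))).det = 0) :
    ∃ P Q : K[X], (P ≠ 0 ∨ Q ≠ 0) ∧ P.degree < b ∧ Q.degree < b ∧
      ∀ c ∈ A, P.eval (algebraMap R K (s c)) + algebraMap R K (y c) *
        Q.eval (algebraMap R K (s c)) = 0 := by
  classical
  let v : R → (Fin (2 * b) → K) := fun c j =>
    if (j : ℕ) < b then algebraMap R K (s c) ^ (j : ℕ)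
    else algebraMap R K (y c) * algebraMap R K (s c) ^ ((j : ℕ) - b)
  set S : Set (Fin (2 * b) → K) := v '' (A : Set R) with hS
  have hlt : Submodule.span K S ≠ ⊤ := by
    intro htop
    obtain ⟨f, hf1, hf2, hf3⟩ := Submodule.exists_fun_fin_finrank_span_eq K S
    have hfr : Module.finrank K (Submodule.span K S) = 2 * b := by
      rw [htop, finrank_top, Module.finrank_fin_fun]
    let f' : Fin (2 * b) → (Fin (2 * b) → K) := fun i => f (Fin.cast hfr.symm i)
    have hf3' : LinearIndependent K f' := by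
      have := hf3.comp (Fin.cast hfr.symm) (Fin.cast_injective _)
      exact this
    have hmem : ∀ i, ∃ c ∈ A, v c = f' i := fun i => hf1 _
    choose c hcA hc using hmem
    have hdet := h c hcA
    have h1 : (Matrix.of f').det = 0 := by
      have h2 : (Matrix.of f') = (sq4_mat b (fun i => s (c i)) (fun i => y (c i))).map
          (algebraMap R K) := by
        ext i j
        rw [Matrix.of_apply, ← hc i, Matrix.map_apply]
        simp only [v, sq4_mat, Matrix.of_apply]
        split_ifs
        · rw [map_pow]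
        · rw [map_mul, map_pow]
      rw [h2, ← RingHom.mapMatrix_apply, ← RingHom.map_det, hdet, map_zero]
    have h3 : IsUnit (Matrix.of f') := Matrix.linearIndependent_rows_iff_isUnit.1 hf3'
    rw [Matrix.isUnit_iff_isUnit_det, h1] at h3
    exact not_isUnit_zero h3
  obtain ⟨φ, hφ0, hφ⟩ := Submodule.exists_le_ker_of_lt_top _ (lt_top_iff_ne_top.2 hlt)
  let a : Fin (2 * b) → K := fun j => φ (Pi.single j 1)
  have hφa : ∀ w : Fin (2 * b) → K, φ w = ∑ j, w j * a j := by
    intro w
    conv_lhs => rw [pi_eq_sum_univ' w]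
    rw [map_sum]
    refine Finset.sum_congr rfl fun j _ => ?_
    rw [map_smul, smul_eq_mul]
  have ha : a ≠ 0 := by
    intro h0
    apply hφ0
    ext j
    simp only [LinearMap.coe_comp, Function.comp_apply, LinearMap.zero_comp,
      LinearMap.zero_apply, LinearMap.coe_single]
    exact congrFun h0 j
  let a' : ℕ → K := fun j => if hj : j < 2 * b then a ⟨j, hj⟩ else 0
  refine ⟨∑ j ∈ Finset.range b, C (a' j) * X ^ j, ∑ j ∈ Finset.range b, C (a' (b + j)) * X ^ j,
    ?_, ?_, ?_, ?_⟩
  · by_contra hcon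
    rw [not_or, not_not, not_not] at hcon
    obtain ⟨hP, hQ⟩ := hcon
    apply ha
    funext j
    have hco : ∀ (g : ℕ → K) (l : ℕ), l < b →
        (∑ j ∈ Finset.range b, C (g j) * X ^ j : K[X]).coeff l = g l := by
      intro g l hl
      rw [finsetSum_coeff, Finset.sum_eq_single l]
      · simp
      · intro m _ hm
        rw [coeff_C_mul_X_pow, if_neg (fun h => hm h.symm)]
      · intro hm
        exact absurd (Finset.mem_range.2 hl) hm
    by_cases hj : (j : ℕ) < b
    · have := hco a' j hj
      rw [hP, coeff_zero] at this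
      simp only [a', j.2, dif_pos, Fin.eta] at this
      exact this.symm
    · have h2 := hco (fun j => a' (b + j)) (j - b) (by have := j.2; omega)
      rw [hQ, coeff_zero] at h2
      have h3 : b + ((j : ℕ) - b) = j := by omega
      simp only [h3] at h2
      simp only [a', j.2, dif_pos, Fin.eta] at h2
      exact h2.symm
  · refine lt_of_le_of_lt (degree_sum_le _ _) ?_
    refine (Finset.sup_lt_iff (WithBot.bot_lt_coe b)).2 fun j hj => ?_
    refine lt_of_le_of_lt (degree_C_mul_X_pow_le _ _) ?_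
    exact WithBot.coe_lt_coe.2 (Finset.mem_range.1 hj)
  · refine lt_of_le_of_lt (degree_sum_le _ _) ?_
    refine (Finset.sup_lt_iff (WithBot.bot_lt_coe b)).2 fun j hj => ?_
    refine lt_of_le_of_lt (degree_C_mul_X_pow_le _ _) ?_
    exact WithBot.coe_lt_coe.2 (Finset.mem_range.1 hj)
  · intro c hc
    have h1 : φ (v c) = 0 := by
      have : v c ∈ Submodule.span K S := Submodule.subset_span ⟨c, hc, rfl⟩
      exact hφ this
    rw [hφa] at h1
    have h2 : ∑ j : Fin (2 * b), v c j * a j = ∑ j ∈ Finset.range (2 * b),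
        (if j < b then algebraMap R K (s c) ^ j
          else algebraMap R K (y c) * algebraMap R K (s c) ^ (j - b)) * a' j := by
      rw [← Fin.sum_univ_eq_sum_range (fun j => (if j < b then algebraMap R K (s c) ^ j
          else algebraMap R K (y c) * algebraMap R K (s c) ^ (j - b)) * a' j)]
      refine Finset.sum_congr rfl fun j _ => ?_
      simp only [v, a', j.2, dif_pos, Fin.eta]
    rw [h2, two_mul, Finset.sum_range_add] at h1
    rw [← h1, eval_finsetSum, eval_finsetSum, Finset.mul_sum]
    congr 1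
    · refine Finset.sum_congr rfl fun j hj => ?_
      rw [if_pos (Finset.mem_range.1 hj), eval_mul, eval_C, eval_pow, eval_X, mul_comm]
    · refine Finset.sum_congr rfl fun j _ => ?_
      rw [if_neg (by omega), eval_mul, eval_C, eval_pow, eval_X]
      have : b + j - b = j := by omega
      rw [this]
      ring

/-- One residue class modulo `q` of the variable and of the square root. -/
theorem class_bound (k : Type) [Field k] [NumberField k] (D0 b : ℕ) (hb : 1 ≤ b) (E : (𝓞 k)[X])
    (hdeg : E.natDegree ≤ D0)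
    (hE : ∀ P Q : k[X], P ^ 2 = E.map (algebraMap (𝓞 k) k) * Q ^ 2 → Q = 0)
    (q : ℕ) (hq : q.Prime) (hq2 : q ≠ 2) (M : Ideal (𝓞 k)) (hM : M ≠ ⊥)
    (hqM : IsCoprime (Ideal.span {(q : 𝓞 k)}) M) (Y Z : ℝ) (hY : 0 ≤ Y) (hZ : 0 ≤ Z)
    (hineq : ((2 * b).factorial * (2 * Y) ^ (b * (b - 1)) * Z ^ b) ^ Module.finrank ℚ k <
      (q : ℝ) ^ (Module.finrank ℚ k * (b * (2 * b - 1))) *
        (Ideal.absNorm M : ℝ) ^ (b * (b - 1)))
    (A : Finset (𝓞 k)) (z : 𝓞 k → 𝓞 k) (c0 : 𝓞 k) (hc0 : c0 ∈ A)
    (hu : IsCoprime (Ideal.span {(q : 𝓞 k)}) (Ideal.span {z c0}))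
    (hA : ∀ c ∈ A, Bdd Y c ∧ c - c0 ∈ M ∧ (q : 𝓞 k) ∣ c - c0 ∧ (q : 𝓞 k) ∣ z c - z c0 ∧
      z c ^ 2 = E.eval c ∧ Bdd Z (z c)) : A.card ≤ 2 * b + D0 := by
  classical
  -- coprimality
  have hcop2 : IsCoprime (q : 𝓞 k) 2 := by
    have h1 : IsCoprime (q : ℤ) 2 := by
      have : Nat.Coprime q 2 := (Nat.coprime_primes hq Nat.prime_two).2 hq2
      exact_mod_cast Nat.isCoprime_iff_coprime.2 this
    have h2 := h1.map (algebraMap ℤ (𝓞 k))
    simpa using h2
  have hcopz : IsCoprime (q : 𝓞 k) (z c0) := (Ideal.isCoprime_span_singleton_iff _ _).1 hu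
  -- all determinants vanish
  have hvan : ∀ c : Fin (2 * b) → 𝓞 k, (∀ i, c i ∈ A) →
      (sq4_mat b (fun i => (fun x => x - c0) (c i)) (fun i => z (c i))).det = 0 := by
    intro c hc
    by_contra hne
    set D := (sq4_mat b (fun i => (fun x => x - c0) (c i)) (fun i => z (c i))).det with hD
    have h1 : (q : 𝓞 k) ^ (b * (2 * b - 1)) ∣ D :=
      sq4_dvd b E q c0 (z c0) hcop2 hcopz (hA c0 hc0).2.2.2.2.1 c (fun i => z (c i))
        (fun i => (hA _ (hc i)).2.2.1) (fun i => (hA _ (hc i)).2.2.2.1)
        (fun i => (hA _ (hc i)).2.2.2.2.1)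
    have h2 : D ∈ M ^ (b * (b - 1)) := by
      have := det_mem_pow (2 * b) M (fun j => if (j : ℕ) < b then (j : ℕ) else (j : ℕ) - b)
        (sq4_mat b (fun i => (fun x => x - c0) (c i)) (fun i => z (c i))) (by
          intro i j
          simp only [sq4_mat, Matrix.of_apply]
          have hm := (hA _ (hc i)).2.1
          split_ifs with hj
          · exact Ideal.pow_mem_pow hm _
          · exact Ideal.mul_mem_left _ _ (Ideal.pow_mem_pow hm _))
      rwa [sq4_sum] at this
    have h3 : D ∈ Ideal.span {(q : 𝓞 k)} ^ (b * (2 * b - 1)) * M ^ (b * (b - 1)) := by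
      rw [Ideal.mul_eq_inf_of_isCoprime (hqM.pow (m := b * (2 * b - 1)) (n := b * (b - 1)))]
      refine ⟨?_, h2⟩
      rw [Ideal.span_singleton_pow]
      exact Ideal.mem_span_singleton.2 h1
    have h4 : Bdd ((2 * b).factorial * (2 * Y) ^ (b * (b - 1)) * Z ^ b) D := by
      intro φ
      have hφD : φ (D : k) = ((sq4_mat b (fun i => (fun x => x - c0) (c i))
          (fun i => z (c i))).map (fun x => φ (x : k))).det := by
        have := RingHom.map_det (φ.comp (algebraMap (𝓞 k) k))
          (sq4_mat b (fun i => (fun x => x - c0) (c i)) (fun i => z (c i)))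
        rw [hD]
        exact this
      rw [hφD, Matrix.det_apply]
      refine (norm_sum_le _ _).trans ?_
      have hterm : ∀ σ ∈ (Finset.univ : Finset (Equiv.Perm (Fin (2 * b)))),
          ‖Equiv.Perm.sign σ • ∏ i, (sq4_mat b (fun i => (fun x => x - c0) (c i))
            (fun i => z (c i))).map (fun x => φ (x : k)) (σ i) i‖ ≤
            (2 * Y) ^ (b * (b - 1)) * Z ^ b := by
        intro σ _
        have hs : ‖Equiv.Perm.sign σ • ∏ i, (sq4_mat b (fun i => (fun x => x - c0) (c i))
            (fun i => z (c i))).map (fun x => φ (x : k)) (σ i) i‖ =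
            ‖∏ i, (sq4_mat b (fun i => (fun x => x - c0) (c i))
            (fun i => z (c i))).map (fun x => φ (x : k)) (σ i) i‖ := by
          rcases Int.units_eq_one_or (Equiv.Perm.sign σ) with h | h <;> rw [h] <;> simp
        rw [hs, norm_prod, ← sq4_prod]
        refine Finset.prod_le_prod (fun _ _ => norm_nonneg _) fun j _ => ?_
        rw [Matrix.map_apply]
        simp only [sq4_mat, Matrix.of_apply]
        obtain ⟨hb1, -, -, -, -, hb2⟩ := hA _ (hc (σ j))
        have hb0 := (hA _ hc0).1
        have hsn : ‖φ ((c (σ j) - c0 : 𝓞 k) : k)‖ ≤ 2 * Y := by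
          have : φ ((c (σ j) - c0 : 𝓞 k) : k) = φ (c (σ j) : k) - φ (c0 : k) := by
            rw [← map_sub]
            congr 1
          rw [this]
          refine (norm_sub_le _ _).trans ?_
          linarith [hb1 φ, hb0 φ]
        split_ifs with hj
        · have : φ (((c (σ j) - c0) ^ (j : ℕ) : 𝓞 k) : k) =
              φ ((c (σ j) - c0 : 𝓞 k) : k) ^ (j : ℕ) := by
            rw [← map_pow]
            congr 1
          rw [this, norm_pow]
          exact pow_le_pow_left₀ (norm_nonneg _) hsn _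
        · have : φ ((z (c (σ j)) * (c (σ j) - c0) ^ ((j : ℕ) - b) : 𝓞 k) : k) =
              φ (z (c (σ j)) : k) * φ ((c (σ j) - c0 : 𝓞 k) : k) ^ ((j : ℕ) - b) := by
            rw [← map_pow, ← map_mul]
            congr 1
          rw [this, norm_mul, norm_pow]
          exact mul_le_mul (hb2 φ) (pow_le_pow_left₀ (norm_nonneg _) hsn _)
            (pow_nonneg (norm_nonneg _) _) hZ
      refine (Finset.sum_le_sum hterm).trans ?_
      rw [Finset.sum_const, Finset.card_univ, Fintype.card_perm, Fintype.card_fin, nsmul_eq_mul,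
        mul_assoc]
    have h5 := mu8_norm _ D h3 hne _ h4
    have h6 : (Ideal.absNorm (Ideal.span {(q : 𝓞 k)} ^ (b * (2 * b - 1)) *
        M ^ (b * (b - 1))) : ℝ) = (q : ℝ) ^ (Module.finrank ℚ k * (b * (2 * b - 1))) *
        (Ideal.absNorm M : ℝ) ^ (b * (b - 1)) := by
      rw [map_mul, map_pow, map_pow, Ideal.absNorm_span_singleton]
      have h7 : Algebra.norm ℤ (q : 𝓞 k) = (q : ℤ) ^ Module.finrank ℚ k := by
        have := Algebra.norm_algebraMap_of_basis (RingOfIntegers.basis k) (q : ℤ)
        rw [← Module.finrank_eq_card_basis (RingOfIntegers.basis k),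
          RingOfIntegers.rank] at this
        simpa using this
      rw [h7]
      push_cast
      rw [Int.natAbs_pow, Int.natAbs_natCast]
      push_cast
      rw [← pow_mul]
    rw [h6] at h5
    exact absurd hineq (not_lt.2 h5)
  obtain ⟨P, Q, hPQ, hP, hQ, hrel⟩ := sq4_rel (K := k) b A (fun x => x - c0) z hvan
  -- roots
  have hroots : ∀ F : k[X], F ≠ 0 → (∀ c ∈ A, F.eval (c : k) = 0) → A.card ≤ F.natDegree := by
    intro F hF hev
    have h1 : (A.image (fun c : 𝓞 k => (c : k))).card = A.card :=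
      Finset.card_image_of_injective _ RingOfIntegers.coe_injective
    rw [← h1]
    refine le_trans (Finset.card_le_card ?_) ((Multiset.toFinset_card_le _).trans (card_roots' F))
    intro x hx
    obtain ⟨c, hc, rfl⟩ := Finset.mem_image.1 hx
    rw [Multiset.mem_toFinset, mem_roots hF]
    exact hev c hc
  set P1 := P.comp (X - C (c0 : k)) with hP1
  set Q1 := Q.comp (X - C (c0 : k)) with hQ1
  have hinj : ∀ F : k[X], F.comp (X - C (c0 : k)) = 0 → F = 0 := by
    intro F hF
    have h := congrArg (fun G : k[X] => G.comp (X + C (c0 : k))) hF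
    simp only [comp_assoc, sub_comp, X_comp, C_comp, add_sub_cancel_right, comp_X,
      zero_comp] at h
    exact h
  have hnd : ∀ F : k[X], (F.comp (X - C (c0 : k))).natDegree = F.natDegree := by
    intro F
    rw [natDegree_comp, natDegree_X_sub_C, mul_one]
  have hrel1 : ∀ c ∈ A, P1.eval (c : k) + (z c : k) * Q1.eval (c : k) = 0 := by
    intro c hc
    have h := hrel c hc
    rw [hP1, hQ1, eval_comp, eval_comp]
    simpa using h
  have hPd : P.natDegree ≤ b - 1 := by
    by_cases h0 : P = 0
    · rw [h0]; simp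
    · have := (natDegree_lt_iff_degree_lt h0).2 hP
      omega
  have hQd : Q.natDegree ≤ b - 1 := by
    by_cases h0 : Q = 0
    · rw [h0]; simp
    · have := (natDegree_lt_iff_degree_lt h0).2 hQ
      omega
  by_cases hQ0 : Q = 0
  · have hP0 : P ≠ 0 := hPQ.resolve_right (fun h => h hQ0)
    have h1 := hroots P1 (fun h => hP0 (hinj P h)) (fun c hc => by
      have := hrel1 c hc
      rw [hQ1, hQ0, zero_comp, eval_zero, mul_zero, add_zero] at this
      exact this)
    rw [hP1, hnd] at h1
    omega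
  · have hne : P1 ^ 2 - E.map (algebraMap (𝓞 k) k) * Q1 ^ 2 ≠ 0 := by
      intro h
      exact hQ0 (hinj Q (hE P1 Q1 (sub_eq_zero.1 h)))
    have h1 := hroots _ hne (fun c hc => by
      have h2 := hrel1 c hc
      have h3 := (hA c hc).2.2.2.2.1
      have h4 : (E.map (algebraMap (𝓞 k) k)).eval (c : k) = (z c : k) ^ 2 := by
        have : (E.map (algebraMap (𝓞 k) k)).eval (algebraMap (𝓞 k) k c) =
            algebraMap (𝓞 k) k (E.eval c) := eval_map_apply _ _
        rw [← h3] at this
        rw [map_pow] at this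
        exact this
      rw [eval_sub, eval_mul, eval_pow, eval_pow, h4]
      linear_combination (P1.eval (c : k) - (z c : k) * Q1.eval (c : k)) * h2)
    have h5 : (P1 ^ 2 - E.map (algebraMap (𝓞 k) k) * Q1 ^ 2).natDegree ≤ D0 + 2 * (b - 1) := by
      refine (natDegree_sub_le _ _).trans (max_le ?_ ?_)
      · refine natDegree_pow_le.trans ?_
        rw [hP1, hnd]
        omega
      · refine natDegree_mul_le.trans ?_
        refine add_le_add (natDegree_map_le.trans hdeg) (natDegree_pow_le.trans ?_)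
        rw [hQ1, hnd]
        omega
    omega

end Pool.Agent.H67.MU
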