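import Pool.Agent.H67.MU.Defs

/-!
# Project MU (MP_a3214d): definitions for the refined upper bound
-/

set_option autoImplicit false

open Polynomial IsDedekindDomain NumberField UniqueFactorizationMonoid

namespace Pool.Agent.H67.MU

section Disc

variable {R : Type*} [CommRing R]

/-- The resultant of `f` and `f'` for `f = monicOf a`, up to sign the discriminant of `f`. -/
noncomputable def discOf {n : ℕ} (a : Fin n → R) : R :=
  resultant (monicOf a) (derivative (monicOf a)) n (n - 1)

/-- The resultant of `f + T` and `f'` for `f = monicOf a`, a polynomial in `T`. -/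
noncomputable def discPoly {n : ℕ} (a : Fin n → R) : R[X] :=
  resultant ((monicOf a).map C + C X) ((derivative (monicOf a)).map C) n (n - 1)

/-- `f` is a constant times a square. -/
def ConstSq (f : R[X]) : Prop := ∃ (c : R) (s : R[X]), f = C c * s ^ 2

/-- The vector `a` with its last coordinate replaced by zero. -/
def noLast {n : ℕ} (a : Fin n → R) : Fin n → R := fun j => if (j : ℕ) + 1 = n then 0 else a j

/-- The primitive of `P` without constant term. -/
noncomputable def primit {Ω : Type*} [Field Ω] (P : Polynomial Ω) : Polynomial Ω :=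
  P.sum fun i c => monomial (i + 1) (c / ((i : Ω) + 1))

end Disc

section Ideals

variable (k : Type) [Field k] [NumberField k]

open scoped Classical in
/-- The prime divisors of `Δ`. -/
noncomputable def primeDivs (Δ : Ideal (𝓞 k)) : Finset (Ideal (𝓞 k)) :=
  (normalizedFactors Δ).toFinset

open scoped Classical in
/-- The prime divisors of `Δ` that do not contain `N`. -/
noncomputable def goodPrimes (N : ℕ) (Δ : Ideal (𝓞 k)) : Finset (Ideal (𝓞 k)) :=
  (primeDivs k Δ).filter fun p => (N : 𝓞 k) ∉ p

open scoped Classical in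
/-- The product of the good primes `p` with `n - v_p(Δ) ≤ j`. -/
noncomputable def modul (n N : ℕ) (Δ : Ideal (𝓞 k)) (j : ℕ) : Ideal (𝓞 k) :=
  ∏ p ∈ (goodPrimes k N Δ).filter fun p => n - vexp p Δ ≤ j, p

/-- The condition on the exponents of `Δ`. -/
def Expo (n N E r : ℕ) (Δ : Ideal (𝓞 k)) : Prop :=
  ∀ p : Ideal (𝓞 k), p.IsPrime → p ≠ ⊥ → ((N : 𝓞 k) ∈ p → vexp p Δ ≤ E) ∧
    ((N : 𝓞 k) ∉ p → 0 < vexp p Δ → r ≤ vexp p Δ ∧ vexp p Δ + 1 ≤ n)

/-- The coefficient vectors allowed for the relative discriminant `Δ`, with the condition on the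
square class of the discriminant. -/
def adm2 (n N : ℕ) (c : ℝ) (Δ : Ideal (𝓞 k)) : Set (Fin n → 𝓞 k) :=
  {a | a ∈ adm k n N c Δ ∧ discOf a ≠ 0 ∧ ∀ p : Ideal (𝓞 k), p.IsPrime → p ≠ ⊥ →
    vexp p Δ = 0 → Even (vexp p (Ideal.span {discOf a}))}

end Ideals

end Pool.Agent.H67.MU
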