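import Pool.Agent.H67.MU.Defs

/-!
# Project MU (MP_a3214d): definitions for the imprimitive groups
-/

set_option autoImplicit false

open Polynomial IsDedekindDomain NumberField

namespace Pool.Agent.H67.MU

section Imp

variable (k : Type) [Field k] [NumberField k]

/-- The extensions of degree `n` of `k` in the algebraic closure with `|D_K| ≤ X`. -/
def Subs (n : ℕ) (X : ℝ) : Set (IntermediateField k (AlgebraicClosure k)) :=
  {M | Module.finrank k M = n ∧
    ∃ h : NumberField M, ((|@NumberField.discr M _ h| : ℤ) : ℝ) ≤ X}

variable {k}

open scoped Classical in
/-- The absolute value of the discriminant of a finite extension of `k`. -/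
noncomputable def dab (M : IntermediateField k (AlgebraicClosure k)) : ℝ :=
  if h : NumberField M then ((|@NumberField.discr M _ h| : ℤ) : ℝ) else 1

end Imp

end Pool.Agent.H67.MU
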