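import Pool.Agent.H67.MU.Defs2
import Pool.Agent.H67.MU.Coeff

/-!
# Project MU (MP_a3214d): the discriminant as a polynomial in the last coefficient
-/

set_option autoImplicit false

open Polynomial IsDedekindDomain NumberField UniqueFactorizationMonoid

namespace Pool.Agent.H67.MU

theorem discOf_map {R S : Type*} [CommRing R] [CommRing S] (φ : R →+* S) {n : ℕ}
    (a : Fin n → R) : discOf (fun j => φ (a j)) = φ (discOf a) := by
  rw [discOf, discOf, ← monicOf_map, Polynomial.derivative_map, Polynomial.resultant_map_map]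

theorem discPoly_map {R S : Type*} [CommRing R] [CommRing S] (φ : R →+* S) {n : ℕ}
    (a : Fin n → R) : discPoly (fun j => φ (a j)) = (discPoly a).map φ := by
  rw [← Polynomial.coe_mapRingHom, discPoly, discPoly, ← Polynomial.resultant_map_map,
    ← monicOf_map, Polynomial.derivative_map]
  congr 1
  · rw [Polynomial.map_add, Polynomial.map_map, Polynomial.map_map, Polynomial.map_C]
    congr 1
    · congr 1
      ext x
      simp
    · simp
  · rw [Polynomial.map_map, Polynomial.map_map]
    congr 1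
    ext x
    simp

theorem mu18_noLast {R : Type*} [CommRing R] {n : ℕ} (hn : 2 ≤ n) (a : Fin n → R) :
    monicOf (noLast a) + C (a ⟨n - 1, by omega⟩) = monicOf a := by
  ext m
  rw [Polynomial.coeff_add, mu11_coeff, mu11_coeff, Polynomial.coeff_C, add_assoc]
  congr 1
  by_cases hm : m = 0
  · rw [if_pos hm]
    have h1 : ∑ j : Fin n, (if m = n - 1 - (j : ℕ) then noLast a j else 0) = 0 := by
      apply Finset.sum_eq_zero
      intro j _
      have hj := j.2
      split_ifs with h
      · rw [noLast, if_pos (by omega)]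
      · rfl
    rw [h1, zero_add, Finset.sum_eq_single (⟨n - 1, by omega⟩ : Fin n)]
    · rw [if_pos (by simp only; omega)]
    · intro b _ hb
      have hb2 := b.2
      rw [if_neg]
      intro h
      apply hb
      ext
      simp only
      omega
    · intro h
      exact absurd (Finset.mem_univ _) h
  · rw [if_neg hm, add_zero]
    apply Finset.sum_congr rfl
    intro j _
    have hj := j.2
    split_ifs with h
    · rw [noLast, if_neg (by omega)]
    · rfl

theorem discPoly_noLast_eval {R : Type*} [CommRing R] {n : ℕ} (hn : 2 ≤ n) (a : Fin n → R) :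
    (discPoly (noLast a)).eval (a ⟨n - 1, by omega⟩) = discOf a := by
  rw [← Polynomial.coe_evalRingHom, discPoly, discOf, ← Polynomial.resultant_map_map]
  congr 1
  · rw [Polynomial.map_add, Polynomial.map_map, Polynomial.map_C, ← mu18_noLast hn a]
    congr 1
    · have h : (evalRingHom (a ⟨n - 1, by omega⟩)).comp (C : R →+* R[X]) = RingHom.id R := by
        ext x
        simp
      rw [h, Polynomial.map_id]
    · simp
  · rw [Polynomial.map_map]
    have h : (evalRingHom (a ⟨n - 1, by omega⟩)).comp (C : R →+* R[X]) = RingHom.id R := by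
      ext x
      simp
    rw [h, Polynomial.map_id, ← mu18_noLast hn a, Polynomial.derivative_add,
      Polynomial.derivative_C, add_zero]

theorem mu18_coeff_n {R : Type*} [CommRing R] {n : ℕ} (a : Fin n → R) :
    (monicOf a).coeff n = 1 := by
  rw [mu11_coeff, if_pos rfl, Finset.sum_eq_zero, add_zero]
  intro j _
  have hj := j.2
  rw [if_neg (by omega)]

theorem mu18_deriv {Ω : Type*} [Field Ω] {n : ℕ} (hn : 2 ≤ n)
    (h : (n : Ω) ≠ 0) (a : Fin n → Ω) :
    (derivative (monicOf a)).natDegree = n - 1 ∧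
      (derivative (monicOf a)).leadingCoeff = (n : Ω) := by
  have h1 := (monicOf_monic a).2
  have h2 : (derivative (monicOf a)).coeff (n - 1) = (n : Ω) := by
    rw [Polynomial.coeff_derivative, show n - 1 + 1 = n by omega, mu18_coeff_n, one_mul]
    have : ((n - 1 : ℕ) : Ω) + 1 = ((n - 1 + 1 : ℕ) : Ω) := by push_cast; rfl
    rw [this, show n - 1 + 1 = n by omega]
  have h3 : (derivative (monicOf a)).natDegree = n - 1 := by
    apply le_antisymm
    · refine (Polynomial.natDegree_derivative_le _).trans ?_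
      rw [h1]
    · apply Polynomial.le_natDegree_of_ne_zero
      rw [h2]
      exact h
  refine ⟨h3, ?_⟩
  rw [Polynomial.leadingCoeff, h3, h2]

theorem discPoly_eq_prod {Ω : Type*} [Field Ω] [IsAlgClosed Ω] {n : ℕ} (hn : 2 ≤ n)
    (h : (n : Ω) ≠ 0) (a : Fin n → Ω) :
    discPoly a = C ((n : Ω) ^ n) *
      ((derivative (monicOf a)).roots.map fun ξ => X + C ((monicOf a).eval ξ)).prod := by
  obtain ⟨h3, h4⟩ := mu18_deriv hn h a
  have hs : (derivative (monicOf a)).Splits := IsAlgClosed.splits _
  have hinj : Function.Injective (C : Ω →+* Polynomial Ω) := Polynomial.C_injective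
  have h5 : ((derivative (monicOf a)).map (C : Ω →+* Polynomial Ω)).natDegree = n - 1 := by
    rw [Polynomial.natDegree_map_eq_of_injective hinj, h3]
  have hdeg : ((monicOf a).map (C : Ω →+* Polynomial Ω) + C X).natDegree ≤ n := by
    refine (Polynomial.natDegree_add_le _ _).trans ?_
    rw [Polynomial.natDegree_map_eq_of_injective hinj, (monicOf_monic a).2,
      Polynomial.natDegree_C]
    omega
  have hroots : ((derivative (monicOf a)).map (C : Ω →+* Polynomial Ω)).roots =
      (derivative (monicOf a)).roots.map (C : Ω →+* Polynomial Ω) :=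
    (Polynomial.roots_map_of_injective_of_card_eq_natDegree hinj
      (Polynomial.splits_iff_card_roots.mp hs)).symm
  rw [discPoly, Polynomial.resultant_comm]
  have hsgn : ((-1 : Polynomial Ω)) ^ (n * (n - 1)) = 1 := by
    apply Even.neg_one_pow
    rw [mul_comm]
    have := Nat.even_mul_succ_self (n - 1)
    rwa [show n - 1 + 1 = n by omega] at this
  rw [hsgn, one_mul]
  have h6 := Polynomial.resultant_eq_prod_eval ((derivative (monicOf a)).map (C : Ω →+* Polynomial Ω))
    ((monicOf a).map (C : Ω →+* Polynomial Ω) + C X) n hdeg (hs.map _)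
  rw [h5] at h6
  rw [h6, hroots, Multiset.map_map, Polynomial.leadingCoeff_map_of_injective hinj, h4,
    map_pow]
  congr 2
  apply Multiset.map_congr rfl
  intro ξ _
  simp only [Function.comp_apply, Polynomial.eval_add, Polynomial.eval_C]
  rw [add_comm, Polynomial.eval_map, Polynomial.eval₂_at_apply]

theorem natDegree_discPoly {F : Type*} [Field F] {n : ℕ} (hn : 2 ≤ n) (h : (n : F) ≠ 0)
    (a : Fin n → F) : (discPoly a).natDegree = n - 1 := by
  have hinj := (algebraMap F (AlgebraicClosure F)).injective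
  rw [← Polynomial.natDegree_map_eq_of_injective hinj, ← discPoly_map]
  have h' : (n : AlgebraicClosure F) ≠ 0 := by
    rw [← map_natCast (algebraMap F (AlgebraicClosure F))]
    exact (_root_.map_ne_zero _).mpr h
  obtain ⟨h3, h4⟩ := mu18_deriv hn h' (fun j => algebraMap F (AlgebraicClosure F) (a j))
  rw [discPoly_eq_prod hn h', Polynomial.natDegree_C_mul (pow_ne_zero _ h'),
    Polynomial.natDegree_multiset_prod_of_monic]
  · rw [Multiset.map_map]
    have : (Polynomial.natDegree ∘ fun ξ => (X : (AlgebraicClosure F)[X]) + C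
        ((monicOf fun j => algebraMap F (AlgebraicClosure F) (a j)).eval ξ)) = fun _ => 1 := by
      funext ξ
      simp
    rw [this, Multiset.map_const', Multiset.sum_replicate,
      Polynomial.splits_iff_card_roots.mp (IsAlgClosed.splits _), h3]
    simp
  · intro f hf
    obtain ⟨ξ, _, rfl⟩ := Multiset.mem_map.mp hf
    exact Polynomial.monic_X_add_C _

theorem discOf_bdd (k : Type) [Field k] [NumberField k] (n : ℕ) : ∃ (e : ℕ) (A : ℝ), 1 ≤ A ∧
    ∀ (H : ℝ) (a : Fin n → 𝓞 k), 1 ≤ H → (∀ j, Bdd H (a j)) →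
      Bdd (A * H ^ e) (discOf a) := by
  set P : MvPolynomial (Fin n) ℤ := discOf (fun j => (MvPolynomial.X j : MvPolynomial (Fin n) ℤ))
    with hP
  refine ⟨P.totalDegree, 1 + ∑ m ∈ P.support, |((P.coeff m : ℤ) : ℝ)|, ?_, ?_⟩
  · have : 0 ≤ ∑ m ∈ P.support, |((P.coeff m : ℤ) : ℝ)| :=
      Finset.sum_nonneg fun _ _ => abs_nonneg _
    linarith
  intro H a hH ha φ
  set ψ : 𝓞 k →+* ℂ := φ.comp (algebraMap (𝓞 k) k) with hψ
  have h1 : φ (discOf a : 𝓞 k) = ψ (discOf a) := rfl
  have h2 : ψ (discOf a) = MvPolynomial.eval₂Hom (Int.castRingHom ℂ) (fun j => ψ (a j)) P := by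
    rw [← discOf_map, hP, ← discOf_map]
    congr 1
    funext j
    simp
  rw [h1, h2, MvPolynomial.coe_eval₂Hom, MvPolynomial.eval₂_eq]
  have h3 : ∀ m ∈ P.support, ‖(Int.castRingHom ℂ) (P.coeff m) *
      ∏ i ∈ m.support, ψ (a i) ^ m i‖ ≤ |((P.coeff m : ℤ) : ℝ)| * H ^ P.totalDegree := by
    intro m hm
    rw [norm_mul]
    have h4 : ‖(Int.castRingHom ℂ) (P.coeff m)‖ = |((P.coeff m : ℤ) : ℝ)| := by
      simp
    rw [h4]
    apply mul_le_mul_of_nonneg_left _ (abs_nonneg _)
    rw [norm_prod]
    calc ∏ i ∈ m.support, ‖ψ (a i) ^ m i‖ ≤ ∏ i ∈ m.support, H ^ m i := by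
          apply Finset.prod_le_prod (fun _ _ => norm_nonneg _)
          intro i _
          rw [norm_pow]
          exact pow_le_pow_left₀ (norm_nonneg _) (ha i φ) _
      _ = H ^ (∑ i ∈ m.support, m i) := (Finset.prod_pow_eq_pow_sum _ _ _)
      _ ≤ H ^ P.totalDegree := by
          apply pow_le_pow_right₀ hH
          exact MvPolynomial.le_totalDegree hm
  calc ‖∑ m ∈ P.support, (Int.castRingHom ℂ) (P.coeff m) * ∏ i ∈ m.support, ψ (a i) ^ m i‖
      ≤ ∑ m ∈ P.support, |((P.coeff m : ℤ) : ℝ)| * H ^ P.totalDegree :=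
        norm_sum_le_of_le _ h3
    _ = (∑ m ∈ P.support, |((P.coeff m : ℤ) : ℝ)|) * H ^ P.totalDegree := by
        rw [Finset.sum_mul]
    _ ≤ (1 + ∑ m ∈ P.support, |((P.coeff m : ℤ) : ℝ)|) * H ^ P.totalDegree := by
        have : 0 ≤ H ^ P.totalDegree := by positivity
        nlinarith

end Pool.Agent.H67.MU
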