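import Pool.Agent.H67.MU.Defs

/-!
# Project MU, row 5: residue degrees and inertia in a Galois extension
-/

set_option autoImplicit false

open Polynomial IsDedekindDomain NumberField UniqueFactorizationMonoid

namespace Pool.Agent.H67.MU

section

variable {k K L : Type} [Field k] [NumberField k] [Field K] [NumberField K]
  [Field L] [NumberField L] [Algebra k K] [Algebra k L]

/-- the map on integers induced by an embedding -/
def mu5_io (φ : K →ₐ[k] L) : 𝓞 K →+* 𝓞 L := RingOfIntegers.mapRingHom (φ : K →+* L)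

omit [NumberField k] [NumberField K] [NumberField L] in
theorem mu5_io_comp (φ : K →ₐ[k] L) (σ : L ≃ₐ[k] L) (x : 𝓞 K) :
    mu5_io (((σ : L ≃ₐ[k] L) : L →ₐ[k] L).comp φ) x = σ • mu5_io φ x := rfl

omit [NumberField k] [NumberField K] [NumberField L] in
theorem mu5_io_algebraMap (φ : K →ₐ[k] L) (x : 𝓞 k) :
    mu5_io φ (algebraMap (𝓞 k) (𝓞 K) x) = algebraMap (𝓞 k) (𝓞 L) x := by
  apply RingOfIntegers.ext
  exact φ.commutes (x : k)

omit [NumberField K] in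
/-- every prime of `K` with the same trace in `k` is pulled back from `P` -/
theorem mu5_exists_emb [IsGalois k L] (i : K →ₐ[k] L) (P : Ideal (𝓞 L)) [P.IsPrime]
    (Q : Ideal (𝓞 K)) [Q.IsPrime] (hQ : Q.under (𝓞 k) = P.under (𝓞 k)) :
    ∃ φ : K →ₐ[k] L, P.comap (mu5_io φ) = Q := by
  obtain ⟨P', hP', hc⟩ : ∃ P' : Ideal (𝓞 L), P'.IsPrime ∧ P'.comap (mu5_io i) = Q := by
    let _ : Algebra K L := (i : K →+* L).toAlgebra
    obtain ⟨P', -, h1, h2⟩ := Ideal.exists_ideal_over_prime_of_isIntegral (S := 𝓞 L) Q ⊥ (by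
      have h3 : RingHom.ker (algebraMap (𝓞 K) (𝓞 L)) = ⊥ :=
        (RingHom.injective_iff_ker_eq_bot _).mp (FaithfulSMul.algebraMap_injective (𝓞 K) (𝓞 L))
      intro x hx
      have h4 : x ∈ RingHom.ker (algebraMap (𝓞 K) (𝓞 L)) := hx
      rw [h3] at h4
      rw [(Submodule.mem_bot _).mp h4]
      exact Q.zero_mem)
    exact ⟨P', h1, h2⟩
  have h1 : P'.under (𝓞 k) = P.under (𝓞 k) := by
    rw [← hQ, ← hc]
    ext x
    change algebraMap (𝓞 k) (𝓞 L) x ∈ P' ↔ mu5_io i (algebraMap (𝓞 k) (𝓞 K) x) ∈ P'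
    rw [mu5_io_algebraMap]
  obtain ⟨σ, hσ⟩ := Algebra.IsInvariant.exists_smul_of_under_eq (𝓞 k) (𝓞 L) (L ≃ₐ[k] L) P' P h1
  refine ⟨((σ : L ≃ₐ[k] L) : L →ₐ[k] L).comp i, ?_⟩
  ext x
  rw [Ideal.mem_comap, mu5_io_comp, hσ, Ideal.smul_mem_pointwise_smul_iff, ← Ideal.mem_comap, hc]

/-- a Frobenius element, iterated -/
theorem mu5_frob [IsGalois k L] (P : Ideal (𝓞 L)) [P.IsPrime] (hP : P ≠ ⊥) :
    ∃ τ : L ≃ₐ[k] L, ∀ (j : ℕ) (y : 𝓞 L),
      Ideal.Quotient.mk P (τ ^ j • y) =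
        (Ideal.Quotient.mk P y) ^ ((Nat.card (𝓞 k ⧸ P.under (𝓞 k))) ^ j) := by
  have hfin : Finite (𝓞 L ⧸ P) := Ring.HasFiniteQuotients.finiteQuotient hP
  obtain ⟨τ, hτ⟩ := IsArithFrobAt.exists_of_isInvariant (𝓞 k) (L ≃ₐ[k] L) P
  refine ⟨τ, fun j => ?_⟩
  induction j with
  | zero => intro y; simp
  | succ j ih =>
    intro y
    have h1 := hτ.mk_apply (τ ^ j • y)
    rw [pow_succ' τ, mul_smul, pow_succ, pow_mul, ← ih y]
    exact h1

end

/-- `L/k` Galois, `K → L` one embedding, `P` a prime of `L`, `g` in the inertia group of `P`: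
the residue degrees of the primes of `K` below add up to at most the number of orbits of `g` on
the embeddings of `K`. -/
theorem resDeg_le_orbits {k K L : Type} [Field k] [NumberField k] [Field K] [NumberField K]
    [Field L] [NumberField L] [Algebra k K] [Algebra k L] [IsGalois k L] (i : K →ₐ[k] L)
    (P : Ideal (𝓞 L)) [P.IsPrime] (hP : P ≠ ⊥) (g : L ≃ₐ[k] L)
    (hg : ∀ x : 𝓞 L, RingOfIntegers.mapRingHom (g : L →+* L) x - x ∈ P) (s : ℕ)
    (hs : ∀ S : Finset (K →ₐ[k] L), (∀ φ ψ, φ ∈ S → ψ ∈ S → (∃ j : ℕ,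
      ψ = ((g ^ j : L ≃ₐ[k] L) : L →ₐ[k] L).comp φ) → φ = ψ) → S.card ≤ s) :
    resDeg k K (P.under (𝓞 k)) ≤ s := by
  classical
  set p : Ideal (𝓞 k) := P.under (𝓞 k) with hpdef
  have hp0 : p ≠ ⊥ := Ideal.under_ne_bot (𝓞 k) hP
  have hpmax : p.IsMaximal := Ideal.IsPrime.isMaximal inferInstance hp0
  obtain ⟨τ, hτ⟩ := mu5_frob (k := k) P hP
  have hex : ∀ Q : Ideal (𝓞 K), ∃ φ : K →ₐ[k] L,
      Q ∈ IsDedekindDomain.primesOverFinset p (𝓞 K) → P.comap (mu5_io φ) = Q := by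
    intro Q
    by_cases hQ : Q ∈ IsDedekindDomain.primesOverFinset p (𝓞 K)
    · obtain ⟨h1, h2⟩ := (IsDedekindDomain.mem_primesOverFinset_iff hp0 _).mp hQ
      obtain ⟨φ, hφ⟩ := mu5_exists_emb i P Q (h2.over).symm
      exact ⟨φ, fun _ => hφ⟩
    · exact ⟨i, fun h => absurd h hQ⟩
  choose φ hφ using hex
  -- the reductions
  have hred : ∀ (Q : Ideal (𝓞 K)) (j : ℕ) (x : 𝓞 K),
      Ideal.Quotient.mk P (mu5_io ((((τ ^ j : L ≃ₐ[k] L)) : L →ₐ[k] L).comp (φ Q)) x) =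
        (Ideal.Quotient.mk P (mu5_io (φ Q) x)) ^ ((Nat.card (𝓞 k ⧸ p)) ^ j) := by
    intro Q j x
    rw [mu5_io_comp]
    exact hτ j _
  have hpfin : Finite (𝓞 k ⧸ p) := Ring.HasFiniteQuotients.finiteQuotient hp0
  have hq1 : 1 < Nat.card (𝓞 k ⧸ p) := by
    have : Nontrivial (𝓞 k ⧸ p) := Ideal.Quotient.nontrivial_iff.mpr hpmax.ne_top
    exact Finite.one_lt_card
  have hq0 : ∀ j : ℕ, (Nat.card (𝓞 k ⧸ p)) ^ j ≠ 0 := fun j => by positivity
  -- distinct pairs have distinct reductions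
  have hdist : ∀ (Q Q' : Ideal (𝓞 K)) (j j' : ℕ),
      Q ∈ IsDedekindDomain.primesOverFinset p (𝓞 K) → j < Q.inertiaDeg (𝓞 k) →
      Q' ∈ IsDedekindDomain.primesOverFinset p (𝓞 K) → j' < Q'.inertiaDeg (𝓞 k) →
      (∀ x : 𝓞 K, Ideal.Quotient.mk P
        (mu5_io ((((τ ^ j : L ≃ₐ[k] L)) : L →ₐ[k] L).comp (φ Q)) x) =
        Ideal.Quotient.mk P
          (mu5_io ((((τ ^ j' : L ≃ₐ[k] L)) : L →ₐ[k] L).comp (φ Q')) x)) →
      j ≤ j' → Q = Q' ∧ j = j' := by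
    intro Q Q' j j' hQ hj hQ' hj' hx hle
    have hQQ : Q = Q' := by
      rw [← hφ Q hQ, ← hφ Q' hQ']
      ext x
      rw [Ideal.mem_comap, Ideal.mem_comap, ← Ideal.Quotient.eq_zero_iff_mem,
        ← Ideal.Quotient.eq_zero_iff_mem]
      have h1 := hx x
      rw [hred, hred] at h1
      constructor
      · intro h2
        rw [h2, zero_pow (hq0 j)] at h1
        exact pow_eq_zero_iff (hq0 j') |>.mp h1.symm
      · intro h2
        rw [h2, zero_pow (hq0 j')] at h1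
        exact pow_eq_zero_iff (hq0 j) |>.mp h1
    refine ⟨hQQ, ?_⟩
    subst hQQ
    by_contra hne
    have hlt : j < j' := lt_of_le_of_ne hle hne
    obtain ⟨h1, h2⟩ := (IsDedekindDomain.mem_primesOverFinset_iff hp0 _).mp hQ
    have hQ0 : Q ≠ ⊥ := Ideal.ne_bot_of_liesOver_of_ne_bot hp0 Q
    have hQmax : Q.IsMaximal := Ideal.IsPrime.isMaximal h1 hQ0
    have hQfin : Finite (𝓞 K ⧸ Q) := Ring.HasFiniteQuotients.finiteQuotient hQ0
    set d : ℕ := j' - j with hd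
    have hd0 : 0 < d := by omega
    let _ : Field (𝓞 K ⧸ Q) := Ideal.Quotient.field Q
    let _ : Field (𝓞 k ⧸ p) := Ideal.Quotient.field p
    obtain ⟨r, hr⟩ := CharP.exists (𝓞 k ⧸ p)
    have hrp : r.Prime := CharP.char_is_prime (𝓞 k ⧸ p) r
    have : Fact r.Prime := ⟨hrp⟩
    have := Fintype.ofFinite (𝓞 k ⧸ p)
    obtain ⟨e, -, he⟩ := FiniteField.card (𝓞 k ⧸ p) r
    have hcP : CharP (𝓞 L ⧸ P) r := by
      have hinj : Function.Injective (algebraMap (𝓞 k ⧸ P.under (𝓞 k)) (𝓞 L ⧸ P)) :=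
        Ideal.algebraMap_quotient_injective
      exact charP_of_injective_algebraMap hinj r
    -- powers of the residue characteristic are additive
    have hadd : ∀ u v : 𝓞 L ⧸ P, (u - v) ^ ((Nat.card (𝓞 k ⧸ p)) ^ j) =
        u ^ ((Nat.card (𝓞 k ⧸ p)) ^ j) - v ^ ((Nat.card (𝓞 k ⧸ p)) ^ j) := by
      intro u v
      rw [Nat.card_eq_fintype_card, he, ← pow_mul]
      exact sub_pow_char_pow u v _
    have hfrob : ∀ x : 𝓞 K ⧸ Q, x ^ ((Nat.card (𝓞 k ⧸ p)) ^ d) = x := by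
      intro x
      obtain ⟨x, rfl⟩ := Ideal.Quotient.mk_surjective x
      have hmem : x ^ ((Nat.card (𝓞 k ⧸ p)) ^ d) - x ∈ P.comap (mu5_io (φ Q)) := by
        rw [Ideal.mem_comap, ← Ideal.Quotient.eq_zero_iff_mem, map_sub, map_sub, map_pow, map_pow]
        have h3 := hx x
        rw [hred, hred, show j' = d + j by omega, pow_add] at h3
        have h4 : (Ideal.Quotient.mk P (mu5_io (φ Q) x) ^ (Nat.card (𝓞 k ⧸ p)) ^ d -
            Ideal.Quotient.mk P (mu5_io (φ Q) x)) ^ ((Nat.card (𝓞 k ⧸ p)) ^ j) = 0 := by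
          rw [hadd, sub_eq_zero, ← pow_mul]
          exact h3.symm
        exact (pow_eq_zero_iff (hq0 j)).mp h4
      rw [hφ Q hQ] at hmem
      rw [← map_pow, Ideal.Quotient.eq]
      exact hmem
    have hcard : Nat.card (𝓞 K ⧸ Q) = Nat.card (𝓞 k ⧸ p) ^ (Q.inertiaDeg (𝓞 k)) := by
      have h3 : Q.inertiaDeg (𝓞 k) = Module.finrank (𝓞 k ⧸ p) (𝓞 K ⧸ Q) :=
        Ideal.inertiaDeg_eq_of_isMaximal p Q
      rw [h3]
      exact Module.natCard_eq_pow_finrank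
    have := Fintype.ofFinite (𝓞 K ⧸ Q)
    have hn1 : 1 < (Nat.card (𝓞 k ⧸ p)) ^ d := Nat.one_lt_pow hd0.ne' hq1
    have hle2 : Fintype.card (𝓞 K ⧸ Q) ≤ (Nat.card (𝓞 k ⧸ p)) ^ d := by
      have h5 := FiniteField.X_pow_card_sub_X_natDegree_eq (𝓞 K ⧸ Q) hn1
      have h6 := FiniteField.X_pow_card_sub_X_ne_zero (𝓞 K ⧸ Q) hn1
      rw [← Finset.card_univ, ← h5]
      apply Polynomial.card_le_degree_of_subset_roots
      intro x _
      rw [Polynomial.mem_roots h6, IsRoot.def, eval_sub, eval_pow, eval_X, sub_eq_zero]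
      exact hfrob x
    rw [← Nat.card_eq_fintype_card, hcard] at hle2
    have h7 := (Nat.pow_le_pow_iff_right hq1).mp hle2
    omega
  -- the family of embeddings
  set T : Finset (Σ _ : Ideal (𝓞 K), ℕ) := (IsDedekindDomain.primesOverFinset p (𝓞 K)).sigma
    (fun Q => Finset.range (Q.inertiaDeg (𝓞 k))) with hT
  set F : (Σ _ : Ideal (𝓞 K), ℕ) → (K →ₐ[k] L) := fun z =>
    (((τ ^ z.2 : L ≃ₐ[k] L)) : L →ₐ[k] L).comp (φ z.1) with hF
  have hinj : ∀ z ∈ T, ∀ z' ∈ T, (∀ x : 𝓞 K, Ideal.Quotient.mk P (mu5_io (F z) x) =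
      Ideal.Quotient.mk P (mu5_io (F z') x)) → z = z' := by
    rintro ⟨Q, j⟩ hz ⟨Q', j'⟩ hz' hx
    rw [hT, Finset.mem_sigma, Finset.mem_range] at hz hz'
    rcases le_total j j' with h | h
    · obtain ⟨h1, h2⟩ := hdist Q Q' j j' hz.1 hz.2 hz'.1 hz'.2 hx h
      rw [h1, h2]
    · obtain ⟨h1, h2⟩ := hdist Q' Q j' j hz'.1 hz'.2 hz.1 hz.2 (fun x => (hx x).symm) h
      rw [h1, h2]
  have hgj : ∀ (j : ℕ) (y : 𝓞 L), Ideal.Quotient.mk P (g ^ j • y) = Ideal.Quotient.mk P y := by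
    intro j
    induction j with
    | zero => intro y; simp
    | succ j ih =>
      intro y
      rw [pow_succ' g, mul_smul, ← ih y, Ideal.Quotient.eq]
      exact hg (g ^ j • y)
  have hcardT : (T.image F).card = T.card := by
    apply Finset.card_image_of_injOn
    intro z hz z' hz' h
    exact hinj z hz z' hz' (fun x => by rw [h])
  have hres : resDeg k K p = T.card := by
    rw [hT, Finset.card_sigma, resDeg]
    simp
  rw [hres, ← hcardT]
  refine hs (T.image F) ?_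
  intro φ₁ φ₂ h1 h2 ⟨j, hj⟩
  obtain ⟨z, hz, rfl⟩ := Finset.mem_image.mp h1
  obtain ⟨z', hz', rfl⟩ := Finset.mem_image.mp h2
  rw [hinj z hz z' hz' (fun x => by rw [hj, mu5_io_comp (F z) (g ^ j), hgj])]

end Pool.Agent.H67.MU
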