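import Pool.Agent.H67.MU.Defs2
import Pool.Agent.H67.MU.Coeff
import Pool.Agent.H67.MU.Exp
import Pool.Agent.H67.MU.Orb
import Pool.Agent.H35.AN.Inert
import Pool.Agent.H35.AN.Tower
import Pool.Agent.H35.AN.Val

/-!
# Project MU, row MU-19: the discriminant of a generator has even exponent at every unramified
prime
-/

set_option autoImplicit false

open Polynomial IsDedekindDomain NumberField UniqueFactorizationMonoid

namespace Pool.Agent.H67.MU

open Pool.Agent.H35.AN

theorem mu19_vexp {k : Type} [Field k] [NumberField k] (v : HeightOneSpectrum (𝓞 k)) (d : 𝓞 k)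
    (hd : d ≠ 0) : (vexp v.asIdeal (Ideal.span {d}) : ℤ) = ord v (d : k) := by
  have hd' : (d : k) ≠ 0 := by simpa using hd
  have hspan : Ideal.span {d} ≠ ⊥ := by simpa using hd
  have h : ∀ n : ℕ, (n : ℤ) ≤ ord v (d : k) ↔ n ≤ vexp v.asIdeal (Ideal.span {d}) := by
    intro n
    rw [← mu3_pow_dvd_iff v.isPrime v.ne_bot hspan, Ideal.dvd_span_singleton, mem_pow_iff,
      ge_iff v hd']
  have h0 : 0 ≤ ord v (d : k) := by
    have := (h 0).2 (Nat.zero_le _)
    simpa using this
  have h1 := (h (vexp v.asIdeal (Ideal.span {d}))).2 le_rfl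
  have h2 := (h (ord v (d : k)).toNat).1 (by rw [Int.toNat_of_nonneg h0])
  omega

theorem mu19_sum {F : Type} [DecidableEq F] (s : F → F → ℤ) (hs : ∀ x y, s x y = s y x)
    (R : Finset F) : Even (∑ x ∈ R, ∑ y ∈ R.erase x, s x y) := by
  induction R using Finset.induction_on with
  | empty => simp
  | insert a R ha ih =>
    rw [Finset.sum_insert ha, Finset.erase_insert ha]
    have h : ∑ x ∈ R, ∑ y ∈ (insert a R).erase x, s x y =
        ∑ x ∈ R, s x a + ∑ x ∈ R, ∑ y ∈ R.erase x, s x y := by
      rw [← Finset.sum_add_distrib]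
      refine Finset.sum_congr rfl fun x hx => ?_
      have hxa : a ≠ x := fun h => ha (h ▸ hx)
      rw [Finset.erase_insert_of_ne hxa, Finset.sum_insert]
      intro h
      exact ha (Finset.mem_of_mem_erase h)
    rw [h]
    have h2 : ∑ x ∈ R, s x a = ∑ x ∈ R, s a x := Finset.sum_congr rfl fun x _ => hs x a
    rw [h2, ← add_assoc]
    exact (Even.add_self _).add ih

theorem mu19_discOf_map {R S : Type*} [CommRing R] [CommRing S] (φ : R →+* S) {n : ℕ}
    (a : Fin n → R) : discOf (fun j => φ (a j)) = φ (discOf a) := by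
  rw [discOf, discOf, ← monicOf_map, derivative_map, resultant_map_map]

theorem mu19_disc {F : Type} [Field F] [DecidableEq F] {n : ℕ} (a : Fin n → F) (R : Finset F)
    (h : monicOf a = ∏ θ ∈ R, (X - C θ)) :
    discOf a = ∏ θ ∈ R, ∏ y ∈ R.erase θ, (θ - y) := by
  have hdeg : (∏ θ ∈ R, (X - C θ)).natDegree = n := by
    rw [← h]
    exact (monicOf_monic a).2
  have hder : (derivative (monicOf a)).natDegree ≤ n - 1 := by
    have := natDegree_derivative_le (monicOf a)
    rwa [(monicOf_monic a).2] at this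
  have h1 := resultant_prod_left R (fun θ => (X - C θ : F[X])) (derivative (monicOf a)) (n - 1)
    (by simp) hder
  rw [hdeg] at h1
  rw [discOf]
  nth_rw 1 [h]
  rw [h1]
  refine Finset.prod_congr rfl fun θ hθ => ?_
  rw [natDegree_X_sub_C, resultant_X_sub_C_left _ _ _ hder, h]
  have h2 := Lagrange.eval_nodal_derivative_eval_node_eq (v := (id : F → F)) (s := R) hθ
  simp only [Lagrange.nodal, id] at h2
  rw [h2, eval_prod]
  simp

/-- the inertia groups above an unramified prime are trivial -/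
theorem mu19_inertia {k K L : Type} [Field k] [NumberField k] [Field K] [NumberField K]
    [Field L] [NumberField L] [Algebra k K] [Algebra k L] [IsGalois k L]
    (hgen : ∀ g : L ≃ₐ[k] L, g ≠ 1 → ∃ φ : K →ₐ[k] L, (g : L →ₐ[k] L).comp φ ≠ φ)
    (i : K →ₐ[k] L) (P : HeightOneSpectrum (𝓞 L))
    (h : vexp (P.asIdeal.under (𝓞 k)) (relDisc k K) = 0) : erel k P = 1 := by
  classical
  obtain ⟨I, hcard, -, h2⟩ := exists_inertia (k := k) P
  have hpb : P.asIdeal.under (𝓞 k) ≠ ⊥ := Ideal.under_ne_bot (𝓞 k) P.ne_bot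
  have hI : I = ⊥ := by
    rw [Subgroup.eq_bot_iff_forall]
    intro g hg
    by_contra hg1
    obtain ⟨φ, hφ⟩ := hgen g hg1
    have hpos : 0 < Module.finrank k K := Module.finrank_pos
    have h3 := resDeg_le_orbits i P.asIdeal P.ne_bot g (fun x => by
      rw [mem_iff_ge_one]
      have := h2 g hg (x : L) (an1_ge_coe P x)
      simpa using this) (Module.finrank k K - 1) (fun S hS => by
        by_contra hcon
        have h4 : Fintype.card (K →ₐ[k] L) ≤ S.card := by
          have h5 := card_algHom_le_finrank k K L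
          rw [Nat.card_eq_fintype_card] at h5
          omega
        have h6 : S = Finset.univ := Finset.eq_univ_of_card S
          (le_antisymm (Finset.card_le_univ S) h4)
        apply hφ
        refine (hS φ ((g : L →ₐ[k] L).comp φ) (by rw [h6]; exact Finset.mem_univ _)
          (by rw [h6]; exact Finset.mem_univ _) ⟨1, ?_⟩).symm
        rw [pow_one])
    have h7 := le_vexp_add k K (P.asIdeal.under (𝓞 k)) hpb
    omega
  rw [← hcard, hI]
  simp

theorem even_vexp_disc {k : Type} [Field k] [NumberField k] {n : ℕ} (hn2 : 2 ≤ n)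
    {M : IntermediateField k (AlgebraicClosure k)} [NumberField M]
    (hn : Module.finrank k M = n) (x : 𝓞 M) (a : Fin n → 𝓞 k)
    (hx : minpoly (𝓞 k) x = monicOf a) : discOf a ≠ 0 ∧
      ∀ p : Ideal (𝓞 k), p.IsPrime → p ≠ ⊥ → vexp p (relDisc k M) = 0 →
        Even (vexp p (Ideal.span {discOf a})) := by
  classical
  have hfin : FiniteDimensional k M := Module.finite_of_finrank_pos (by omega)
  have hxint : IsIntegral k (x : M) := IsIntegral.of_finite k _
  have hf0 : minpoly k (x : M) = (monicOf a).map (algebraMap (𝓞 k) k) := by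
    rw [← hx, minpoly_map]
  have hdeg : (minpoly k (x : M)).natDegree = n := by
    rw [hf0, (monicOf_monic a).1.natDegree_map]
    exact (monicOf_monic a).2
  have hirr : Irreducible (minpoly k (x : M)) := minpoly.irreducible hxint
  have hsep : (minpoly k (x : M)).Separable := hirr.separable
  have htop : Algebra.adjoin k {(x : M)} = ⊤ := by
    have h1 := (Field.primitive_element_iff_minpoly_natDegree_eq k (x : M)).2 (by rw [hdeg, hn])
    rw [← IntermediateField.adjoin_simple_toSubalgebra_of_isAlgebraic hxint.isAlgebraic, h1]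
    rfl
  set f : k[X] := minpoly k (x : M) with hf
  let L := f.SplittingField
  have : NumberField L := NumberField.of_module_finite k L
  have : IsGalois k L := IsGalois.of_separable_splitting_field (p := f) hsep
  have hfm : f.Monic := minpoly.monic hxint
  have hspl : (f.map (algebraMap k L)).Splits := SplittingField.splits f
  have hnd : (f.map (algebraMap k L)).roots.Nodup := nodup_roots hsep.map
  set R : Finset L := (f.map (algebraMap k L)).roots.toFinset with hR
  have hprod : f.map (algebraMap k L) = ∏ θ ∈ R, (X - C θ) := by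
    rw [Finset.prod, hR, Multiset.toFinset_val, Multiset.dedup_eq_self.2 hnd]
    exact hspl.eq_prod_roots_of_monic (hfm.map _)
  have hmemR : ∀ θ : L, θ ∈ R ↔ aeval θ f = 0 := by
    intro θ
    rw [hR, Multiset.mem_toFinset, mem_roots (hfm.map _).ne_zero, IsRoot.def, eval_map_algebraMap]
  -- embeddings
  have hemb : ∀ θ ∈ R, ∃ φ : M →ₐ[k] L, φ (x : M) = θ := by
    intro θ hθ
    refine ⟨(PowerBasis.ofAdjoinEqTop hxint htop).lift θ ?_, ?_⟩
    · rw [PowerBasis.ofAdjoinEqTop_gen]
      exact (hmemR θ).1 hθ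
    · exact (PowerBasis.ofAdjoinEqTop hxint htop).lift_gen θ _
  have hgen : ∀ g : L ≃ₐ[k] L, g ≠ 1 → ∃ φ : M →ₐ[k] L, (g : L →ₐ[k] L).comp φ ≠ φ := by
    intro g hg
    by_contra hcon
    push Not at hcon
    apply hg
    have h1 : (g : L →ₐ[k] L) = AlgHom.id k L := by
      refine AlgHom.ext_of_adjoin_eq_top (SplittingField.adjoin_rootSet f) fun θ hθ => ?_
      have hθ' : aeval θ f = 0 := (mem_rootSet.1 hθ).2
      obtain ⟨φ, hφ⟩ := hemb θ ((hmemR θ).2 hθ')
      have h2 := congrArg (fun ψ : M →ₐ[k] L => ψ (x : M)) (hcon φ)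
      simp only [AlgHom.comp_apply, hφ] at h2
      exact h2
    ext θ
    exact congrArg (fun ψ : L →ₐ[k] L => ψ θ) h1
  have hcardR : R.card = n := by
    have h1 := congrArg natDegree hprod
    rw [hfm.natDegree_map, hdeg, natDegree_prod_of_monic _ _ (fun θ _ => monic_X_sub_C θ)] at h1
    simp only [natDegree_X_sub_C, Finset.sum_const, smul_eq_mul, mul_one] at h1
    exact h1.symm
  obtain ⟨θ₀, hθ₀⟩ : R.Nonempty := Finset.card_pos.1 (by omega)
  obtain ⟨i, -⟩ := hemb θ₀ hθ₀
  -- the discriminant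
  have hdisc : algebraMap k L ((discOf a : 𝓞 k) : k) = ∏ θ ∈ R, ∏ y ∈ R.erase θ, (θ - y) := by
    have h1 := mu19_discOf_map ((algebraMap k L).comp (algebraMap (𝓞 k) k)) a
    have h2 := mu19_disc (fun j => ((algebraMap k L).comp (algebraMap (𝓞 k) k)) (a j)) R (by
      rw [← monicOf_map, ← Polynomial.map_map, ← hf0, hprod])
    rw [h1] at h2
    exact h2
  have hne : ∀ θ ∈ R, ∀ y ∈ R.erase θ, θ - y ≠ 0 := by
    intro θ _ y hy
    exact sub_ne_zero.2 (Finset.ne_of_mem_erase hy).symm
  have hne' : ∀ θ ∈ R, ∏ y ∈ R.erase θ, (θ - y) ≠ 0 := fun θ hθ =>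
    Finset.prod_ne_zero_iff.2 (hne θ hθ)
  have hd0 : discOf a ≠ 0 := by
    intro h0
    rw [h0] at hdisc
    simp only [map_zero] at hdisc
    exact Finset.prod_ne_zero_iff.2 hne' hdisc.symm
  refine ⟨hd0, fun p hp hp0 hv => ?_⟩
  obtain ⟨P, hP⟩ := exists_above L (⟨p, hp, hp0⟩ : HeightOneSpectrum (𝓞 k))
  have hPp : P.asIdeal.under (𝓞 k) = p := congrArg HeightOneSpectrum.asIdeal hP
  have herel : erel k P = 1 := mu19_inertia hgen i P (by rw [hPp]; exact hv)
  have h1 := ord_algebraMap (k := k) P ((discOf a : 𝓞 k) : k)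
  rw [herel, hP, hdisc, Nat.cast_one, one_mul, ord_prod P R _ hne',
    Finset.sum_congr rfl (fun θ hθ => ord_prod P (R.erase θ) _ (hne θ hθ))] at h1
  have h2 := mu19_vexp (⟨p, hp, hp0⟩ : HeightOneSpectrum (𝓞 k)) (discOf a) hd0
  have h3 := mu19_sum (fun x y : L => ord P (x - y)) (fun x y => by
    rw [← ord_neg, neg_sub]) R
  rw [h1, ← h2] at h3
  exact_mod_cast h3

end Pool.Agent.H67.MU
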