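import Pool.Agent.H67.MU.Defs2

/-!
# Project MU (MP_a3214d), row MU-20: few square classes

The nonzero integers of a number field whose valuations are even outside a given ideal `Δ` fall
into at most `C * 2 ^ (number of prime divisors of Δ)` classes modulo squares.
-/

set_option autoImplicit false

open Polynomial IsDedekindDomain NumberField UniqueFactorizationMonoid

open scoped nonZeroDivisors

namespace Pool.Agent.H67.MU

section

variable {k : Type} [Field k] [NumberField k]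

open scoped Classical in
/-- the square root of the square part of an ideal -/
noncomputable def mu20_sq (A : Ideal (𝓞 k)) : Ideal (𝓞 k) :=
  ∏ p ∈ (normalizedFactors A).toFinset, p ^ (vexp p A / 2)

open scoped Classical in
theorem mu20_decomp {A : Ideal (𝓞 k)} (hA : A ≠ ⊥) :
    A = mu20_sq A ^ 2 * ∏ p ∈ (normalizedFactors A).toFinset.filter (fun p => Odd (vexp p A)), p := by
  have h1 : A = ∏ p ∈ (normalizedFactors A).toFinset, p ^ (vexp p A) := by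
    conv_lhs => rw [← Ideal.prod_normalizedFactors_eq_self hA, Finset.prod_multiset_count]
    rfl
  unfold mu20_sq
  rw [← Finset.prod_pow, Finset.prod_filter, ← Finset.prod_mul_distrib]
  conv_lhs => rw [h1]
  refine Finset.prod_congr rfl (fun p _ => ?_)
  rw [← pow_mul]
  by_cases h2 : Odd (vexp p A)
  · rw [if_pos h2, ← pow_succ]
    congr 1
    obtain ⟨m, hm⟩ := h2
    omega
  · rw [if_neg h2, mul_one]
    congr 1
    rw [Nat.not_odd_iff_even] at h2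
    obtain ⟨m, hm⟩ := h2
    omega

theorem mu20_sq_ne {A : Ideal (𝓞 k)} (hA : A ≠ ⊥) : mu20_sq A ≠ ⊥ := by
  intro h0
  have h1 := mu20_decomp hA
  rw [h0, ← Ideal.zero_eq_bot, zero_pow two_ne_zero, zero_mul] at h1
  exact hA h1

/-- the admissible elements -/
def mu20_adm (Δ : Ideal (𝓞 k)) (z : 𝓞 k) : Prop :=
  z ≠ 0 ∧ ∀ p : Ideal (𝓞 k), p.IsPrime → p ≠ ⊥ → vexp p Δ = 0 → Even (vexp p (Ideal.span {z}))

open scoped Classical in
/-- the primes with an odd exponent -/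
noncomputable def mu20_T (Δ : Ideal (𝓞 k)) (z : 𝓞 k) : Finset (Ideal (𝓞 k)) :=
  (primeDivs k Δ).filter (fun p => Odd (vexp p (Ideal.span {z})))

theorem mu20_span {Δ : Ideal (𝓞 k)} {z : 𝓞 k} (hz : mu20_adm Δ z) :
    Ideal.span {z} = mu20_sq (Ideal.span {z}) ^ 2 * ∏ p ∈ mu20_T Δ z, p := by
  classical
  have hA : (Ideal.span {z} : Ideal (𝓞 k)) ≠ ⊥ := by
    rw [Ne, Ideal.span_singleton_eq_bot]
    exact hz.1
  have h1 : (normalizedFactors (Ideal.span {z} : Ideal (𝓞 k))).toFinset.filter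
      (fun p => Odd (vexp p (Ideal.span {z}))) = mu20_T Δ z := by
    unfold mu20_T primeDivs
    ext p
    rw [Finset.mem_filter, Finset.mem_filter, Multiset.mem_toFinset, Multiset.mem_toFinset]
    constructor
    · rintro ⟨h2, h3⟩
      refine ⟨?_, h3⟩
      have h4 : Prime p := prime_of_normalized_factor p h2
      have h5 : vexp p Δ ≠ 0 := by
        intro h6
        have h7 := hz.2 p (Ideal.isPrime_of_prime h4) h4.ne_zero h6
        exact (Nat.not_even_iff_odd.mpr h3) h7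
      exact Multiset.count_ne_zero.mp h5
    · rintro ⟨h2, h3⟩
      refine ⟨?_, h3⟩
      have h5 : vexp p (Ideal.span {z}) ≠ 0 := by
        intro h6
        rw [h6] at h3
        exact absurd h3 (by decide)
      exact Multiset.count_ne_zero.mp h5
  rw [← h1]
  exact mu20_decomp hA

theorem mu20_sq_mem {z : 𝓞 k} (hz : z ≠ 0) :
    mu20_sq (Ideal.span {z}) ∈ (Ideal (𝓞 k))⁰ := by
  rw [mem_nonZeroDivisors_iff_ne_zero]
  apply mu20_sq_ne
  rw [Ne, Ideal.span_singleton_eq_bot]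
  exact hz

open scoped Classical in
/-- the ideal class of the square part -/
noncomputable def mu20_cl (z : 𝓞 k) : ClassGroup (𝓞 k) :=
  if hz : z ≠ 0 then ClassGroup.mk0 ⟨mu20_sq (Ideal.span {z}), mu20_sq_mem hz⟩ else 1

/-- same primes and same class: the product is a unit times a square -/
theorem mu20_unit {Δ : Ideal (𝓞 k)} {z z' : 𝓞 k} (hz : mu20_adm Δ z) (hz' : mu20_adm Δ z')
    (hT : mu20_T Δ z = mu20_T Δ z') (hc : mu20_cl z = mu20_cl z') :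
    ∃ (u : (𝓞 k)ˣ) (y : 𝓞 k), z * z' = u * y ^ 2 := by
  set I : Ideal (𝓞 k) := mu20_sq (Ideal.span {z}) with hI
  set I' : Ideal (𝓞 k) := mu20_sq (Ideal.span {z'}) with hI'
  set R : Ideal (𝓞 k) := ∏ p ∈ mu20_T Δ z, p with hR
  have e1 : (Ideal.span {z} : Ideal (𝓞 k)) = I ^ 2 * R := mu20_span hz
  have e2 : (Ideal.span {z'} : Ideal (𝓞 k)) = I' ^ 2 * R := by
    rw [hR, hT]
    exact mu20_span hz'
  have hz0 : (Ideal.span {z} : Ideal (𝓞 k)) ≠ 0 := by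
    rw [Ne, Ideal.zero_eq_bot, Ideal.span_singleton_eq_bot]
    exact hz.1
  have hR0 : R ∈ (Ideal (𝓞 k))⁰ := by
    rw [mem_nonZeroDivisors_iff_ne_zero]
    intro h0
    rw [h0, mul_zero] at e1
    exact hz0 e1
  have hI0 : I ∈ (Ideal (𝓞 k))⁰ := mu20_sq_mem hz.1
  have hI0' : I' ∈ (Ideal (𝓞 k))⁰ := mu20_sq_mem hz'.1
  have hcc : ClassGroup.mk0 ⟨I, hI0⟩ = ClassGroup.mk0 ⟨I', hI0'⟩ := by
    unfold mu20_cl at hc
    rw [dif_pos hz.1, dif_pos hz'.1] at hc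
    exact hc
  have hJ : I * I' * R ∈ (Ideal (𝓞 k))⁰ :=
    Submonoid.mul_mem _ (Submonoid.mul_mem _ hI0 hI0') hR0
  have h1 : ClassGroup.mk0 ⟨I * I' * R, hJ⟩ = 1 := by
    have h2 : (⟨I * I' * R, hJ⟩ : (Ideal (𝓞 k))⁰) = ⟨I, hI0⟩ * ⟨I', hI0'⟩ * ⟨R, hR0⟩ := rfl
    rw [h2, map_mul, map_mul, ← hcc, ← map_mul, ← map_mul]
    have h3 : (⟨I, hI0⟩ * ⟨I, hI0⟩ * ⟨R, hR0⟩ : (Ideal (𝓞 k))⁰) =
        ⟨I * I * R, Submonoid.mul_mem _ (Submonoid.mul_mem _ hI0 hI0) hR0⟩ := rfl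
    rw [h3, ClassGroup.mk0_eq_one_iff]
    refine ⟨z, ?_⟩
    rw [← pow_two, ← e1]
  rw [ClassGroup.mk0_eq_one_iff] at h1
  obtain ⟨y, hy⟩ := h1
  have h2 : I * I' * R = Ideal.span {y} := hy
  have h3 : (Ideal.span {z * z'} : Ideal (𝓞 k)) = Ideal.span {y ^ 2} := by
    rw [← Ideal.span_singleton_mul_span_singleton, ← Ideal.span_singleton_pow, ← h2, e1, e2]
    ring
  rw [Ideal.span_singleton_eq_span_singleton] at h3
  obtain ⟨u, hu⟩ := h3.symm
  exact ⟨u, y, by rw [← hu, mul_comm]⟩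

/-- the units modulo squares form a finite group -/
theorem mu20_finite : Finite ((𝓞 k)ˣ ⧸ (powMonoidHom 2 : (𝓞 k)ˣ →* (𝓞 k)ˣ).range) := by
  have : Group.FG (𝓞 k)ˣ := Group.fg_iff_monoid_fg.mpr inferInstance
  apply CommGroup.finite_of_fg_isMulTorsion
  intro x
  obtain ⟨u, rfl⟩ := QuotientGroup.mk_surjective x
  rw [isOfFinOrder_iff_pow_eq_one]
  refine ⟨2, two_pos, ?_⟩
  rw [← QuotientGroup.mk_pow, QuotientGroup.eq_one_iff]
  exact ⟨u, rfl⟩

/-- final step -/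
theorem mu20_final {z z' z0 y y' : 𝓞 k} {u u' : (𝓞 k)ˣ} (hz0 : z0 ≠ 0)
    (h : z * z0 = u * y ^ 2) (h' : z' * z0 = u' * y' ^ 2)
    (hu : (QuotientGroup.mk u : (𝓞 k)ˣ ⧸ (powMonoidHom 2 : (𝓞 k)ˣ →* (𝓞 k)ˣ).range) =
      QuotientGroup.mk u') : IsSquare (z * z') := by
  rw [QuotientGroup.eq] at hu
  obtain ⟨w, hw⟩ := hu
  have h1 : u' = u * w ^ 2 := by
    have : w ^ 2 = u⁻¹ * u' := hw
    rw [this, mul_inv_cancel_left]
  have h2 : z0 ^ 2 * (z * z') = (u * w * y * y') ^ 2 := by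
    calc z0 ^ 2 * (z * z') = (z * z0) * (z' * z0) := by ring
      _ = (u * y ^ 2) * (u' * y' ^ 2) := by rw [h, h']
      _ = (u * w * y * y') ^ 2 := by
          rw [h1]
          push_cast
          ring
  have h3 : z0 ∣ u * w * y * y' := by
    rw [← IsIntegrallyClosed.pow_dvd_pow_iff two_ne_zero]
    exact ⟨z * z', h2.symm⟩
  obtain ⟨s, hs⟩ := h3
  refine ⟨s, ?_⟩
  rw [hs] at h2
  have h4 : z0 ^ 2 * (z * z') = z0 ^ 2 * (s * s) := by
    rw [h2]
    ring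
  exact mul_left_cancel₀ (pow_ne_zero 2 hz0) h4

end

theorem exists_sq_classes (k : Type) [Field k] [NumberField k] : ∃ C : ℕ, 0 < C ∧
    ∀ Δ : Ideal (𝓞 k), Δ ≠ ⊥ → ∃ κ : 𝓞 k → Fin (C * 2 ^ (primeDivs k Δ).card),
      ∀ z z' : 𝓞 k, z ≠ 0 → z' ≠ 0 → (∀ p : Ideal (𝓞 k), p.IsPrime → p ≠ ⊥ → vexp p Δ = 0 →
        Even (vexp p (Ideal.span {z})) ∧ Even (vexp p (Ideal.span {z'}))) →
        κ z = κ z' → IsSquare (z * z') := by
  classical
  have hfin := mu20_finite (k := k)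
  let Q : Type := (𝓞 k)ˣ ⧸ (powMonoidHom 2 : (𝓞 k)ˣ →* (𝓞 k)ˣ).range
  have _ : Fintype Q := Fintype.ofFinite Q
  refine ⟨Fintype.card (ClassGroup (𝓞 k)) * Fintype.card Q, Nat.mul_pos Fintype.card_pos
    Fintype.card_pos, fun Δ _ => ?_⟩
  -- the colours
  let Y : Type := (ClassGroup (𝓞 k) × Q) × ((primeDivs k Δ).powerset : Finset _)
  have hY : Fintype.card Y = Fintype.card (ClassGroup (𝓞 k)) * Fintype.card Q *
      2 ^ (primeDivs k Δ).card := by
    rw [Fintype.card_prod, Fintype.card_prod, Fintype.card_coe, Finset.card_powerset]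
  -- representatives
  have hrep : ∀ c : Finset (Ideal (𝓞 k)) × ClassGroup (𝓞 k), ∃ z0 : 𝓞 k,
      (∃ z, mu20_adm Δ z ∧ (mu20_T Δ z, mu20_cl z) = c) →
        mu20_adm Δ z0 ∧ (mu20_T Δ z0, mu20_cl z0) = c := by
    intro c
    by_cases h : ∃ z, mu20_adm Δ z ∧ (mu20_T Δ z, mu20_cl z) = c
    · obtain ⟨z0, hz0⟩ := h
      exact ⟨z0, fun _ => hz0⟩
    · exact ⟨1, fun h' => absurd h' h⟩
  choose rep hrep using hrep
  have hunit : ∀ z : 𝓞 k, ∃ u : (𝓞 k)ˣ, mu20_adm Δ z →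
      ∃ y : 𝓞 k, z * rep (mu20_T Δ z, mu20_cl z) = u * y ^ 2 := by
    intro z
    by_cases hz : mu20_adm Δ z
    · obtain ⟨h1, h2⟩ := hrep (mu20_T Δ z, mu20_cl z) ⟨z, hz, rfl⟩
      obtain ⟨u, y, huy⟩ := mu20_unit hz h1 (congrArg Prod.fst h2).symm (congrArg Prod.snd h2).symm
      exact ⟨u, fun _ => ⟨y, huy⟩⟩
    · exact ⟨1, fun h => absurd h hz⟩
  choose un hun using hunit
  have hT : ∀ z : 𝓞 k, mu20_T Δ z ∈ (primeDivs k Δ).powerset := fun z => by
    rw [Finset.mem_powerset]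
    exact Finset.filter_subset _ _
  let col : 𝓞 k → Y := fun z => ((mu20_cl z, (QuotientGroup.mk (un z) : Q)), ⟨mu20_T Δ z, hT z⟩)
  let e : Y ≃ Fin (Fintype.card (ClassGroup (𝓞 k)) * Fintype.card Q *
    2 ^ (primeDivs k Δ).card) := Fintype.equivFinOfCardEq hY
  refine ⟨fun z => e (col z), fun z z' hz hz' hev hκ => ?_⟩
  have hcol : col z = col z' := e.injective hκ
  have c1 : mu20_cl z = mu20_cl z' := congrArg (fun y : Y => y.1.1) hcol
  have c2 : (QuotientGroup.mk (un z) : Q) = QuotientGroup.mk (un z') :=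
    congrArg (fun y : Y => y.1.2) hcol
  have c3 : mu20_T Δ z = mu20_T Δ z' := congrArg (fun y : Y => (y.2 : Finset (Ideal (𝓞 k)))) hcol
  have a1 : mu20_adm Δ z := ⟨hz, fun p h1 h2 h3 => (hev p h1 h2 h3).1⟩
  have a2 : mu20_adm Δ z' := ⟨hz', fun p h1 h2 h3 => (hev p h1 h2 h3).2⟩
  obtain ⟨y, hy⟩ := hun z a1
  obtain ⟨y', hy'⟩ := hun z' a2
  rw [← c1, ← c3] at hy'
  exact mu20_final (hrep _ ⟨z, a1, rfl⟩).1.1 hy hy' c2

end Pool.Agent.H67.MU
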