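import Pool.Agent.H67.MU.Defs

/-!
Project MU, block SQC-3: the number of square roots of a unit modulo an odd prime number in the
ring of integers of a number field.
-/

set_option autoImplicit false

open Polynomial IsDedekindDomain NumberField

namespace Pool.Agent.H67.MU

/-- In a commutative ring in which `2` is a unit, two square roots of a unit which lie in the same
maximal ideals after subtraction of a fixed root are equal. -/
theorem sq3_inj {R : Type*} [CommRing R] (h2 : IsUnit (2 : R)) (e z0 z z' : R) (he : IsUnit e)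
    (h0 : z0 ^ 2 = e) (hz : z ^ 2 = e) (hz' : z' ^ 2 = e)
    (h : ∀ m : Ideal R, m.IsMaximal → (z - z0 ∈ m ↔ z' - z0 ∈ m)) : z = z' := by
  have hu0 : IsUnit z0 := by
    rw [← h0] at he
    exact (isUnit_pow_iff two_ne_zero).1 he
  have hprod : (z + z') * (z - z') = 0 := by
    have : (z + z') * (z - z') = z ^ 2 - z' ^ 2 := by ring
    rw [this, hz, hz', sub_self]
  have hunit : IsUnit (z + z') := by
    by_contra hn
    obtain ⟨m, hm, hmem⟩ := exists_max_ideal_of_mem_nonunits hn
    have h2z : (2 : R) * z0 ∉ m := fun hc =>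
      hm.ne_top (Ideal.eq_top_of_isUnit_mem m hc (h2.mul hu0))
    have hp := hm.isPrime
    by_cases h1 : z - z0 ∈ m
    · have h1' := (h m hm).1 h1
      apply h2z
      have : (2 : R) * z0 = (z + z') - (z - z0) - (z' - z0) := by ring
      rw [this]
      exact m.sub_mem (m.sub_mem hmem h1) h1'
    · have h1' : z' - z0 ∉ m := fun hc => h1 ((h m hm).2 hc)
      have e1 : (z - z0) * (z + z0) ∈ m := by
        have : (z - z0) * (z + z0) = z ^ 2 - z0 ^ 2 := by ring
        rw [this, hz, h0, sub_self]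
        exact m.zero_mem
      have e2 : (z' - z0) * (z' + z0) ∈ m := by
        have : (z' - z0) * (z' + z0) = z' ^ 2 - z0 ^ 2 := by ring
        rw [this, hz', h0, sub_self]
        exact m.zero_mem
      have f1 := (hp.mem_or_mem e1).resolve_left h1
      have f2 := (hp.mem_or_mem e2).resolve_left h1'
      apply h2z
      have : (2 : R) * z0 = (z + z0) + (z' + z0) - (z + z') := by ring
      rw [this]
      exact m.sub_mem (m.add_mem f1 f2) hmem
  have := (hunit.mul_right_eq_zero).1 hprod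
  exact sub_eq_zero.1 this

/-- In a finite commutative ring of order `q ^ d` there are at most `d` maximal ideals. -/
theorem sq3_card {R : Type*} [CommRing R] [Finite R] (q d : ℕ) (hq : q.Prime)
    (hR : Nat.card R = q ^ d) : Nat.card (MaximalSpectrum R) ≤ d := by
  classical
  have : Fintype (MaximalSpectrum R) := Fintype.ofFinite _
  let I : MaximalSpectrum R → Ideal R := fun m => m.asIdeal
  have hcop : Pairwise (Function.onFun IsCoprime I) := by
    intro a b hab
    have : a.asIdeal ≠ b.asIdeal := fun h => hab (MaximalSpectrum.ext h)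
    exact Ideal.isCoprime_of_isMaximal this
  have hsurj : Function.Surjective (Ideal.quotientInfToPiQuotient I) :=
    Ideal.quotientInfToPiQuotient_surj hcop
  have hsurj' : Function.Surjective
      (fun x : R => Ideal.quotientInfToPiQuotient I (Ideal.Quotient.mk (⨅ i, I i) x)) :=
    hsurj.comp Ideal.Quotient.mk_surjective
  have hle : Nat.card (∀ i, R ⧸ I i) ≤ Nat.card R :=
    Nat.card_le_card_of_surjective _ hsurj'
  rw [Nat.card_pi, hR] at hle
  have hbig : ∀ i, q ≤ Nat.card (R ⧸ I i) := by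
    intro i
    have hfin : Finite (R ⧸ I i) := Finite.of_surjective _ (Ideal.Quotient.mk_surjective (I := I i))
    have hdvd : Nat.card (R ⧸ I i) ∣ q ^ d := by
      rw [← hR, Submodule.card_eq_card_quotient_mul_card (I i)]
      exact dvd_mul_left _ _
    obtain ⟨j, -, hj⟩ := (Nat.dvd_prime_pow hq).1 hdvd
    have hne : Nat.card (R ⧸ I i) ≠ 1 := by
      have : Nontrivial (R ⧸ I i) := Ideal.Quotient.nontrivial_iff.2 i.isMaximal.ne_top
      exact (Finite.one_lt_card).ne'
    rw [hj] at hne ⊢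
    have hj0 : j ≠ 0 := by
      rintro rfl
      exact hne (pow_zero q)
    exact Nat.le_self_pow hj0 q
  have h1 : q ^ Fintype.card (MaximalSpectrum R) ≤ q ^ d := by
    refine le_trans ?_ hle
    calc q ^ Fintype.card (MaximalSpectrum R) = ∏ _i : MaximalSpectrum R, q := by
          rw [Finset.prod_const, Finset.card_univ]
      _ ≤ ∏ i, Nat.card (R ⧸ I i) := Finset.prod_le_prod' fun i _ => hbig i
  rw [Nat.card_eq_fintype_card]
  exact (Nat.pow_le_pow_iff_right hq.one_lt).1 h1

/-- In a finite commutative ring of order `q ^ d` a unit has at most `2 ^ d` square roots. -/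
theorem sq3_roots {R : Type*} [CommRing R] [Finite R] (q d : ℕ) (hq : q.Prime)
    (hR : Nat.card R = q ^ d) (h2 : IsUnit (2 : R)) (e : R) (he : IsUnit e) :
    {z : R | z ^ 2 = e}.ncard ≤ 2 ^ d := by
  classical
  rcases Set.eq_empty_or_nonempty {z : R | z ^ 2 = e} with hE | ⟨z0, hz0⟩
  · rw [hE, Set.ncard_empty]
    exact Nat.zero_le _
  have hmax := sq3_card (R := R) q _ hq hR
  have hfin : Fintype (MaximalSpectrum R) := Fintype.ofFinite _
  let f : R → Set (MaximalSpectrum R) := fun z => {m | z - z0 ∈ m.asIdeal}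
  have hinj : Set.InjOn f {z : R | z ^ 2 = e} := by
    intro z hz z' hz' hf
    refine sq3_inj h2 e z0 z z' he hz0 hz hz' ?_
    intro m hm
    have : (⟨m, hm⟩ : MaximalSpectrum R) ∈ f z ↔ (⟨m, hm⟩ : MaximalSpectrum R) ∈ f z' := by rw [hf]
    exact this
  calc {z : R | z ^ 2 = e}.ncard = (f '' {z : R | z ^ 2 = e}).ncard := hinj.ncard_image.symm
    _ ≤ (Set.univ : Set (Set (MaximalSpectrum R))).ncard :=
        Set.ncard_le_ncard (Set.subset_univ _) (Set.toFinite _)
    _ = 2 ^ Nat.card (MaximalSpectrum R) := by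
        rw [Set.ncard_univ, Nat.card_eq_fintype_card, Nat.card_eq_fintype_card, Fintype.card_set]
    _ ≤ 2 ^ d := Nat.pow_le_pow_right two_pos hmax

/-- The number of square roots of a unit modulo an odd prime number. -/
theorem sqrt_mod (k : Type) [Field k] [NumberField k] (q : ℕ) (hq : q.Prime) (hq2 : q ≠ 2)
    (e : 𝓞 k ⧸ Ideal.span {(q : 𝓞 k)}) (he : IsUnit e) :
    Finite (𝓞 k ⧸ Ideal.span {(q : 𝓞 k)}) ∧
    {z : 𝓞 k ⧸ Ideal.span {(q : 𝓞 k)} | z ^ 2 = e}.ncard ≤ 2 ^ Module.finrank ℚ k := by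
  have hcard : Nat.card (𝓞 k ⧸ Ideal.span {(q : 𝓞 k)}) = q ^ Module.finrank ℚ k := by
    have h := Ideal.absNorm_span_natCast (S := 𝓞 k) q
    rw [NumberField.RingOfIntegers.rank] at h
    rw [← h]
    exact (Submodule.cardQuot_apply _).symm
  have hfin : Finite (𝓞 k ⧸ Ideal.span {(q : 𝓞 k)}) :=
    Nat.finite_of_card_ne_zero (by rw [hcard]; exact pow_ne_zero _ hq.ne_zero)
  refine ⟨hfin, sq3_roots q _ hq hcard ?_ e he⟩
  have hco : Nat.Coprime 2 q := (Nat.coprime_primes Nat.prime_two hq).2 (Ne.symm hq2)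
  have hz : IsCoprime (2 : ℤ) (q : ℤ) := by exact_mod_cast Nat.isCoprime_iff_coprime.2 hco
  obtain ⟨a, b, hab⟩ := hz
  have hq0 : ((q : ℤ) : 𝓞 k ⧸ Ideal.span {(q : 𝓞 k)}) = 0 := by
    have : (Ideal.Quotient.mk (Ideal.span {(q : 𝓞 k)})) ((q : 𝓞 k)) = 0 :=
      Ideal.Quotient.eq_zero_iff_mem.2 (Ideal.mem_span_singleton_self _)
    rw [map_natCast] at this
    rw [Int.cast_natCast]
    exact this
  have h1 : ((a * 2 + b * q : ℤ) : 𝓞 k ⧸ Ideal.span {(q : 𝓞 k)}) = 1 := by
    rw [hab, Int.cast_one]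
  rw [Int.cast_add, Int.cast_mul, Int.cast_mul, hq0, mul_zero, add_zero] at h1
  have h3 : ((2 : ℤ) : 𝓞 k ⧸ Ideal.span {(q : 𝓞 k)}) = 2 := by norm_num
  rw [h3] at h1
  exact IsUnit.of_mul_eq_one _ (by rw [mul_comm]; exact h1)

end Pool.Agent.H67.MU
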