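import Pool.Agent.H67.MU.Defs2
import Pool.Agent.H67.MU.Bdd
import Pool.Agent.H67.MU.SqrtMod
import Pool.Agent.H67.MU.ClassBound

/-!
# SQC-5: values of a polynomial that are squares up to a constant factor

The number of elements of a residue class modulo an ideal, with bounded conjugates, at which
`v * F` is a square, by the `q`-adic determinant method.
-/

set_option autoImplicit false

open Polynomial IsDedekindDomain NumberField

namespace Pool.Agent.H67.MU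

/-- Many prime numbers of about the same size. -/
theorem sq5_primes (x : ℝ) (hx : 2 ≤ x) : ∃ a : ℕ → ℕ, StrictMono a ∧
    ∀ i, (a i).Prime ∧ x < a i ∧ (a i : ℝ) ≤ 2 ^ (i + 2) * x := by
  have hB : ∀ n : ℕ, n ≠ 0 → ∃ p : ℕ, p.Prime ∧ n < p ∧ p ≤ 2 * n := fun n hn =>
    Nat.exists_prime_lt_and_le_two_mul n hn
  choose! p hp using hB
  set n0 : ℕ := ⌈x⌉₊ with hn0
  have h1 : x ≤ n0 := Nat.le_ceil x
  have h2 : (n0 : ℝ) < x + 1 := Nat.ceil_lt_add_one (by linarith)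
  have h0 : n0 ≠ 0 := by
    intro h
    rw [h] at h1
    push_cast at h1
    linarith
  set a : ℕ → ℕ := fun i => Nat.rec (p n0) (fun _ y => p y) i with ha
  have ha0 : a 0 = p n0 := rfl
  have haS : ∀ i, a (i + 1) = p (a i) := fun i => rfl
  have hpr : ∀ i, (a i).Prime := by
    intro i
    induction i with
    | zero => rw [ha0]; exact (hp n0 h0).1
    | succ i ih => rw [haS]; exact (hp _ ih.ne_zero).1
  have hlt : ∀ i, a i < a (i + 1) := fun i => by
    rw [haS]; exact (hp _ (hpr i).ne_zero).2.1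
  have hmono : StrictMono a := strictMono_nat_of_lt_succ hlt
  have hle : ∀ i, a (i + 1) ≤ 2 * a i := fun i => by
    rw [haS]; exact (hp _ (hpr i).ne_zero).2.2
  refine ⟨a, hmono, fun i => ⟨hpr i, ?_, ?_⟩⟩
  · have h3 : n0 < a 0 := (hp n0 h0).2.1
    have h4 : a 0 ≤ a i := hmono.monotone (Nat.zero_le i)
    have h5 : (n0 : ℝ) < a i := by exact_mod_cast lt_of_lt_of_le h3 h4
    linarith
  · induction i with
    | zero =>
      have h3 : a 0 ≤ 2 * n0 := (hp n0 h0).2.2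
      have h4 : (a 0 : ℝ) ≤ 2 * n0 := by exact_mod_cast h3
      norm_num
      linarith
    | succ i ih =>
      have h3 : (a (i + 1) : ℝ) ≤ 2 * a i := by exact_mod_cast hle i
      calc (a (i + 1) : ℝ) ≤ 2 * a i := h3
        _ ≤ 2 * (2 ^ (i + 2) * x) := by linarith
        _ = 2 ^ (i + 1 + 2) * x := by ring

/-- The values prime to `q`. -/
theorem sq5_one (k : Type) [Field k] [NumberField k] (D0 b : ℕ) (hb : 1 ≤ b) (E : (𝓞 k)[X])
    (hdeg : E.natDegree ≤ D0)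
    (hE : ∀ P Q : k[X], P ^ 2 = E.map (algebraMap (𝓞 k) k) * Q ^ 2 → Q = 0)
    (q : ℕ) (hq : q.Prime) (hq2 : q ≠ 2) (M : Ideal (𝓞 k)) (hM : M ≠ ⊥)
    (hqM : IsCoprime (Ideal.span {(q : 𝓞 k)}) M) (Y Z : ℝ) (hY : 0 ≤ Y) (hZ : 0 ≤ Z)
    (hineq : ((2 * b).factorial * (2 * Y) ^ (b * (b - 1)) * Z ^ b) ^ Module.finrank ℚ k <
      (q : ℝ) ^ (Module.finrank ℚ k * (b * (2 * b - 1))) *
        (Ideal.absNorm M : ℝ) ^ (b * (b - 1)))
    (A : Finset (𝓞 k)) (z : 𝓞 k → 𝓞 k)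
    (hMA : ∀ c ∈ A, ∀ c' ∈ A, c - c' ∈ M)
    (hA : ∀ c ∈ A, Bdd Y c ∧ IsCoprime (Ideal.span {(q : 𝓞 k)}) (Ideal.span {z c}) ∧
      z c ^ 2 = E.eval c ∧ Bdd Z (z c)) :
    A.card ≤ (2 * b + D0) * (2 ^ Module.finrank ℚ k * q ^ Module.finrank ℚ k) := by
  classical
  set I : Ideal (𝓞 k) := Ideal.span {(q : 𝓞 k)} with hI
  set mk : 𝓞 k →+* 𝓞 k ⧸ I := Ideal.Quotient.mk I with hmk
  have hfin : Finite (𝓞 k ⧸ I) := (sqrt_mod k q hq hq2 1 isUnit_one).1
  have := Fintype.ofFinite (𝓞 k ⧸ I)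
  have hdvd : ∀ c c' : 𝓞 k, mk c = mk c' → (q : 𝓞 k) ∣ c - c' := fun c c' h => by
    rw [hmk, Ideal.Quotient.eq, hI, Ideal.mem_span_singleton] at h
    exact h
  set f : 𝓞 k → (𝓞 k ⧸ I) × (𝓞 k ⧸ I) := fun c => (mk c, mk (z c)) with hf
  have h1 : A.card ≤ (2 * b + D0) * (A.image f).card := by
    refine Finset.card_le_mul_card_image A _ ?_
    intro r hr
    obtain ⟨c0, hc0, rfl⟩ := Finset.mem_image.1 hr
    refine class_bound k D0 b hb E hdeg hE q hq hq2 M hM hqM Y Z hY hZ hineq _ z c0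
      (Finset.mem_filter.2 ⟨hc0, rfl⟩) (hA c0 hc0).2.1 ?_
    intro c hc
    obtain ⟨hcA, hcf⟩ := Finset.mem_filter.1 hc
    have h3 : mk c = mk c0 := congrArg Prod.fst hcf
    have h4 : mk (z c) = mk (z c0) := congrArg Prod.snd hcf
    exact ⟨(hA c hcA).1, hMA c hcA c0 hc0, hdvd _ _ h3, hdvd _ _ h4, (hA c hcA).2.2.1,
      (hA c hcA).2.2.2⟩
  have h2 : (A.image f).card ≤ 2 ^ Module.finrank ℚ k * ((A.image f).image Prod.fst).card := by
    refine Finset.card_le_mul_card_image (A.image f) _ ?_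
    intro r hr
    obtain ⟨p, hp, rfl⟩ := Finset.mem_image.1 hr
    obtain ⟨c0, hc0, rfl⟩ := Finset.mem_image.1 hp
    have hval : ∀ c ∈ A, mk (z c) ^ 2 = (E.map mk).eval (mk c) := fun c hc => by
      rw [← map_pow, (hA c hc).2.2.1, Polynomial.eval_map, Polynomial.eval₂_at_apply]
    have hunit : IsUnit (mk (z c0)) := by
      obtain ⟨u, hu, v, hv, huv⟩ := Ideal.isCoprime_iff_exists.1 (hA c0 hc0).2.1
      rw [Ideal.mem_span_singleton] at hu hv
      obtain ⟨v', rfl⟩ := hv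
      have h5 : mk u = 0 := by
        rw [hmk, Ideal.Quotient.eq_zero_iff_mem, hI, Ideal.mem_span_singleton]
        exact hu
      have h6 : mk (z c0) * mk v' = 1 := by
        have h7 := congrArg mk huv
        rw [map_add, h5, zero_add, map_mul, map_one] at h7
        exact h7
      exact IsUnit.of_mul_eq_one _ h6
    have hs := (sqrt_mod k q hq hq2 (mk (z c0) ^ 2) (hunit.pow 2)).2
    have hinj : ((A.image f).filter (fun x => x.1 = (f c0).1)).card ≤
        {x : 𝓞 k ⧸ I | x ^ 2 = mk (z c0) ^ 2}.ncard := by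
      rw [← Set.ncard_coe_finset]
      refine Set.ncard_le_ncard_of_injOn Prod.snd ?_ ?_ (Set.toFinite _)
      · intro x hx
        obtain ⟨hx1, hx2⟩ := Finset.mem_filter.1 (Finset.mem_coe.1 hx)
        obtain ⟨c, hc, rfl⟩ := Finset.mem_image.1 hx1
        have h8 : mk c = mk c0 := hx2
        change mk (z c) ^ 2 = mk (z c0) ^ 2
        rw [hval c hc, hval c0 hc0, h8]
      · intro x hx y hy hxy
        have hx2 := (Finset.mem_filter.1 (Finset.mem_coe.1 hx)).2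
        have hy2 := (Finset.mem_filter.1 (Finset.mem_coe.1 hy)).2
        exact Prod.ext (hx2.trans hy2.symm) hxy
    exact hinj.trans hs
  have h3 : ((A.image f).image Prod.fst).card ≤ q ^ Module.finrank ℚ k := by
    have h4 : ((A.image f).image Prod.fst).card ≤ Fintype.card (𝓞 k ⧸ I) := Finset.card_le_univ _
    have h5 : Fintype.card (𝓞 k ⧸ I) = Ideal.absNorm I := by
      rw [Ideal.absNorm_apply, Submodule.cardQuot_apply, Nat.card_eq_fintype_card]
    have h6 : (Ideal.absNorm I : ℝ) ≤ (q : ℝ) ^ Module.finrank ℚ k := by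
      refine mu8_norm I (q : 𝓞 k) (Ideal.mem_span_singleton_self _) ?_ q ?_
      · exact_mod_cast hq.ne_zero
      · intro φ
        simp
    rw [h5] at h4
    have h7 : (((A.image f).image Prod.fst).card : ℝ) ≤ (q : ℝ) ^ Module.finrank ℚ k :=
      le_trans (by exact_mod_cast h4) h6
    exact_mod_cast h7
  calc A.card ≤ (2 * b + D0) * (A.image f).card := h1
    _ ≤ (2 * b + D0) * (2 ^ Module.finrank ℚ k * ((A.image f).image Prod.fst).card) :=
        Nat.mul_le_mul_left _ h2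
    _ ≤ _ := Nat.mul_le_mul_left _ (Nat.mul_le_mul_left _ h3)

/-- If `F` is not a constant times a square then `v * F` is not a square. -/
theorem sq5_nonsq {k : Type} [Field k] [NumberField k] (F : (𝓞 k)[X]) (v : 𝓞 k) (hv : v ≠ 0)
    (hF : ¬ ∃ (c : k) (s : k[X]), F.map (algebraMap (𝓞 k) k) = C c * s ^ 2) :
    ∀ P Q : k[X], P ^ 2 = (C v * F).map (algebraMap (𝓞 k) k) * Q ^ 2 → Q = 0 := by
  intro P Q h
  by_contra hQ
  have h1 : Q ^ 2 ∣ P ^ 2 := ⟨_, h.trans (mul_comm _ _)⟩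
  have h2 : Q ∣ P := (IsIntegrallyClosed.pow_dvd_pow_iff two_ne_zero).1 h1
  obtain ⟨s, rfl⟩ := h2
  have hv' : (algebraMap (𝓞 k) k v) ≠ 0 := by
    intro h0
    exact hv ((FaithfulSMul.algebraMap_injective (𝓞 k) k) (by rw [h0, map_zero]))
  have h3 : s ^ 2 = C (algebraMap (𝓞 k) k v) * F.map (algebraMap (𝓞 k) k) := by
    have h4 : Q ^ 2 * s ^ 2 = Q ^ 2 * (C (algebraMap (𝓞 k) k v) *
        F.map (algebraMap (𝓞 k) k)) := by
      rw [← mul_pow, h, Polynomial.map_mul, Polynomial.map_C]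
      ring
    exact mul_left_cancel₀ (pow_ne_zero 2 hQ) h4
  refine hF ⟨(algebraMap (𝓞 k) k v)⁻¹, s, ?_⟩
  rw [h3, ← mul_assoc, ← C_mul, inv_mul_cancel₀ hv', C_1, one_mul]

/-- The inequality needed in the determinant method. -/
theorem sq5_ineq (m b w : ℕ) (hm : 1 ≤ m) (hb : 1 ≤ b) (A ε T N q : ℝ) (hA : 1 ≤ A)
    (hε : 0 < ε) (hT : 1 ≤ T) (hN : 0 < N) (hbw : (w : ℝ) ≤ ε * b)
    (hq : (2 * b).factorial * (2 * A) * T ^ (1 / 2 + ε) < q) :
    ((2 * b).factorial * (2 * (A * T * N ^ (1 / (m : ℝ)))) ^ (b * (b - 1)) *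
      (A * T ^ ((w : ℝ) / 2)) ^ b) ^ m < q ^ (m * (b * (2 * b - 1))) * N ^ (b * (b - 1)) := by
  have hT0 : 0 < T := by linarith
  set ν : ℝ := N ^ (1 / (m : ℝ)) with hν
  have hν0 : 0 < ν := Real.rpow_pos_of_pos hN _
  have hνm : ν ^ m = N := by
    rw [hν, ← Real.rpow_natCast, ← Real.rpow_mul hN.le, one_div,
      inv_mul_cancel₀ (by exact_mod_cast (by omega : m ≠ 0)), Real.rpow_one]
  set f : ℝ := ((2 * b).factorial : ℝ) with hf
  have hf1 : 1 ≤ f := by
    rw [hf]; exact_mod_cast Nat.factorial_pos _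
  set θ : ℝ := T ^ (1 / 2 + ε) with hθ
  have hθ1 : 1 ≤ θ := Real.one_le_rpow hT (by positivity)
  obtain ⟨c, rfl⟩ : ∃ c, b = c + 1 := ⟨b - 1, by omega⟩
  have e1 : c + 1 - 1 = c := rfl
  have e2 : 2 * (c + 1) - 1 = 2 * c + 1 := by omega
  rw [e1, e2]
  set B : ℕ := c + 1 with hB
  have hmain : f * (2 * (A * T)) ^ (B * c) * (A * T ^ ((w : ℝ) / 2)) ^ B <
      q ^ (B * (2 * c + 1)) := by
    have h1 : T ^ c * T ^ ((w : ℝ) / 2) ≤ θ ^ (2 * c + 1) := by
      rw [hθ, ← Real.rpow_natCast, ← Real.rpow_natCast, ← Real.rpow_mul hT0.le,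
        ← Real.rpow_add hT0]
      refine Real.rpow_le_rpow_of_exponent_le hT ?_
      have h2 : (w : ℝ) ≤ ε * (c + 1) := by
        have := hbw
        rw [hB] at this
        push_cast at this
        exact this
      push_cast
      have hc : (0 : ℝ) ≤ c := Nat.cast_nonneg _
      nlinarith [mul_nonneg hε.le hc]
    have h3 : f * (2 * (A * T)) ^ (B * c) * (A * T ^ ((w : ℝ) / 2)) ^ B =
        f * ((2 * A) ^ (B * c) * A ^ B) * (T ^ c * T ^ ((w : ℝ) / 2)) ^ B := by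
      ring
    have h4 : f * ((2 * A) ^ (B * c) * A ^ B) ≤ (f * (2 * A)) ^ (B * (2 * c + 1)) := by
      have h5 : f ≤ f ^ (B * (2 * c + 1)) := le_self_pow₀ hf1 (by positivity)
      have h6 : (2 * A) ^ (B * c) * A ^ B ≤ (2 * A) ^ (B * (2 * c + 1)) := by
        calc (2 * A) ^ (B * c) * A ^ B ≤ (2 * A) ^ (B * c) * (2 * A) ^ B := by
              refine mul_le_mul_of_nonneg_left ?_ (by positivity)
              exact pow_le_pow_left₀ (by linarith) (by linarith) _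
          _ = (2 * A) ^ (B * c + B) := (pow_add _ _ _).symm
          _ ≤ (2 * A) ^ (B * (2 * c + 1)) := by
              refine pow_le_pow_right₀ (by linarith) ?_
              have : B * (2 * c + 1) = B * c + B + B * c := by ring
              omega
      rw [mul_pow f (2 * A)]
      exact mul_le_mul h5 h6 (by positivity) (by positivity)
    rw [h3]
    calc f * ((2 * A) ^ (B * c) * A ^ B) * (T ^ c * T ^ ((w : ℝ) / 2)) ^ B
        ≤ (f * (2 * A)) ^ (B * (2 * c + 1)) * (θ ^ (2 * c + 1)) ^ B := by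
          refine mul_le_mul h4 ?_ (by positivity) (by positivity)
          exact pow_le_pow_left₀ (by positivity) h1 _
      _ = (f * (2 * A) * θ) ^ (B * (2 * c + 1)) := by ring
      _ < q ^ (B * (2 * c + 1)) := by
          refine pow_lt_pow_left₀ hq (by positivity) (by positivity)
  have h7 : (f * (2 * (A * T * ν)) ^ (B * c) * (A * T ^ ((w : ℝ) / 2)) ^ B) ^ m =
      (f * (2 * (A * T)) ^ (B * c) * (A * T ^ ((w : ℝ) / 2)) ^ B) ^ m * (ν ^ m) ^ (B * c) := by
    ring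
  rw [h7, hνm]
  have h8 : (f * (2 * (A * T)) ^ (B * c) * (A * T ^ ((w : ℝ) / 2)) ^ B) ^ m <
      (q ^ (B * (2 * c + 1))) ^ m := by
    refine pow_lt_pow_left₀ hmain (by positivity) (by omega)
  have h9 : q ^ (m * (B * (2 * c + 1))) = (q ^ (B * (2 * c + 1))) ^ m := by
    rw [← pow_mul, mul_comm]
  rw [h9]
  exact mul_lt_mul_of_pos_right h8 (by positivity)

/-- A prime number not dividing the norm of an ideal is coprime to it. -/
theorem sq5_coprime {k : Type} [Field k] [NumberField k] (q : ℕ) (hq : q.Prime)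
    (J : Ideal (𝓞 k)) (h : ¬ q ∣ Ideal.absNorm J) : IsCoprime (Ideal.span {(q : 𝓞 k)}) J := by
  have h1 : IsCoprime (q : ℤ) (Ideal.absNorm J : ℤ) :=
    Nat.isCoprime_iff_coprime.2 ((Nat.Prime.coprime_iff_not_dvd hq).2 h)
  obtain ⟨u, v, huv⟩ := h1
  rw [Ideal.isCoprime_iff_exists]
  refine ⟨(u : 𝓞 k) * (q : 𝓞 k), ?_, (v : 𝓞 k) * (Ideal.absNorm J : 𝓞 k), ?_, ?_⟩
  · exact Ideal.mul_mem_left _ _ (Ideal.mem_span_singleton_self _)
  · exact Ideal.mul_mem_left _ _ (Ideal.absNorm_mem J)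
  · exact_mod_cast congrArg (fun x : ℤ => (x : 𝓞 k)) huv

/-- ### SQC-5 SqCount.lean : values `v * F s` that are squares, `s` in a residue class modulo an
ideal -/
theorem square_count (k : Type) [Field k] [NumberField k] (d w : ℕ) (A ε : ℝ) (hA : 1 ≤ A)
    (hε : 0 < ε) : ∃ C₀ : ℝ, 1 ≤ C₀ ∧
    ∀ (T : ℝ) (M : Ideal (𝓞 k)) (F : (𝓞 k)[X]) (v : 𝓞 k) (S : Finset (𝓞 k)),
      1 ≤ T → M ≠ ⊥ → (Ideal.absNorm M : ℝ) ≤ A * T ^ w → F.natDegree ≤ d →
      (¬ ConstSq (F.map (algebraMap (𝓞 k) k))) → v ≠ 0 →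
      (∀ s ∈ S, Bdd (A * T * (Ideal.absNorm M : ℝ) ^ (1 / (Module.finrank ℚ k : ℝ))) s) →
      (∀ s ∈ S, Bdd (A * T ^ w) (v * F.eval s)) →
      (∀ s ∈ S, F.eval s ≠ 0) → (∀ s ∈ S, ∀ s' ∈ S, s - s' ∈ M) →
      (∀ s ∈ S, IsSquare (v * F.eval s)) →
      (S.card : ℝ) ≤ C₀ * T ^ (Module.finrank ℚ k * (1 / 2 + ε) : ℝ) := by
  classical
  set m := Module.finrank ℚ k with hm
  have hm1 : 1 ≤ m := Module.finrank_pos
  set b : ℕ := ⌈(w : ℝ) / ε⌉₊ + 1 with hb
  have hb1 : 1 ≤ b := by omega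
  have hbw : (w : ℝ) ≤ ε * b := by
    have h1 : (w : ℝ) / ε ≤ ⌈(w : ℝ) / ε⌉₊ := Nat.le_ceil _
    have h2 : ((⌈(w : ℝ) / ε⌉₊ : ℕ) : ℝ) ≤ b := by
      rw [hb]; push_cast; linarith
    have h3 := h1.trans h2
    rw [div_le_iff₀ hε] at h3
    linarith
  set f : ℝ := ((2 * b).factorial : ℝ) with hf
  have hf1 : 1 ≤ f := by
    rw [hf]; exact_mod_cast Nat.factorial_pos _
  set C1 : ℝ := f * (2 * A) with hC1
  have hC1A : A ≤ C1 := by rw [hC1]; nlinarith
  have hC12 : 2 ≤ C1 := by rw [hC1]; nlinarith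
  set K1 : ℕ := (2 * w + 1) * (m + 1) with hK1
  have hK11 : 1 ≤ K1 := Nat.succ_le_of_lt (by positivity)
  refine ⟨K1 * ((2 * b + d : ℕ) * (2 ^ m * (2 ^ (K1 + 2) * C1) ^ m)), ?_, ?_⟩
  · have h1 : (1 : ℝ) ≤ K1 := by exact_mod_cast hK11
    have h2 : (1 : ℝ) ≤ ((2 * b + d : ℕ) : ℝ) := by
      have : 1 ≤ 2 * b + d := by omega
      exact_mod_cast this
    have h3 : (1 : ℝ) ≤ 2 ^ m := one_le_pow₀ (by norm_num)
    have h4 : (1 : ℝ) ≤ (2 ^ (K1 + 2) * C1) ^ m := by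
      refine one_le_pow₀ ?_
      have h5 : (1 : ℝ) ≤ 2 ^ (K1 + 2) := one_le_pow₀ (by norm_num)
      nlinarith
    exact one_le_mul_of_one_le_of_one_le h1 (one_le_mul_of_one_le_of_one_le h2
      (one_le_mul_of_one_le_of_one_le h3 h4))
  intro T M F v S hT hM hMN hdeg hF hv hY hvF hF0 hMS hsq
  have hT0 : 0 < T := by linarith
  set θ : ℝ := T ^ (1 / 2 + ε) with hθ
  have hθ1 : 1 ≤ θ := Real.one_le_rpow hT (by positivity)
  have hNM : 0 < Ideal.absNorm M :=
    Nat.pos_of_ne_zero fun h => hM (Ideal.absNorm_eq_zero_iff.mp h)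
  have hNM' : (0 : ℝ) < Ideal.absNorm M := by exact_mod_cast hNM
  obtain ⟨a, hamono, ha⟩ := sq5_primes (C1 * θ) (by nlinarith)
  choose! z hz using hsq
  have hAT : 1 ≤ A * T ^ w := one_le_mul_of_one_le_of_one_le hA (one_le_pow₀ hT)
  have hzsq : ∀ s ∈ S, z s ^ 2 = (C v * F).eval s := fun s hs => by
    rw [eval_mul, eval_C, hz s hs, sq]
  have hTw : (T ^ ((w : ℝ) / 2)) ^ 2 = T ^ w := by
    rw [← Real.rpow_natCast, ← Real.rpow_mul hT0.le, ← Real.rpow_natCast]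
    congr 1
    push_cast
    ring
  have hzB : ∀ s ∈ S, Bdd (A * T ^ ((w : ℝ) / 2)) (z s) := by
    intro s hs φ
    have h1 := hvF s hs φ
    have h2 : ‖φ ((v * F.eval s : 𝓞 k) : k)‖ = ‖φ (z s : k)‖ ^ 2 := by
      rw [hz s hs, ← norm_pow, ← map_pow, sq]
      rfl
    rw [h2] at h1
    have h3 : A * T ^ w ≤ (A * T ^ ((w : ℝ) / 2)) ^ 2 := by
      rw [mul_pow, hTw]
      exact mul_le_mul_of_nonneg_right (by nlinarith) (by positivity)
    exact le_of_sq_le_sq (h1.trans h3) (by positivity)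
  set n : 𝓞 k → ℕ := fun s => Ideal.absNorm M * Ideal.absNorm (Ideal.span {v * F.eval s}) with hn
  have hvF0 : ∀ s ∈ S, v * F.eval s ≠ 0 := fun s hs => mul_ne_zero hv (hF0 s hs)
  have hn0 : ∀ s ∈ S, 0 < n s := fun s hs => by
    refine Nat.mul_pos hNM (Nat.pos_of_ne_zero fun h => hvF0 s hs ?_)
    rw [Ideal.absNorm_eq_zero_iff, Ideal.span_singleton_eq_bot] at h
    exact h
  have hnle : ∀ s ∈ S, (n s : ℝ) ≤ (A * T ^ w) ^ (m + 1) := fun s hs => by
    have h1 : (Ideal.absNorm (Ideal.span {v * F.eval s}) : ℝ) ≤ (A * T ^ w) ^ m :=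
      mu8_norm _ _ (Ideal.mem_span_singleton_self _) (hvF0 s hs) _ (hvF s hs)
    have h2 : (n s : ℝ) = (Ideal.absNorm M : ℝ) *
        (Ideal.absNorm (Ideal.span {v * F.eval s}) : ℝ) := by
      rw [hn]; push_cast; ring
    rw [h2, pow_succ, mul_comm]
    exact mul_le_mul h1 hMN hNM'.le (by positivity)
  set Si : ℕ → Finset (𝓞 k) := fun i => S.filter (fun s => ¬ a i ∣ n s) with hSi
  have hcover : S ⊆ (Finset.range K1).biUnion Si := by
    intro s hs
    by_contra hcon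
    have h1 : ∀ i ∈ Finset.range K1, a i ∣ n s := by
      intro i hi
      by_contra h2
      exact hcon (Finset.mem_biUnion.2 ⟨i, hi, Finset.mem_filter.2 ⟨hs, h2⟩⟩)
    have h2 : ∏ i ∈ Finset.range K1, a i ∣ n s := by
      have h3 : ∏ p ∈ (Finset.range K1).image a, p ∣ n s := by
        refine Finset.prod_primes_dvd _ ?_ ?_
        · intro p hp
          obtain ⟨i, _, rfl⟩ := Finset.mem_image.1 hp
          exact (ha i).1.prime
        · intro p hp
          obtain ⟨i, hi, rfl⟩ := Finset.mem_image.1 hp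
          exact h1 i hi
      rwa [Finset.prod_image (fun x _ y _ h => hamono.injective h)] at h3
    have h3 : ((∏ i ∈ Finset.range K1, a i : ℕ) : ℝ) ≤ (A * T ^ w) ^ (m + 1) :=
      le_trans (by exact_mod_cast Nat.le_of_dvd (hn0 s hs) h2) (hnle s hs)
    have h4 : (C1 * θ) ^ K1 < ((∏ i ∈ Finset.range K1, a i : ℕ) : ℝ) := by
      have h5 : (C1 * θ) ^ K1 = ∏ _i ∈ Finset.range K1, (C1 * θ) := by
        rw [Finset.prod_const, Finset.card_range]
      rw [h5, Nat.cast_prod]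
      refine Finset.prod_lt_prod_of_nonempty (fun i _ => by positivity) (fun i _ => (ha i).2.1)
        ⟨0, Finset.mem_range.2 hK11⟩
    have h5 : (A * T ^ w) ^ (m + 1) ≤ (C1 * θ) ^ K1 := by
      rw [hK1, pow_mul]
      refine pow_le_pow_left₀ (by positivity) ?_ _
      rw [mul_pow]
      have h6 : A ≤ C1 ^ (2 * w + 1) :=
        hC1A.trans (le_self_pow₀ (by linarith) (by omega))
      have h7 : T ^ w ≤ θ ^ (2 * w + 1) := by
        rw [hθ, ← Real.rpow_natCast, ← Real.rpow_natCast, ← Real.rpow_mul hT0.le]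
        refine Real.rpow_le_rpow_of_exponent_le hT ?_
        push_cast
        have hw0 : (0 : ℝ) ≤ w := Nat.cast_nonneg _
        nlinarith [mul_nonneg hε.le hw0]
      exact mul_le_mul h6 h7 (by positivity) (by positivity)
    linarith
  have hcard : ∀ i, (Si i).card ≤ (2 * b + d) * (2 ^ m * (a i) ^ m) := by
    intro i
    rcases (Si i).eq_empty_or_nonempty with h0 | ⟨s0, hs0⟩
    · rw [h0, Finset.card_empty]; exact Nat.zero_le _
    have hS : ∀ s ∈ Si i, s ∈ S := fun s hs => (Finset.mem_filter.1 hs).1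
    have hnd : ∀ s ∈ Si i, ¬ a i ∣ n s := fun s hs => (Finset.mem_filter.1 hs).2
    have hqM : IsCoprime (Ideal.span {(a i : 𝓞 k)}) M :=
      sq5_coprime (a i) (ha i).1 M fun h => hnd s0 hs0 (h.mul_right _)
    have ha2 : a i ≠ 2 := by
      intro h
      have h1 := (ha i).2.1
      rw [h] at h1
      push_cast at h1
      nlinarith
    refine sq5_one k d b hb1 (C v * F) ((natDegree_C_mul_le v F).trans hdeg)
      (sq5_nonsq F v hv hF) (a i) (ha i).1 ha2 M hM hqM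
      (A * T * (Ideal.absNorm M : ℝ) ^ (1 / (m : ℝ))) (A * T ^ ((w : ℝ) / 2)) (by positivity)
      (by positivity) (sq5_ineq m b w hm1 hb1 A ε T _ _ hA hε hT hNM' hbw (ha i).2.1) (Si i) z
      (fun c hc c' hc' => hMS c (hS c hc) c' (hS c' hc')) ?_
    intro c hc
    refine ⟨hY c (hS c hc), ?_, hzsq c (hS c hc), hzB c (hS c hc)⟩
    refine sq5_coprime (a i) (ha i).1 _ fun h => hnd c hc ?_
    have h1 : Ideal.absNorm (Ideal.span {v * F.eval c}) =
        Ideal.absNorm (Ideal.span {z c}) * Ideal.absNorm (Ideal.span {z c}) := by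
      rw [hz c (hS c hc), ← Ideal.span_singleton_mul_span_singleton, map_mul]
    rw [hn]
    change a i ∣ Ideal.absNorm M * Ideal.absNorm (Ideal.span {v * F.eval c})
    rw [h1]
    exact (h.mul_right _).mul_left _
  have hθm : θ ^ m = T ^ ((m : ℝ) * (1 / 2 + ε)) := by
    rw [hθ, ← Real.rpow_natCast, ← Real.rpow_mul hT0.le, mul_comm]
  have h1 : (S.card : ℝ) ≤ ∑ i ∈ Finset.range K1, ((Si i).card : ℝ) := by
    have h2 : S.card ≤ ∑ i ∈ Finset.range K1, (Si i).card :=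
      (Finset.card_le_card hcover).trans Finset.card_biUnion_le
    exact_mod_cast h2
  have h2 : ∀ i ∈ Finset.range K1, ((Si i).card : ℝ) ≤
      (2 * b + d : ℕ) * (2 ^ m * (2 ^ (K1 + 2) * (C1 * θ)) ^ m) := by
    intro i hi
    have h3 : ((Si i).card : ℝ) ≤ (2 * b + d : ℕ) * (2 ^ m * (a i : ℝ) ^ m) := by
      exact_mod_cast hcard i
    refine h3.trans ?_
    refine mul_le_mul_of_nonneg_left ?_ (by positivity)
    refine mul_le_mul_of_nonneg_left ?_ (by positivity)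
    refine pow_le_pow_left₀ (by positivity) ?_ _
    refine (ha i).2.2.trans ?_
    refine mul_le_mul_of_nonneg_right ?_ (by positivity)
    exact pow_le_pow_right₀ (by norm_num) (by have := Finset.mem_range.1 hi; omega)
  calc (S.card : ℝ) ≤ ∑ i ∈ Finset.range K1, ((Si i).card : ℝ) := h1
    _ ≤ ∑ _i ∈ Finset.range K1, ((2 * b + d : ℕ) * (2 ^ m * (2 ^ (K1 + 2) * (C1 * θ)) ^ m) : ℝ) :=
        Finset.sum_le_sum h2
    _ = K1 * ((2 * b + d : ℕ) * (2 ^ m * (2 ^ (K1 + 2) * C1) ^ m)) * θ ^ m := by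
        rw [Finset.sum_const, Finset.card_range, nsmul_eq_mul]
        ring
    _ = _ := by rw [hθm]

end Pool.Agent.H67.MU
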