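import Pool.Agent.H67.MU.AdmGen
import Pool.Agent.H67.MU.DiscPoly
import Pool.Agent.H67.MU.Selmer
import Pool.Agent.H67.MU.SqCount

/-!
# Project MU part 2 (MP_a3214d), row MU-27: good vectors
-/

set_option autoImplicit false

open Polynomial IsDedekindDomain NumberField UniqueFactorizationMonoid

namespace Pool.Agent.H67.MU

theorem mu27_prod (n : ℕ) (hn : 2 ≤ n) (N' : ℝ) (g : ℕ → ℝ) :
    ∏ j : Fin n, (if j ∈ ({⟨n - 1, by omega⟩} : Finset (Fin n)) then N' else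
      if (j : ℕ) = 0 then 1 else g j) = N' * ∏ j ∈ Finset.Ico 1 (n - 1), g j := by
  have h1 : ∏ j : Fin n, (if j ∈ ({⟨n - 1, by omega⟩} : Finset (Fin n)) then N' else
      if (j : ℕ) = 0 then 1 else g j) =
      ∏ j : Fin n, (fun i : ℕ => if i = n - 1 then N' else if i = 0 then 1 else g i) j := by
    refine Finset.prod_congr rfl fun j _ => ?_
    simp only [Finset.mem_singleton, Fin.ext_iff]
  rw [h1, Fin.prod_univ_eq_prod_range (fun i : ℕ => if i = n - 1 then N' else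
    if i = 0 then 1 else g i) n]
  obtain ⟨m, rfl⟩ : ∃ m, n = m + 2 := ⟨n - 2, by omega⟩
  rw [Finset.prod_range_succ]
  have h2 : m + 2 - 1 = m + 1 := rfl
  rw [h2, if_pos rfl, mul_comm, Finset.range_eq_Ico,
    Finset.prod_eq_prod_Ico_succ_bot (by omega : 0 < m + 1)]
  rw [if_neg (by omega), if_pos rfl, one_mul]
  congr 1
  refine Finset.prod_congr rfl fun i hi => ?_
  rw [Finset.mem_Ico] at hi
  rw [if_neg (by omega), if_neg (by omega)]

theorem mu27_sum (n : ℕ) (hn : 1 ≤ n) :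
    ∑ j ∈ Finset.Ico 1 n, ((j : ℝ) + 1) = ((n : ℝ) + 2) * ((n : ℝ) - 1) / 2 := by
  induction n, hn using Nat.le_induction with
  | base => simp
  | succ n hn ih =>
    rw [Finset.sum_Ico_succ_top hn, ih]
    push_cast
    ring

theorem mu27_alg (n : ℕ) (hn : 2 ≤ n) (x W : ℝ) (hx : 1 ≤ x) (μ : ℕ → ℝ)
    (hμ : ∀ j, 0 < μ j) (h : x ≤ W * ∏ j ∈ Finset.Ico 1 n, μ j) :
    ∏ j ∈ Finset.Ico 1 (n - 1), (x ^ (((j : ℝ) + 1) / (2 * ((n : ℝ) - 1))) / μ j) ≤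
      W * x ^ (((n : ℝ) - 2) / 4) / (x ^ ((n : ℝ) / (2 * ((n : ℝ) - 1))) / μ (n - 1)) := by
  have hx0 : 0 < x := by linarith
  have hn1 : (0 : ℝ) < (n : ℝ) - 1 := by
    have : (2 : ℝ) ≤ n := by exact_mod_cast hn
    linarith
  have hY : 0 < x ^ ((n : ℝ) / (2 * ((n : ℝ) - 1))) / μ (n - 1) :=
    div_pos (Real.rpow_pos_of_pos hx0 _) (hμ _)
  rw [le_div_iff₀ hY]
  have h1 : (∏ j ∈ Finset.Ico 1 (n - 1), (x ^ (((j : ℝ) + 1) / (2 * ((n : ℝ) - 1))) / μ j)) *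
      (x ^ ((n : ℝ) / (2 * ((n : ℝ) - 1))) / μ (n - 1)) =
      ∏ j ∈ Finset.Ico 1 n, (x ^ (((j : ℝ) + 1) / (2 * ((n : ℝ) - 1))) / μ j) := by
    obtain ⟨m, rfl⟩ : ∃ m, n = m + 2 := ⟨n - 2, by omega⟩
    have h2 : m + 2 - 1 = m + 1 := rfl
    rw [h2, Finset.prod_Ico_succ_top (by omega : 1 ≤ m + 1)]
    congr 3
    push_cast
    ring
  rw [h1, Finset.prod_div_distrib, ← Real.rpow_sum_of_pos hx0]
  have h3 : ∑ j ∈ Finset.Ico 1 n, ((j : ℝ) + 1) / (2 * ((n : ℝ) - 1)) = ((n : ℝ) - 2) / 4 + 1 := by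
    rw [← Finset.sum_div, mu27_sum n (by omega)]
    field_simp
    ring
  rw [h3, Real.rpow_add hx0, Real.rpow_one]
  have hP : 0 < ∏ j ∈ Finset.Ico 1 n, μ j := Finset.prod_pos fun j _ => hμ j
  rw [div_le_iff₀ hP]
  calc x ^ (((n : ℝ) - 2) / 4) * x
      ≤ x ^ (((n : ℝ) - 2) / 4) * (W * ∏ j ∈ Finset.Ico 1 n, μ j) :=
        mul_le_mul_of_nonneg_left h (Real.rpow_nonneg hx0.le _)
    _ = _ := by ring

theorem mu27_natDegree {k : Type} [Field k] [NumberField k] {n : ℕ} (hn : 2 ≤ n)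
    (a : Fin n → 𝓞 k) : (discPoly a).natDegree ≤ n - 1 := by
  have h1 := discPoly_map (algebraMap (𝓞 k) k) a
  have h2 : ((discPoly a).map (algebraMap (𝓞 k) k)).natDegree = (discPoly a).natDegree :=
    Polynomial.natDegree_map_eq_of_injective (FaithfulSMul.algebraMap_injective (𝓞 k) k) _
  rw [← h2, ← h1, natDegree_discPoly hn (by
    have : (n : ℕ) ≠ 0 := by omega
    exact_mod_cast this)]

theorem mu27_noLast {R : Type*} [CommRing R] {n : ℕ} (hn : 2 ≤ n) {a b : Fin n → R}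
    (h : ∀ i : Fin n, i < ⟨n - 1, by omega⟩ → b i = a i) : noLast b = noLast a := by
  funext j
  unfold noLast
  by_cases hj : (j : ℕ) + 1 = n
  · rw [if_pos hj, if_pos hj]
  · rw [if_neg hj, if_neg hj]
    apply h
    rw [Fin.lt_def]
    simp only
    omega

theorem mu27_class (k : Type) [Field k] [NumberField k] (n N E : ℕ) (hn : 4 ≤ n)
    (c : ℝ) (hc : 1 ≤ c) (ε : ℝ) (hε : 0 < ε) :
    ∃ C : ℝ, 0 < C ∧ ∀ Δ : Ideal (𝓞 k), Δ ≠ ⊥ → Expo k n N E 2 Δ →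
      ∀ X : Finset (Fin n → 𝓞 k), (∀ a ∈ X, a ∈ adm2 k n N c Δ ∧
        ¬ ConstSq ((discPoly (noLast a)).map (algebraMap (𝓞 k) k))) →
      (∀ a ∈ X, ∀ b ∈ X, IsSquare (discOf a * discOf b)) → ∀ a ∈ X,
        (Set.ncard {y : 𝓞 k | ∃ b ∈ X, b ⟨n - 1, by omega⟩ = y ∧
          (∀ i : Fin n, i < ⟨n - 1, by omega⟩ → b i = a i) ∧
          y - a ⟨n - 1, by omega⟩ ∈ modul k n N Δ (n - 1)} : ℝ) ≤
        C * (Ideal.absNorm Δ : ℝ) ^ ε * ((Ideal.absNorm Δ : ℝ) ^ ((n : ℝ) / (2 * ((n : ℝ) - 1))) /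
          (Ideal.absNorm (modul k n N Δ (n - 1)) : ℝ)) ^ (1 / 2 : ℝ) := by
  classical
  obtain ⟨e, A', hA', hbd⟩ := discOf_bdd k n
  set m := Module.finrank ℚ k with hm
  have hm1 : 1 ≤ m := Module.finrank_pos
  have hm0 : (0 : ℝ) < m := by exact_mod_cast hm1
  have hn4 : (4 : ℝ) ≤ n := by exact_mod_cast hn
  set A : ℝ := A' ^ 2 * c ^ (2 * e) with hA
  have hA1 : 1 ≤ A := by
    rw [hA]; exact one_le_mul_of_one_le_of_one_le (one_le_pow₀ hA') (one_le_pow₀ hc)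
  obtain ⟨C₀, hC₀, hsq⟩ := square_count k (n - 1) (m * (n - 1) + 2 * n * e) A ε hA1 hε
  refine ⟨C₀ * c ^ (m * (1 / 2 + ε) : ℝ), by positivity, ?_⟩
  intro Δ hΔ hexp X hX hXsq a ha
  set x : ℝ := (Ideal.absNorm Δ : ℝ) with hx
  have hx1 : 1 ≤ x := by
    have h1 : 0 < Ideal.absNorm Δ :=
      Nat.pos_of_ne_zero fun h => hΔ (Ideal.absNorm_eq_zero_iff.mp h)
    rw [hx]; exact_mod_cast h1
  have hx0 : 0 < x := by linarith
  set M := modul k n N Δ (n - 1) with hM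
  have hMb : M ≠ ⊥ := modul_ne_bot k n N Δ (n - 1)
  set μ : ℝ := (Ideal.absNorm M : ℝ) with hμ
  have hμ1 : 1 ≤ μ := by
    have h1 : 0 < Ideal.absNorm M :=
      Nat.pos_of_ne_zero fun h => hMb (Ideal.absNorm_eq_zero_iff.mp h)
    rw [hμ]; exact_mod_cast h1
  have hμ0 : 0 < μ := by linarith
  -- the size parameter
  set H : ℝ := x ^ (1 / (2 * m * (n - 1)) : ℝ) with hH
  have hH1 : 1 ≤ H := Real.one_le_rpow hx1 (by
    have : (0 : ℝ) < n - 1 := by linarith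
    positivity)
  have hH0 : 0 < H := by linarith
  have hHpow : ∀ t : ℕ, H ^ (m * t) = x ^ ((t : ℝ) / (2 * ((n : ℝ) - 1))) := by
    intro t
    rw [hH, ← Real.rpow_natCast, ← Real.rpow_mul hx0.le]
    congr 1
    have h1 : ((n : ℝ) - 1) ≠ 0 := by linarith
    push_cast
    field_simp
  set μm : ℝ := μ ^ (1 / (m : ℝ)) with hμm
  have hμm0 : 0 < μm := Real.rpow_pos_of_pos hμ0 _
  have hμmpow : μm ^ m = μ := by
    rw [hμm, ← Real.rpow_natCast, ← Real.rpow_mul hμ0.le, one_div_mul_cancel hm0.ne',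
      Real.rpow_one]
  -- μ ≤ H ^ (m (n-1))
  have hμle : μ ≤ H ^ (m * (n - 1)) := by
    have h1 := absNorm_modul_pow_le k n N E 2 (by omega) Δ hΔ hexp
    have h2 : μ ^ 2 ≤ x := by rw [hμ, hx, hM]; exact_mod_cast h1
    have h4 : H ^ (m * (n - 1)) = x ^ (1 / 2 : ℝ) := by
      rw [hHpow]
      congr 1
      rw [Nat.cast_sub (by omega : 1 ≤ n)]
      have h1 : ((n : ℝ) - 1) ≠ 0 := by linarith
      push_cast
      field_simp
    rw [h4]
    have h5 : μ ≤ x ^ (1 / 2 : ℝ) := by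
      have := Real.rpow_le_rpow (by positivity) h2 (by norm_num : (0 : ℝ) ≤ 1 / 2)
      rw [← Real.rpow_natCast, ← Real.rpow_mul hμ0.le] at this
      norm_num at this
      simpa using this
    exact h5
  have hμmle : μm ≤ H ^ (n - 1) := by
    have h1 : μm ^ m ≤ (H ^ (n - 1)) ^ m := by
      rw [hμmpow, ← pow_mul, mul_comm (n - 1) m]; exact hμle
    exact le_of_pow_le_pow_left₀ (by omega) (by positivity) h1
  set T : ℝ := c * H ^ n / μm with hT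
  have hTH : H ≤ T := by
    rw [hT, le_div_iff₀ hμm0]
    have h1 : H ^ n = H * H ^ (n - 1) := by
      rw [← pow_succ']
      congr 1
      omega
    calc H * μm ≤ H * H ^ (n - 1) := mul_le_mul_of_nonneg_left hμmle hH0.le
      _ = H ^ n := h1.symm
      _ ≤ c * H ^ n := by nlinarith [pow_pos hH0 n]
  have hT1 : 1 ≤ T := hH1.trans hTH
  have hT0 : 0 < T := by linarith
  set Y : ℝ := x ^ ((n : ℝ) / (2 * ((n : ℝ) - 1))) / μ with hY
  have hY0 : 0 < Y := div_pos (Real.rpow_pos_of_pos hx0 _) hμ0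
  have hTm : T ^ m = c ^ m * Y := by
    rw [hT, div_pow, mul_pow, hμmpow, ← pow_mul, mul_comm n m, hHpow n, hY]
    ring
  have hY1 : 1 ≤ Y := by
    rw [hY, le_div_iff₀ hμ0, one_mul, hμ, hx, hM]
    have h1 := absNorm_modul_le k n N E (by omega) Δ hΔ hexp (n - 1) (by omega) (by omega)
    have h2 : (((n - 1 : ℕ) : ℝ) + 1) = n := by
      rw [Nat.cast_sub (by omega : 1 ≤ n)]; push_cast; ring
    rwa [h2] at h1
  have hYx : Y ≤ x := by
    rw [hY, div_le_iff₀ hμ0]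
    have h1 : x ^ ((n : ℝ) / (2 * ((n : ℝ) - 1))) ≤ x ^ (1 : ℝ) := by
      apply Real.rpow_le_rpow_of_exponent_le hx1
      rw [div_le_one (by linarith)]
      linarith
    rw [Real.rpow_one] at h1
    nlinarith
  -- the size of the coordinates
  have hcoord : ∀ b ∈ X, ∀ j : Fin n, Bdd (c * H ^ n) (b j) := by
    intro b hb j φ
    have h1 := (hX b hb).1.1.2.1 j φ
    refine h1.trans ?_
    apply mul_le_mul_of_nonneg_left _ (by linarith)
    exact pow_le_pow_right₀ hH1 (by omega)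
  have hcH : 1 ≤ c * H ^ n := one_le_mul_of_one_le_of_one_le hc (one_le_pow₀ hH1)
  have hdisc : ∀ b ∈ X, Bdd (A' * (c * H ^ n) ^ e) (discOf b) := fun b hb =>
    hbd _ b hcH (hcoord b hb)
  -- the finite set
  set S : Finset (𝓞 k) := (X.filter fun b => (∀ i : Fin n, i < ⟨n - 1, by omega⟩ → b i = a i) ∧
    b ⟨n - 1, by omega⟩ - a ⟨n - 1, by omega⟩ ∈ M).image fun b => b ⟨n - 1, by omega⟩ with hS
  have hSet : {y : 𝓞 k | ∃ b ∈ X, b ⟨n - 1, by omega⟩ = y ∧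
      (∀ i : Fin n, i < ⟨n - 1, by omega⟩ → b i = a i) ∧
      y - a ⟨n - 1, by omega⟩ ∈ M} = (S : Set (𝓞 k)) := by
    ext y
    simp only [Set.mem_ofPred_eq, hS, Finset.coe_image, Set.mem_image, Finset.coe_filter]
    constructor
    · rintro ⟨b, hb, rfl, h1, h2⟩
      exact ⟨b, ⟨hb, h1, h2⟩, rfl⟩
    · rintro ⟨b, ⟨hb, h1, h2⟩, rfl⟩
      exact ⟨b, hb, rfl, h1, h2⟩
  rw [hSet, Set.ncard_coe_finset]
  have hmemS : ∀ s ∈ S, ∃ b ∈ X, b ⟨n - 1, by omega⟩ = s ∧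
      (∀ i : Fin n, i < ⟨n - 1, by omega⟩ → b i = a i) ∧ s - a ⟨n - 1, by omega⟩ ∈ M := by
    intro s hs
    have : s ∈ (S : Set (𝓞 k)) := hs
    rw [← hSet] at this
    exact this
  have heval : ∀ b ∈ X, (∀ i : Fin n, i < ⟨n - 1, by omega⟩ → b i = a i) →
      (discPoly (noLast a)).eval (b ⟨n - 1, by omega⟩) = discOf b := by
    intro b _ h
    rw [← mu27_noLast (by omega) h]
    exact discPoly_noLast_eval (by omega) b
  have hw : H ^ (2 * n * e) ≤ T ^ (m * (n - 1) + 2 * n * e) := by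
    calc H ^ (2 * n * e) ≤ T ^ (2 * n * e) := pow_le_pow_left₀ hH0.le hTH _
      _ ≤ _ := pow_le_pow_right₀ hT1 (by omega)
  have key := hsq T M (discPoly (noLast a)) (discOf a) S hT1 hMb ?_
    (mu27_natDegree (by omega) _) (hX a ha).2 (hX a ha).1.2.1 ?_ ?_ ?_ ?_ ?_
  · refine key.trans ?_
    have hpow : T ^ (m * (1 / 2 + ε) : ℝ) = c ^ (m * (1 / 2 + ε) : ℝ) * Y ^ (1 / 2 + ε : ℝ) := by
      rw [Real.rpow_mul hT0.le, Real.rpow_natCast, hTm,
        Real.mul_rpow (by positivity) hY0.le, ← Real.rpow_natCast, ← Real.rpow_mul (by linarith)]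
    rw [hpow, Real.rpow_add hY0]
    have h1 : Y ^ ε ≤ x ^ ε := Real.rpow_le_rpow hY0.le hYx hε.le
    have h2 : 0 ≤ C₀ * c ^ (m * (1 / 2 + ε) : ℝ) * Y ^ (1 / 2 : ℝ) := by positivity
    calc C₀ * (c ^ (m * (1 / 2 + ε) : ℝ) * (Y ^ (1 / 2 : ℝ) * Y ^ ε))
        = C₀ * c ^ (m * (1 / 2 + ε) : ℝ) * Y ^ (1 / 2 : ℝ) * Y ^ ε := by ring
      _ ≤ C₀ * c ^ (m * (1 / 2 + ε) : ℝ) * Y ^ (1 / 2 : ℝ) * x ^ ε :=
        mul_le_mul_of_nonneg_left h1 h2
      _ = _ := by ring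
  · -- the norm of M
    calc (Ideal.absNorm M : ℝ) = μ := rfl
      _ ≤ H ^ (m * (n - 1)) := hμle
      _ ≤ T ^ (m * (n - 1)) := pow_le_pow_left₀ hH0.le hTH _
      _ ≤ T ^ (m * (n - 1) + 2 * n * e) := pow_le_pow_right₀ hT1 (by omega)
      _ ≤ A * T ^ (m * (n - 1) + 2 * n * e) := by
        nlinarith [pow_pos hT0 (m * (n - 1) + 2 * n * e)]
  · -- sizes of the elements
    intro s hs φ
    obtain ⟨b, hb, rfl, -, -⟩ := hmemS s hs
    refine (hcoord b hb _ φ).trans ?_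
    have h1 : T * μm = c * H ^ n := by rw [hT]; field_simp
    calc c * H ^ n = T * μm := h1.symm
      _ ≤ A * (T * μm) := by nlinarith [mul_pos hT0 hμm0]
      _ = _ := by rw [hμm]; ring
  · -- sizes of the values
    intro s hs φ
    obtain ⟨b, hb, rfl, h1, -⟩ := hmemS s hs
    rw [heval b hb h1]
    have h2 := hdisc a ha φ
    have h3 := hdisc b hb φ
    have h4 : ‖φ ((discOf a * discOf b : 𝓞 k) : k)‖ ≤
        (A' * (c * H ^ n) ^ e) * (A' * (c * H ^ n) ^ e) := by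
      have h5 : φ ((discOf a * discOf b : 𝓞 k) : k) =
          φ ((discOf a : 𝓞 k) : k) * φ ((discOf b : 𝓞 k) : k) := by
        rw [← map_mul]; rfl
      rw [h5, norm_mul]
      exact mul_le_mul h2 h3 (norm_nonneg _) (by positivity)
    refine h4.trans ?_
    calc (A' * (c * H ^ n) ^ e) * (A' * (c * H ^ n) ^ e) = A * H ^ (2 * n * e) := by
          rw [hA, mul_pow, ← pow_mul]; ring
      _ ≤ _ := mul_le_mul_of_nonneg_left hw (by linarith)
  · intro s hs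
    obtain ⟨b, hb, rfl, h1, -⟩ := hmemS s hs
    rw [heval b hb h1]
    exact (hX b hb).1.2.1
  · intro s hs s' hs'
    obtain ⟨b, hb, rfl, -, h1⟩ := hmemS s hs
    obtain ⟨b', hb', rfl, -, h1'⟩ := hmemS s' hs'
    have := M.sub_mem h1 h1'
    simpa using this
  · intro s hs
    obtain ⟨b, hb, rfl, h1, -⟩ := hmemS s hs
    rw [heval b hb h1]
    exact hXsq a ha b hb

/-- the count of the admissible vectors whose prefix is good -/
theorem good_count (k : Type) [Field k] [NumberField k] (n N C0 E : ℕ) (hn : 4 ≤ n) (hN : 0 < N)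
    (c : ℝ) (hc : 1 ≤ c) (htail : TailBound n N C0) (ε : ℝ) (hε : 0 < ε) :
    ∃ C : ℝ, 0 < C ∧ ∀ Δ : Ideal (𝓞 k), Δ ≠ ⊥ → Expo k n N E 2 Δ →
      ((Set.ncard {a ∈ adm2 k n N c Δ | ¬ ConstSq
        ((discPoly (noLast a)).map (algebraMap (𝓞 k) k))} : ℕ) : ℝ) ≤
        C * (Ideal.absNorm Δ : ℝ) ^ (((n : ℝ) ^ 2 - 4 * n + 2) / (4 * (n - 1)) + ε) *
          (Ideal.absNorm (modul k n N Δ (n - 1)) : ℝ) ^ (1 / 2 : ℝ) := by
  classical
  have hn4 : (4 : ℝ) ≤ n := by exact_mod_cast hn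
  obtain ⟨C1, hC1, hκ⟩ := exists_sq_classes k
  obtain ⟨C2, hC2, hpr⟩ := pow_primeDivs_le k 2 (ε / 3) (by positivity)
  obtain ⟨C3, hC3, hgen⟩ := adm_gen k n N C0 E (by omega) hN c (by linarith) htail (ε / 3)
    (by positivity)
  obtain ⟨C4, hC4, hcl⟩ := mu27_class k n N E hn c hc (ε / 3) (by positivity)
  obtain ⟨W, hW, hWp⟩ := le_prod_absNorm_modul k n N E (by omega) hN
  refine ⟨C1 * C2 * (C3 * C4 * W), by positivity, ?_⟩
  intro Δ hΔ hexp
  obtain ⟨K, hK, κ, hκ⟩ : ∃ K : ℕ, K = C1 * 2 ^ (primeDivs k Δ).card ∧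
      ∃ κ : 𝓞 k → Fin K, ∀ z z' : 𝓞 k, z ≠ 0 → z' ≠ 0 →
        (∀ p : Ideal (𝓞 k), p.IsPrime → p ≠ ⊥ → vexp p Δ = 0 →
          Even (vexp p (Ideal.span {z})) ∧ Even (vexp p (Ideal.span {z'}))) →
        κ z = κ z' → IsSquare (z * z') := ⟨_, rfl, hκ Δ hΔ⟩
  set x : ℝ := (Ideal.absNorm Δ : ℝ) with hx
  have hx1 : 1 ≤ x := by
    have h1 : 0 < Ideal.absNorm Δ :=
      Nat.pos_of_ne_zero fun h => hΔ (Ideal.absNorm_eq_zero_iff.mp h)
    rw [hx]; exact_mod_cast h1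
  have hx0 : 0 < x := by linarith
  have hμpos : ∀ j, 0 < (Ideal.absNorm (modul k n N Δ j) : ℝ) := by
    intro j
    have h1 : 0 < Ideal.absNorm (modul k n N Δ j) :=
      Nat.pos_of_ne_zero fun h => modul_ne_bot k n N Δ j (Ideal.absNorm_eq_zero_iff.mp h)
    exact_mod_cast h1
  set μ : ℝ := (Ideal.absNorm (modul k n N Δ (n - 1)) : ℝ) with hμ
  have hμ0 : 0 < μ := hμpos _
  set Y : ℝ := x ^ ((n : ℝ) / (2 * ((n : ℝ) - 1))) / μ with hY
  have hY0 : 0 < Y := div_pos (Real.rpow_pos_of_pos hx0 _) hμ0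
  -- the finite set
  have hfin : {a ∈ adm2 k n N c Δ | ¬ ConstSq
      ((discPoly (noLast a)).map (algebraMap (𝓞 k) k))}.Finite :=
    (adm_finite k n N c Δ).subset fun a ha => ha.1.1
  rw [Set.ncard_eq_toFinset_card _ hfin]
  set X : Finset (Fin n → 𝓞 k) := hfin.toFinset with hX
  have hXm : ∀ a ∈ X, a ∈ adm2 k n N c Δ ∧
      ¬ ConstSq ((discPoly (noLast a)).map (algebraMap (𝓞 k) k)) := by
    intro a ha
    rw [hX, Set.Finite.mem_toFinset] at ha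
    exact ha
  set B : ℝ := C3 * x ^ (ε / 3) * ((C4 * x ^ (ε / 3) * Y ^ (1 / 2 : ℝ)) *
    (W * x ^ (((n : ℝ) - 2) / 4) / Y)) with hB
  have hclass : ∀ t : Fin K, ((X.filter fun a => κ (discOf a) = t).card : ℝ) ≤ B := by
    intro t
    set Xt := X.filter fun a => κ (discOf a) = t with hXt
    have hXtm : ∀ a ∈ Xt, a ∈ adm2 k n N c Δ ∧
        ¬ ConstSq ((discPoly (noLast a)).map (algebraMap (𝓞 k) k)) := fun a ha =>
      hXm a (Finset.mem_filter.mp ha).1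
    have hsq : ∀ a ∈ Xt, ∀ b ∈ Xt, IsSquare (discOf a * discOf b) := by
      intro a ha b hb
      refine hκ _ _ (hXtm a ha).1.2.1 (hXtm b hb).1.2.1 (fun p hp hp0 hv =>
        ⟨(hXtm a ha).1.2.2 p hp hp0 hv, (hXtm b hb).1.2.2 p hp hp0 hv⟩) ?_
      rw [(Finset.mem_filter.mp ha).2, (Finset.mem_filter.mp hb).2]
    have h1 := hgen Δ hΔ hexp Xt (fun a ha => (hXtm a ha).1.1) {⟨n - 1, by omega⟩}
      (fun _ => C4 * x ^ (ε / 3) * Y ^ (1 / 2 : ℝ)) (fun j _ => by positivity) (by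
        intro j hj a ha
        rw [Finset.mem_singleton] at hj
        subst hj
        exact hcl Δ hΔ hexp Xt hXtm hsq a ha)
    rw [mu27_prod n (by omega) _ (fun j => x ^ (((j : ℝ) + 1) / (2 * ((n : ℝ) - 1))) /
      (Ideal.absNorm (modul k n N Δ j) : ℝ))] at h1
    refine h1.trans ?_
    rw [hB]
    apply mul_le_mul_of_nonneg_left _ (by positivity)
    apply mul_le_mul_of_nonneg_left _ (by positivity)
    exact mu27_alg n (by omega) x W hx1 (fun j => (Ideal.absNorm (modul k n N Δ j) : ℝ)) hμpos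
      (hWp Δ hΔ hexp)
  have hcard : (X.card : ℝ) ≤ K * B := by
    have h1 : X.card = ∑ t : Fin K, (X.filter fun a => κ (discOf a) = t).card :=
      Finset.card_eq_sum_card_fiberwise (fun a _ => Finset.mem_coe.mpr (Finset.mem_univ _))
    rw [h1]
    push_cast
    calc ∑ t : Fin K, ((X.filter fun a => κ (discOf a) = t).card : ℝ)
        ≤ ∑ _t : Fin K, B := Finset.sum_le_sum fun t _ => hclass t
      _ = K * B := by simp
  refine hcard.trans ?_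
  have hKle : (K : ℝ) ≤ C1 * (C2 * x ^ (ε / 3)) := by
    rw [hK]
    push_cast
    apply mul_le_mul_of_nonneg_left _ (by positivity)
    exact_mod_cast hpr Δ hΔ
  have hB0 : 0 ≤ B := by positivity
  refine (mul_le_mul_of_nonneg_right hKle hB0).trans ?_
  have hYhalf : Y ^ (1 / 2 : ℝ) / Y = μ ^ (1 / 2 : ℝ) * x ^ (-((n : ℝ) / (4 * ((n : ℝ) - 1)))) := by
    have h1 : Y ^ (1 / 2 : ℝ) / Y = Y ^ (-(1 / 2) : ℝ) := by
      rw [div_eq_iff hY0.ne', ← Real.rpow_add_one hY0.ne']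
      norm_num
    rw [h1, hY, Real.div_rpow (by positivity) hμ0.le, ← Real.rpow_mul hx0.le, Real.rpow_neg hμ0.le,
      div_inv_eq_mul, mul_comm]
    congr 2
    have : ((n : ℝ) - 1) ≠ 0 := by linarith
    field_simp
    ring
  have hexpo : x ^ (((n : ℝ) ^ 2 - 4 * n + 2) / (4 * (n - 1)) + ε) =
      x ^ (ε / 3) * x ^ (ε / 3) * x ^ (ε / 3) * x ^ (((n : ℝ) - 2) / 4) *
        x ^ (-((n : ℝ) / (4 * ((n : ℝ) - 1)))) := by
    rw [← Real.rpow_add hx0, ← Real.rpow_add hx0, ← Real.rpow_add hx0, ← Real.rpow_add hx0]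
    congr 1
    have : ((n : ℝ) - 1) ≠ 0 := by linarith
    field_simp
    ring
  rw [hexpo, hB]
  apply le_of_eq
  calc C1 * (C2 * x ^ (ε / 3)) * (C3 * x ^ (ε / 3) * ((C4 * x ^ (ε / 3) * Y ^ (1 / 2 : ℝ)) *
        (W * x ^ (((n : ℝ) - 2) / 4) / Y)))
      = C1 * C2 * (C3 * C4 * W) * (x ^ (ε / 3) * x ^ (ε / 3) * x ^ (ε / 3) *
          x ^ (((n : ℝ) - 2) / 4)) * (Y ^ (1 / 2 : ℝ) / Y) := by ring
    _ = _ := by rw [hYhalf]; ring

end Pool.Agent.H67.MU
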