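import Pool.Agent.H67.MU.Vector
import Pool.Agent.H67.MU.Full
import Pool.Agent.H67.MU.Even
import Pool.Agent.H67.MU.AdmGen
import Pool.Agent.H67.MU.Modul
import Pool.Agent.H67.MU.Good
import Pool.Agent.H67.MU.BadVec

set_option autoImplicit false

open Polynomial IsDedekindDomain NumberField UniqueFactorizationMonoid

namespace Pool.Agent.H67.MU

theorem adm2_count (k : Type) [Field k] [NumberField k] (n N C0 E r : ℕ) (hn : 4 ≤ n)
    (hN : 0 < N) (hr : 2 ≤ r) (c : ℝ) (hc : 1 ≤ c) (htail : TailBound n N C0) (ε : ℝ)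
    (hε : 0 < ε) :
    ∃ C : ℝ, 0 < C ∧ ∀ Δ : Ideal (𝓞 k), Δ ≠ ⊥ → Expo k n N E r Δ →
      (adm2 k n N c Δ).Finite ∧ ((adm2 k n N c Δ).ncard : ℝ) ≤
        C * (Ideal.absNorm Δ : ℝ) ^
          (((n : ℝ) ^ 2 - 4 * n + 2) / (4 * (n - 1)) + 1 / (2 * r) + ε) := by
  obtain ⟨C1, hC1, h1⟩ := good_count k n N C0 E hn hN c hc htail ε hε
  obtain ⟨C2, hC2, h2⟩ := bad_vec_count k n N C0 E hn hN c hc htail ε hε
  refine ⟨C1 + C2, by positivity, fun Δ hΔ hE => ?_⟩
  have hfin : (adm2 k n N c Δ).Finite := (adm_finite k n N c Δ).subset fun a ha => ha.1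
  refine ⟨hfin, ?_⟩
  have hE2 : Expo k n N E 2 Δ := fun p hp hp0 =>
    ⟨(hE p hp hp0).1, fun hpN hpv => ⟨hr.trans ((hE p hp hp0).2 hpN hpv).1,
      ((hE p hp hp0).2 hpN hpv).2⟩⟩
  have h1' := h1 Δ hΔ hE2
  have h2' := h2 Δ hΔ hE2
  have hM := absNorm_modul_pow_le k n N E r (by omega) Δ hΔ hE
  set M := Ideal.absNorm (modul k n N Δ (n - 1)) with hMdef
  set x := Ideal.absNorm Δ with hx
  have hx1 : 1 ≤ x := Nat.one_le_iff_ne_zero.mpr fun h => hΔ (Ideal.absNorm_eq_zero_iff.mp h)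
  have hx0 : (0 : ℝ) < x := by exact_mod_cast hx1
  have hr0 : (0 : ℝ) < r := by exact_mod_cast (by omega : 0 < r)
  have hMx : (M : ℝ) ^ (1 / 2 : ℝ) ≤ (x : ℝ) ^ (1 / (2 * r) : ℝ) := by
    have h3 : ((M : ℝ) ^ r) ≤ x := by exact_mod_cast hM
    have h4 : (M : ℝ) ≤ (x : ℝ) ^ (1 / r : ℝ) := by
      rw [← Real.rpow_natCast] at h3
      have h5 := Real.rpow_le_rpow (by positivity) h3 (by positivity : (0 : ℝ) ≤ 1 / r)
      rwa [← Real.rpow_mul (by positivity), mul_one_div_cancel hr0.ne', Real.rpow_one] at h5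
    have h6 := Real.rpow_le_rpow (by positivity) h4 (by norm_num : (0 : ℝ) ≤ 1 / 2)
    rw [← Real.rpow_mul (by positivity)] at h6
    refine h6.trans (le_of_eq ?_)
    congr 1
    field_simp
  have hsplit : adm2 k n N c Δ ⊆ {a ∈ adm2 k n N c Δ | ¬ ConstSq
        ((discPoly (noLast a)).map (algebraMap (𝓞 k) k))} ∪ {a ∈ adm2 k n N c Δ | ConstSq
        ((discPoly (noLast a)).map (algebraMap (𝓞 k) k))} := by
    intro a ha
    by_cases h : ConstSq ((discPoly (noLast a)).map (algebraMap (𝓞 k) k))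
    · exact Or.inr ⟨ha, h⟩
    · exact Or.inl ⟨ha, h⟩
  have hcard := (Set.ncard_le_ncard hsplit ((hfin.subset fun a ha => ha.1).union
    (hfin.subset fun a ha => ha.1))).trans (Set.ncard_union_le _ _)
  refine (Nat.cast_le.mpr hcard).trans ?_
  rw [Nat.cast_add]
  refine (add_le_add h1' h2').trans ?_
  rw [← add_mul, ← add_mul]
  set β : ℝ := ((n : ℝ) ^ 2 - 4 * n + 2) / (4 * (n - 1)) with hβ
  have h7 : (x : ℝ) ^ (β + 1 / (2 * r) + ε) = (x : ℝ) ^ (β + ε) * (x : ℝ) ^ (1 / (2 * r) : ℝ) := by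
    rw [← Real.rpow_add hx0]
    congr 1
    ring
  rw [h7, ← mul_assoc]
  exact mul_le_mul_of_nonneg_left hMx (by positivity)

theorem main2 (k : Type) [Field k] [NumberField k] (n : ℕ) (hn : 4 ≤ n)
    (G : Subgroup (Equiv.Perm (Fin n)))
    (hG : MulAction.IsPreprimitive G (Fin n)) (hne : G ≠ ⊤) (ε : ℝ) (hε : 0 < ε) :
    ∃ C : ℝ, ∀ B : ℝ, 1 ≤ B →
      (malleCount k n G B : ℝ) ≤ C * B ^ (((n : ℝ) ^ 2 - 4 * n + 2) / (4 * (n - 1)) +
        3 / (2 * (groupInd G : ℝ)) + ε) := by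
  classical
  have hr := two_le_groupInd hG hne
  have hn3 := mu17_three_le hr
  set r := groupInd G with hrdef
  obtain ⟨N0, C0, hN0, htail0⟩ := exists_tail_bound n
  set N := N0 * n.factorial with hN
  have hNpos : 0 < N := Nat.mul_pos hN0 n.factorial_pos
  have htail : TailBound n N C0 := mu17_tail_mul _ htail0
  obtain ⟨E, hE⟩ := exists_wild_bound k n N hNpos
  obtain ⟨c, hc, hvec⟩ := mu17_vector k n G hG hn3 N E (Dvd.intro_left _ rfl) hE
  obtain ⟨C1, hC1, hfull⟩ := full_ideals_count k N E r hNpos (by omega) (ε / 2) (by positivity)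
  obtain ⟨C2, hC2, hadm⟩ := adm2_count k n N C0 E r hn hNpos hr c hc htail (ε / 2) (by positivity)
  set β : ℝ := ((n : ℝ) ^ 2 - 4 * n + 2) / (4 * (n - 1)) with hβ
  have hn4 : (4 : ℝ) ≤ n := by exact_mod_cast hn
  have hβ0 : 0 ≤ β := by
    rw [hβ]
    refine div_nonneg ?_ (by linarith)
    nlinarith
  refine ⟨C1 * C2, fun B hB => ?_⟩
  have hB0 : (0 : ℝ) < B := by linarith
  obtain ⟨hfin, hcard⟩ := hfull B hB
  -- the admissible ideals
  set D : Finset (Ideal (𝓞 k)) := hfin.toFinset.filter (fun I => Expo k n N E r I) with hD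
  have hDcard : (D.card : ℝ) ≤ C1 * B ^ (1 / (r : ℝ) + ε / 2) := by
    refine le_trans ?_ hcard
    rw [Set.ncard_eq_toFinset_card _ hfin]
    exact_mod_cast Finset.card_filter_le _ _
  have hDmem : ∀ Δ ∈ D, (adm2 k n N c Δ).Finite ∧
        ((adm2 k n N c Δ).ncard : ℝ) ≤ C2 * B ^ (β + 1 / (2 * r) + ε / 2) := by
    intro Δ hΔ
    rw [hD, Finset.mem_filter, Set.Finite.mem_toFinset] at hΔ
    obtain ⟨⟨h1, h2, -⟩, h4⟩ := hΔ
    obtain ⟨h5, h6⟩ := hadm Δ h1 h4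
    refine ⟨h5, h6.trans ?_⟩
    refine mul_le_mul_of_nonneg_left ?_ hC2.le
    refine Real.rpow_le_rpow (by positivity) h2 ?_
    positivity
  set U : Set (Fin n → 𝓞 k) := ⋃ Δ ∈ D, adm2 k n N c Δ with hU
  have hUfin : U.Finite := by
    rw [hU]
    exact Set.Finite.biUnion D.finite_toSet fun Δ hΔ => (hDmem Δ hΔ).1
  have hUcard : (U.ncard : ℝ) ≤ C1 * B ^ (1 / (r : ℝ) + ε / 2) *
      (C2 * B ^ (β + 1 / (2 * r) + ε / 2)) := by
    have h1 : U.ncard ≤ ∑ Δ ∈ D, (adm2 k n N c Δ).ncard := by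
      rw [hU]
      have hsub : ∀ D' : Finset (Ideal (𝓞 k)), (⋃ Δ ∈ D', adm2 k n N c Δ).ncard ≤
          ∑ Δ ∈ D', (adm2 k n N c Δ).ncard := by
        intro D'
        induction D' using Finset.induction_on with
        | empty => simp
        | insert a s ha ih =>
          rw [Finset.set_biUnion_insert, Finset.sum_insert ha]
          exact (Set.ncard_union_le _ _).trans (Nat.add_le_add_left ih _)
      exact hsub D
    calc (U.ncard : ℝ) ≤ ∑ Δ ∈ D, ((adm2 k n N c Δ).ncard : ℝ) := by exact_mod_cast h1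
      _ ≤ ∑ _Δ ∈ D, C2 * B ^ (β + 1 / (2 * r) + ε / 2) :=
        Finset.sum_le_sum fun Δ hΔ => (hDmem Δ hΔ).2
      _ = (D.card : ℝ) * (C2 * B ^ (β + 1 / (2 * r) + ε / 2)) := by
        rw [Finset.sum_const, nsmul_eq_mul]
      _ ≤ _ := mul_le_mul_of_nonneg_right hDcard (by positivity)
  have hr0 : (r : ℝ) ≠ 0 := by
    have : r ≠ 0 := by omega
    exact_mod_cast this
  have hfinal : C1 * B ^ (1 / (r : ℝ) + ε / 2) * (C2 * B ^ (β + 1 / (2 * r) + ε / 2)) =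
      C1 * C2 * B ^ (β + 3 / (2 * (r : ℝ)) + ε) := by
    have : β + 3 / (2 * (r : ℝ)) + ε =
        (1 / (r : ℝ) + ε / 2) + (β + 1 / (2 * r) + ε / 2) := by
      field_simp
      ring
    rw [this, Real.rpow_add hB0 (1 / (r : ℝ) + ε / 2) (β + 1 / (2 * r) + ε / 2)]
    ring
  rw [← hfinal]
  refine le_trans ?_ hUcard
  -- the injection
  set X := {M : IntermediateField k (AlgebraicClosure k) //
      Module.finrank k M = n ∧
      (∃ e : (M →ₐ[k] AlgebraicClosure k) ≃ Fin n, ∀ π : Equiv.Perm (Fin n),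
        π ∈ G ↔ ∃ σ : AlgebraicClosure k ≃ₐ[k] AlgebraicClosure k,
          ∀ φ : M →ₐ[k] AlgebraicClosure k, e (σ.toAlgHom.comp φ) = π (e φ)) ∧
      ∃ h : NumberField M,
        ((|@NumberField.discr M _ h| : ℤ) : ℝ) ≤ B * ((|NumberField.discr k| : ℤ) : ℝ) ^ n}
    with hX
  have hmap : ∀ L : X, ∃ a ∈ U, ∃ x : L.1, (minpoly k x).natDegree = n ∧
      minpoly k x = (monicOf a).map (algebraMap (𝓞 k) k) := by
    rintro ⟨M, hMn, hMG, hM, hMB⟩
    have hdisc : (Ideal.absNorm (relDisc k M) : ℝ) ≤ B := by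
      have h1 := natAbs_discr k M
      rw [hMn] at h1
      rw [Int.abs_eq_natAbs, Int.abs_eq_natAbs, Int.cast_natCast, Int.cast_natCast, h1] at hMB
      push_cast at hMB
      have h2 : (0 : ℝ) < ((discr k).natAbs : ℝ) ^ n := by
        have : (discr k).natAbs ≠ 0 := by simpa using discr_ne_zero k
        positivity
      exact le_of_mul_le_mul_right hMB h2
    obtain ⟨a, ha, α, hx1, hx2⟩ := hvec M hMG hMn
    refine ⟨a, ?_, (α : M), hx1, by rw [← hx2, minpoly_map]⟩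
    rw [hU, Set.mem_iUnion₂]
    obtain ⟨hd1, hd2⟩ := even_vexp_disc (by omega) hMn α a hx2
    refine ⟨relDisc k M, ?_, ha, hd1, hd2⟩
    rw [hD, Finset.mem_filter, Set.Finite.mem_toFinset]
    have hexp := mu17_exponents hMG hMn N E (Dvd.intro_left _ rfl) hE
    exact ⟨⟨relDisc_ne_bot k M, hdisc, fun p hp hp0 => ⟨(hexp p hp hp0).1, fun hpN =>
      ((hexp p hp hp0).2 hpN).2.2⟩⟩, fun p hp hp0 => ⟨(hexp p hp hp0).1, fun hpN hpv =>
        ⟨((hexp p hp hp0).2 hpN).2.2 hpv, ((hexp p hp hp0).2 hpN).2.1⟩⟩⟩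
  choose f hfU hf using hmap
  have hcardle : malleCount k n G B ≤ U.ncard := by
    have : Finite U := hUfin
    rw [malleCount, ← Nat.card_coe_set_eq]
    refine Nat.card_le_card_of_injective
      (fun q => (⟨f q.out, hfU q.out⟩ : U)) fun q q' hqq => ?_
    have h1 : f q.out = f q'.out := congrArg Subtype.val hqq
    obtain ⟨x, hx1, hx2⟩ := hf q.out
    obtain ⟨x', hx1', hx2'⟩ := hf q'.out
    have hfd : FiniteDimensional k q.out.1 :=
      FiniteDimensional.of_finrank_pos (by rw [q.out.2.1]; omega)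
    have hfd' : FiniteDimensional k q'.out.1 :=
      FiniteDimensional.of_finrank_pos (by rw [q'.out.2.1]; omega)
    have h2 : Nonempty (q.out.1 ≃ₐ[k] q'.out.1) :=
      nonempty_algEquiv q.out.2.1 q'.out.2.1 x x' (by rw [hx2, hx2', h1]) hx1
    rw [← Quot.out_eq q, ← Quot.out_eq q']
    exact Quot.sound h2
  exact_mod_cast hcardle

/-- the bound for one relative discriminant -/
theorem main2_pt (k : Type) [Field k] [NumberField k] (n : ℕ) (hn : 4 ≤ n)
    (G : Subgroup (Equiv.Perm (Fin n)))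
    (hG : MulAction.IsPreprimitive G (Fin n)) (hne : G ≠ ⊤) (ε : ℝ) (hε : 0 < ε) :
    ∃ C : ℝ, 0 < C ∧ ∀ Δ : Ideal (𝓞 k), Δ ≠ ⊥ →
      ((Nat.card (Quot (fun L L' : {M : IntermediateField k (AlgebraicClosure k) //
        Module.finrank k M = n ∧
        (∃ e : (M →ₐ[k] AlgebraicClosure k) ≃ Fin n, ∀ π : Equiv.Perm (Fin n),
          π ∈ G ↔ ∃ σ : AlgebraicClosure k ≃ₐ[k] AlgebraicClosure k,
            ∀ φ : M →ₐ[k] AlgebraicClosure k, e (σ.toAlgHom.comp φ) = π (e φ)) ∧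
        ∃ _ : NumberField M, Ideal.relNorm (𝓞 k) (differentIdeal (𝓞 k) (𝓞 M)) = Δ}
      => Nonempty (L.1 ≃ₐ[k] L'.1))) : ℕ) : ℝ) ≤
      C * (Ideal.absNorm Δ : ℝ) ^ (((n : ℝ) ^ 2 - 4 * n + 2) / (4 * (n - 1)) +
        1 / (2 * (groupInd G : ℝ)) + ε) := by
  classical
  have hr := two_le_groupInd hG hne
  have hn3 := mu17_three_le hr
  set r := groupInd G with hrdef
  obtain ⟨N0, C0, hN0, htail0⟩ := exists_tail_bound n
  set N := N0 * n.factorial with hN
  have hNpos : 0 < N := Nat.mul_pos hN0 n.factorial_pos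
  have htail : TailBound n N C0 := mu17_tail_mul _ htail0
  obtain ⟨E, hE⟩ := exists_wild_bound k n N hNpos
  obtain ⟨c, hc, hvec⟩ := mu17_vector k n G hG hn3 N E (Dvd.intro_left _ rfl) hE
  obtain ⟨C2, hC2, hadm⟩ := adm2_count k n N C0 E r hn hNpos hr c hc htail ε hε
  refine ⟨C2, hC2, fun Δ hΔ => ?_⟩
  set X := {M : IntermediateField k (AlgebraicClosure k) //
        Module.finrank k M = n ∧
        (∃ e : (M →ₐ[k] AlgebraicClosure k) ≃ Fin n, ∀ π : Equiv.Perm (Fin n),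
          π ∈ G ↔ ∃ σ : AlgebraicClosure k ≃ₐ[k] AlgebraicClosure k,
            ∀ φ : M →ₐ[k] AlgebraicClosure k, e (σ.toAlgHom.comp φ) = π (e φ)) ∧
        ∃ _ : NumberField M, Ideal.relNorm (𝓞 k) (differentIdeal (𝓞 k) (𝓞 M)) = Δ} with hX
  have hmap : ∀ L : X, Expo k n N E r Δ ∧ ∃ a ∈ adm2 k n N c Δ, ∃ x : L.1,
      (minpoly k x).natDegree = n ∧ minpoly k x = (monicOf a).map (algebraMap (𝓞 k) k) := by
    rintro ⟨M, hMn, hMG, hM, rfl⟩
    have hexp := mu17_exponents hMG hMn N E (Dvd.intro_left _ rfl) hE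
    refine ⟨fun p hp hp0 => ⟨(hexp p hp hp0).1, fun hpN hpv =>
        ⟨((hexp p hp hp0).2 hpN).2.2 hpv, ((hexp p hp hp0).2 hpN).2.1⟩⟩, ?_⟩
    obtain ⟨a, ha, α, hx1, hx2⟩ := hvec M hMG hMn
    obtain ⟨hd1, hd2⟩ := even_vexp_disc (by omega) hMn α a hx2
    exact ⟨a, ⟨ha, hd1, hd2⟩, (α : M), hx1, by rw [← hx2, minpoly_map]⟩
  rcases isEmpty_or_nonempty X with hemp | ⟨⟨L0⟩⟩
  · have : IsEmpty (Quot (fun L L' : X => Nonempty (L.1 ≃ₐ[k] L'.1))) :=
      ⟨fun q => hemp.false q.out⟩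
    rw [Nat.card_of_isEmpty, Nat.cast_zero]
    positivity
  · obtain ⟨hfin, hcard⟩ := hadm Δ hΔ (hmap L0).1
    refine le_trans ?_ hcard
    choose f hfU hf using fun L => (hmap L).2
    have : Finite (adm2 k n N c Δ) := hfin
    rw [← Nat.card_coe_set_eq]
    refine Nat.cast_le.mpr (Nat.card_le_card_of_injective
      (fun q => (⟨f q.out, hfU q.out⟩ : adm2 k n N c Δ)) fun q q' hqq => ?_)
    have h1 : f q.out = f q'.out := congrArg Subtype.val hqq
    obtain ⟨x, hx1, hx2⟩ := hf q.out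
    obtain ⟨x', hx1', hx2'⟩ := hf q'.out
    have hfd : FiniteDimensional k q.out.1 :=
      FiniteDimensional.of_finrank_pos (by rw [q.out.2.1]; omega)
    have hfd' : FiniteDimensional k q'.out.1 :=
      FiniteDimensional.of_finrank_pos (by rw [q'.out.2.1]; omega)
    have h2 : Nonempty (q.out.1 ≃ₐ[k] q'.out.1) :=
      nonempty_algEquiv q.out.2.1 q'.out.2.1 x x' (by rw [hx2, hx2', h1]) hx1
    rw [← Quot.out_eq q, ← Quot.out_eq q']
    exact Quot.sound h2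

end Pool.Agent.H67.MU
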