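import Pool.Agent.H67.MU.Defs
import Pool.Agent.H67.MU.Bdd

/-! # Project MU, row IMP-2: the number of integers in a very large box -/

set_option autoImplicit false

open Polynomial IsDedekindDomain NumberField
open NumberField.mixedEmbedding MeasureTheory NumberField.InfinitePlace

namespace Pool.Agent.H67.MU

open scoped Classical in
/-- the volume of a box with equal sides -/
theorem imp2_vol (F : Type) [Field F] [NumberField F] (c : NNReal) :
    volume (convexBodyLT F (fun _ => c)) ≤
      ENNReal.ofReal ((4 * (c : ℝ)) ^ Module.finrank ℚ F) := by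
  rw [convexBodyLT_volume]
  have h1 : ∏ w : InfinitePlace F, c ^ mult w = c ^ Module.finrank ℚ F := by
    rw [← sum_mult_eq (K := F)]
    exact Finset.prod_pow_eq_pow_sum Finset.univ (fun w : InfinitePlace F => mult w) c
  rw [h1]
  have h2 : (convexBodyLTFactor F : ℝ) ≤ 4 ^ Module.finrank ℚ F := by
    have h3 : Module.finrank ℚ F = nrRealPlaces F + 2 * nrComplexPlaces F :=
      (card_add_two_mul_card_eq_rank F).symm
    have h4 : (convexBodyLTFactor F : ℝ) =
        2 ^ nrRealPlaces F * Real.pi ^ nrComplexPlaces F := by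
      rw [convexBodyLTFactor]
      push_cast
      rfl
    rw [h4, h3, pow_add, pow_mul]
    have h5 : (2 : ℝ) ^ nrRealPlaces F ≤ 4 ^ nrRealPlaces F :=
      pow_le_pow_left₀ (by norm_num) (by norm_num) _
    have h6 : Real.pi ^ nrComplexPlaces F ≤ (4 ^ 2) ^ nrComplexPlaces F :=
      pow_le_pow_left₀ Real.pi_pos.le (by nlinarith [Real.pi_lt_four]) _
    exact mul_le_mul h5 h6 (by positivity) (by positivity)
  have h7 : ((convexBodyLTFactor F * c ^ Module.finrank ℚ F : NNReal) : ENNReal) ≤
      ENNReal.ofReal ((4 * (c : ℝ)) ^ Module.finrank ℚ F) := by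
    rw [ENNReal.ofReal, ENNReal.coe_le_coe, ← NNReal.coe_le_coe,
      Real.coe_toNNReal _ (by positivity), NNReal.coe_mul, NNReal.coe_pow, mul_pow]
    exact mul_le_mul_of_nonneg_right h2 (by positivity)
  calc _ = ((convexBodyLTFactor F * c ^ Module.finrank ℚ F : NNReal) : ENNReal) := by
        push_cast
        rfl
    _ ≤ _ := h7

open scoped Classical in
/-- a lower bound for the volume of the fundamental domain -/
theorem imp2_fund (F : Type) [Field F] [NumberField F] :
    ENNReal.ofReal ((1 / 2) ^ Module.finrank ℚ F * Real.sqrt |(discr F : ℝ)|) ≤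
      volume (ZSpan.fundamentalDomain (latticeBasis F)) := by
  rw [volume_fundamentalDomain_latticeBasis]
  have h2 : ((NNReal.sqrt ‖discr F‖₊ : NNReal) : ENNReal) =
      ENNReal.ofReal (Real.sqrt |(discr F : ℝ)|) := by
    rw [ENNReal.ofReal, ENNReal.coe_inj]
    apply NNReal.coe_injective
    rw [Real.coe_toNNReal _ (Real.sqrt_nonneg _), Real.coe_sqrt, coe_nnnorm, Int.norm_eq_abs]
  rw [h2, ENNReal.ofReal_mul (by positivity)]
  have h3 : ENNReal.ofReal ((1 / 2) ^ Module.finrank ℚ F) ≤
      ((2 : ENNReal)⁻¹) ^ nrComplexPlaces F := by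
    rw [ENNReal.ofReal_pow (by norm_num)]
    have h4 : ENNReal.ofReal (1 / 2) = (2 : ENNReal)⁻¹ := by
      rw [one_div, ENNReal.ofReal_inv_of_pos (by norm_num), ENNReal.ofReal_ofNat]
    rw [h4]
    refine pow_le_pow_right_of_le_one' (by simp) ?_
    have h5 : Module.finrank ℚ F = nrRealPlaces F + 2 * nrComplexPlaces F :=
      (card_add_two_mul_card_eq_rank F).symm
    omega
  gcongr

/-- The integers in a very large box. -/
theorem large_box (f : ℕ) : ∃ C : ℝ, 1 ≤ C ∧ ∀ (F : Type) [Field F] [NumberField F],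
    Module.finrank ℚ F = f → ∃ T0 : ℝ, ∀ T : ℝ, T0 ≤ T →
      ({x : 𝓞 F | Bdd T x}.ncard : ℝ) * Real.sqrt |(discr F : ℝ)| ≤ C * T ^ f := by
  classical
  refine ⟨16 ^ f, one_le_pow₀ (by norm_num), ?_⟩
  intro F _ _ hf
  obtain ⟨ρ, hρ⟩ := (ZSpan.fundamentalDomain_isBounded (latticeBasis F)).subset_closedBall 0
  refine ⟨|ρ| + 1, ?_⟩
  intro T hT
  have hρT : ρ < T := by linarith [le_abs_self ρ]
  have hT0 : 0 < T := by linarith [abs_nonneg ρ]
  obtain ⟨c0, -, hc⟩ := bdd_mem_count F
  have hfin : {x : 𝓞 F | Bdd T x}.Finite := by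
    refine ((hc T hT0.le ⊤ top_ne_bot).1).subset ?_
    intro x hx
    exact ⟨hx, Submodule.mem_top⟩
  obtain ⟨s, hs⟩ : ∃ s : Finset (𝓞 F), (s : Set (𝓞 F)) = {x : 𝓞 F | Bdd T x} :=
    ⟨hfin.toFinset, hfin.coe_toFinset⟩
  rw [← hs, Set.ncard_coe_finset]
  set P : Set (mixedSpace F) := ZSpan.fundamentalDomain (latticeBasis F) with hP
  have hPm : MeasurableSet P := ZSpan.fundamentalDomain_measurableSet (latticeBasis F)
  set A : 𝓞 F → Set (mixedSpace F) :=
    fun x => (fun z => -(mixedEmbedding F (x : F)) + z) ⁻¹' P with hA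
  have hAm : ∀ x, MeasurableSet (A x) := fun x => measurable_const_add _ hPm
  have hAv : ∀ x, volume (A x) = volume P := fun x => measure_preimage_add volume _ P
  have hmem : ∀ x : 𝓞 F, -(mixedEmbedding F (x : F)) ∈
      Submodule.span ℤ (Set.range (latticeBasis F)) := by
    intro x
    refine neg_mem ?_
    rw [mem_span_latticeBasis]
    exact ⟨x, rfl⟩
  have hdisj : Set.PairwiseDisjoint (s : Set (𝓞 F)) A := by
    intro x _ y _ hxy
    rw [Function.onFun, Set.disjoint_left]
    intro z hz1 hz2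
    apply hxy
    have h1 := (ZSpan.exist_unique_vadd_mem_fundamentalDomain (latticeBasis F) z).unique
      (y₁ := ⟨_, hmem x⟩) (y₂ := ⟨_, hmem y⟩) hz1 hz2
    have h2 : -(mixedEmbedding F (x : F)) = -(mixedEmbedding F (y : F)) := congrArg Subtype.val h1
    exact RingOfIntegers.ext (mixedEmbedding_injective F (neg_injective h2))
  obtain ⟨c, hc0⟩ : ∃ c : NNReal, (c : ℝ) = 2 * T :=
    ⟨Real.toNNReal (2 * T), Real.coe_toNNReal _ (by positivity)⟩
  have hsub : (⋃ x ∈ s, A x) ⊆ convexBodyLT F (fun _ => c) := by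
    intro z hz
    rw [Set.mem_iUnion₂] at hz
    obtain ⟨x, hx, hz⟩ := hz
    have hxT : Bdd T x := by
      have : x ∈ (s : Set (𝓞 F)) := hx
      rw [hs] at this
      exact this
    have h1 : ‖-(mixedEmbedding F (x : F)) + z‖ ≤ ρ := by
      have := hρ (show -(mixedEmbedding F (x : F)) + z ∈ P from hz)
      rwa [mem_closedBall_zero_iff] at this
    have h2 : ∀ w : InfinitePlace F, w (x : F) ≤ T := by
      intro w
      rw [← norm_embedding_eq w (x : F)]
      exact hxT w.embedding
    set p : mixedSpace F := -(mixedEmbedding F (x : F)) + z with hp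
    have hz' : z = mixedEmbedding F (x : F) + p := by rw [hp]; abel
    refine ⟨fun w _ => ?_, fun w _ => ?_⟩
    · rw [mem_ball_zero_iff]
      have h3 : ‖(mixedEmbedding F (x : F)).1 w‖ ≤ T := by
        have e : ‖(mixedEmbedding F (x : F)).1 w‖ = w.1 (x : F) := by
          rw [mixedEmbedding_apply_isReal, norm_embedding_of_isReal]
        rw [e]
        exact h2 w.1
      have h4 : ‖p.1 w‖ ≤ ρ := (norm_le_pi_norm p.1 w).trans ((norm_fst_le p).trans h1)
      have h5 : z.1 w = (mixedEmbedding F (x : F)).1 w + p.1 w := by rw [hz']; rfl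
      rw [h5, hc0]
      exact (norm_add_le _ _).trans_lt (by linarith)
    · rw [mem_ball_zero_iff]
      have h3 : ‖(mixedEmbedding F (x : F)).2 w‖ ≤ T := by
        have e : ‖(mixedEmbedding F (x : F)).2 w‖ = w.1 (x : F) := by
          rw [mixedEmbedding_apply_isComplex, norm_embedding_eq]
        rw [e]
        exact h2 w.1
      have h4 : ‖p.2 w‖ ≤ ρ := (norm_le_pi_norm p.2 w).trans ((norm_snd_le p).trans h1)
      have h5 : z.2 w = (mixedEmbedding F (x : F)).2 w + p.2 w := by rw [hz']; rfl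
      rw [h5, hc0]
      exact (norm_add_le _ _).trans_lt (by linarith)
  have hsum : (s.card : ENNReal) * volume P ≤ volume (convexBodyLT F (fun _ => c)) := by
    calc (s.card : ENNReal) * volume P = ∑ x ∈ s, volume (A x) := by
          rw [Finset.sum_congr rfl fun x _ => hAv x, Finset.sum_const, nsmul_eq_mul]
      _ = volume (⋃ x ∈ s, A x) := (measure_biUnion_finset hdisj fun x _ => hAm x).symm
      _ ≤ _ := measure_mono hsub
  have h3 := (mul_le_mul_right (imp2_fund F) (s.card : ENNReal)).trans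
    (hsum.trans (imp2_vol F c))
  rw [← ENNReal.ofReal_natCast, ← ENNReal.ofReal_mul (Nat.cast_nonneg _),
    ENNReal.ofReal_le_ofReal_iff (by positivity), hc0, hf] at h3
  have h4 : (s.card : ℝ) * Real.sqrt |(discr F : ℝ)| =
      2 ^ f * ((s.card : ℝ) * ((1 / 2) ^ f * Real.sqrt |(discr F : ℝ)|)) := by
    have h5 : (2 : ℝ) ^ f * (1 / 2) ^ f = 1 := by
      rw [← mul_pow]
      norm_num
    calc _ = (2 : ℝ) ^ f * (1 / 2) ^ f * ((s.card : ℝ) * Real.sqrt |(discr F : ℝ)|) := by
          rw [h5, one_mul]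
      _ = _ := by ring
  rw [h4]
  calc (2 : ℝ) ^ f * ((s.card : ℝ) * ((1 / 2) ^ f * Real.sqrt |(discr F : ℝ)|))
      ≤ 2 ^ f * (4 * (2 * T)) ^ f := mul_le_mul_of_nonneg_left h3 (by positivity)
    _ = 16 ^ f * T ^ f := by
        rw [← mul_pow, ← mul_pow]
        congr 1
        ring

end Pool.Agent.H67.MU
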