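import Pool.Agent.H67.MU.Defs
import Pool.Agent.H67.MU.Bdd
import Pool.Agent.H67.MU.Blich

/-! # Project MU, row MU-10: small elements outside `k` of relative trace zero -/

set_option autoImplicit false

open Polynomial IsDedekindDomain NumberField UniqueFactorizationMonoid
open NumberField.mixedEmbedding MeasureTheory NumberField.InfinitePlace Module

namespace Pool.Agent.H67.MU

/-- an embedding of `k` extends to `K` -/
theorem mu10_ext {k K : Type} [Field k] [NumberField k] [Field K] [NumberField K] [Algebra k K]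
    (ψ : k →+* ℂ) : ∃ φ : K →+* ℂ, ∀ x : k, φ (algebraMap k K x) = ψ x := by
  let _ : Algebra k ℂ := ψ.toAlgebra
  let φ : K →ₐ[k] ℂ := IsAlgClosed.lift
  exact ⟨φ.toRingHom, fun x => φ.commutes x⟩

/-- the trace of an element with bounded conjugates -/
theorem mu10_trace {k K : Type} [Field k] [NumberField k] [Field K] [NumberField K] [Algebra k K]
    (R : ℝ) (α : K) (h : ∀ φ : K →+* ℂ, ‖φ α‖ ≤ R) (ψ : k →+* ℂ) :
    ‖ψ (Algebra.trace k K α)‖ ≤ Module.finrank k K * R := by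
  let _ : Algebra k ℂ := ψ.toAlgebra
  have h1 : ψ (Algebra.trace k K α) = ∑ σ : K →ₐ[k] ℂ, σ α :=
    trace_eq_sum_embeddings (K := k) (L := K) ℂ (x := α)
  rw [h1]
  refine (norm_sum_le _ _).trans ?_
  refine (Finset.sum_le_sum (g := fun _ => R) fun σ _ => h σ.toRingHom).trans ?_
  rw [Finset.sum_const, Finset.card_univ, AlgHom.card, nsmul_eq_mul]

/-- more than `t` small integers -/
theorem mu10_many (K : Type) [Field K] [NumberField K] (R : ℝ) (hR : 0 < R) (t : ℕ)
    (ht : (t : ℝ) * Real.sqrt |(discr K : ℝ)| < (R / 2) ^ Module.finrank ℚ K) :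
    ∃ S : Finset (𝓞 K), t < S.card ∧ ∀ a ∈ S, Bdd R a := by
  classical
  obtain ⟨c, hc0⟩ : ∃ c : NNReal, (c : ℝ) = R / 2 :=
    ⟨Real.toNNReal (R / 2), Real.coe_toNNReal _ (by positivity)⟩
  let f : InfinitePlace K → NNReal := fun _ => c
  have h_fund := ZSpan.isAddFundamentalDomain' (latticeBasis K) volume
  have hc : Countable (Submodule.span ℤ (Set.range (latticeBasis K))).toAddSubgroup := by
    change Countable (Submodule.span ℤ (Set.range (latticeBasis K)))
    infer_instance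
  have hvF : volume (ZSpan.fundamentalDomain (latticeBasis K)) ≤
      ENNReal.ofReal (Real.sqrt |(discr K : ℝ)|) := by
    rw [volume_fundamentalDomain_latticeBasis]
    have h1 : ((2 : ENNReal)⁻¹) ^ nrComplexPlaces K ≤ 1 :=
      pow_le_one₀ (by positivity) (by simp)
    have h2 : ((NNReal.sqrt ‖discr K‖₊ : NNReal) : ENNReal) =
        ENNReal.ofReal (Real.sqrt |(discr K : ℝ)|) := by
      rw [ENNReal.ofReal, ENNReal.coe_inj]
      apply NNReal.coe_injective
      rw [Real.coe_toNNReal _ (Real.sqrt_nonneg _), Real.coe_sqrt, coe_nnnorm, Int.norm_eq_abs]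
    calc _ ≤ 1 * ((NNReal.sqrt ‖discr K‖₊ : NNReal) : ENNReal) := by gcongr
      _ = _ := by rw [one_mul, h2]
  have hvs : ENNReal.ofReal ((R / 2) ^ Module.finrank ℚ K) ≤ volume (convexBodyLT K f) := by
    rw [convexBodyLT_volume]
    have h1 : ∏ w : InfinitePlace K, f w ^ mult w = c ^ Module.finrank ℚ K := by
      rw [← sum_mult_eq (K := K)]
      exact Finset.prod_pow_eq_pow_sum Finset.univ (fun w : InfinitePlace K => mult w) c
    have h3 : ENNReal.ofReal ((R / 2) ^ Module.finrank ℚ K) =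
        ((c ^ Module.finrank ℚ K : NNReal) : ENNReal) := by
      rw [ENNReal.ofReal, ENNReal.coe_inj]
      apply NNReal.coe_injective
      rw [Real.coe_toNNReal _ (by positivity), NNReal.coe_pow, hc0]
    rw [h3, h1]
    have h2 : (1 : ENNReal) ≤ (convexBodyLTFactor K : ENNReal) := by
      exact_mod_cast one_le_convexBodyLTFactor K
    calc _ = 1 * ((c ^ Module.finrank ℚ K : NNReal) : ENNReal) := by
          rw [one_mul]
      _ ≤ _ := by gcongr
  have hlt : (t : ENNReal) * volume (ZSpan.fundamentalDomain (latticeBasis K)) <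
      volume (convexBodyLT K f) := by
    refine lt_of_le_of_lt (mul_le_mul_right hvF _) (lt_of_lt_of_le ?_ hvs)
    rw [← ENNReal.ofReal_natCast, ← ENNReal.ofReal_mul (Nat.cast_nonneg t)]
    exact (ENNReal.ofReal_lt_ofReal_iff (by positivity)).2 ht
  have hms : MeasurableSet (convexBodyLT K f) :=
    (MeasurableSet.univ_pi fun _ => measurableSet_ball).prod
      (MeasurableSet.univ_pi fun _ => measurableSet_ball)
  obtain ⟨S, hS1, hS2⟩ := exists_many volume _ _ (convexBodyLT K f) h_fund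
    (ZSpan.fundamentalDomain_isBounded _).measure_lt_top.ne hms t hlt
  have key : ∀ x : (Submodule.span ℤ (Set.range (latticeBasis K))).toAddSubgroup,
      ∃ a : 𝓞 K, mixedEmbedding K (a : K) = (x : mixedSpace K) := by
    rintro ⟨x, hx⟩
    rw [Submodule.mem_toAddSubgroup, mem_span_latticeBasis] at hx
    obtain ⟨a, rfl⟩ := hx
    exact ⟨a, rfl⟩
  choose g hg using key
  have hinj : Function.Injective g := by
    intro x y hxy
    apply Subtype.ext
    rw [← hg x, ← hg y, hxy]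
  refine ⟨S.image g, by rwa [Finset.card_image_of_injective _ hinj], ?_⟩
  intro a ha
  obtain ⟨x, hx, rfl⟩ := Finset.mem_image.1 ha
  obtain ⟨p, hp, q, hq, hpq⟩ := hS2 x hx
  obtain ⟨d, hd0⟩ : ∃ d : NNReal, (d : ℝ) = R := ⟨Real.toNNReal R, Real.coe_toNNReal _ hR.le⟩
  have hmem : mixedEmbedding K (g x : K) ∈ convexBodyLT K (fun _ => d) := by
    rw [hg, hpq]
    refine ⟨fun w hw => ?_, fun w hw => ?_⟩
    · have h1 := hp.1 w hw
      have h2 := hq.1 w hw
      rw [mem_ball_zero_iff] at h1 h2 ⊢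
      have h3 : (p - q).1 w = p.1 w - q.1 w := rfl
      rw [h3]
      refine (norm_sub_le _ _).trans_lt ?_
      have e : ((f w.1 : NNReal) : ℝ) = R / 2 := hc0
      rw [e] at h1 h2
      rw [hd0]
      linarith
    · have h1 := hp.2 w hw
      have h2 := hq.2 w hw
      rw [mem_ball_zero_iff] at h1 h2 ⊢
      have h3 : (p - q).2 w = p.2 w - q.2 w := rfl
      rw [h3]
      refine (norm_sub_le _ _).trans_lt ?_
      have e : ((f w.1 : NNReal) : ℝ) = R / 2 := hc0
      rw [e] at h1 h2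
      rw [hd0]
      linarith
  intro φ
  have h := (convexBodyLT_mem K _).1 hmem (InfinitePlace.mk φ)
  rw [InfinitePlace.apply, hd0] at h
  exact le_of_lt h

theorem exists_small (k : Type) [Field k] [NumberField k] (n : ℕ) (hn : 2 ≤ n) :
    ∃ C : ℝ, 1 ≤ C ∧ ∀ (K : Type) [Field K] [NumberField K] [Algebra k K],
      Module.finrank k K = n → ∃ α : 𝓞 K, Algebra.trace k K (α : K) = 0 ∧
        (α : K) ∉ (algebraMap k K).range ∧
        Bdd (C * (|discr K| : ℝ) ^ (1 / (2 * Module.finrank ℚ k * (n - 1) : ℝ))) α := by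
  classical
  obtain ⟨c, hc1, hc⟩ := bdd_mem_count k
  obtain ⟨m, hm⟩ : ∃ m : ℕ, m = Module.finrank ℚ k := ⟨_, rfl⟩
  have hm0 : 0 < m := by rw [hm]; exact Module.finrank_pos
  obtain ⟨r, rfl⟩ : ∃ r, n = r + 1 := ⟨n - 1, by omega⟩
  have hr0 : 0 < r := by omega
  rw [← hm] at hc ⊢
  set A : ℝ := 2 ^ ((r + 1) * m + 1) * c + 1 with hA
  have hA1 : 1 ≤ A := by
    rw [hA]; nlinarith [show (0 : ℝ) < 2 ^ ((r + 1) * m + 1) by positivity]
  refine ⟨2 * (r + 1) * A, by nlinarith [(Nat.cast_nonneg r : (0 : ℝ) ≤ r)], ?_⟩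
  intro K _ _ _ hK
  set D : ℝ := |(discr K : ℝ)| with hD
  have hD1 : 1 ≤ D := by
    have h1 : (1 : ℤ) ≤ |discr K| := Int.one_le_abs (discr_ne_zero K)
    have h2 : ((1 : ℤ) : ℝ) ≤ ((|discr K| : ℤ) : ℝ) := Int.cast_le.2 h1
    rw [Int.cast_abs] at h2
    simpa using h2
  set e : ℝ := 1 / (2 * (m : ℝ) * (((r + 1 : ℕ) : ℝ) - 1)) with he
  have he' : e = 1 / (2 * (m * r : ℕ)) := by
    rw [he]; push_cast; congr 1; ring
  have hmr : 0 < m * r := Nat.mul_pos hm0 hr0
  have he0 : 0 ≤ e := by rw [he']; positivity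
  have hDe : 1 ≤ D ^ e := Real.one_le_rpow hD1 he0
  set R : ℝ := A * D ^ e with hR
  have hR1 : 1 ≤ R := by rw [hR]; nlinarith
  have hR0 : 0 < R := by linarith
  have hRpow : R ^ (m * r) = A ^ (m * r) * Real.sqrt D := by
    rw [hR, mul_pow]
    congr 1
    rw [← Real.rpow_natCast (D ^ e) (m * r), ← Real.rpow_mul (by linarith), Real.sqrt_eq_rpow]
    congr 1
    rw [he']
    have : ((m * r : ℕ) : ℝ) ≠ 0 := by exact_mod_cast hmr.ne'
    field_simp
  have hKQ : Module.finrank ℚ K = (r + 1) * m := by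
    rw [← Module.finrank_mul_finrank ℚ k K, hK, ← hm, mul_comm]
  obtain ⟨hfin, hcard⟩ := hc R hR0.le ⊤ top_ne_bot
  set t : ℕ := Set.ncard {a : 𝓞 k | Bdd R a ∧ a ∈ (⊤ : Ideal (𝓞 k))} with ht
  have ht1 : (t : ℝ) ≤ 2 * c * R ^ m := by
    refine hcard.trans ?_
    rw [Ideal.absNorm_top, Nat.cast_one, div_one]
    have : 1 ≤ R ^ m := one_le_pow₀ hR1
    nlinarith
  have hlt : (t : ℝ) * Real.sqrt |(discr K : ℝ)| < (R / 2) ^ Module.finrank ℚ K := by
    rw [hKQ, div_pow]
    have h1 : R ^ ((r + 1) * m) = R ^ m * (A ^ (m * r) * Real.sqrt D) := by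
      rw [← hRpow, ← pow_add]; congr 1; ring
    rw [h1, ← hD, lt_div_iff₀ (by positivity)]
    have h2 : A ≤ A ^ (m * r) := le_self_pow₀ hA1 hmr.ne'
    have h3 : 0 < Real.sqrt D := Real.sqrt_pos.2 (by linarith)
    have h4 : 0 < R ^ m := by positivity
    have h5 : (2 : ℝ) ^ ((r + 1) * m + 1) = 2 * 2 ^ ((r + 1) * m) := by rw [pow_succ]; ring
    have h6 : 2 * c * 2 ^ ((r + 1) * m) < A ^ (m * r) := by
      refine lt_of_lt_of_le ?_ h2
      rw [hA, h5]; linarith
    calc (t : ℝ) * Real.sqrt D * 2 ^ ((r + 1) * m)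
        ≤ (2 * c * R ^ m) * Real.sqrt D * 2 ^ ((r + 1) * m) := by gcongr
      _ = (2 * c * 2 ^ ((r + 1) * m)) * (R ^ m * Real.sqrt D) := by ring
      _ < A ^ (m * r) * (R ^ m * Real.sqrt D) := by gcongr
      _ = _ := by ring
  obtain ⟨S, hS1, hS2⟩ := mu10_many K R hR0 t hlt
  have hex : ∃ α0 : 𝓞 K, Bdd R α0 ∧ (α0 : K) ∉ (algebraMap k K).range := by
    by_contra hcon
    push Not at hcon
    have key : ∀ a : S, ∃ b : 𝓞 k, algebraMap k K (b : k) = ((a : 𝓞 K) : K) := by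
      rintro ⟨a, ha⟩
      obtain ⟨b, hb⟩ := hcon a (hS2 a ha)
      have hint : IsIntegral ℤ b := by
        have h1 : IsIntegral ℤ (algebraMap k K b) := by rw [hb]; exact a.isIntegral_coe
        exact (isIntegral_algebraMap_iff (algebraMap k K).injective).1 h1
      exact ⟨⟨b, hint⟩, hb⟩
    choose g hg using key
    have hinj : Function.Injective g := by
      intro x y hxy
      apply Subtype.ext
      apply RingOfIntegers.ext
      rw [← hg x, ← hg y, hxy]
    have hsub : ((S.attach.image g : Finset (𝓞 k)) : Set (𝓞 k)) ⊆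
        {a : 𝓞 k | Bdd R a ∧ a ∈ (⊤ : Ideal (𝓞 k))} := by
      intro b hb
      obtain ⟨x, -, rfl⟩ := Finset.mem_image.1 (Finset.mem_coe.1 hb)
      refine ⟨fun ψ => ?_, Submodule.mem_top⟩
      obtain ⟨φ, hφ⟩ := mu10_ext (K := K) ψ
      rw [← hφ, hg]
      exact hS2 x x.2 φ
    have h1 := Set.ncard_le_ncard hsub hfin
    rw [Set.ncard_coe_finset, Finset.card_image_of_injective _ hinj, Finset.card_attach] at h1
    omega
  obtain ⟨α0, h0, h1⟩ := hex
  have hint : IsIntegral ℤ (Algebra.trace k K (α0 : K)) :=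
    Algebra.isIntegral_trace α0.isIntegral_coe
  let τ : 𝓞 k := ⟨Algebra.trace k K (α0 : K), hint⟩
  have hτ : (τ : k) = Algebra.trace k K (α0 : K) := rfl
  let α : 𝓞 K := ((r + 1 : ℕ) : 𝓞 K) * α0 - algebraMap (𝓞 k) (𝓞 K) τ
  have hα : (α : K) = ((r + 1 : ℕ) : K) * (α0 : K) - algebraMap k K (τ : k) := by
    show algebraMap (𝓞 K) K _ = _
    rw [map_sub, map_mul, map_natCast, ← IsScalarTower.algebraMap_apply,
      IsScalarTower.algebraMap_apply (𝓞 k) k K]
  refine ⟨α, ?_, ?_, ?_⟩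
  · rw [hα, map_sub, Algebra.trace_algebraMap, hK, ← nsmul_eq_mul, map_nsmul, hτ, sub_self]
  · rintro ⟨y, hy⟩
    have hy' : algebraMap k K y = ((r + 1 : ℕ) : K) * (α0 : K) - algebraMap k K (τ : k) := by
      rw [← hα]; exact hy
    apply h1
    refine ⟨(y + τ) / ((r + 1 : ℕ) : k), ?_⟩
    rw [map_div₀, map_add, hy', map_natCast]
    have : ((r + 1 : ℕ) : K) ≠ 0 := Nat.cast_ne_zero.2 (by omega)
    field_simp
    ring
  · intro φ
    rw [hα, map_sub, map_mul, map_natCast]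
    have h2 : ‖φ (algebraMap k K (τ : k))‖ ≤ (r + 1 : ℕ) * R := by
      have := mu10_trace (k := k) R (α0 : K) h0 (φ.comp (algebraMap k K))
      rw [hK] at this
      exact this
    refine (norm_sub_le _ _).trans ?_
    rw [norm_mul, Complex.norm_natCast]
    have h3 : ‖φ (α0 : K)‖ ≤ R := h0 φ
    have h4 : ((r + 1 : ℕ) : ℝ) * ‖φ (α0 : K)‖ ≤ (r + 1 : ℕ) * R := by gcongr
    have h5 : 2 * ((r : ℝ) + 1) * A * D ^ e = (r + 1 : ℕ) * R + (r + 1 : ℕ) * R := by
      rw [hR]; push_cast; ring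
    have h6 : (2 * ((r : ℝ) + 1) * A * (|discr K| : ℝ) ^
        (1 / (2 * (m : ℝ) * (((r + 1 : ℕ) : ℝ) - 1)) : ℝ)) = 2 * ((r : ℝ) + 1) * A * D ^ e := rfl
    rw [h6, h5]
    linarith

end Pool.Agent.H67.MU
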