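import Pool.Agent.H67.MU.Defs3
import Pool.Agent.H67.MU.Small
import Pool.Agent.H67.MU.Pack
import Pool.Agent.H67.MU.LargeBox

/-! # Project MU, row IMP-3: a small element of trace zero, uniformly in the base field -/

set_option autoImplicit false

open Polynomial IsDedekindDomain NumberField

namespace Pool.Agent.H67.MU

section Map

variable {F K : Type} [Field F] [NumberField F] [Field K] [NumberField K] [Algebra F K]

/-- the trace as an integer -/
noncomputable def imp3_tr (x : 𝓞 K) : 𝓞 F :=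
  ⟨Algebra.trace F K (x : K), Algebra.isIntegral_trace x.isIntegral_coe⟩

theorem imp3_tr_coe (x : 𝓞 K) : ((imp3_tr (F := F) x : 𝓞 F) : F) = Algebra.trace F K (x : K) :=
  rfl

/-- `d x - Tr x` -/
noncomputable def imp3_g (F : Type) {K : Type} [Field F] [NumberField F] [Field K] [NumberField K]
    [Algebra F K] (x : 𝓞 K) : 𝓞 K :=
  ((Module.finrank F K : ℕ) : 𝓞 K) * x - algebraMap (𝓞 F) (𝓞 K) (imp3_tr x)

theorem imp3_g_coe (x : 𝓞 K) : ((imp3_g F x : 𝓞 K) : K) =
    ((Module.finrank F K : ℕ) : K) * (x : K) - algebraMap F K (Algebra.trace F K (x : K)) := by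
  show algebraMap (𝓞 K) K _ = _
  unfold imp3_g
  rw [map_sub, map_mul, map_natCast, ← IsScalarTower.algebraMap_apply,
    IsScalarTower.algebraMap_apply (𝓞 F) F K]
  rfl

theorem imp3_g_trace (x : 𝓞 K) : Algebra.trace F K ((imp3_g F x : 𝓞 K) : K) = 0 := by
  rw [imp3_g_coe, map_sub, Algebra.trace_algebraMap, ← nsmul_eq_mul, map_nsmul, sub_self]

theorem imp3_g_bdd {T : ℝ} {x : 𝓞 K} (hx : Bdd T x) :
    Bdd (2 * Module.finrank F K * T) (imp3_g F x) := by
  intro φ
  rw [imp3_g_coe, map_sub, map_mul, map_natCast]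
  have h2 : ‖φ (algebraMap F K (Algebra.trace F K (x : K)))‖ ≤ Module.finrank F K * T :=
    mu10_trace (k := F) T (x : K) hx (φ.comp (algebraMap F K))
  refine (norm_sub_le _ _).trans ?_
  rw [norm_mul, Complex.norm_natCast]
  have h3 : ‖φ (x : K)‖ ≤ T := hx φ
  have h4 : (Module.finrank F K : ℝ) * ‖φ (x : K)‖ ≤ Module.finrank F K * T := by gcongr
  linarith

/-- two elements with the same image differ by an integer of the base field -/
theorem imp3_g_eq {x y : 𝓞 K} (h : imp3_g F x = imp3_g F y) :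
    ∃ b : 𝓞 F, algebraMap F K (b : F) = (x : K) - (y : K) := by
  have h0 : (0 : ℕ) < Module.finrank F K := Module.finrank_pos
  have hd : ((Module.finrank F K : ℕ) : F) ≠ 0 := Nat.cast_ne_zero.2 h0.ne'
  have h1 : ((imp3_g F x : 𝓞 K) : K) = ((imp3_g F y : 𝓞 K) : K) := by rw [h]
  rw [imp3_g_coe, imp3_g_coe] at h1
  have h2 : algebraMap F K ((Algebra.trace F K (x : K) - Algebra.trace F K (y : K)) /
      ((Module.finrank F K : ℕ) : F)) = (x : K) - (y : K) := by
    rw [map_div₀, map_sub, map_natCast]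
    have hd' : ((Module.finrank F K : ℕ) : K) ≠ 0 := Nat.cast_ne_zero.2 h0.ne'
    rw [div_eq_iff hd']
    linear_combination -h1
  have hint : IsIntegral ℤ ((Algebra.trace F K (x : K) - Algebra.trace F K (y : K)) /
      ((Module.finrank F K : ℕ) : F)) := by
    have h3 : IsIntegral ℤ (algebraMap F K ((Algebra.trace F K (x : K) -
        Algebra.trace F K (y : K)) / ((Module.finrank F K : ℕ) : F))) := by
      rw [h2]
      exact x.isIntegral_coe.sub y.isIntegral_coe
    exact (isIntegral_algebraMap_iff (algebraMap F K).injective).1 h3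
  exact ⟨⟨_, hint⟩, h2⟩

/-- the size of the fibres -/
theorem imp3_fibre {T : ℝ} (S : Finset (𝓞 K)) (hS : ∀ x ∈ S, Bdd T x)
    (hfin : {x : 𝓞 F | Bdd (2 * T) x}.Finite) [DecidableEq (𝓞 K)] (a : 𝓞 K) :
    (S.filter fun x => imp3_g F x = a).card ≤ {x : 𝓞 F | Bdd (2 * T) x}.ncard := by
  classical
  by_cases hne : (S.filter fun x => imp3_g F x = a).Nonempty
  · obtain ⟨x0, hx0⟩ := hne
    rw [Finset.mem_filter] at hx0
    have key : ∀ x : (S.filter fun x => imp3_g F x = a),
        ∃ b : 𝓞 F, algebraMap F K (b : F) = ((x : 𝓞 K) : K) - (x0 : K) := by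
      rintro ⟨x, hx⟩
      rw [Finset.mem_filter] at hx
      exact imp3_g_eq (hx.2.trans hx0.2.symm)
    choose g hg using key
    have hinj : Function.Injective g := by
      intro x y hxy
      apply Subtype.ext
      apply RingOfIntegers.ext
      have h1 := hg x
      rw [hxy, hg y] at h1
      linear_combination -h1
    have hsub : ((Finset.univ.image g : Finset (𝓞 F)) : Set (𝓞 F)) ⊆
        {x : 𝓞 F | Bdd (2 * T) x} := by
      intro b hb
      obtain ⟨x, -, rfl⟩ := Finset.mem_image.1 (Finset.mem_coe.1 hb)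
      intro ψ
      obtain ⟨φ, hφ⟩ := mu10_ext (K := K) ψ
      rw [← hφ, hg, map_sub]
      refine (norm_sub_le _ _).trans ?_
      have h1 := hS x.1 (Finset.mem_filter.1 x.2).1 φ
      have h2 := hS x0 hx0.1 φ
      linarith
    have h1 := Set.ncard_le_ncard hsub hfin
    rw [Set.ncard_coe_finset, Finset.card_image_of_injective _ hinj, Finset.card_univ,
      Fintype.card_coe] at h1
    exact h1
  · rw [Finset.not_nonempty_iff_eq_empty] at hne
    rw [hne, Finset.card_empty]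
    exact Nat.zero_le _

/-- the elements of trace zero -/
noncomputable def imp3_V (F K : Type) [Field F] [NumberField F] [Field K] [NumberField K]
    [Algebra F K] : Submodule ℚ K :=
  LinearMap.ker ((Algebra.trace F K).restrictScalars ℚ)

theorem imp3_finrank :
    Module.finrank ℚ (imp3_V F K) = Module.finrank ℚ F * (Module.finrank F K - 1) := by
  have h0 : (0 : ℕ) < Module.finrank F K := Module.finrank_pos
  have hd : ((Module.finrank F K : ℕ) : F) ≠ 0 := Nat.cast_ne_zero.2 h0.ne'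
  have h1 := LinearMap.finrank_range_add_finrank_ker ((Algebra.trace F K).restrictScalars ℚ)
  have hsurj : LinearMap.range ((Algebra.trace F K).restrictScalars ℚ) = ⊤ := by
    rw [LinearMap.range_eq_top]
    intro y
    refine ⟨algebraMap F K (y / ((Module.finrank F K : ℕ) : F)), ?_⟩
    rw [LinearMap.restrictScalars_apply, Algebra.trace_algebraMap, nsmul_eq_mul]
    field_simp
  rw [hsurj, finrank_top, ← Module.finrank_mul_finrank ℚ F K] at h1
  unfold imp3_V
  rw [Nat.mul_sub, mul_one]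
  omega

end Map

/-- the inequality at the end -/
theorem imp3_real {D f r : ℕ} {T R dK dF c2 S A B : ℝ} {d : ℕ} (hD : D = f + r) (hr : 1 ≤ r)
    (hd : 1 ≤ d) (hdD : d ≤ D)
    (hR : R = (c2 * 2 ^ (2 * D) * (5 * D) + 1) * (dK / dF) ^ (1 / (2 * (r : ℝ))))
    (hTR : R ≤ T) (hdK : 1 ≤ dK) (hdF : 1 ≤ dF) (hc2 : 1 ≤ c2)
    (hS : (T / 2) ^ D ≤ S * Real.sqrt dK) (hB : B * Real.sqrt dF ≤ c2 * (2 * T) ^ f)
    (hSA : S ≤ B * A) (hA0 : 0 ≤ A) (hA : A ≤ (1 + 2 * (2 * d * T) / R) ^ r) : False := by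
  have hdK0 : 0 < dK := by linarith
  have hdF0 : 0 < dF := by linarith
  have hD1 : (1 : ℝ) ≤ D := by
    have : 1 ≤ D := by omega
    exact_mod_cast this
  have hd1 : (1 : ℝ) ≤ d := by exact_mod_cast hd
  have hdD' : (d : ℝ) ≤ D := by exact_mod_cast hdD
  set q : ℝ := (dK / dF) ^ (1 / (2 * (r : ℝ))) with hq
  have hq0 : 0 < q := Real.rpow_pos_of_pos (by positivity) _
  have hqr : q ^ r = Real.sqrt dK / Real.sqrt dF := by
    rw [hq, ← Real.rpow_natCast, ← Real.rpow_mul (by positivity), ← Real.sqrt_div' _ hdF0.le,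
      Real.sqrt_eq_rpow]
    congr 1
    have : (r : ℝ) ≠ 0 := by
      have : (1 : ℝ) ≤ r := by exact_mod_cast hr
      linarith
    field_simp
  set C : ℝ := c2 * 2 ^ (2 * D) * (5 * D) + 1 with hC
  have hC0 : 0 < C := by rw [hC]; positivity
  have hR0 : 0 < R := by rw [hR]; positivity
  have hT0 : 0 < T := by linarith
  have hTR1 : 1 ≤ T / R := by rwa [le_div_iff₀ hR0, one_mul]
  have hA2 : A ≤ (5 * D * T / R) ^ r := by
    refine hA.trans ?_
    apply pow_le_pow_left₀ (by positivity)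
    have h1 : 2 * (2 * d * T) / R = 4 * d * (T / R) := by ring
    have h2 : 5 * D * T / R = 5 * D * (T / R) := by ring
    rw [h1, h2]
    nlinarith
  have hsK : 0 < Real.sqrt dK := Real.sqrt_pos.2 hdK0
  have hsF : 0 < Real.sqrt dF := Real.sqrt_pos.2 hdF0
  -- combine
  have h1 : (T / 2) ^ D * Real.sqrt dF ≤ c2 * (2 * T) ^ f * (5 * D * T / R) ^ r * Real.sqrt dK := by
    calc (T / 2) ^ D * Real.sqrt dF ≤ S * Real.sqrt dK * Real.sqrt dF := by gcongr
      _ ≤ B * A * Real.sqrt dK * Real.sqrt dF := by gcongr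
      _ = (B * Real.sqrt dF) * A * Real.sqrt dK := by ring
      _ ≤ (c2 * (2 * T) ^ f) * A * Real.sqrt dK := by gcongr
      _ ≤ c2 * (2 * T) ^ f * (5 * D * T / R) ^ r * Real.sqrt dK := by gcongr
  have hRr : R ^ r = C ^ r * (Real.sqrt dK / Real.sqrt dF) := by
    rw [hR, mul_pow, hqr]
  have h2 : (5 * D * T / R) ^ r = (5 * D) ^ r * T ^ r / (C ^ r * (Real.sqrt dK / Real.sqrt dF)) := by
    rw [div_pow, mul_pow, hRr]
  rw [h2] at h1
  have h3 : c2 * (2 * T) ^ f * ((5 * D) ^ r * T ^ r / (C ^ r * (Real.sqrt dK / Real.sqrt dF))) *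
      Real.sqrt dK = c2 * 2 ^ f * (5 * D) ^ r / C ^ r * T ^ D * Real.sqrt dF := by
    rw [hD, pow_add, mul_pow]
    field_simp
  rw [h3] at h1
  have h4 : (T / 2) ^ D ≤ c2 * 2 ^ f * (5 * D) ^ r / C ^ r * T ^ D :=
    le_of_mul_le_mul_right h1 hsF
  rw [div_pow, div_le_iff₀ (by positivity)] at h4
  have hTD : 0 < T ^ D := by positivity
  have h5 : 1 ≤ c2 * 2 ^ f * (5 * D) ^ r / C ^ r * 2 ^ D := by
    have : 1 * T ^ D ≤ (c2 * 2 ^ f * (5 * D) ^ r / C ^ r * 2 ^ D) * T ^ D := by linarith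
    exact le_of_mul_le_mul_right this hTD
  have h6 : C ^ r ≤ c2 * 2 ^ f * (5 * D) ^ r * 2 ^ D := by
    have h7 : c2 * 2 ^ f * (5 * D) ^ r / C ^ r * 2 ^ D = c2 * 2 ^ f * (5 * D) ^ r * 2 ^ D / C ^ r := by
      ring
    rw [h7, le_div_iff₀ (by positivity), one_mul] at h5
    exact h5
  have h8 : c2 * 2 ^ f * (5 * D) ^ r * 2 ^ D < C ^ r := by
    have h9 : c2 * 2 ^ f * (5 * D) ^ r * 2 ^ D ≤ (c2 * 2 ^ (2 * D) * (5 * D)) ^ r := by
      have e : (c2 * 2 ^ (2 * D) * (5 * D)) ^ r = (c2 * 2 ^ (2 * D)) ^ r * (5 * (D : ℝ)) ^ r :=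
        mul_pow _ _ _
      rw [e]
      have h10 : c2 * 2 ^ f * 2 ^ D ≤ (c2 * 2 ^ (2 * D)) ^ r := by
        have h11 : (1 : ℝ) ≤ c2 * 2 ^ (2 * D) := by
          have : (1 : ℝ) ≤ 2 ^ (2 * D) := one_le_pow₀ (by norm_num)
          nlinarith
        have h12 : c2 * 2 ^ (2 * D) ≤ (c2 * 2 ^ (2 * D)) ^ r :=
          le_self_pow₀ h11 (by omega)
        have h13 : (2 : ℝ) ^ f * 2 ^ D ≤ 2 ^ (2 * D) := by
          rw [← pow_add]
          exact pow_le_pow_right₀ (by norm_num) (by omega)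
        have h14 : c2 * 2 ^ f * 2 ^ D ≤ c2 * 2 ^ (2 * D) := by
          rw [mul_assoc]
          gcongr
        exact h14.trans h12
      calc c2 * 2 ^ f * (5 * D) ^ r * 2 ^ D = c2 * 2 ^ f * 2 ^ D * (5 * D) ^ r := by ring
        _ ≤ (c2 * 2 ^ (2 * D)) ^ r * (5 * D) ^ r := by gcongr
    refine lt_of_le_of_lt h9 ?_
    apply pow_lt_pow_left₀ _ (by positivity) (by omega)
    rw [hC]
    linarith
  linarith

/-- A small element of trace zero, with a constant that does not depend on the base field. -/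
theorem exists_gen (D : ℕ) : ∃ C : ℝ, 1 ≤ C ∧ ∀ (F K : Type) [Field F] [NumberField F] [Field K]
    [NumberField K] [Algebra F K], Module.finrank ℚ K = D → 2 ≤ Module.finrank F K →
      ∃ α : 𝓞 K, Algebra.trace F K (α : K) = 0 ∧ (α : K) ∉ (algebraMap F K).range ∧
        Bdd (C * (|(discr K : ℝ)| / |(discr F : ℝ)|) ^
          (1 / (2 * Module.finrank ℚ F * (Module.finrank F K - 1) : ℝ))) α := by
  classical
  choose Cf hCf1 hCf using large_box
  set c2 : ℝ := ∑ f ∈ Finset.range (D + 1), Cf f with hc2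
  have hc2f : ∀ f ≤ D, Cf f ≤ c2 := by
    intro f hf
    rw [hc2]
    exact Finset.single_le_sum (f := Cf) (fun i _ => by linarith [hCf1 i])
      (Finset.mem_range.2 (by omega))
  have hc21 : 1 ≤ c2 := (hCf1 0).trans (hc2f 0 (Nat.zero_le D))
  refine ⟨c2 * 2 ^ (2 * D) * (5 * D) + 1, ?_, ?_⟩
  · have : (0 : ℝ) ≤ c2 * 2 ^ (2 * D) * (5 * D) := by positivity
    linarith
  intro F K _ _ _ _ _ hK h2
  set f := Module.finrank ℚ F with hf
  set d := Module.finrank F K with hd
  have hfd : f * d = D := by rw [hf, hd, Module.finrank_mul_finrank, hK]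
  have hf0 : 0 < f := Module.finrank_pos
  set r := f * (d - 1) with hr
  have hr1 : 1 ≤ r := Nat.mul_pos hf0 (by omega)
  have hDr : D = f + r := by
    rw [← hfd, hr, Nat.mul_sub, mul_one]
    have : f ≤ f * d := Nat.le_mul_of_pos_right f (by omega)
    omega
  have hfD : f ≤ D := by omega
  have hdD : d ≤ D := by rw [← hfd]; exact Nat.le_mul_of_pos_left d hf0
  have hrexp : (2 * (f : ℝ) * ((d : ℝ) - 1)) = 2 * (r : ℝ) := by
    rw [hr]
    push_cast [Nat.cast_sub (show 1 ≤ d by omega)]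
    ring
  rw [hrexp]
  have habs : ∀ (M : Type) [Field M] [NumberField M], (1 : ℝ) ≤ |(discr M : ℝ)| := by
    intro M _ _
    have h1 : (1 : ℤ) ≤ |discr M| := Int.one_le_abs (discr_ne_zero M)
    have h2 : ((1 : ℤ) : ℝ) ≤ ((|discr M| : ℤ) : ℝ) := Int.cast_le.2 h1
    rw [Int.cast_abs] at h2
    simpa using h2
  have hdK := habs K
  have hdF := habs F
  set dK : ℝ := |(discr K : ℝ)| with hdK'
  set dF : ℝ := |(discr F : ℝ)| with hdF'
  set R : ℝ := (c2 * 2 ^ (2 * D) * (5 * D) + 1) * (dK / dF) ^ (1 / (2 * (r : ℝ))) with hR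
  have hR0 : 0 < R := by
    rw [hR]
    have : 0 < (dK / dF) ^ (1 / (2 * (r : ℝ))) := Real.rpow_pos_of_pos (by positivity) _
    positivity
  obtain ⟨T0, hT0⟩ := hCf f F hf.symm
  set T : ℝ := max (max T0 R) 1 with hT
  have hT1 : 1 ≤ T := le_max_right _ _
  have hTR : R ≤ T := (le_max_right _ _).trans (le_max_left _ _)
  have hTT0 : T0 ≤ 2 * T := by
    have : T0 ≤ T := (le_max_left _ _).trans (le_max_left _ _)
    linarith
  have hbox := hT0 (2 * T) hTT0
  obtain ⟨cF, -, hcF⟩ := bdd_mem_count F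
  have hfin : {x : 𝓞 F | Bdd (2 * T) x}.Finite := by
    have h1 := (hcF (2 * T) (by linarith) ⊤ top_ne_bot).1
    exact h1.subset fun x hx => ⟨hx, Submodule.mem_top⟩
  set B : ℕ := {x : 𝓞 F | Bdd (2 * T) x}.ncard with hB
  -- many integers
  have hsK : 0 < Real.sqrt dK := Real.sqrt_pos.2 (by linarith)
  obtain ⟨S, hS1, hS2⟩ : ∃ S : Finset (𝓞 K), (T / 2) ^ D ≤ S.card * Real.sqrt dK ∧
      ∀ a ∈ S, Bdd T a := by
    set y : ℝ := (T / 2) ^ D / Real.sqrt dK with hy
    have hy0 : 0 < y := by positivity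
    obtain ⟨S, hS1, hS2⟩ := mu10_many K T (by linarith) (⌈y⌉₊ - 1) (by
      rw [hK]
      have h1 : ((⌈y⌉₊ - 1 : ℕ) : ℝ) < y := by
        have h2 := Nat.ceil_lt_add_one hy0.le
        have h3 : 1 ≤ ⌈y⌉₊ := Nat.ceil_pos.2 hy0
        rw [Nat.cast_sub h3]
        push_cast
        linarith
      calc ((⌈y⌉₊ - 1 : ℕ) : ℝ) * Real.sqrt |(discr K : ℝ)| < y * Real.sqrt dK :=
            mul_lt_mul_of_pos_right h1 hsK
        _ = (T / 2) ^ D := by rw [hy]; field_simp)
    refine ⟨S, ?_, hS2⟩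
    have h1 : y ≤ S.card := by
      have h2 : ⌈y⌉₊ ≤ S.card := by omega
      exact (Nat.le_ceil y).trans (by exact_mod_cast h2)
    calc (T / 2) ^ D = y * Real.sqrt dK := by rw [hy]; field_simp
      _ ≤ _ := mul_le_mul_of_nonneg_right h1 hsK.le
  by_contra hcon
  push Not at hcon
  -- the image
  set A : Finset (𝓞 K) := S.image (imp3_g F) with hA
  have hcard : S.card ≤ B * A.card :=
    Finset.card_le_mul_card_image S B fun a _ => imp3_fibre S hS2 hfin a
  have hpack := pack_int (imp3_V F K) A (2 * d * T) R (by positivity) hR0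
    (by
      intro c hc
      obtain ⟨x, -, rfl⟩ := Finset.mem_image.1 hc
      unfold imp3_V
      rw [LinearMap.mem_ker, LinearMap.restrictScalars_apply]
      exact imp3_g_trace x)
    (by
      intro c hc
      obtain ⟨x, hx, rfl⟩ := Finset.mem_image.1 hc
      exact imp3_g_bdd (hS2 x hx))
    (by
      intro a ha b hb hab
      by_contra hno
      push Not at hno
      obtain ⟨x, -, rfl⟩ := Finset.mem_image.1 ha
      obtain ⟨y, -, rfl⟩ := Finset.mem_image.1 hb
      have htr : Algebra.trace F K ((imp3_g F x - imp3_g F y : 𝓞 K) : K) = 0 := by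
        have : ((imp3_g F x - imp3_g F y : 𝓞 K) : K) =
            ((imp3_g F x : 𝓞 K) : K) - ((imp3_g F y : 𝓞 K) : K) := by
          exact map_sub (algebraMap (𝓞 K) K) _ _
        rw [this, map_sub, imp3_g_trace, imp3_g_trace, sub_zero]
      refine hcon (imp3_g F x - imp3_g F y) htr ?_ fun φ => (hno φ).le
      rintro ⟨z, hz⟩
      rw [← hz, Algebra.trace_algebraMap, nsmul_eq_mul, mul_eq_zero] at htr
      rcases htr with h | h
      · rw [Nat.cast_eq_zero] at h
        omega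
      · rw [h, map_zero] at hz
        apply hab
        have h3 : ((imp3_g F x - imp3_g F y : 𝓞 K) : K) = ((0 : 𝓞 K) : K) := by
          rw [← hz]
          exact (map_zero (algebraMap (𝓞 K) K)).symm
        have h4 := RingOfIntegers.ext h3
        exact sub_eq_zero.1 h4)
  rw [imp3_finrank] at hpack
  refine imp3_real (D := D) (f := f) (r := r) (T := T) (R := R) (dK := dK) (dF := dF) (c2 := c2)
    (S := S.card) (A := A.card) (B := B) (d := d) hDr hr1 (by omega) hdD hR hTR hdK hdF hc21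
    hS1 ?_ (by exact_mod_cast hcard) (Nat.cast_nonneg _) hpack
  refine hbox.trans ?_
  have := hc2f f hfD
  gcongr

end Pool.Agent.H67.MU
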