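import Pool.Agent.H67.MU.AllCount
import Pool.Agent.H67.MU.Block

/-!
# Project MU (MP_a3214d), row IMP-9: the imprimitive groups

The upper bound for Malle's counting function for an imprimitive group `G`: every field counted
has an intermediate field, and the number of such fields is bounded by `imp_count`.
-/

set_option autoImplicit false

open Polynomial IsDedekindDomain NumberField

namespace Pool.Agent.H67.MU

theorem imprimitive_bound (k : Type) [Field k] [NumberField k] (n : ℕ) (hn : 4 ≤ n)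
    (G : Subgroup (Equiv.Perm (Fin n))) (htr : MulAction.IsPretransitive G (Fin n))
    (himp : ¬ MulAction.IsPreprimitive G (Fin n)) :
    ∃ C : ℝ, ∀ B : ℝ, 1 ≤ B →
      (malleCount k n G B : ℝ) ≤ C * B ^ ((n : ℝ) / 8 + 1 / 2) * (1 + Real.log B) := by
  classical
  obtain ⟨C0, hC0, hcount⟩ := imp_count k n (by omega)
  set d : ℝ := ((|NumberField.discr k| : ℤ) : ℝ) with hd
  have hd1 : 1 ≤ d := by
    have h : (1 : ℤ) ≤ |NumberField.discr k| := Int.one_le_abs (NumberField.discr_ne_zero k)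
    rw [hd]
    exact_mod_cast h
  set D : ℝ := d ^ n with hD
  have hD1 : 1 ≤ D := one_le_pow₀ hd1
  have hD0 : 0 < D := by linarith
  set β : ℝ := (n : ℝ) / 8 + 1 / 2 with hβ
  refine ⟨C0 * D ^ β * (1 + Real.log D), fun B hB => ?_⟩
  have hB0 : 0 < B := by linarith
  have hX1 : 1 ≤ B * D := by nlinarith
  obtain ⟨hfin, hcard⟩ := hcount (B * D) hX1
  set U : Set (IntermediateField k (AlgebraicClosure k)) :=
    {K ∈ Subs k n (B * D) | ∃ F : IntermediateField k (AlgebraicClosure k), ⊥ < F ∧ F < K}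
    with hU
  have hcardle : malleCount k n G B ≤ U.ncard := by
    have : Finite U := hfin
    rw [malleCount, ← Nat.card_coe_set_eq]
    have hmem : ∀ L : {M : IntermediateField k (AlgebraicClosure k) //
        Module.finrank k M = n ∧
        (∃ e : (M →ₐ[k] AlgebraicClosure k) ≃ Fin n, ∀ π : Equiv.Perm (Fin n),
          π ∈ G ↔ ∃ σ : AlgebraicClosure k ≃ₐ[k] AlgebraicClosure k,
            ∀ φ : M →ₐ[k] AlgebraicClosure k, e (σ.toAlgHom.comp φ) = π (e φ)) ∧
        ∃ h : NumberField M,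
          ((|@NumberField.discr M _ h| : ℤ) : ℝ) ≤ B * ((|NumberField.discr k| : ℤ) : ℝ) ^ n},
        L.1 ∈ U := by
      rintro ⟨M, hMn, hMG, hM, hMB⟩
      exact ⟨⟨hMn, hM, hMB⟩, exists_between htr himp hMn hMG⟩
    refine Nat.card_le_card_of_injective
      (fun q => (⟨q.out.1, hmem q.out⟩ : U)) fun q q' hqq => ?_
    have h1 : q.out.1 = q'.out.1 := congrArg (fun u : U => u.1) hqq
    have h2 : q.out = q'.out := Subtype.ext h1
    rw [← Quot.out_eq q, ← Quot.out_eq q', h2]
  have h1 : (malleCount k n G B : ℝ) ≤ C0 * (B * D) ^ β * (1 + Real.log (B * D)) :=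
    (Nat.cast_le.mpr hcardle).trans hcard
  refine h1.trans ?_
  have hlB : 0 ≤ Real.log B := Real.log_nonneg hB
  have hlD : 0 ≤ Real.log D := Real.log_nonneg hD1
  have h2 : 1 + Real.log (B * D) ≤ (1 + Real.log D) * (1 + Real.log B) := by
    rw [Real.log_mul hB0.ne' hD0.ne']
    nlinarith [mul_nonneg hlB hlD]
  have h3 : (B * D) ^ β = B ^ β * D ^ β := Real.mul_rpow hB0.le hD0.le
  have h4 : 0 < B ^ β := Real.rpow_pos_of_pos hB0 _
  have h5 : 0 < D ^ β := Real.rpow_pos_of_pos hD0 _
  calc C0 * (B * D) ^ β * (1 + Real.log (B * D))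
      ≤ C0 * (B * D) ^ β * ((1 + Real.log D) * (1 + Real.log B)) :=
        mul_le_mul_of_nonneg_left h2 (by rw [h3]; positivity)
    _ = C0 * D ^ β * (1 + Real.log D) * B ^ β * (1 + Real.log B) := by
        rw [h3]; ring

end Pool.Agent.H67.MU
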