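import Pool.Agent.H67.MU.Disc
import Pool.Agent.H67.MU.Orb

/-!
# Project MU, row MU-6: the index of the group bounds the exponents below
-/

set_option autoImplicit false

open Polynomial IsDedekindDomain NumberField UniqueFactorizationMonoid

namespace Pool.Agent.H67.MU

/-! ### the number of cycles of a permutation -/

theorem mu6_card_add_permInd_le {n : ℕ} (π : Equiv.Perm (Fin n)) (T : Finset (Fin n))
    (hT : ∀ x y, x ∈ T → y ∈ T → (∃ j : ℕ, y = (π ^ j) x) → x = y) :
    T.card + permInd π ≤ n := by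
  classical
  have h1 : (T.filter (fun x => x ∉ π.support)).card + π.support.card ≤ n := by
    rw [← Finset.card_union_of_disjoint]
    · have h2 := Finset.card_le_univ (T.filter (fun x => x ∉ π.support) ∪ π.support)
      rwa [Fintype.card_fin] at h2
    · rw [Finset.disjoint_left]
      intro x hx hx'
      exact (Finset.mem_filter.mp hx).2 hx'
  have h2 : (T.filter (fun x => x ∈ π.support)).card ≤ Multiset.card π.cycleType := by
    rw [Equiv.Perm.cycleType_def, Multiset.card_map]
    refine Finset.card_le_card_of_injOn (fun x => π.cycleOf x) ?_ ?_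
    · intro x hx
      have hx' := (Finset.mem_filter.mp (Finset.mem_coe.mp hx)).2
      exact Equiv.Perm.cycleOf_mem_cycleFactorsFinset_iff.mpr hx'
    · intro x hx y hy hxy
      have hx' := Finset.mem_filter.mp (Finset.mem_coe.mp hx)
      have hy' := Finset.mem_filter.mp (Finset.mem_coe.mp hy)
      have h3 : π.SameCycle x y :=
        (Equiv.Perm.sameCycle_iff_cycleOf_eq_of_mem_support hx'.2 hy'.2).mpr hxy
      obtain ⟨j, hj⟩ := h3.exists_nat_pow_eq
      exact hT x y hx'.1 hy'.1 ⟨j, hj.symm⟩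
  have h3 : (T.filter (fun x => x ∈ π.support)).card +
      (T.filter (fun x => x ∉ π.support)).card = T.card :=
    Finset.card_filter_add_card_filter_not _
  have h4 : Multiset.card π.cycleType ≤ π.support.card := by
    have h5 := Multiset.card_nsmul_le_sum (s := π.cycleType) (a := 1)
      (fun x hx => (Equiv.Perm.two_le_of_mem_cycleType hx).trans' (by norm_num))
    rwa [Equiv.Perm.sum_cycleType, smul_eq_mul, mul_one] at h5
  unfold permInd
  omega

theorem mu6_permInd_le {n : ℕ} (π : Equiv.Perm (Fin n)) : permInd π ≤ n := by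
  have h := mu6_card_add_permInd_le π ∅ (by intro x y hx; exact absurd hx (Finset.notMem_empty x))
  omega

/-! ### an element of the inertia group -/

theorem mu6_exists_inertia {k K L : Type} [Field k] [NumberField k] [Field K] [NumberField K]
    [Field L] [NumberField L] [Algebra k K] [Algebra k L] [Algebra K L] [IsScalarTower k K L]
    [IsGalois k L] (p : Ideal (𝓞 k)) [p.IsPrime] (hp : p ≠ ⊥)
    (hram : 0 < vexp p (relDisc k K)) :
    ∃ P : Ideal (𝓞 L), P.IsPrime ∧ P ≠ ⊥ ∧ P.under (𝓞 k) = p ∧ ∃ g : L ≃ₐ[k] L, g ≠ 1 ∧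
      ∀ x : 𝓞 L, RingOfIntegers.mapRingHom (g : L →+* L) x - x ∈ P := by
  classical
  have hsum := vexp_relDisc k K p hp
  have hex : ∃ Q ∈ IsDedekindDomain.primesOverFinset p (𝓞 K),
      vexp Q (differentIdeal (𝓞 k) (𝓞 K)) ≠ 0 := by
    by_contra hcon
    have h0 : ∑ P ∈ IsDedekindDomain.primesOverFinset p (𝓞 K),
        P.inertiaDeg (𝓞 k) * vexp P (differentIdeal (𝓞 k) (𝓞 K)) = 0 := by
      refine Finset.sum_eq_zero (fun Q hQ => ?_)
      by_contra hne
      exact hcon ⟨Q, hQ, fun h => hne (by rw [h, mul_zero])⟩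
    omega
  obtain ⟨Q, hQ, hQD⟩ := hex
  have hpmax : p.IsMaximal := Ring.DimensionLEOne.maximalOfPrime hp inferInstance
  have hQ' := (IsDedekindDomain.mem_primesOverFinset_iff hp (𝓞 K)).mp hQ
  have hQp : Q.IsPrime := hQ'.1
  have hQo : Q.LiesOver p := hQ'.2
  have hQne : Q ≠ ⊥ := Ideal.ne_bot_of_liesOver_of_ne_bot hp Q
  have hQmax : Q.IsMaximal := Ring.DimensionLEOne.maximalOfPrime hQne inferInstance
  have hdvd : Q ∣ differentIdeal (𝓞 k) (𝓞 K) := by
    unfold vexp at hQD
    exact dvd_of_mem_normalizedFactors (Multiset.count_ne_zero.mp hQD)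
  have hunr : ¬ Algebra.IsUnramifiedAt (𝓞 k) Q := dvd_differentIdeal_iff.mp hdvd
  obtain ⟨P, hP1, hP2⟩ := Ideal.exists_maximal_ideal_liesOver_of_isIntegral (S := 𝓞 L) Q
  have hPp : P.IsPrime := hP1.isPrime
  have hPo : P.LiesOver p := Ideal.LiesOver.trans P Q p
  have hPne : P ≠ ⊥ := Ideal.ne_bot_of_liesOver_of_ne_bot hp P
  have hunder : P.under (𝓞 k) = p := (Ideal.over_def P p).symm
  refine ⟨P, hPp, hPne, hunder, ?_⟩
  have hcard : Nat.card (P.inertia (L ≃ₐ[k] L)) = P.ramificationIdx (𝓞 k) := by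
    have hfin : Finite (𝓞 k ⧸ p) := Ring.HasFiniteQuotients.finiteQuotient hp
    rw [Ideal.card_inertia_eq_ramificationIdxIn (G := L ≃ₐ[k] L) p P,
      Ideal.ramificationIdxIn_eq_ramificationIdx p P (L ≃ₐ[k] L)]
  have hne1 : Nat.card (P.inertia (L ≃ₐ[k] L)) ≠ 1 := by
    intro h1
    rw [hcard] at h1
    have h2 : Algebra.IsUnramifiedAt (𝓞 k) P := Ideal.ramificationIdx_eq_one_iff.mp h1
    exact hunr (Algebra.IsUnramifiedAt.of_liesOver (𝓞 k) Q P)
  have hnb : P.inertia (L ≃ₐ[k] L) ≠ ⊥ := by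
    intro h
    exact hne1 (by rw [h]; exact Subgroup.card_bot)
  obtain ⟨g, hg, hg1⟩ := (Subgroup.bot_or_exists_ne_one _).resolve_left hnb
  refine ⟨g, hg1, fun x => ?_⟩
  exact hg x

/-! ### the Galois closure -/

theorem mu6_lift {k Ω N : Type} [Field k] [Field Ω] [Algebra k Ω] [Field N] [Algebra k N]
    [Normal k Ω] (ι : N →ₐ[k] Ω) (g : N ≃ₐ[k] N) :
    ∃ σ : Ω ≃ₐ[k] Ω, ∀ x, σ (ι x) = ι (g x) := by
  let a3 : Algebra N Ω := ι.toRingHom.toAlgebra
  have s3 : IsScalarTower k N Ω := IsScalarTower.of_algebraMap_eq' ι.comp_algebraMap.symm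
  exact ⟨AlgEquiv.liftNormal g Ω, fun x => AlgEquiv.liftNormal_commutes g Ω x⟩

theorem resDeg_add_groupInd_le {k : Type} [Field k] [NumberField k] {n : ℕ}
    {G : Subgroup (Equiv.Perm (Fin n))} {M : IntermediateField k (AlgebraicClosure k)}
    [NumberField M] (hM : HasGroup G M) (hn : Module.finrank k M = n)
    (p : Ideal (𝓞 k)) [p.IsPrime] (hp : p ≠ ⊥) (hram : 0 < vexp p (relDisc k M)) :
    resDeg k M p + groupInd G ≤ n := by
  classical
  have hMfin : FiniteDimensional k M := Module.Finite.of_restrictScalars_finite ℚ k M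
  let L := IntermediateField.normalClosure k M (AlgebraicClosure k)
  have hLnormal : Normal k L := normalClosure.normal k M (AlgebraicClosure k)
  have hLfin : FiniteDimensional k L :=
    normalClosure.is_finiteDimensional k M (AlgebraicClosure k)
  have hLnf : NumberField L := NumberField.of_module_finite k L
  have hLgal : IsGalois k L := ⟨⟩
  let i : M →ₐ[k] L := IntermediateField.inclusion (IntermediateField.le_normalClosure M)
  let aML : Algebra M L := i.toRingHom.toAlgebra
  have hst : IsScalarTower k M L := IsScalarTower.of_algebraMap_eq' i.comp_algebraMap.symm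
  obtain ⟨P, hPp, hPne, hunder, g, hg1, hg⟩ :=
    mu6_exists_inertia (k := k) (K := M) (L := L) p hp hram
  obtain ⟨e, he⟩ := hM
  obtain ⟨σ, hσ⟩ := mu6_lift (k := k) (Ω := AlgebraicClosure k) (N := L) L.val g
  -- the permutation of the embeddings
  let τ : Equiv.Perm (M →ₐ[k] AlgebraicClosure k) :=
    { toFun := fun φ => σ.toAlgHom.comp φ
      invFun := fun φ => σ.symm.toAlgHom.comp φ
      left_inv := fun φ => by
        ext x
        exact σ.symm_apply_apply (φ x)
      right_inv := fun φ => by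
        ext x
        exact σ.apply_symm_apply (φ x) }
  let π : Equiv.Perm (Fin n) := (e.symm.trans τ).trans e
  have hπ : ∀ φ : M →ₐ[k] AlgebraicClosure k, e (σ.toAlgHom.comp φ) = π (e φ) := by
    intro φ
    show e (τ φ) = e (τ (e.symm (e φ)))
    rw [Equiv.symm_apply_apply]
  have hπG : π ∈ G := (he π).mpr ⟨σ, hπ⟩
  have hπ1 : π ≠ 1 := by
    intro h1
    apply hg1
    have hfix : ∀ φ : M →ₐ[k] AlgebraicClosure k, σ.toAlgHom.comp φ = φ := by
      intro φ
      apply e.injective
      rw [hπ φ, h1]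
      rfl
    have hle : L ≤ IntermediateField.fixedField (Subgroup.zpowers σ) := by
      refine normalClosure_le_iff.mpr (fun φ => ?_)
      rintro _ ⟨x, rfl⟩
      rw [IntermediateField.mem_fixedField_iff]
      intro f hf
      have h2 : Subgroup.zpowers σ ≤ MulAction.stabilizer
          (AlgebraicClosure k ≃ₐ[k] AlgebraicClosure k) (φ x) := by
        rw [Subgroup.zpowers_le]
        exact DFunLike.congr_fun (hfix φ) x
      exact h2 hf
    ext x
    have h3 := (IntermediateField.mem_fixedField_iff _ _).mp (hle x.2) σ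
      (Subgroup.mem_zpowers σ)
    have h4 := hσ x
    rw [AlgEquiv.one_apply]
    rw [← h3]
    exact h4.symm
  have hpow : ∀ (j : ℕ) (φ : M →ₐ[k] L),
      e (L.val.comp (((g ^ j : L ≃ₐ[k] L) : L →ₐ[k] L).comp φ)) =
        (π ^ j) (e (L.val.comp φ)) := by
    intro j
    induction j with
    | zero =>
      intro φ
      rfl
    | succ j ih =>
      intro φ
      have h5 : L.val.comp (((g ^ (j + 1) : L ≃ₐ[k] L) : L →ₐ[k] L).comp φ) =
          σ.toAlgHom.comp (L.val.comp (((g ^ j : L ≃ₐ[k] L) : L →ₐ[k] L).comp φ)) := by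
        ext x
        have h6 := hσ ((g ^ j : L ≃ₐ[k] L) (φ x))
        rw [pow_succ']
        exact h6.symm
      rw [h5, hπ, ih, pow_succ', Equiv.Perm.mul_apply]
  have hmain : resDeg k M (P.under (𝓞 k)) ≤ n - permInd π := by
    refine resDeg_le_orbits i P hPne g hg (n - permInd π) (fun S hS => ?_)
    have hinj : Function.Injective (fun φ : M →ₐ[k] L => e (L.val.comp φ)) := by
      intro φ ψ h
      have h7 := e.injective h
      ext x
      exact DFunLike.congr_fun h7 x
    have h8 := mu6_card_add_permInd_le π (S.image (fun φ => e (L.val.comp φ))) (by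
      intro x y hx hy hxy
      obtain ⟨φ, hφ, rfl⟩ := Finset.mem_image.mp hx
      obtain ⟨ψ, hψ, rfl⟩ := Finset.mem_image.mp hy
      obtain ⟨j, hj⟩ := hxy
      have h9 : ψ = ((g ^ j : L ≃ₐ[k] L) : L →ₐ[k] L).comp φ := by
        apply hinj
        show e (L.val.comp ψ) = _
        rw [hj]
        exact (hpow j φ).symm
      rw [hS φ ψ hφ hψ ⟨j, h9⟩])
    rw [Finset.card_image_of_injective _ hinj] at h8
    omega
  rw [hunder] at hmain
  have h10 : groupInd G ≤ permInd π := Nat.sInf_le ⟨π, hπG, hπ1, rfl⟩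
  have h11 := mu6_permInd_le π
  omega

end Pool.Agent.H67.MU
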