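import Pool.Agent.H67.MU.Final2
import Pool.Agent.H67.MU.Imprim

set_option autoImplicit false

open Polynomial IsDedekindDomain NumberField UniqueFactorizationMonoid

namespace Pool.Agent.H67.MU

theorem mu30_ind {n : ℕ} (hn : 2 ≤ n) {G : Subgroup (Equiv.Perm (Fin n))}
    (htr : MulAction.IsPretransitive G (Fin n)) : 1 ≤ groupInd G ∧ groupInd G + 1 ≤ n := by
  classical
  have hlt : ∀ g : Equiv.Perm (Fin n), g ≠ 1 → 1 ≤ permInd g ∧ permInd g + 1 ≤ n := by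
    intro g hg
    have h1 : 0 < Multiset.card g.cycleType := by
      rw [Multiset.card_pos]
      intro h3
      exact hg (Equiv.Perm.cycleType_eq_zero.mp h3)
    have h2 : g.support.card ≤ n := by
      simpa using Finset.card_le_univ g.support
    have h3 : Multiset.card g.cycleType * 2 ≤ g.cycleType.sum :=
      Multiset.card_nsmul_le_sum fun x hx => Equiv.Perm.two_le_of_mem_cycleType hx
    rw [Equiv.Perm.sum_cycleType] at h3
    unfold permInd
    omega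
  have hne : {j | ∃ g ∈ G, g ≠ 1 ∧ permInd g = j}.Nonempty := by
    obtain ⟨⟨g, hg⟩, hg1⟩ := htr.exists_smul_eq (⟨0, by omega⟩ : Fin n) ⟨1, by omega⟩
    refine ⟨permInd g, g, hg, ?_, rfl⟩
    rintro rfl
    have h2 : (⟨0, by omega⟩ : Fin n) = ⟨1, by omega⟩ := hg1
    simp at h2
  obtain ⟨g, -, hg1, hg2⟩ := Nat.sInf_mem hne
  rw [← groupInd] at hg2
  rw [← hg2]
  exact hlt g hg1

theorem main3 (k : Type) [Field k] [NumberField k] (n : ℕ) (hn : 4 ≤ n)
    (G : Subgroup (Equiv.Perm (Fin n))) (htr : MulAction.IsPretransitive G (Fin n))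
    (hp : MulAction.IsPreprimitive G (Fin n) ∨ 9 ≤ n) (hne : G ≠ ⊤) (ε : ℝ) (hε : 0 < ε) :
    ∃ C : ℝ, ∀ B : ℝ, 1 ≤ B →
      (malleCount k n G B : ℝ) ≤ C * B ^ (((n : ℝ) ^ 2 - 4 * n + 2) / (4 * (n - 1)) +
        3 / (2 * (groupInd G : ℝ)) + ε) := by
  by_cases hG : MulAction.IsPreprimitive G (Fin n)
  · exact main2 k n hn G hG hne ε hε
  have hn9 : 9 ≤ n := hp.resolve_left hG
  obtain ⟨C, hC⟩ := imprimitive_bound k n hn G htr hG
  obtain ⟨hi1, hi2⟩ := mu30_ind (by omega) htr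
  set r := groupInd G with hr
  have hn' : (9 : ℝ) ≤ n := by exact_mod_cast hn9
  have hr1 : (1 : ℝ) ≤ r := by exact_mod_cast hi1
  have hr2 : (r : ℝ) ≤ n - 1 := by
    have : ((r + 1 : ℕ) : ℝ) ≤ n := by exact_mod_cast hi2
    push_cast at this
    linarith
  have hexp : (n : ℝ) / 8 + 1 / 2 ≤ ((n : ℝ) ^ 2 - 4 * n + 2) / (4 * (n - 1)) +
      3 / (2 * (r : ℝ)) := by
    have h1 : 3 / (2 * ((n : ℝ) - 1)) ≤ 3 / (2 * (r : ℝ)) :=
      div_le_div_of_nonneg_left (by norm_num) (by linarith) (by linarith)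
    have h2 : (n : ℝ) / 8 + 1 / 2 ≤ ((n : ℝ) ^ 2 - 4 * n + 2) / (4 * (n - 1)) +
        3 / (2 * ((n : ℝ) - 1)) := by
      have h3 : ((n : ℝ) ^ 2 - 4 * n + 2) / (4 * (n - 1)) + 3 / (2 * ((n : ℝ) - 1)) =
          (2 * ((n : ℝ) ^ 2 - 4 * n + 2) + 12) / (8 * (n - 1)) := by
        have : (n : ℝ) - 1 ≠ 0 := by linarith
        field_simp
        ring
      rw [h3, le_div_iff₀ (by linarith)]
      nlinarith
    linarith
  have hC0 : 0 ≤ C := by
    have h3 := hC 1 le_rfl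
    rw [Real.one_rpow, Real.log_one, add_zero, mul_one, mul_one] at h3
    exact le_trans (Nat.cast_nonneg _) h3
  refine ⟨C * (1 + 1 / ε), fun B hB => (hC B hB).trans ?_⟩
  have hB0 : (0 : ℝ) < B := by linarith
  have h4 : 1 + Real.log B ≤ (1 + 1 / ε) * B ^ ε := by
    have h5 : Real.log B ≤ B ^ ε / ε := Real.log_le_rpow_div hB0.le hε
    have h6 : 1 ≤ B ^ ε := Real.one_le_rpow hB hε.le
    have h7 : B ^ ε / ε = 1 / ε * B ^ ε := by ring
    nlinarith
  have h5 : B ^ ((n : ℝ) / 8 + 1 / 2) ≤ B ^ (((n : ℝ) ^ 2 - 4 * n + 2) / (4 * (n - 1)) +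
      3 / (2 * (r : ℝ))) := Real.rpow_le_rpow_of_exponent_le hB hexp
  rw [Real.rpow_add hB0 _ ε]
  have h8 : 0 ≤ 1 + Real.log B := by
    have := Real.log_nonneg hB
    linarith
  calc C * B ^ ((n : ℝ) / 8 + 1 / 2) * (1 + Real.log B)
      ≤ C * B ^ (((n : ℝ) ^ 2 - 4 * n + 2) / (4 * (n - 1)) + 3 / (2 * (r : ℝ))) *
          ((1 + 1 / ε) * B ^ ε) := by
        refine mul_le_mul (mul_le_mul_of_nonneg_left h5 hC0) h4 h8 (by positivity)
    _ = _ := by ring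

end Pool.Agent.H67.MU
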