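import Pool.Agent.H67.MU.Defs3
import Pool.Agent.H67.MU.Pack
import Pool.Agent.H67.MU.GenZ
import Pool.Agent.H67.MU.Disc
import Pool.Agent.H67.MU.Coeff

/-!
# Project MU (MP_a3214d), block IMP, row IMP-4

The number of extensions of `F` without intermediate fields, uniformly in `F`.
-/

set_option autoImplicit false

open Polynomial IsDedekindDomain NumberField

namespace Pool.Agent.H67.MU

theorem imp4_dab {k : Type} [Field k] [NumberField k]
    (F : IntermediateField k (AlgebraicClosure k)) [h : NumberField F] :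
    dab F = |(discr F : ℝ)| := by
  unfold dab
  rw [dif_pos h, Int.cast_abs]

theorem one_le_dab {k : Type} [Field k] [NumberField k]
    (F : IntermediateField k (AlgebraicClosure k)) : 1 ≤ dab F := by
  classical
  by_cases h : NumberField F
  · rw [imp4_dab F, ← Int.cast_abs]
    have h1 : 0 < |discr F| := abs_pos.2 (discr_ne_zero F)
    exact_mod_cast h1
  · unfold dab
    rw [dif_neg h]

/-- A subfield of a number field. -/
theorem imp4_nf {k : Type} [Field k] [NumberField k]
    {F K : IntermediateField k (AlgebraicClosure k)} (hK : NumberField K) (hFK : F ≤ K) :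
    NumberField F := by
  have h1 : FiniteDimensional k K := Module.Finite.of_restrictScalars_finite ℚ k K
  have h2 : FiniteDimensional k F := by
    refine FiniteDimensional.of_injective (IntermediateField.inclusion hFK).toLinearMap ?_
    exact (IntermediateField.inclusion hFK).injective
  have h3 : FiniteDimensional ℚ F := Module.Finite.trans k F
  exact ⟨⟩

theorem imp4_disc {k : Type} [Field k] [NumberField k]
    {F K : IntermediateField k (AlgebraicClosure k)} [NumberField F] [NumberField K]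
    [Algebra F K] : |(discr F : ℝ)| ^ Module.finrank F K ≤ |(discr K : ℝ)| := by
  have h1 := natAbs_discr F K
  have h2 : 1 ≤ Ideal.absNorm (relDisc F K) := by
    refine Nat.one_le_iff_ne_zero.2 fun h0 => ?_
    rw [h0, zero_mul, Int.natAbs_eq_zero] at h1
    exact discr_ne_zero K h1
  have h3 : (discr F).natAbs ^ Module.finrank F K ≤ (discr K).natAbs := by
    rw [h1]
    exact Nat.le_mul_of_pos_left _ h2
  have h4 : ((discr F).natAbs : ℝ) ^ Module.finrank F K ≤ ((discr K).natAbs : ℝ) := by
    exact_mod_cast h3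
  rw [Nat.cast_natAbs, Nat.cast_natAbs, Int.cast_abs, Int.cast_abs] at h4
  exact h4

theorem dab_pow_le {k : Type} [Field k] [NumberField k] {n : ℕ} {X : ℝ}
    {F K : IntermediateField k (AlgebraicClosure k)} (hK : K ∈ Subs k n X) (hFK : F ≤ K) :
    Module.finrank k F ∣ n ∧ dab F ^ (n / Module.finrank k F) ≤ X := by
  obtain ⟨hn, hNK, hX⟩ := hK
  have hNF : NumberField F := imp4_nf hNK hFK
  let _ : Algebra F K := (IntermediateField.inclusion hFK).toRingHom.toAlgebra
  have : IsScalarTower k F K := IsScalarTower.of_algebraMap_eq fun x => rfl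
  have h1 : FiniteDimensional k K := Module.Finite.of_restrictScalars_finite ℚ k K
  have h2 : FiniteDimensional k F := Module.Finite.of_restrictScalars_finite ℚ k F
  have h3 := Module.finrank_mul_finrank k F K
  rw [hn] at h3
  have h4 : 0 < Module.finrank k F := Module.finrank_pos
  refine ⟨⟨_, h3.symm⟩, ?_⟩
  rw [← h3, Nat.mul_div_cancel_left _ h4, imp4_dab F]
  refine le_trans imp4_disc ?_
  rw [← Int.cast_abs]
  exact hX

/-- The coefficient vectors. -/
theorem imp4_prod (d f : ℕ) (U : ℝ) (hU : 1 ≤ U) :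
    ∃ E : ℕ, 2 * E = d * (d + 3) ∧
      ∏ j : Fin (d + 1), (if (j : ℕ) = 0 then (1 : ℝ)
        else (1 + 2 * (2 ^ (d + 1) * U ^ ((j : ℕ) + 1))) ^ f) ≤
        (2 ^ (d + 3)) ^ (f * d) * U ^ (f * E) := by
  refine ⟨∑ j ∈ Finset.range d, (j + 2), ?_, ?_⟩
  · induction d with
    | zero => simp
    | succ d ih =>
      rw [Finset.sum_range_succ, mul_add, ih]
      ring
  · rw [Fin.prod_univ_eq_prod_range (fun j : ℕ => if j = 0 then (1 : ℝ)
        else (1 + 2 * (2 ^ (d + 1) * U ^ (j + 1))) ^ f) (d + 1), Finset.prod_range_succ']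
    rw [if_pos rfl, mul_one]
    have h1 : ∀ j ∈ Finset.range d, (if j + 1 = 0 then (1 : ℝ)
        else (1 + 2 * (2 ^ (d + 1) * U ^ (j + 1 + 1))) ^ f) ≤
        (2 ^ (d + 3)) ^ f * U ^ (f * (j + 2)) := by
      intro j _
      rw [if_neg (Nat.succ_ne_zero j)]
      have h2 : 1 + 2 * (2 ^ (d + 1) * U ^ (j + 1 + 1)) ≤ 2 ^ (d + 3) * U ^ (j + 2) := by
        have h3 : 1 ≤ U ^ (j + 2) := one_le_pow₀ hU
        have h4 : (1 : ℝ) ≤ 2 ^ (d + 1) := one_le_pow₀ (by norm_num)
        have h5 : (2 : ℝ) ^ (d + 3) = 4 * 2 ^ (d + 1) := by ring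
        rw [h5]
        have h6 : 1 ≤ 2 ^ (d + 1) * U ^ (j + 2) := one_le_mul_of_one_le_of_one_le h4 h3
        have h7 : U ^ (j + 1 + 1) = U ^ (j + 2) := rfl
        rw [h7]
        linarith
      calc (1 + 2 * (2 ^ (d + 1) * U ^ (j + 1 + 1))) ^ f ≤ (2 ^ (d + 3) * U ^ (j + 2)) ^ f :=
            pow_le_pow_left₀ (by positivity) h2 f
        _ = (2 ^ (d + 3)) ^ f * U ^ (f * (j + 2)) := by
            rw [mul_pow, ← pow_mul U, mul_comm f]
    refine (Finset.prod_le_prod (fun j _ => ?_) h1).trans ?_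
    · split_ifs <;> positivity
    · rw [Finset.prod_mul_distrib, Finset.prod_const, Finset.card_range, ← pow_mul,
        Finset.prod_pow_eq_pow_sum, ← Finset.mul_sum]

/-- The finite set of the possible generators. -/
theorem imp4_roots {k : Type} [Field k] [NumberField k]
    (F : IntermediateField k (AlgebraicClosure k)) [NumberField F] (d : ℕ) (U : ℝ) (hU : 1 ≤ U) :
    ∃ T : Finset (AlgebraicClosure k),
      (T.card : ℝ) ≤ (d + 1) * ∏ j : Fin (d + 1), (if (j : ℕ) = 0 then (1 : ℝ)
        else (1 + 2 * (2 ^ (d + 1) * U ^ ((j : ℕ) + 1))) ^ Module.finrank ℚ F) ∧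
      ∀ c : Fin (d + 1) → 𝓞 F, (∀ j : Fin (d + 1), (j : ℕ) = 0 → c j = 0) →
        (∀ j : Fin (d + 1), Bdd (2 ^ (d + 1) * U ^ ((j : ℕ) + 1)) (c j)) →
        ∀ θ : AlgebraicClosure k, ((monicOf c).map ((algebraMap F (AlgebraicClosure k)).comp
          (algebraMap (𝓞 F) F))).eval θ = 0 → θ ∈ T := by
  classical
  set ψ : 𝓞 F →+* AlgebraicClosure k := (algebraMap F (AlgebraicClosure k)).comp
    (algebraMap (𝓞 F) F) with hψ
  have hB : ∀ j : Fin (d + 1), (0 : ℝ) ≤ 2 ^ (d + 1) * U ^ ((j : ℕ) + 1) := fun j => by positivity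
  set s : Fin (d + 1) → Finset (𝓞 F) := fun j => if (j : ℕ) = 0 then {0} else
    (box_count F (2 ^ (d + 1) * U ^ ((j : ℕ) + 1)) (hB j)).1.toFinset with hs
  have hcs : ∀ j : Fin (d + 1), ((s j).card : ℝ) ≤ if (j : ℕ) = 0 then (1 : ℝ)
        else (1 + 2 * (2 ^ (d + 1) * U ^ ((j : ℕ) + 1))) ^ Module.finrank ℚ F := by
    intro j
    simp only [hs]
    split_ifs with h0
    · simp
    · have h1 := (box_count F (2 ^ (d + 1) * U ^ ((j : ℕ) + 1)) (hB j)).2
      rwa [Set.ncard_eq_toFinset_card _
        (box_count F (2 ^ (d + 1) * U ^ ((j : ℕ) + 1)) (hB j)).1] at h1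
  refine ⟨(Fintype.piFinset s).biUnion (fun c => ((monicOf c).map ψ).roots.toFinset), ?_, ?_⟩
  · have h1 : ((Fintype.piFinset s).biUnion
        (fun c => ((monicOf c).map ψ).roots.toFinset)).card ≤
        (Fintype.piFinset s).card * (d + 1) := by
      refine Finset.card_biUnion_le_card_mul _ _ _ fun c _ => ?_
      refine (Multiset.toFinset_card_le _).trans ?_
      refine (Polynomial.card_roots' _).trans ?_
      rw [(monicOf_monic c).1.natDegree_map, (monicOf_monic c).2]
    have h2 : (((Fintype.piFinset s).biUnion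
        (fun c => ((monicOf c).map ψ).roots.toFinset)).card : ℝ) ≤
        ((Fintype.piFinset s).card : ℝ) * (d + 1) := by exact_mod_cast h1
    refine h2.trans ?_
    rw [mul_comm]
    refine mul_le_mul_of_nonneg_left ?_ (by positivity)
    rw [Fintype.card_piFinset]
    push_cast
    exact Finset.prod_le_prod (fun j _ => Nat.cast_nonneg _) fun j _ => hcs j
  · intro c hc0 hc1 θ hθ
    refine Finset.mem_biUnion.2 ⟨c, ?_, ?_⟩
    · rw [Fintype.mem_piFinset]
      intro j
      simp only [hs]
      split_ifs with h0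
      · rw [Finset.mem_singleton]
        exact hc0 j h0
      · rw [Set.Finite.mem_toFinset]
        exact hc1 j
    · rw [Multiset.mem_toFinset, Polynomial.mem_roots]
      · exact hθ
      · exact ((monicOf_monic c).1.map ψ).ne_zero

/-- The generator of one field. -/
theorem imp4_one {k : Type} [Field k] [NumberField k] (n : ℕ) (C₁ : ℝ) (hC₁ : 1 ≤ C₁)
    (hgen : ∀ (F K : Type) [Field F] [NumberField F] [Field K]
    [NumberField K] [Algebra F K], Module.finrank ℚ K = Module.finrank ℚ k * n →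
      2 ≤ Module.finrank F K →
      ∃ α : 𝓞 K, Algebra.trace F K (α : K) = 0 ∧ (α : K) ∉ (algebraMap F K).range ∧
        Bdd (C₁ * (|(discr K : ℝ)| / |(discr F : ℝ)|) ^
          (1 / (2 * Module.finrank ℚ F * (Module.finrank F K - 1) : ℝ))) α)
    {F K : IntermediateField k (AlgebraicClosure k)} [NumberField F] {X : ℝ}
    (hK : K ∈ Subs k n X) (hFK : F ⋖ K) (d : ℕ) (hd : n / Module.finrank k F = d + 1) :
    1 ≤ d ∧ ∃ (c : Fin (d + 1) → 𝓞 F) (θ : AlgebraicClosure k),
      (∀ j : Fin (d + 1), (j : ℕ) = 0 → c j = 0) ∧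
      (∀ j : Fin (d + 1), Bdd (2 ^ (d + 1) * (C₁ * (X / dab F) ^
        (1 / (2 * Module.finrank ℚ F * (d : ℝ)))) ^ ((j : ℕ) + 1)) (c j)) ∧
      ((monicOf c).map ((algebraMap F (AlgebraicClosure k)).comp
          (algebraMap (𝓞 F) F))).eval θ = 0 ∧ K = F ⊔ IntermediateField.adjoin k {θ} := by
  obtain ⟨hn, hNK, hX⟩ := hK
  let _ : Algebra F K := (IntermediateField.inclusion hFK.le).toRingHom.toAlgebra
  have hst : IsScalarTower k F K := IsScalarTower.of_algebraMap_eq fun x => rfl
  have hst2 : IsScalarTower F K (AlgebraicClosure k) := IsScalarTower.of_algebraMap_eq fun x => rfl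
  have h1 : FiniteDimensional k K := Module.Finite.of_restrictScalars_finite ℚ k K
  have h2 : FiniteDimensional k F := Module.Finite.of_restrictScalars_finite ℚ k F
  have h2' : FiniteDimensional F K := Module.Finite.of_restrictScalars_finite k F K
  have h3 := Module.finrank_mul_finrank k F K
  rw [hn] at h3
  have h4 : 0 < Module.finrank k F := Module.finrank_pos
  have hdK : Module.finrank F K = d + 1 := by
    rw [← h3, Nat.mul_div_cancel_left _ h4] at hd
    exact hd
  have hrange : ∀ x : AlgebraicClosure k, (hx : x ∈ K) →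
      (⟨x, hx⟩ : K) ∈ (algebraMap F K).range → x ∈ F := by
    intro x hx hr
    obtain ⟨y, hy⟩ := RingHom.mem_range.1 hr
    have h5 : ((algebraMap F K y : K) : AlgebraicClosure k) = x := by rw [hy]
    rw [← h5]
    exact y.2
  have hd1 : 1 ≤ d := by
    by_contra hcon
    have h0 : d = 0 := by omega
    rw [h0, zero_add] at hdK
    apply hFK.lt.not_ge
    intro x hx
    have h5 : (⊥ : Subalgebra F K) = ⊤ := Subalgebra.bot_eq_top_of_finrank_eq_one hdK
    have h6 : (⟨x, hx⟩ : K) ∈ (⊥ : Subalgebra F K) := by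
      rw [h5]
      exact Algebra.mem_top
    exact hrange x hx (by
      obtain ⟨y, hy⟩ := Algebra.mem_bot.1 h6
      exact RingHom.mem_range.2 ⟨y, hy⟩)
  refine ⟨hd1, ?_⟩
  have hQ : Module.finrank ℚ K = Module.finrank ℚ k * n := by
    rw [← hn]
    exact (Module.finrank_mul_finrank ℚ k K).symm
  obtain ⟨α, hα0, hα1, hα2⟩ := hgen F K hQ (by omega)
  set θ : AlgebraicClosure k := ((α : K) : AlgebraicClosure k) with hθ
  have hθK : θ ∈ K := (α : K).2
  have hθF : θ ∉ F := by
    intro h5
    apply hα1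
    refine RingHom.mem_range.2 ⟨⟨θ, h5⟩, ?_⟩
    apply Subtype.ext
    rfl
  have hcov : ∀ L : IntermediateField k (AlgebraicClosure k), F ≤ L → L ≤ K → θ ∈ L → L = K := by
    intro L hFL hLK hθL
    rcases hFL.eq_or_lt with h5 | h5
    · rw [← h5] at hθL
      exact absurd hθL hθF
    · rcases hLK.eq_or_lt with h6 | h6
      · exact h6
      · exact absurd h6 (hFK.2 h5)
  have hKθ : K = F ⊔ IntermediateField.adjoin k {θ} := by
    symm
    apply hcov
    · exact le_sup_left
    · refine sup_le hFK.le ?_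
      rw [IntermediateField.adjoin_le_iff, Set.singleton_subset_iff]
      exact hθK
    · exact (le_sup_right : IntermediateField.adjoin k {θ} ≤ _)
        (IntermediateField.mem_adjoin_simple_self k θ)
  -- the degree of the minimal polynomial
  have hdeg : (minpoly F (α : K)).natDegree = Module.finrank F K := by
    have h5 : IntermediateField.adjoin F {(α : K)} = ⊤ := by
      rw [eq_top_iff]
      intro x _
      have h6 : IntermediateField.map (K.val) (IntermediateField.restrictScalars k
          (IntermediateField.adjoin F {(α : K)})) = K := by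
        apply hcov
        · intro y hy
          refine ⟨⟨y, hFK.le hy⟩, ?_, rfl⟩
          have h7 := (IntermediateField.adjoin F {(α : K)}).algebraMap_mem ⟨y, hy⟩
          exact h7
        · rintro y ⟨z, _, rfl⟩
          exact z.2
        · refine ⟨(α : K), ?_, rfl⟩
          exact IntermediateField.mem_adjoin_simple_self F (α : K)
      have h7 : (x : AlgebraicClosure k) ∈ IntermediateField.map (K.val)
          (IntermediateField.restrictScalars k (IntermediateField.adjoin F {(α : K)})) := by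
        rw [h6]
        exact x.2
      obtain ⟨z, hz, hzx⟩ := h7
      have h8 : z = x := Subtype.ext hzx
      rw [← h8]
      exact hz
    have h6 := IntermediateField.adjoin.finrank (K := F) (x := (α : K))
      (Algebra.IsIntegral.isIntegral _)
    rw [← h6, h5]
    exact IntermediateField.finrank_top'
  have hdeg2 : (minpoly (𝓞 F) α).natDegree = d + 1 := by
    rw [natDegree_minpoly_int (k := F) α, hdeg, hdK]
  set P := minpoly (𝓞 F) α with hP
  have hPm : P.Monic := minpoly.monic (Algebra.IsIntegral.isIntegral α)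
  set U₀ : ℝ := C₁ * (|(discr K : ℝ)| / |(discr F : ℝ)|) ^
          (1 / (2 * Module.finrank ℚ F * (Module.finrank F K - 1) : ℝ)) with hU₀
  set U : ℝ := C₁ * (X / dab F) ^ (1 / (2 * Module.finrank ℚ F * (d : ℝ))) with hU
  have hdF : 0 < |(discr F : ℝ)| := by
    have := discr_ne_zero F
    rw [abs_pos]
    exact_mod_cast this
  have hU₀U : U₀ ≤ U := by
    rw [hU₀, hU, hdK, imp4_dab F]
    refine mul_le_mul_of_nonneg_left ?_ (by linarith)
    have h5 : ((d + 1 : ℕ) : ℝ) - 1 = d := by push_cast; ring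
    rw [h5]
    refine Real.rpow_le_rpow (by positivity) ?_ (by positivity)
    refine div_le_div_of_nonneg_right ?_ hdF.le
    rw [← Int.cast_abs]
    exact hX
  have hU₀0 : 0 ≤ U₀ := by
    rw [hU₀]
    have : 0 ≤ C₁ := by linarith
    positivity
  refine ⟨fun j => P.coeff (d + 1 - 1 - (j : ℕ)), θ, ?_, ?_, ?_, hKθ⟩
  · intro j hj
    change P.coeff (d + 1 - 1 - (j : ℕ)) = 0
    rw [hj, Nat.sub_zero]
    have h5 := coeff_trace_zero (k := F) (K := K) α hdeg hα0
    rw [hdK] at h5
    exact h5
  · intro j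
    have hj := j.2
    have h5 := coeff_bdd (k := F) (K := K) α U₀ hU₀0 hα2 (d + 1 - 1 - (j : ℕ))
      (by rw [hdeg2]; omega)
    rw [hdeg2] at h5
    intro φ
    refine (h5 φ).trans ?_
    have h6 : d + 1 - (d + 1 - 1 - (j : ℕ)) = (j : ℕ) + 1 := by omega
    rw [h6]
    refine mul_le_mul_of_nonneg_left ?_ (by positivity)
    exact pow_le_pow_left₀ hU₀0 hU₀U _
  · rw [monicOf_eq hPm hdeg2]
    rw [← Polynomial.map_map, hP, minpoly_map (k := F) α, Polynomial.eval_map]
    have h5 := congrArg (algebraMap K (AlgebraicClosure k)) (minpoly.aeval F (α : K))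
    rw [map_zero] at h5
    rw [← h5, Polynomial.aeval_def, Polynomial.hom_eval₂]
    rfl

/-- The number of extensions of `F` without intermediate fields, uniformly in `F`. -/
theorem over_count (k : Type) [Field k] [NumberField k] (n : ℕ) : ∃ C : ℝ, 1 ≤ C ∧
    ∀ (F : IntermediateField k (AlgebraicClosure k)) (X : ℝ), 1 ≤ X →
      {K ∈ Subs k n X | F ⋖ K}.Finite ∧ ({K ∈ Subs k n X | F ⋖ K}.ncard : ℝ) ≤
        C * (X / dab F) ^ ((((n / Module.finrank k F : ℕ) : ℝ) + 2) / 4) := by
  obtain ⟨C₁, hC₁, hgen⟩ := exists_gen (Module.finrank ℚ k * n)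
  set m := Module.finrank ℚ k with hm
  set C : ℝ := (n + 1) * (2 ^ (n + 3)) ^ (m * n * n) * C₁ ^ (m * n * (n * (n + 3))) with hC
  have hC1 : 1 ≤ C := by
    rw [hC]
    have h1 : (1 : ℝ) ≤ n + 1 := by
      have : (0 : ℝ) ≤ n := n.cast_nonneg
      linarith
    have h2 : (1 : ℝ) ≤ (2 ^ (n + 3)) ^ (m * n * n) :=
      one_le_pow₀ (one_le_pow₀ (by norm_num))
    have h3 : (1 : ℝ) ≤ C₁ ^ (m * n * (n * (n + 3))) := one_le_pow₀ hC₁
    exact one_le_mul_of_one_le_of_one_le (one_le_mul_of_one_le_of_one_le h1 h2) h3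
  refine ⟨C, hC1, fun F X hX => ?_⟩
  have hF1 := one_le_dab F
  have hR0 : 0 ≤ X / dab F := by positivity
  rcases Set.eq_empty_or_nonempty {K ∈ Subs k n X | F ⋖ K} with hemp | ⟨K₀, hK₀, hFK₀⟩
  · rw [hemp]
    refine ⟨Set.finite_empty, ?_⟩
    rw [Set.ncard_empty]
    have := Real.rpow_nonneg hR0 ((((n / Module.finrank k F : ℕ) : ℝ) + 2) / 4)
    have hC0 : 0 ≤ C := by linarith
    push_cast
    positivity
  · obtain ⟨hdvd, hdab⟩ := dab_pow_le hK₀ hFK₀.le
    have hn0 : 0 < n := by
      obtain ⟨hn, hNK, _⟩ := hK₀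
      have h1 : FiniteDimensional k K₀ := Module.Finite.of_restrictScalars_finite ℚ k K₀
      rw [← hn]
      exact Module.finrank_pos
    have hNF : NumberField F := imp4_nf hK₀.2.1 hFK₀.le
    have hFf : FiniteDimensional k F := Module.Finite.of_restrictScalars_finite ℚ k F
    have he0 : 0 < Module.finrank k F := Module.finrank_pos
    obtain ⟨d, hd⟩ : ∃ d, n / Module.finrank k F = d + 1 := by
      refine ⟨n / Module.finrank k F - 1, ?_⟩
      have h1 : 0 < n / Module.finrank k F := Nat.div_pos (Nat.le_of_dvd hn0 hdvd) he0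
      omega
    set f := Module.finrank ℚ F with hf
    have hf0 : 0 < f := Module.finrank_pos
    have hd1 : 1 ≤ d := (imp4_one n C₁ hC₁ hgen hK₀ hFK₀ d hd).1
    have hR1 : 1 ≤ X / dab F := by
      rw [le_div_iff₀ (by linarith), one_mul]
      rw [hd] at hdab
      refine le_trans ?_ hdab
      exact le_self_pow₀ hF1 (by omega)
    set R := X / dab F with hR
    set U : ℝ := C₁ * R ^ (1 / (2 * f * (d : ℝ))) with hU
    have hH1 : 1 ≤ R ^ (1 / (2 * f * (d : ℝ))) := Real.one_le_rpow hR1 (by positivity)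
    have hU1 : 1 ≤ U := one_le_mul_of_one_le_of_one_le hC₁ hH1
    obtain ⟨T, hT1, hT2⟩ := imp4_roots F d U hU1
    have hsub : {K ∈ Subs k n X | F ⋖ K} ⊆
        (fun θ : AlgebraicClosure k => F ⊔ IntermediateField.adjoin k {θ}) '' (T : Set _) := by
      rintro K ⟨hK, hFK⟩
      obtain ⟨_, c, θ, h1, h2, h3, h4⟩ := imp4_one n C₁ hC₁ hgen hK hFK d hd
      exact ⟨θ, hT2 c h1 h2 θ h3, h4.symm⟩
    have hfin : ((fun θ : AlgebraicClosure k => F ⊔ IntermediateField.adjoin k {θ}) ''
        (T : Set _)).Finite := T.finite_toSet.image _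
    refine ⟨hfin.subset hsub, ?_⟩
    have hcard : ({K ∈ Subs k n X | F ⋖ K}.ncard : ℝ) ≤ T.card := by
      have h1 := Set.ncard_le_ncard hsub hfin
      have h2 := Set.ncard_image_le (f := fun θ : AlgebraicClosure k =>
        F ⊔ IntermediateField.adjoin k {θ}) T.finite_toSet
      rw [Set.ncard_coe_finset] at h2
      exact_mod_cast h1.trans h2
    refine hcard.trans (hT1.trans ?_)
    obtain ⟨E, hE, hprod⟩ := imp4_prod d f U hU1
    have hdn : d + 1 ≤ n := by
      rw [← hd]
      exact Nat.div_le_self _ _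
    have hfn : f ≤ m * n := by
      have h1 : f = m * Module.finrank k F := (Module.finrank_mul_finrank ℚ k F).symm
      rw [h1]
      exact Nat.mul_le_mul_left _ (Nat.le_of_dvd hn0 hdvd)
    have hEn : E ≤ n * (n + 3) := by
      have h1 : d * (d + 3) ≤ n * (n + 3) := Nat.mul_le_mul (by omega) (by omega)
      omega
    -- the exponent
    have hpow : U ^ (f * E) = C₁ ^ (f * E) * R ^ (((d : ℝ) + 3) / 4) := by
      rw [hU, mul_pow]
      congr 1
      rw [← Real.rpow_natCast, ← Real.rpow_mul hR0]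
      congr 1
      push_cast
      have h1 : (2 : ℝ) * E = d * (d + 3) := by exact_mod_cast hE
      have h2 : (E : ℝ) = d * (d + 3) / 2 := by linarith
      have h3 : (f : ℝ) ≠ 0 := by positivity
      have h4 : (d : ℝ) ≠ 0 := by positivity
      rw [h2]
      field_simp
      ring
    have hexp : ((((n / Module.finrank k F : ℕ) : ℝ) + 2) / 4) = ((d : ℝ) + 3) / 4 := by
      rw [hd]
      push_cast
      ring
    rw [hexp]
    have hRn : 0 ≤ R ^ (((d : ℝ) + 3) / 4) := Real.rpow_nonneg hR0 _
    calc ((d : ℝ) + 1) * ∏ j : Fin (d + 1), (if (j : ℕ) = 0 then (1 : ℝ)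
        else (1 + 2 * (2 ^ (d + 1) * U ^ ((j : ℕ) + 1))) ^ f)
        ≤ ((d : ℝ) + 1) * ((2 ^ (d + 3)) ^ (f * d) * U ^ (f * E)) :=
          mul_le_mul_of_nonneg_left hprod (by positivity)
      _ = (((d : ℝ) + 1) * (2 ^ (d + 3)) ^ (f * d) * C₁ ^ (f * E)) *
          R ^ (((d : ℝ) + 3) / 4) := by
          rw [hpow]
          ring
      _ ≤ C * R ^ (((d : ℝ) + 3) / 4) := by
          refine mul_le_mul_of_nonneg_right ?_ hRn
          rw [hC]
          have h1 : ((d : ℝ) + 1) ≤ n + 1 := by
            have : ((d + 1 : ℕ) : ℝ) ≤ n := by exact_mod_cast hdn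
            push_cast at this
            linarith
          have h2 : ((2 : ℝ) ^ (d + 3)) ^ (f * d) ≤ (2 ^ (n + 3)) ^ (m * n * n) := by
            calc ((2 : ℝ) ^ (d + 3)) ^ (f * d) ≤ (2 ^ (n + 3)) ^ (f * d) :=
                  pow_le_pow_left₀ (by positivity)
                    (pow_le_pow_right₀ (by norm_num) (by omega)) _
              _ ≤ (2 ^ (n + 3)) ^ (m * n * n) :=
                  pow_le_pow_right₀ (one_le_pow₀ (by norm_num))
                    (Nat.mul_le_mul hfn (by omega))
          have h3 : C₁ ^ (f * E) ≤ C₁ ^ (m * n * (n * (n + 3))) :=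
            pow_le_pow_right₀ hC₁ (Nat.mul_le_mul hfn hEn)
          have hC₁0 : 0 ≤ C₁ := by linarith
          exact mul_le_mul (mul_le_mul h1 h2 (by positivity) (by positivity)) h3
            (by positivity) (by positivity)

end Pool.Agent.H67.MU
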