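import Pool.Agent.H67.MU.Defs

set_option autoImplicit false

open Polynomial IsDedekindDomain NumberField UniqueFactorizationMonoid

namespace Pool.Agent.H67.MU

/-! ### MU-7: primitivity -/

theorem natDegree_minpoly_of_primitive {k : Type} [Field k] [NumberField k] {n : ℕ}
    {G : Subgroup (Equiv.Perm (Fin n))} (hG : MulAction.IsPreprimitive G (Fin n))
    {M : IntermediateField k (AlgebraicClosure k)} (hM : HasGroup G M)
    (hn : Module.finrank k M = n) (α : M) (hα : α ∉ (algebraMap k M).range) :
    (minpoly k α).natDegree = n := by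
  classical
  obtain ⟨e, he⟩ := hM
  have hnpos : 0 < n := lt_of_le_of_lt (Nat.zero_le _) (e M.val).2
  have hfin : FiniteDimensional k M := Module.finite_of_finrank_pos (hn ▸ hnpos)
  set ψ : Fin n → AlgebraicClosure k := fun i => (e.symm i) α with hψ
  have key : ∀ (g : G), ∃ σ : AlgebraicClosure k ≃ₐ[k] AlgebraicClosure k,
      ∀ i, ψ (g • i) = σ (ψ i) := by
    intro g
    obtain ⟨σ, hσ⟩ := (he g.1).1 g.2
    refine ⟨σ, fun i => ?_⟩
    have h1 := hσ (e.symm i)
    rw [Equiv.apply_symm_apply] at h1
    have h2 : e.symm (g • i) = σ.toAlgHom.comp (e.symm i) := by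
      rw [Equiv.symm_apply_eq, h1]
      rfl
    simp only [hψ, h2]
    rfl
  have hblock : ∀ i0 : Fin n, MulAction.IsBlock G {i | ψ i = ψ i0} := by
    intro i0
    rw [MulAction.isBlock_iff_smul_eq_of_mem]
    intro g a ha hga
    obtain ⟨σ, hσ⟩ := key g
    have h0 : σ (ψ i0) = ψ i0 := by
      have h1 : ψ (g • a) = ψ i0 := hga
      have h2 : ψ a = ψ i0 := ha
      rw [hσ, h2] at h1
      exact h1
    ext j
    rw [Set.mem_smul_set_iff_inv_smul_mem]
    constructor
    · intro hj
      have h3 : ψ (g⁻¹ • j) = ψ i0 := hj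
      have h4 := hσ (g⁻¹ • j)
      rw [smul_inv_smul, h3, h0] at h4
      exact h4
    · intro hj
      have h3 : ψ j = ψ i0 := hj
      have h4 := hσ (g⁻¹ • j)
      rw [smul_inv_smul, h3] at h4
      exact σ.injective (h4.symm.trans h0.symm)
  rw [← hn]
  by_cases hinj : Function.Injective (fun φ : M →ₐ[k] AlgebraicClosure k => φ α)
  · exact (Field.primitive_element_iff_minpoly_natDegree_eq k α).1
      ((Field.primitive_element_iff_algHom_eq_of_eval' k (AlgebraicClosure k)
        (fun x => IsAlgClosed.splits _) α).2 hinj)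
  · exfalso
    have hns : ∃ i0 : Fin n, ¬ ({i | ψ i = ψ i0} : Set (Fin n)).Subsingleton := by
      by_contra hcon
      push Not at hcon
      apply hinj
      intro φ1 φ2 h12
      have h1 : e φ1 ∈ ({i | ψ i = ψ (e φ1)} : Set (Fin n)) := rfl
      have h2 : e φ2 ∈ ({i | ψ i = ψ (e φ1)} : Set (Fin n)) := by
        simp only [Set.mem_setOf_eq, hψ, Equiv.symm_apply_apply]
        exact h12.symm
      exact e.injective (hcon (e φ1) h1 h2)
    obtain ⟨i0, hi0⟩ := hns
    have huniv : ({i | ψ i = ψ i0} : Set (Fin n)) = Set.univ :=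
      (hG.isTrivialBlock_of_isBlock (hblock i0)).resolve_left hi0
    have hall : ∀ φ : M →ₐ[k] AlgebraicClosure k, φ α = ψ i0 := by
      intro φ
      have h1 : e φ ∈ ({i | ψ i = ψ i0} : Set (Fin n)) := huniv ▸ Set.mem_univ _
      simpa only [Set.mem_setOf_eq, hψ, Equiv.symm_apply_apply] using h1
    have hroot : (minpoly k α).rootSet (AlgebraicClosure k) = {ψ i0} := by
      rw [← (Algebra.IsAlgebraic.of_finite k M).range_eval_eq_rootSet_minpoly
        (AlgebraicClosure k) α]
      ext y
      constructor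
      · rintro ⟨φ, rfl⟩
        exact hall φ
      · intro hy
        exact ⟨e.symm i0, hy.symm⟩
    have hsep : (minpoly k α).Separable := Algebra.IsSeparable.isSeparable k α
    have hcard := card_rootSet_eq_natDegree (K := AlgebraicClosure k) hsep
      (IsAlgClosed.splits _)
    have h1 : (minpoly k α).natDegree = 1 := by
      rw [← hcard, ← Nat.card_eq_fintype_card, hroot]
      simp
    exact hα ((minpoly.natDegree_eq_one_iff).1 h1)

theorem two_le_groupInd {n : ℕ} {G : Subgroup (Equiv.Perm (Fin n))}
    (hG : MulAction.IsPreprimitive G (Fin n)) (hne : G ≠ ⊤) : 2 ≤ groupInd G := by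
  classical
  have hbot : ∃ g ∈ G, g ≠ 1 := by
    by_contra hcon
    push Not at hcon
    apply hne
    have hsub : ∀ i j : Fin n, i = j := by
      intro i j
      obtain ⟨g, hg⟩ := hG.exists_smul_eq i j
      have h1 : (g : Equiv.Perm (Fin n)) = 1 := hcon g.1 g.2
      have h2 : (g : Equiv.Perm (Fin n)) i = j := hg
      rw [h1] at h2
      exact h2
    ext g
    constructor
    · intro _
      trivial
    · intro _
      have h1 : g = 1 := Equiv.ext fun i => hsub _ _
      rw [h1]
      exact G.one_mem
  have hset : {j | ∃ g ∈ G, g ≠ 1 ∧ permInd g = j}.Nonempty := by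
    obtain ⟨g, hg, hg1⟩ := hbot
    exact ⟨permInd g, g, hg, hg1, rfl⟩
  obtain ⟨g, hg, hg1, hgj⟩ := Nat.sInf_mem hset
  change 2 ≤ sInf {j | ∃ g ∈ G, g ≠ 1 ∧ permInd g = j}
  rw [← hgj]
  by_contra hlt
  push Not at hlt
  have hsum : g.cycleType.sum = g.support.card := g.sum_cycleType
  have hcard2 : Multiset.card g.cycleType * 2 ≤ g.cycleType.sum := by
    have := Multiset.card_nsmul_le_sum (s := g.cycleType) (a := 2)
      (fun x hx => Equiv.Perm.two_le_of_mem_cycleType hx)
    simpa [smul_eq_mul] using this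
  have hpos : 0 < Multiset.card g.cycleType := by
    rw [Multiset.card_pos]
    intro h0
    exact hg1 (Equiv.Perm.cycleType_eq_zero.1 h0)
  unfold permInd at hlt
  have hc1 : Multiset.card g.cycleType = 1 := by omega
  have hs2 : g.cycleType.sum = 2 := by omega
  obtain ⟨a, ha⟩ := Multiset.card_eq_one.1 hc1
  have ha2 : a = 2 := by
    rw [ha, Multiset.sum_singleton] at hs2
    exact hs2
  have hswap : g.IsSwap := by
    rw [Equiv.Perm.isSwap_iff_cycleType, ha, ha2]
  exact hne (Equiv.Perm.subgroup_eq_top_of_isPreprimitive_of_isSwap_mem hG g hswap hg)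

/-- a field is determined by the minimal polynomial of a generator -/
theorem nonempty_algEquiv {k K K' : Type} [Field k] [Field K] [Field K'] [Algebra k K]
    [Algebra k K'] [FiniteDimensional k K] [FiniteDimensional k K'] {n : ℕ}
    (hn : Module.finrank k K = n) (hn' : Module.finrank k K' = n) (x : K) (x' : K')
    (hx : minpoly k x = minpoly k x') (hd : (minpoly k x).natDegree = n) :
    Nonempty (K ≃ₐ[k] K') := by
  have h1 : IntermediateField.adjoin k {x} = ⊤ :=
    (Field.primitive_element_iff_minpoly_natDegree_eq k x).2 (hd.trans hn.symm)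
  have h2 : IntermediateField.adjoin k {x'} = ⊤ :=
    (Field.primitive_element_iff_minpoly_natDegree_eq k x').2
      ((hx ▸ hd : (minpoly k x').natDegree = n).trans hn'.symm)
  have e1 : AdjoinRoot (minpoly k x) ≃ₐ[k] K :=
    ((IntermediateField.adjoinRootEquivAdjoin k (IsIntegral.of_finite k x)).trans
      (IntermediateField.equivOfEq h1)).trans IntermediateField.topEquiv
  have e2 : AdjoinRoot (minpoly k x') ≃ₐ[k] K' :=
    ((IntermediateField.adjoinRootEquivAdjoin k (IsIntegral.of_finite k x')).trans
      (IntermediateField.equivOfEq h2)).trans IntermediateField.topEquiv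
  rw [hx] at e1
  exact ⟨e1.symm.trans e2⟩

end Pool.Agent.H67.MU
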