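import Mathlib
import Pool.Agent.H67.MU.Defs

/-!
# Project MU (MP_a3214d), row MU-4: roots of a minimal polynomial modulo `p`
-/

set_option autoImplicit false

open Polynomial IsDedekindDomain NumberField UniqueFactorizationMonoid

namespace Pool.Agent.H67.MU

section

variable (k K : Type) [Field k] [NumberField k] [Field K] [NumberField K] [Algebra k K]

/-- A monic polynomial of degree at most the residue degree, whose value at `α` lies in `P`. -/
theorem mu4_local (p : Ideal (𝓞 k)) [p.IsPrime] (hp : p ≠ ⊥) (α : 𝓞 K) (P : Ideal (𝓞 K))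
    [P.IsPrime] [P.LiesOver p] :
    ∃ g : (𝓞 k)[X], g.Monic ∧ g.natDegree ≤ P.inertiaDeg (𝓞 k) ∧ aeval α g ∈ P := by
  have hpm : p.IsMaximal := Ideal.IsPrime.isMaximal inferInstance hp
  have hP : P ≠ ⊥ := Ideal.ne_bot_of_liesOver_of_ne_bot hp P
  have hPm : P.IsMaximal := Ideal.IsPrime.isMaximal inferInstance hP
  letI : Field (𝓞 k ⧸ p) := Ideal.Quotient.field p
  have hint : IsIntegral (𝓞 k ⧸ p) (Ideal.Quotient.mk P α) := Algebra.IsIntegral.isIntegral _
  have hmon := minpoly.monic hint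
  have hdeg : (minpoly (𝓞 k ⧸ p) (Ideal.Quotient.mk P α)).natDegree ≤ P.inertiaDeg (𝓞 k) := by
    rw [Ideal.inertiaDeg_eq_of_isMaximal p P]
    exact minpoly.natDegree_le _
  have hl : minpoly (𝓞 k ⧸ p) (Ideal.Quotient.mk P α) ∈ Polynomial.lifts (Ideal.Quotient.mk p) := by
    rw [Polynomial.mem_lifts]
    exact Polynomial.map_surjective _ Ideal.Quotient.mk_surjective _
  obtain ⟨g, hg, hgd, hgm⟩ := Polynomial.lifts_and_natDegree_eq_and_monic hl hmon
  refine ⟨g, hgm, hgd.trans_le hdeg, ?_⟩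
  rw [← Ideal.Quotient.eq_zero_iff_mem]
  have h1 : Ideal.Quotient.mk P (aeval α g) =
      aeval (Ideal.Quotient.mk P α) (g.map (Ideal.Quotient.mk p)) := by
    have h2 : g.map (Ideal.Quotient.mk p) = g.map (algebraMap (𝓞 k) (𝓞 k ⧸ p)) := rfl
    rw [h2, Polynomial.aeval_map_algebraMap]
    exact (Polynomial.aeval_algHom_apply (Ideal.Quotient.mkₐ (𝓞 k) P) α g).symm
  rw [h1, hg, minpoly.aeval]

theorem mu4_zero {Ω : Type} [Field Ω] {x : Ω} {m : ℕ} (h : x ^ m = 0) : x = 0 := by
  by_contra hx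
  exact pow_ne_zero m hx h

theorem rootsModLe (p : Ideal (𝓞 k)) [p.IsPrime] (hp : p ≠ ⊥) (α : 𝓞 K) :
    RootsModLe p (minpoly (𝓞 k) α) (resDeg k K p) := by
  classical
  intro Ω _ ψ hψ
  have hpm : p.IsMaximal := Ideal.IsPrime.isMaximal inferInstance hp
  have hex : ∀ P ∈ IsDedekindDomain.primesOverFinset p (𝓞 K), ∃ g : (𝓞 k)[X], g.Monic ∧
      g.natDegree ≤ P.inertiaDeg (𝓞 k) ∧ aeval α g ∈ P := by
    intro P hP
    rw [IsDedekindDomain.mem_primesOverFinset_iff hp] at hP
    haveI : P.IsPrime := hP.1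
    haveI : P.LiesOver p := hP.2
    exact mu4_local k K p hp α P
  choose! g hgm hgd hg using hex
  set G : (𝓞 k)[X] := ∏ P ∈ IsDedekindDomain.primesOverFinset p (𝓞 K), g P ^ P.ramificationIdx (𝓞 k) with hG
  have hmap : Ideal.map (algebraMap (𝓞 k) (𝓞 K)) p =
      ∏ P ∈ IsDedekindDomain.primesOverFinset p (𝓞 K), P ^ P.ramificationIdx (𝓞 k) := by
    rw [Ideal.map_algebraMap_eq_finsetProd_pow (by simpa using hp)]
    refine Finset.prod_congr ?_ (fun _ _ => rfl)
    ext P
    rw [Set.mem_toFinset, IsDedekindDomain.mem_primesOverFinset_iff hp]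
  have hGα : aeval α G ∈ Ideal.map (algebraMap (𝓞 k) (𝓞 K)) p := by
    rw [hmap, hG, map_prod]
    apply Ideal.prod_mem_prod
    intro P hP
    rw [map_pow]
    exact Ideal.pow_mem_pow (hg P hP) _
  obtain ⟨h, hm, -, hc, h0⟩ :=
    LinearMap.exists_monic_and_natDegree_eq_and_coeff_mem_pow_and_aeval_eq_zero (𝓞 k)
      (Algebra.lmul (𝓞 k) (𝓞 K) (aeval α G)) p (by
        rintro _ ⟨y, rfl⟩
        rw [Ideal.smul_top_eq_map]
        exact Ideal.mul_mem_right y _ hGα)
  have h1 : aeval α (h.comp G) = 0 := by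
    have h2 := Polynomial.aeval_algHom_apply (Algebra.lmul (𝓞 k) (𝓞 K)) (aeval α G) h
    rw [h2] at h0
    have h3 := LinearMap.congr_fun h0 1
    rw [Polynomial.aeval_comp]
    simpa using h3
  have hdvd : minpoly (𝓞 k) α ∣ h.comp G :=
    minpoly.isIntegrallyClosed_dvd (Algebra.IsIntegral.isIntegral α) h1
  have hpow : (h.comp G).map ψ = (G.map ψ) ^ h.natDegree := by
    rw [Polynomial.map_comp]
    have : h.map ψ = X ^ h.natDegree := by
      ext i
      rw [Polynomial.coeff_map, Polynomial.coeff_X_pow]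
      split_ifs with hi
      · rw [hi]
        have : h.coeff h.natDegree = 1 := hm
        rw [this, map_one]
      · rcases lt_or_gt_of_ne hi with hlt | hgt
        · have h4 : h.coeff i ∈ p := by
            have := hc i
            exact Ideal.pow_le_self (by omega) this
          rw [← hψ] at h4
          exact h4
        · rw [Polynomial.coeff_eq_zero_of_natDegree_lt hgt, map_zero]
    rw [this, Polynomial.X_pow_comp]
  refine ⟨(IsDedekindDomain.primesOverFinset p (𝓞 K)).biUnion (fun P => ((g P).map ψ).roots.toFinset), ?_, ?_⟩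
  · refine Finset.card_biUnion_le.trans ?_
    unfold resDeg
    apply Finset.sum_le_sum
    intro P hP
    refine (Multiset.toFinset_card_le _).trans ?_
    refine (Polynomial.card_roots' _).trans ?_
    exact (Polynomial.natDegree_map_le).trans (hgd P hP)
  · intro x hx
    have h5 : ((h.comp G).map ψ).eval x = 0 := by
      obtain ⟨q, hq⟩ := hdvd
      rw [hq, Polynomial.map_mul, Polynomial.eval_mul, hx, zero_mul]
    rw [hpow, Polynomial.eval_pow] at h5
    have h6 : (G.map ψ).eval x = 0 := mu4_zero h5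
    rw [hG, Polynomial.map_prod, Polynomial.eval_prod, Finset.prod_eq_zero_iff] at h6
    obtain ⟨P, hP, h7⟩ := h6
    rw [Finset.mem_biUnion]
    refine ⟨P, hP, ?_⟩
    rw [Multiset.mem_toFinset, Polynomial.mem_roots]
    · rw [Polynomial.map_pow, Polynomial.eval_pow] at h7
      exact mu4_zero h7
    · exact ((hgm P hP).map ψ).ne_zero

end

end Pool.Agent.H67.MU
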