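import Pool.Agent.H67.MU.Defs

/-!
# Project MU, MU-12: weighted power sums

Over a field of characteristic zero the coordinates are integral over the weighted power sums
(with positive integral weights); here with denominators cleared.
-/

set_option autoImplicit false

open Polynomial

namespace Pool.Agent.H67.MU

/-- In a field of characteristic zero weighted power sums with positive weights that all vanish
force all coordinates to vanish. -/
theorem mu12_field {k : Type*} [Field k] [CharZero k] {t : ℕ} (u : Fin t → k) (w : Fin t → ℕ)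
    (hw : ∀ i, 0 < w i) (h : ∀ j : Fin t, ∑ l, (w l : k) * u l ^ ((j : ℕ) + 1) = 0) (a : Fin t) :
    u a = 0 := by
  classical
  by_contra hua
  -- polynomials without constant term, of degree at most `t`
  have hpoly : ∀ q : k[X], q.natDegree < t → ∑ l, (w l : k) * (u l * q.eval (u l)) = 0 := by
    intro q hq
    have h1 : ∀ l, (w l : k) * (u l * q.eval (u l)) =
        ∑ j : Fin t, q.coeff j * ((w l : k) * u l ^ ((j : ℕ) + 1)) := by
      intro l
      rw [Polynomial.eval_eq_sum_range' hq, ← Fin.sum_univ_eq_sum_range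
        (fun j => q.coeff j * u l ^ j) t, Finset.mul_sum, Finset.mul_sum]
      refine Finset.sum_congr rfl (fun j _ => ?_)
      ring
    rw [Finset.sum_congr rfl (fun l _ => h1 l), Finset.sum_comm]
    refine Finset.sum_eq_zero (fun j _ => ?_)
    rw [← Finset.mul_sum, h j, mul_zero]
  set S : Finset k := (Finset.univ.image u).erase (u a) with hS
  have hcard : S.card < t := by
    have h1 : (Finset.univ.image u).card ≤ t := by
      refine Finset.card_image_le.trans ?_
      simp
    have h2 : u a ∈ Finset.univ.image u := Finset.mem_image_of_mem u (Finset.mem_univ a)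
    rw [hS]
    exact lt_of_lt_of_le (Finset.card_erase_lt_of_mem h2) h1
  set q : k[X] := ∏ v ∈ S, (X - C v) with hq
  have hqd : q.natDegree < t := by
    rw [hq, Polynomial.natDegree_finsetProd_X_sub_C_eq_card]
    exact hcard
  have hsum := hpoly q hqd
  have hqa : q.eval (u a) ≠ 0 := by
    rw [hq, Polynomial.eval_prod]
    refine Finset.prod_ne_zero_iff.mpr (fun v hv => ?_)
    rw [hS, Finset.mem_erase] at hv
    simp only [eval_sub, eval_X, eval_C]
    exact sub_ne_zero.mpr hv.1.symm
  have hq0 : ∀ l, u l ≠ u a → q.eval (u l) = 0 := by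
    intro l hl
    rw [hq, Polynomial.eval_prod]
    refine Finset.prod_eq_zero (i := u l) ?_ (by simp)
    rw [hS, Finset.mem_erase]
    exact ⟨hl, Finset.mem_image_of_mem u (Finset.mem_univ l)⟩
  have h2 : ∑ l, (w l : k) * (u l * q.eval (u l)) =
      ((∑ l ∈ Finset.univ.filter (fun l => u l = u a), w l : ℕ) : k) * (u a * q.eval (u a)) := by
    rw [← Finset.sum_filter_add_sum_filter_not Finset.univ (fun l => u l = u a)]
    have h3 : ∑ l ∈ Finset.univ.filter (fun l => ¬ u l = u a),
        (w l : k) * (u l * q.eval (u l)) = 0 := by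
      refine Finset.sum_eq_zero (fun l hl => ?_)
      rw [hq0 l (Finset.mem_filter.mp hl).2]
      ring
    rw [h3, add_zero, Nat.cast_sum, Finset.sum_mul]
    refine Finset.sum_congr rfl (fun l hl => ?_)
    rw [(Finset.mem_filter.mp hl).2]
  rw [h2] at hsum
  have h4 : (0 : ℕ) < ∑ l ∈ Finset.univ.filter (fun l => u l = u a), w l := by
    refine Finset.sum_pos (fun l _ => hw l) ⟨a, ?_⟩
    simp
  have h5 : ((∑ l ∈ Finset.univ.filter (fun l => u l = u a), w l : ℕ) : k) ≠ 0 := by
    exact_mod_cast h4.ne'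
  exact (mul_ne_zero h5 (mul_ne_zero hua hqa)) hsum

/-- A valuation ring containing the rational numbers and the weighted power sums contains the
coordinates. -/
theorem mu12_val {K : Type*} [Field K] [CharZero K] (V : ValuationSubring K)
    (hV : ∀ n : ℕ, n ≠ 0 → (n : K)⁻¹ ∈ V) {t : ℕ} (r : Fin t → K) (w : Fin t → ℕ)
    (hw : ∀ i, 0 < w i) (h : ∀ j : Fin t, ∑ l, (w l : K) * r l ^ ((j : ℕ) + 1) ∈ V)
    (i : Fin t) : r i ∈ V := by
  classical
  by_contra hi
  obtain ⟨a, -, ha⟩ := Finset.exists_max_image Finset.univ (fun l => V.valuation (r l))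
    ⟨i, Finset.mem_univ i⟩
  have ha1 : 1 < V.valuation (r a) := by
    refine lt_of_lt_of_le ?_ (ha i (Finset.mem_univ i))
    rw [← not_le, V.valuation_le_one_iff]
    exact hi
  have hra : r a ≠ 0 := by
    intro h0
    rw [h0, map_zero] at ha1
    exact absurd ha1 (not_lt.mpr zero_le_one)
  have hva : V.valuation (r a) ≠ 0 := (V.valuation.ne_zero_iff).mpr hra
  -- the quotients
  have hu : ∀ l, r l / r a ∈ V := by
    intro l
    rw [← V.valuation_le_one_iff, map_div₀]
    exact div_le_one_of_le₀ (ha l (Finset.mem_univ l)) zero_le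
  let u : Fin t → V := fun l => ⟨r l / r a, hu l⟩
  let ρ : V →+* IsLocalRing.ResidueField V := IsLocalRing.residue V
  have : CharZero (IsLocalRing.ResidueField V) := by
    refine charZero_of_inj_zero (fun n hn => ?_)
    by_contra hn0
    have h1 : ρ ((n : V)) = 0 := by
      rw [map_natCast]
      exact hn
    have h2 : ρ ((n : V)) * ρ ⟨(n : K)⁻¹, hV n hn0⟩ = 1 := by
      rw [← map_mul]
      have : (n : V) * ⟨(n : K)⁻¹, hV n hn0⟩ = 1 := by
        apply Subtype.ext
        push_cast
        have : (n : K) ≠ 0 := by exact_mod_cast hn0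
        field_simp
      rw [this, map_one]
    rw [h1, zero_mul] at h2
    exact zero_ne_one h2
  have hsum : ∀ j : Fin t, ∑ l, (w l : IsLocalRing.ResidueField V) *
      (ρ (u l)) ^ ((j : ℕ) + 1) = 0 := by
    intro j
    have h1 : ρ (∑ l, (w l : V) * (u l) ^ ((j : ℕ) + 1)) = 0 := by
      rw [IsLocalRing.residue_eq_zero_iff, V.valuation_lt_one_iff]
      have h2 : ((∑ l, (w l : V) * (u l) ^ ((j : ℕ) + 1) : V) : K) =
          (∑ l, (w l : K) * r l ^ ((j : ℕ) + 1)) / r a ^ ((j : ℕ) + 1) := by
        push_cast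
        rw [Finset.sum_div]
        refine Finset.sum_congr rfl (fun l _ => ?_)
        change (w l : K) * (r l / r a) ^ ((j : ℕ) + 1) = _
        rw [div_pow, mul_div_assoc]
      rw [h2, map_div₀, map_pow]
      have h3 : V.valuation (∑ l, (w l : K) * r l ^ ((j : ℕ) + 1)) ≤ 1 :=
        (V.valuation_le_one_iff _).mpr (h j)
      have h4 : 1 < V.valuation (r a) ^ ((j : ℕ) + 1) := one_lt_pow₀ ha1 (Nat.succ_ne_zero _)
      exact (div_lt_one₀ (zero_lt_one.trans h4)).mpr (lt_of_le_of_lt h3 h4)
    rw [map_sum] at h1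
    rw [← h1]
    refine Finset.sum_congr rfl (fun l _ => ?_)
    rw [map_mul, map_pow, map_natCast]
  have h5 := mu12_field (fun l => ρ (u l)) w hw hsum a
  have h6 : u a = 1 := by
    apply Subtype.ext
    change r a / r a = 1
    exact div_self hra
  simp only [h6, map_one] at h5
  exact one_ne_zero h5

/-- A rational polynomial in several variables has an integral multiple. -/
theorem mu12_clear {σ : Type*} (g : MvPolynomial σ ℚ) : ∃ N : ℕ, 0 < N ∧
    ∃ c : MvPolynomial σ ℤ, MvPolynomial.map (Int.castRingHom ℚ) c = (N : MvPolynomial σ ℚ) * g := by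
  induction g using MvPolynomial.induction_on with
  | C a =>
    refine ⟨a.den, a.den_pos, MvPolynomial.C a.num, ?_⟩
    rw [MvPolynomial.map_C]
    have h1 : ((a.den : ℕ) : MvPolynomial σ ℚ) = MvPolynomial.C (a.den : ℚ) := by
      rw [map_natCast]
    rw [h1, ← MvPolynomial.C_mul]
    congr 1
    rw [Rat.den_mul_eq_num]
    simp
  | add p q hp hq =>
    obtain ⟨N1, h1, c1, e1⟩ := hp
    obtain ⟨N2, h2, c2, e2⟩ := hq
    refine ⟨N1 * N2, Nat.mul_pos h1 h2, (N2 : MvPolynomial σ ℤ) * c1 +
      (N1 : MvPolynomial σ ℤ) * c2, ?_⟩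
    rw [map_add, map_mul, map_mul, map_natCast, map_natCast, e1, e2]
    push_cast
    ring
  | mul_X p i hp =>
    obtain ⟨N1, h1, c1, e1⟩ := hp
    refine ⟨N1, h1, c1 * MvPolynomial.X i, ?_⟩
    rw [map_mul, MvPolynomial.map_X, e1, mul_assoc]

/-- Each coordinate is integral over the weighted power sums. -/
theorem mu12_integral (t : ℕ) (w : Fin t → ℕ) (hw : ∀ i, 0 < w i) (i : Fin t)
    (K : Type) [Field K] [CharZero K] (r : Fin t → K) (Φ : MvPolynomial (Fin t) ℚ →+* K)
    (hΦ : ∀ j : Fin t, Φ (MvPolynomial.X j) = ∑ l, (w l : K) * r l ^ ((j : ℕ) + 1)) :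
    ∃ q : (MvPolynomial (Fin t) ℚ)[X], q.Monic ∧ q.eval₂ Φ (r i) = 0 := by
  have h1 : r i ∈ (integralClosure (Subring.closure (Φ.range : Set K)) K).toSubring := by
    rw [← iInf_valuationSubring_superset, Subring.mem_iInf]
    rintro ⟨V, hV⟩
    refine mu12_val V (fun n hn => ?_) r w hw (fun j => ?_) i
    · refine hV ⟨MvPolynomial.C ((n : ℚ)⁻¹), ?_⟩
      have : Φ.comp MvPolynomial.C = algebraMap ℚ K := Subsingleton.elim _ _
      have h2 : Φ (MvPolynomial.C ((n : ℚ)⁻¹)) = (Φ.comp MvPolynomial.C) ((n : ℚ)⁻¹) := rfl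
      rw [h2, map_inv₀, map_natCast]
    · rw [← hΦ j]
      exact hV ⟨_, rfl⟩
  have h2 : IsIntegral (Subring.closure (Φ.range : Set K)) (r i) := h1
  obtain ⟨p, hp, hpe⟩ := h2
  let π : MvPolynomial (Fin t) ℚ →+* Subring.closure (Φ.range : Set K) :=
    Φ.codRestrict _ (fun x => Subring.subset_closure ⟨x, rfl⟩)
  have hπ : Function.Surjective π := by
    rintro ⟨y, hy⟩
    rw [Subring.closure_eq] at hy
    obtain ⟨x, hx⟩ := hy
    exact ⟨x, Subtype.ext hx⟩
  have hlift : p ∈ Polynomial.lifts π := by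
    rw [Polynomial.lifts_iff_coeff_lifts]
    intro n
    exact hπ (p.coeff n)
  obtain ⟨q, hq, -, hqm⟩ := Polynomial.lifts_and_natDegree_eq_and_monic hlift hp
  refine ⟨q, hqm, ?_⟩
  have h3 : Φ = (algebraMap (Subring.closure (Φ.range : Set K)) K).comp π := rfl
  rw [h3, ← Polynomial.eval₂_map, hq]
  exact hpe

theorem exists_relation (t : ℕ) (w : Fin t → ℕ) (hw : ∀ i, 0 < w i) (i : Fin t) :
    ∃ (N d : ℕ) (c : ℕ → MvPolynomial (Fin t) ℤ), 0 < N ∧ 0 < d ∧
      ∀ (Ω : Type) [Field Ω] (r : Fin t → Ω),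
        (N : Ω) * r i ^ d = ∑ e ∈ Finset.range d,
          (MvPolynomial.aeval (fun j : Fin t => ∑ l, (w l : Ω) * r l ^ ((j : ℕ) + 1)) (c e)) *
            r i ^ e := by
  classical
  let R := MvPolynomial (Fin t) ℤ
  let K := FractionRing (MvPolynomial (Fin t) ℚ)
  let ι : R →+* K := (algebraMap (MvPolynomial (Fin t) ℚ) K).comp
    (MvPolynomial.map (Int.castRingHom ℚ))
  have hι : Function.Injective ι := (IsFractionRing.injective (MvPolynomial (Fin t) ℚ) K).comp
    (MvPolynomial.map_injective _ (Int.cast_injective))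
  let P : Fin t → R := fun j => ∑ l, (w l : R) * MvPolynomial.X l ^ ((j : ℕ) + 1)
  let Φ : MvPolynomial (Fin t) ℚ →+* K :=
    (MvPolynomial.aeval (R := ℚ) (fun j : Fin t => ι (P j))).toRingHom
  have hΦX : ∀ j, Φ (MvPolynomial.X j) = ι (P j) := by
    intro j
    simp [Φ]
  have hchar : CharZero K := algebraRat.charZero K
  obtain ⟨q, hq, hqe⟩ := mu12_integral t w hw i K (fun l => ι (MvPolynomial.X l)) Φ (by
    intro j
    rw [hΦX]
    simp only [P]
    rw [map_sum]
    refine Finset.sum_congr rfl (fun l _ => ?_)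
    rw [map_mul, map_pow, map_natCast])
  -- the degree is positive
  have hd : 0 < q.natDegree := by
    by_contra h0
    have h1 : q.natDegree = 0 := by omega
    have h2 : q = 1 := hq.natDegree_eq_zero.mp h1
    rw [h2, Polynomial.eval₂_one] at hqe
    exact one_ne_zero hqe
  choose Nf hNf cf hcf using fun e : ℕ => mu12_clear (q.coeff e)
  set N : ℕ := ∏ e ∈ Finset.range q.natDegree, Nf e with hN
  refine ⟨N, q.natDegree, fun e => -(((N / Nf e : ℕ) : R) * cf e), ?_, hd, ?_⟩
  · exact Finset.prod_pos (fun e _ => hNf e)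
  · intro Ω _ r
    -- the identity in `R`
    have hcomp : ∀ c : R, ι (MvPolynomial.aeval P c) = Φ (MvPolynomial.map (Int.castRingHom ℚ) c) := by
      intro c
      have h1 : ι.comp (MvPolynomial.aeval P).toRingHom =
          Φ.comp (MvPolynomial.map (Int.castRingHom ℚ)) := by
        refine MvPolynomial.ringHom_ext (fun n => ?_) (fun j => ?_)
        · simp
        · have h2 : (MvPolynomial.aeval P).toRingHom (MvPolynomial.X j : R) = P j := by
            simp
          have h3 : MvPolynomial.map (Int.castRingHom ℚ) (MvPolynomial.X j : R) =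
              MvPolynomial.X j := MvPolynomial.map_X _ _
          change ι ((MvPolynomial.aeval P).toRingHom (MvPolynomial.X j : R)) =
            Φ (MvPolynomial.map (Int.castRingHom ℚ) (MvPolynomial.X j : R))
          rw [h2, h3, hΦX]
      exact congrArg (fun g : R →+* K => g c) h1
    have hK : (N : K) * ι (MvPolynomial.X i) ^ q.natDegree =
        ∑ e ∈ Finset.range q.natDegree,
          ι (MvPolynomial.aeval P (-(((N / Nf e : ℕ) : R) * cf e))) * ι (MvPolynomial.X i) ^ e := by
      have h1 := hqe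
      rw [Polynomial.eval₂_eq_sum_range, Finset.sum_range_succ, hq.coeff_natDegree, map_one,
        one_mul] at h1
      have h2 : ι (MvPolynomial.X i) ^ q.natDegree =
          -∑ e ∈ Finset.range q.natDegree, Φ (q.coeff e) * ι (MvPolynomial.X i) ^ e :=
        eq_neg_of_add_eq_zero_right h1
      rw [h2, mul_neg, Finset.mul_sum, ← Finset.sum_neg_distrib]
      refine Finset.sum_congr rfl (fun e he => ?_)
      have h3 : N / Nf e * Nf e = N := Nat.div_mul_cancel (Finset.dvd_prod_of_mem Nf he)
      have h4 : (N : K) = ((N / Nf e : ℕ) : K) * ((Nf e : ℕ) : K) := by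
        rw [← Nat.cast_mul, h3]
      have h5 : ι (MvPolynomial.aeval P (-(((N / Nf e : ℕ) : R) * cf e))) =
          -(((N / Nf e : ℕ) : K) * (((Nf e : ℕ) : K) * Φ (q.coeff e))) := by
        rw [hcomp, map_neg, map_neg, map_mul, map_mul, map_natCast, map_natCast, hcf, map_mul,
          map_natCast]
      rw [h5, h4]
      ring
    have hR : (N : R) * MvPolynomial.X i ^ q.natDegree =
        ∑ e ∈ Finset.range q.natDegree,
          MvPolynomial.aeval P (-(((N / Nf e : ℕ) : R) * cf e)) * MvPolynomial.X i ^ e := by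
      apply hι
      rw [map_mul, map_pow, map_natCast, map_sum, hK]
      refine Finset.sum_congr rfl (fun e _ => ?_)
      rw [map_mul, map_pow]
    have hev := congrArg (MvPolynomial.aeval (R := ℤ) r) hR
    rw [map_mul, map_pow, map_natCast, map_sum, MvPolynomial.aeval_X] at hev
    rw [hev]
    refine Finset.sum_congr rfl (fun e _ => ?_)
    rw [map_mul, map_pow, MvPolynomial.aeval_X]
    congr 1
    have h6 : ∀ c : R, MvPolynomial.aeval (R := ℤ) r (MvPolynomial.aeval P c) =
        MvPolynomial.aeval (fun j : Fin t => ∑ l, (w l : Ω) * r l ^ ((j : ℕ) + 1)) c := by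
      intro c
      have h7 : (MvPolynomial.aeval (R := ℤ) r).comp (MvPolynomial.aeval P) =
          MvPolynomial.aeval (fun j : Fin t => ∑ l, (w l : Ω) * r l ^ ((j : ℕ) + 1)) := by
        refine MvPolynomial.algHom_ext (fun j => ?_)
        rw [AlgHom.comp_apply, MvPolynomial.aeval_X, MvPolynomial.aeval_X]
        simp only [P]
        rw [map_sum]
        refine Finset.sum_congr rfl (fun l _ => ?_)
        rw [map_mul, map_pow, map_natCast, MvPolynomial.aeval_X]
      exact congrArg (fun g : R →ₐ[ℤ] Ω => g c) h7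
    exact h6 _

end Pool.Agent.H67.MU
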