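import Pool.Agent.H67.MU.Defs
import Pool.Agent.H67.MU.Coeff
import Pool.Agent.H67.MU.Weighted

/-!
# Project MU, MU-13: polynomials with few roots and given first coefficients
-/

set_option autoImplicit false

open Polynomial

namespace Pool.Agent.H67.MU

/-- Newton's identities for a multiset in a field. -/
theorem mu13_key {Ω : Type*} [Field Ω] (S : Multiset Ω) (k : ℕ) (hk : 0 < k) :
    (S.map (fun x => x ^ k)).sum =
      (-1) ^ (k + 1) * (k : Ω) * S.esymm k -
        ∑ a ∈ (Finset.HasAntidiagonal.antidiagonal k).filter (fun a => a.1 ∈ Set.Ioo 0 k),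
          (-1) ^ a.1 * S.esymm a.1 * (S.map (fun x => x ^ a.2)).sum := by
  classical
  have h1 := congrArg (MvPolynomial.aeval (fun x : S => (x : Ω)))
    (MvPolynomial.psum_eq_mul_esymm_sub_sum S.ToType Ω k hk)
  have h2 : ∀ j, MvPolynomial.aeval (fun x : S => (x : Ω))
      (MvPolynomial.esymm S.ToType Ω j) = S.esymm j := by
    intro j
    rw [MvPolynomial.aeval_esymm_eq_multiset_esymm, Multiset.map_univ_coe]
  have h3 : ∀ j, MvPolynomial.aeval (fun x : S => (x : Ω))
      (MvPolynomial.psum S.ToType Ω j) = (S.map (fun x => x ^ j)).sum := by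
    intro j
    rw [MvPolynomial.psum, map_sum]
    simp only [map_pow, MvPolynomial.aeval_X]
    rw [← Multiset.map_univ S (fun x => x ^ j)]
    rfl
  rw [h3, map_sub, map_mul, map_mul, map_pow, map_neg, map_one, map_natCast, h2, map_sum] at h1
  rw [h1]
  congr 1
  refine Finset.sum_congr rfl (fun a _ => ?_)
  rw [map_mul, map_mul, map_pow, map_neg, map_one, h2, h3]

/-- Two multisets with the same first elementary symmetric functions have the same first power
sums. -/
theorem mu13_newton {Ω : Type*} [Field Ω] (R R' : Multiset Ω) (t : ℕ)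
    (h : ∀ j, j ≤ t → R.esymm j = R'.esymm j) :
    ∀ j, 1 ≤ j → j ≤ t → (R.map (fun x => x ^ j)).sum = (R'.map (fun x => x ^ j)).sum := by
  intro j
  induction j using Nat.strong_induction_on with
  | _ j ih =>
    intro h1 hj
    rw [mu13_key R j h1, mu13_key R' j h1, h j hj]
    congr 1
    refine Finset.sum_congr rfl (fun a ha => ?_)
    rw [Finset.mem_filter, Finset.HasAntidiagonal.mem_antidiagonal, Set.mem_Ioo] at ha
    rw [h a.1 (by omega), ih a.2 (by omega) (by omega) (by omega)]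

/-- Few solutions of the equations given by the weighted power sums. -/
theorem mu13_count (l : ℕ) (m : Fin l → ℕ) (hm : ∀ i, 0 < m i) : ∃ N D : ℕ, 0 < N ∧
    ∀ (Ω : Type) [Field Ω], (N : Ω) ≠ 0 → ∀ p : Fin l → Ω,
      Set.Finite {r : Fin l → Ω | ∀ j : Fin l, ∑ i, (m i : Ω) * r i ^ ((j : ℕ) + 1) = p j} ∧
      Set.ncard {r : Fin l → Ω | ∀ j : Fin l, ∑ i, (m i : Ω) * r i ^ ((j : ℕ) + 1) = p j} ≤ D := by
  classical
  choose N d c hN hd hrel using fun i => exists_relation l m hm i
  refine ⟨∏ i, N i, ∏ i, d i, Finset.prod_pos (fun i _ => hN i), ?_⟩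
  intro Ω _ hNΩ p
  have hNi : ∀ i, (N i : Ω) ≠ 0 := by
    intro i hi
    apply hNΩ
    rw [Nat.cast_prod]
    exact Finset.prod_eq_zero (Finset.mem_univ i) hi
  set g : Fin l → Polynomial Ω := fun i => C (N i : Ω) * X ^ (d i) -
    ∑ e ∈ Finset.range (d i), C (MvPolynomial.aeval p (c i e)) * X ^ e with hg
  have hco : ∀ i, (g i).coeff (d i) = (N i : Ω) := by
    intro i
    simp only [hg, coeff_sub, coeff_C_mul, coeff_X_pow, if_true, mul_one, finsetSum_coeff]
    rw [Finset.sum_eq_zero, sub_zero]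
    intro e he
    rw [if_neg, mul_zero]
    rw [Finset.mem_range] at he
    omega
  have hg0 : ∀ i, g i ≠ 0 := by
    intro i h0
    have := hco i
    rw [h0, coeff_zero] at this
    exact hNi i this.symm
  have hdeg : ∀ i, (g i).natDegree ≤ d i := by
    intro i
    refine (natDegree_sub_le _ _).trans (max_le (natDegree_C_mul_X_pow_le (N i : Ω) (d i)) ?_)
    refine natDegree_sum_le_of_forall_le _ _ (fun e he => ?_)
    rw [Finset.mem_range] at he
    exact (natDegree_C_mul_X_pow_le _ _).trans he.le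
  have hsub : {r : Fin l → Ω | ∀ j : Fin l, ∑ i, (m i : Ω) * r i ^ ((j : ℕ) + 1) = p j} ⊆
      (Fintype.piFinset (fun i => (g i).roots.toFinset) : Set (Fin l → Ω)) := by
    intro r hr
    rw [Set.mem_ofPred_eq] at hr
    rw [Finset.mem_coe, Fintype.mem_piFinset]
    intro i
    rw [Multiset.mem_toFinset, mem_roots (hg0 i), IsRoot.def]
    have h1 := hrel i Ω r
    have h2 : (fun j : Fin l => ∑ i, (m i : Ω) * r i ^ ((j : ℕ) + 1)) = p := funext hr
    rw [h2] at h1
    simp only [hg, eval_sub, eval_mul, eval_C, eval_pow, eval_X, eval_finsetSum]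
    rw [h1, sub_self]
  refine ⟨Set.Finite.subset (Finset.finite_toSet _) hsub, ?_⟩
  refine (Set.ncard_le_ncard hsub (Finset.finite_toSet _)).trans ?_
  rw [Set.ncard_coe_finset, Fintype.card_piFinset]
  refine Finset.prod_le_prod' (fun i _ => ?_)
  exact (Multiset.toFinset_card_le _).trans ((card_roots' _).trans (hdeg i))

/-- The power sums of the roots of a product of powers. -/
theorem mu13_psum {Ω : Type*} [Field Ω] {l : ℕ} (r : Fin l → Ω) (m : Fin l → ℕ) (j : ℕ) :
    ((∏ i, (X - C (r i)) ^ (m i)).roots.map (fun x => x ^ j)).sum =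
      ∑ i, (m i : Ω) * r i ^ j := by
  classical
  rw [roots_prod _ _ (Finset.prod_ne_zero_iff.mpr
    (fun i _ => pow_ne_zero _ (X_sub_C_ne_zero _))), Multiset.map_bind, Multiset.sum_bind]
  refine (congrArg Multiset.sum (Multiset.map_congr rfl (fun i _ => ?_))).trans
    (Finset.sum_eq_multiset_sum _ _).symm
  rw [roots_pow, roots_X_sub_C, Multiset.map_nsmul, Multiset.sum_nsmul, Multiset.map_singleton,
    Multiset.sum_singleton, nsmul_eq_mul]

/-- The first coefficients determine the first elementary symmetric functions of the roots. -/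
theorem mu13_esymm {Ω : Type*} [Field Ω] [IsAlgClosed Ω] {n : ℕ} (w w' : Fin n → Ω) (t : ℕ)
    (ht : t ≤ n) (h : ∀ j : Fin n, (j : ℕ) < t → w j = w' j) :
    ∀ j, j ≤ t → (monicOf w).roots.esymm j = (monicOf w').roots.esymm j := by
  have key : ∀ (v : Fin n → Ω) (j : Fin n), v j = (-1) ^ ((j : ℕ) + 1) *
      (monicOf v).roots.esymm ((j : ℕ) + 1) := by
    intro v j
    obtain ⟨h1, h2⟩ := monicOf_monic v
    have hj := j.2
    have h3 := coeff_eq_esymm_roots_of_card
      (splits_iff_card_roots.mp (IsAlgClosed.splits (monicOf v)))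
      (k := n - 1 - (j : ℕ)) (by rw [h2]; omega)
    rw [monicOf_coeff, h1.leadingCoeff, one_mul, h2] at h3
    have h4 : n - (n - 1 - (j : ℕ)) = (j : ℕ) + 1 := by omega
    rw [h4] at h3
    exact h3
  intro j hj
  rcases Nat.eq_zero_or_pos j with rfl | hpos
  · rw [Multiset.esymm, Multiset.esymm, Multiset.powersetCard_zero_left,
      Multiset.powersetCard_zero_left]
  · have h1 := key w ⟨j - 1, by omega⟩
    have h2 := key w' ⟨j - 1, by omega⟩
    rw [h ⟨j - 1, by omega⟩ (show j - 1 < t by omega), h2] at h1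
    have h3 : j - 1 + 1 = j := by omega
    simp only [h3] at h1
    have h4 : ((-1 : Ω) ^ j) ≠ 0 := pow_ne_zero _ (neg_ne_zero.mpr one_ne_zero)
    exact (mul_left_cancel₀ h4 h1).symm

theorem exists_tail_bound (n : ℕ) : ∃ N C : ℕ, 0 < N ∧ TailBound n N C := by
  classical
  have hex : ∀ x : (Σ l : Fin (n + 1), {m : Fin (l : ℕ) → Fin (n + 1) // ∀ i, 0 < (m i : ℕ)}),
      ∃ N D : ℕ, 0 < N ∧
        ∀ (Ω : Type) [Field Ω], (N : Ω) ≠ 0 → ∀ p : Fin (x.1 : ℕ) → Ω,
          Set.Finite {r : Fin (x.1 : ℕ) → Ω |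
            ∀ j : Fin (x.1 : ℕ), ∑ i, ((x.2.1 i : ℕ) : Ω) * r i ^ ((j : ℕ) + 1) = p j} ∧
          Set.ncard {r : Fin (x.1 : ℕ) → Ω |
            ∀ j : Fin (x.1 : ℕ), ∑ i, ((x.2.1 i : ℕ) : Ω) * r i ^ ((j : ℕ) + 1) = p j} ≤ D :=
    fun x => mu13_count x.1 (fun i => (x.2.1 i : ℕ)) x.2.2
  choose N D hN hND using hex
  refine ⟨∏ x, N x, ∑ x, D x, Finset.prod_pos (fun x _ => hN x), ?_⟩
  intro Ω _ _ hNΩ t ht q
  have hNx : ∀ x, (N x : Ω) ≠ 0 := by
    intro x hx
    apply hNΩ
    rw [Nat.cast_prod]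
    exact Finset.prod_eq_zero (Finset.mem_univ x) hx
  set B : (Σ l : Fin (n + 1), {m : Fin (l : ℕ) → Fin (n + 1) // ∀ i, 0 < (m i : ℕ)}) →
      Set (Fin n → Ω) := fun x => {w : Fin n → Ω | (x.1 : ℕ) ≤ t ∧
        (∀ j : Fin n, (j : ℕ) < t → w j = q j) ∧
        ∃ r : Fin (x.1 : ℕ) → Ω, monicOf w = ∏ i, (X - C (r i)) ^ (x.2.1 i : ℕ)} with hB
  have hBx : ∀ x, (B x).Finite ∧ (B x).ncard ≤ D x := by
    intro x
    rcases Set.eq_empty_or_nonempty (B x) with h0 | ⟨w0, hl0, hw0, r0, hr0⟩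
    · rw [h0]
      simp
    · obtain ⟨hfin, hcard⟩ := hND x Ω (hNx x) (fun j => ∑ i, ((x.2.1 i : ℕ) : Ω) *
        r0 i ^ ((j : ℕ) + 1))
      set T := {r : Fin (x.1 : ℕ) → Ω | ∀ j : Fin (x.1 : ℕ),
        ∑ i, ((x.2.1 i : ℕ) : Ω) * r i ^ ((j : ℕ) + 1) =
          ∑ i, ((x.2.1 i : ℕ) : Ω) * r0 i ^ ((j : ℕ) + 1)} with hT
      have hsub : B x ⊆ (fun r : Fin (x.1 : ℕ) → Ω => fun j : Fin n =>
          (∏ i, (X - C (r i)) ^ (x.2.1 i : ℕ)).coeff (n - 1 - (j : ℕ))) '' T := by
        intro w hw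
        obtain ⟨hl, hw, r, hr⟩ := hw
        refine ⟨r, ?_, ?_⟩
        · intro j
          have hj := j.2
          have h1 := mu13_newton (monicOf w).roots (monicOf w0).roots t
            (mu13_esymm w w0 t ht (fun i hi => (hw i hi).trans (hw0 i hi).symm))
            ((j : ℕ) + 1) (by omega) (by omega)
          rw [hr, hr0, mu13_psum, mu13_psum] at h1
          exact h1
        · funext j
          simp only
          rw [← hr, monicOf_coeff]
      exact ⟨(hfin.image _).subset hsub, (Set.ncard_le_ncard hsub (hfin.image _)).trans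
        ((Set.ncard_image_le hfin).trans hcard)⟩
  have hsub : {w : Fin n → Ω | (∀ j : Fin n, (j : ℕ) < t → w j = q j) ∧
      FewRoots (monicOf w) t} ⊆ ⋃ x, B x := by
    intro w hw
    obtain ⟨hw, S, hS, hSr⟩ := hw
    obtain ⟨h1, h2⟩ := monicOf_monic w
    set R := (monicOf w).roots with hR
    have hcard : Multiset.card R = n := by
      rw [hR, splits_iff_card_roots.mp (IsAlgClosed.splits (monicOf w)), h2]
    have hRS : R.toFinset ⊆ S := by
      intro x hx
      rw [Multiset.mem_toFinset, hR, mem_roots h1.ne_zero] at hx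
      exact hSr x hx
    have hl : R.toFinset.card ≤ t := (Finset.card_le_card hRS).trans hS
    set l := R.toFinset.card with hl'
    set e : Fin l ≃ R.toFinset := R.toFinset.equivFin.symm with he
    have hcnt : ∀ i : Fin l, 0 < R.count ((e i : R.toFinset) : Ω) := by
      intro i
      rw [Multiset.count_pos]
      exact Multiset.mem_toFinset.mp (e i).2
    have hcn : ∀ i : Fin l, R.count ((e i : R.toFinset) : Ω) < n + 1 := by
      intro i
      have := Multiset.count_le_card ((e i : R.toFinset) : Ω) R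
      omega
    rw [Set.mem_iUnion]
    refine ⟨⟨⟨l, by omega⟩, ⟨fun i => ⟨R.count ((e i : R.toFinset) : Ω), hcn i⟩, hcnt⟩⟩,
      hl, hw, fun i => ((e i : R.toFinset) : Ω), ?_⟩
    have h3 : monicOf w = (R.map (fun a => X - C a)).prod := by
      rw [hR]
      exact (IsAlgClosed.splits (monicOf w)).eq_prod_roots_of_monic h1
    rw [h3, Finset.prod_multiset_map_count]
    simp only
    rw [← Finset.prod_coe_sort]
    exact (Equiv.prod_comp e (fun a : R.toFinset => (X - C (a : Ω)) ^ (R.count (a : Ω)))).symm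
  refine ⟨(Set.finite_iUnion (fun x => (hBx x).1)).subset hsub, ?_⟩
  refine (Set.ncard_le_ncard hsub (Set.finite_iUnion (fun x => (hBx x).1))).trans ?_
  refine (Set.ncard_iUnion_le_of_fintype B).trans ?_
  exact Finset.sum_le_sum (fun x _ => (hBx x).2)

end Pool.Agent.H67.MU
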