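import Pool.Agent.H67.MU.Disc
import Pool.Agent.H67.MU.Exp
import Pool.Agent.H67.MU.Roots
import Pool.Agent.H67.MU.Ind
import Pool.Agent.H67.MU.Prim
import Pool.Agent.H67.MU.Small
import Pool.Agent.H67.MU.Coeff
import Pool.Agent.H67.MU.Tail

set_option autoImplicit false

open Polynomial IsDedekindDomain NumberField UniqueFactorizationMonoid

namespace Pool.Agent.H67.MU

theorem mu17_three_le {n : ℕ} {G : Subgroup (Equiv.Perm (Fin n))}
    (h : 2 ≤ groupInd G) : 3 ≤ n := by
  classical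
  have hne : {j | ∃ g ∈ G, g ≠ 1 ∧ permInd g = j}.Nonempty := by
    by_contra h0
    rw [Set.not_nonempty_iff_eq_empty] at h0
    rw [groupInd, h0, Nat.sInf_empty] at h
    omega
  obtain ⟨g, -, hg1, hg2⟩ := Nat.sInf_mem hne
  rw [← groupInd] at hg2
  rw [← hg2, permInd] at h
  have h1 : 0 < Multiset.card g.cycleType := by
    rw [Multiset.card_pos]
    intro h3
    exact hg1 (Equiv.Perm.cycleType_eq_zero.mp h3)
  have h2 : g.support.card ≤ n := by
    simpa using Finset.card_le_univ g.support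
  omega

theorem mu17_rootsModLe_mono {R : Type} [CommRing R] {p : Ideal R} {f : R[X]} {s t : ℕ}
    (h : RootsModLe p f s) (hst : s ≤ t) : RootsModLe p f t := by
  intro Ω _ ψ hψ
  obtain ⟨S, hS, hS'⟩ := h Ω ψ hψ
  exact ⟨S, hS.trans hst, hS'⟩

theorem mu17_bdd_mono {k : Type} [Field k] [NumberField k] {a : 𝓞 k} {s t : ℝ}
    (h : Bdd s a) (hst : s ≤ t) : Bdd t a := fun φ => (h φ).trans hst

theorem mu17_tail_mul {n N C : ℕ} (m : ℕ) (h : TailBound n N C) : TailBound n (N * m) C := by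
  intro Ω _ _ hN
  refine h Ω fun h0 => hN ?_
  push_cast
  rw [h0, zero_mul]

/-- the discriminant ideals that occur -/
def mu17_D (k : Type) [Field k] [NumberField k] (N E r : ℕ) (B : ℝ) : Set (Ideal (𝓞 k)) :=
  {I : Ideal (𝓞 k) | I ≠ ⊥ ∧ (Ideal.absNorm I : ℝ) ≤ B ∧
        ∀ p : Ideal (𝓞 k), p.IsPrime → p ≠ ⊥ → ((N : 𝓞 k) ∈ p → vexp p I ≤ E) ∧
          ((N : 𝓞 k) ∉ p → 0 < vexp p I → r ≤ vexp p I)}

/-- the admissible discriminant ideals satisfy the exponent conditions -/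
theorem mu17_exponents {k : Type} [Field k] [NumberField k] {n : ℕ}
    {G : Subgroup (Equiv.Perm (Fin n))} {M : IntermediateField k (AlgebraicClosure k)}
    [NumberField M] (hM : HasGroup G M) (hn : Module.finrank k M = n) (N E : ℕ)
    (hN : n.factorial ∣ N)
    (hE : ∀ (K : Type) [Field K] [NumberField K] [Algebra k K], Module.finrank k K = n →
      ∀ p : Ideal (𝓞 k), p.IsPrime → p ≠ ⊥ → (N : 𝓞 k) ∈ p → vexp p (relDisc k K) ≤ E)
    (p : Ideal (𝓞 k)) (hp : p.IsPrime) (hp0 : p ≠ ⊥) :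
    ((N : 𝓞 k) ∈ p → vexp p (relDisc k M) ≤ E) ∧
    ((N : 𝓞 k) ∉ p → resDeg k M p ≤ n - vexp p (relDisc k M) ∧
      vexp p (relDisc k M) + 1 ≤ n ∧
      (0 < vexp p (relDisc k M) → groupInd G ≤ vexp p (relDisc k M))) := by
  refine ⟨fun h => hE M hn p hp hp0 h, fun h => ?_⟩
  have hj : ∀ j : ℕ, 1 ≤ j → j ≤ Module.finrank k M → (j : 𝓞 k) ∉ p := by
    intro j hj1 hj2 hjp
    refine h ?_
    rw [hn] at hj2
    obtain ⟨c, hc⟩ := (Nat.dvd_factorial hj1 hj2).trans hN
    rw [hc, Nat.cast_mul]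
    exact Ideal.mul_mem_right _ _ hjp
  have h1 := vexp_add_le k M p hp0 hj
  have h2 := resDeg_pos k M p hp0
  have h3 := le_vexp_add k M p hp0
  rw [hn] at h1 h3
  refine ⟨by omega, by omega, fun h4 => ?_⟩
  have h5 := resDeg_add_groupInd_le hM hn p hp0 h4
  omega

/-- the small generator, its coefficient vector is admissible -/
theorem mu17_vector (k : Type) [Field k] [NumberField k] (n : ℕ)
    (G : Subgroup (Equiv.Perm (Fin n))) (hG : MulAction.IsPreprimitive G (Fin n))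
    (hn3 : 3 ≤ n) (N E : ℕ) (hN : n.factorial ∣ N)
    (hE : ∀ (K : Type) [Field K] [NumberField K] [Algebra k K], Module.finrank k K = n →
      ∀ p : Ideal (𝓞 k), p.IsPrime → p ≠ ⊥ → (N : 𝓞 k) ∈ p → vexp p (relDisc k K) ≤ E) :
    ∃ c : ℝ, 1 ≤ c ∧ ∀ (M : IntermediateField k (AlgebraicClosure k)) [NumberField M],
      HasGroup G M → Module.finrank k M = n → ∃ a ∈ adm k n N c (relDisc k M),
        ∃ α : 𝓞 M, (minpoly k (α : M)).natDegree = n ∧ minpoly (𝓞 k) α = monicOf a := by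
  obtain ⟨C, hC, hsm⟩ := exists_small k n (by omega)
  set e : ℝ := 1 / (2 * Module.finrank ℚ k * (n - 1) : ℝ) with he
  have he0 : 0 ≤ e := by
    rw [he]
    have : (0 : ℝ) ≤ n - 1 := by
      have : (3 : ℝ) ≤ n := by exact_mod_cast hn3
      linarith
    positivity
  set d : ℝ := ((discr k).natAbs : ℝ) ^ n with hd
  have hd1 : 1 ≤ d := by
    rw [hd]
    refine one_le_pow₀ ?_
    have : (discr k).natAbs ≠ 0 := by simpa using discr_ne_zero k
    exact_mod_cast Nat.one_le_iff_ne_zero.mpr this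
  set c1 : ℝ := C * d ^ e with hc1
  have hc11 : 1 ≤ c1 := by
    rw [hc1]
    have := Real.one_le_rpow hd1 he0
    nlinarith
  refine ⟨2 ^ n * c1 ^ n, one_le_mul_of_one_le_of_one_le (one_le_pow₀ (by norm_num))
    (one_le_pow₀ hc11), ?_⟩
  intro M _ hM hMn
  obtain ⟨α, hα1, hα2, hα3⟩ := hsm M hMn
  have h1 : (minpoly k (α : M)).natDegree = n := natDegree_minpoly_of_primitive hG hM hMn _ hα2
  have h2 : (minpoly (𝓞 k) α).natDegree = n := by rw [natDegree_minpoly_int, h1]
  have h3 : (minpoly (𝓞 k) α).Monic := minpoly.monic (RingOfIntegers.isIntegral α |>.tower_top)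
  have h4 := monicOf_eq h3 h2
  refine ⟨fun j : Fin n => (minpoly (𝓞 k) α).coeff (n - 1 - (j : ℕ)), ?_, α, h1, h4.symm⟩
  · refine ⟨fun j hj => ?_, fun j => ?_, fun p hp hp0 hpN => ?_⟩
    · have h5 := coeff_trace_zero α (by rw [h1, hMn]) hα1
      rw [hMn] at h5
      simpa [hj] using h5
    · have hj := j.2
      have h5 := coeff_bdd (k := k) α _ (by positivity) hα3 (n - 1 - (j : ℕ)) (by omega)
      refine mu17_bdd_mono h5 ?_
      have h6 : (|discr M| : ℝ) = (Ideal.absNorm (relDisc k M) : ℝ) * d := by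
        have := natAbs_discr k M
        rw [hMn] at this
        rw [hd, ← Int.cast_abs, Int.abs_eq_natAbs, this, Int.cast_natCast, Nat.cast_mul,
          Nat.cast_pow]
      rw [h2]
      have h7 : n - (n - 1 - (j : ℕ)) = (j : ℕ) + 1 := by omega
      rw [h7, h6, Real.mul_rpow (by positivity) (by positivity)]
      set H : ℝ := (Ideal.absNorm (relDisc k M) : ℝ) ^ e with hH
      have h8 : C * (H * d ^ e) = c1 * H := by rw [hc1]; ring
      rw [h8, mul_pow, ← mul_assoc]
      have hH0 : 0 ≤ H := by positivity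
      refine mul_le_mul_of_nonneg_right ?_ (by positivity)
      exact mul_le_mul_of_nonneg_left (pow_le_pow_right₀ hc11 (by omega)) (by positivity)
    · rw [h4]
      have h5 := (mu17_exponents hM hMn N E hN hE p hp hp0).2 hpN
      exact mu17_rootsModLe_mono (rootsModLe k M p hp0 α) h5.1

end Pool.Agent.H67.MU
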